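import Mathlib

/-!
# Theorem PT, layer B: the closed convex cone generated by a set, as a bipolar

`Bip E` is the set of all `z` on which every real linear form that is nonnegative on `E` is
nonnegative. The main point (`Bip.realPull`): a homogeneous polynomial map that maps the points of a
subgroup `L` into `Bip E` maps the real span of `L` into `Bip E`.
-/

set_option autoImplicit false

namespace Pool.Agent.Lib.MP_361a6f_ag.FL.PT

/-- the bipolar of a set in a real vector space -/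
def Bip {A : Type*} [AddCommGroup A] [Module ℝ A] (E : Set A) : Set A :=
  {z | ∀ f : A →ₗ[ℝ] ℝ, (∀ e ∈ E, 0 ≤ f e) → 0 ≤ f z}

section basic

variable {A B C : Type*} [AddCommGroup A] [Module ℝ A] [AddCommGroup B] [Module ℝ B]
  [AddCommGroup C] [Module ℝ C] {E : Set A} {E' : Set B} {E'' : Set C}

theorem Bip.of_mem {x : A} (hx : x ∈ E) : x ∈ Bip E := fun _ hf => hf x hx

theorem Bip.zero : (0 : A) ∈ Bip E := fun f _ => by simp

theorem Bip.add {x y : A} (hx : x ∈ Bip E) (hy : y ∈ Bip E) : x + y ∈ Bip E := fun f hf => by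
  rw [map_add]; exact add_nonneg (hx f hf) (hy f hf)

theorem Bip.smul {r : ℝ} (hr : 0 ≤ r) {x : A} (hx : x ∈ Bip E) : r • x ∈ Bip E := fun f hf => by
  rw [map_smul, smul_eq_mul]; exact mul_nonneg hr (hx f hf)

theorem Bip.sum {ι : Type*} (s : Finset ι) (x : ι → A) (hx : ∀ i ∈ s, x i ∈ Bip E) :
    ∑ i ∈ s, x i ∈ Bip E := fun f hf => by
  rw [map_sum]; exact Finset.sum_nonneg fun i hi => hx i hi f hf

/-- the bipolar of a set in the bipolar -/
theorem Bip.le {F : Set A} (h : ∀ x ∈ F, x ∈ Bip E) {x : A} (hx : x ∈ Bip F) : x ∈ Bip E :=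
  fun f hf => hx f fun e he => h e he f hf

theorem Bip.mono {F : Set A} (h : F ⊆ E) : Bip F ⊆ Bip E :=
  fun _ hx => Bip.le (fun _ hy => Bip.of_mem (h hy)) hx

/-- linear maps -/
theorem Bip.map (T : A →ₗ[ℝ] B) (h : ∀ e ∈ E, T e ∈ Bip E') {x : A} (hx : x ∈ Bip E) :
    T x ∈ Bip E' := fun f hf => hx (f ∘ₗ T) fun e he => h e he f hf

/-- bilinear maps -/
theorem Bip.map₂ (μ : A →ₗ[ℝ] B →ₗ[ℝ] C) (h : ∀ x ∈ E, ∀ y ∈ E', μ x y ∈ Bip E'') {x : A} {y : B}
    (hx : x ∈ Bip E) (hy : y ∈ Bip E') : μ x y ∈ Bip E'' := by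
  intro f hf
  have h1 : ∀ x ∈ E, 0 ≤ f (μ x y) := fun x hx' =>
    hy (f ∘ₗ μ x) fun y' hy' => h x hx' y' hy' f hf
  exact hx (f ∘ₗ (μ.flip y)) fun x hx' => h1 x hx'

/-- a linear form that is nonnegative on the set -/
theorem Bip.nonneg (f : A →ₗ[ℝ] ℝ) (h : ∀ e ∈ E, 0 ≤ f e) {x : A} (hx : x ∈ Bip E) : 0 ≤ f x :=
  hx f h

/-- a set closed under limits along segments: if `x + ε y` is in the bipolar for all small `ε > 0`
then so is `x`. -/
theorem Bip.limit {x y : A} (h : ∀ ε : ℝ, 0 < ε → x + ε • y ∈ Bip E) : x ∈ Bip E := by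
  intro f hf
  refine le_of_forall_pos_le_add fun δ hδ => ?_
  by_cases hy : f y ≤ 0
  · have h1 := h 1 one_pos f hf
    rw [map_add, map_smul, smul_eq_mul, one_mul] at h1
    linarith
  · push Not at hy
    have h1 := h (δ / f y) (div_pos hδ hy) f hf
    rw [map_add, map_smul, smul_eq_mul, div_mul_cancel₀ _ hy.ne'] at h1
    exact h1

end basic

section ring

variable {R : Type*} [Ring R] [Algebra ℝ R]

/-- products -/
theorem Bip.mul {E E' E'' : Set R} (h : ∀ x ∈ E, ∀ y ∈ E', x * y ∈ Bip E'') {x y : R}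
    (hx : x ∈ Bip E) (hy : y ∈ Bip E') : x * y ∈ Bip E'' :=
  Bip.map₂ (LinearMap.mul ℝ R) (fun x hx y hy => h x hx y hy) hx hy

end ring

section real

variable {A M : Type*} [AddCommGroup A] [Module ℝ A] [AddCommGroup M] [Module ℝ M] {E : Set A}

/-- A homogeneous polynomial map that maps a subgroup to the bipolar maps its real span to the
bipolar. -/
theorem Bip.realPull {d : ℕ} (L : AddSubgroup M) (F : MultilinearMap ℝ (fun _ : Fin d => M) A)
    (h : ∀ m ∈ L, F (fun _ => m) ∈ Bip E) :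
    ∀ m ∈ Submodule.span ℝ (L : Set M), F (fun _ => m) ∈ Bip E := by
  intro m hm f hf
  obtain ⟨n, r, g, rfl⟩ : ∃ (n : ℕ) (r : Fin n → ℝ) (g : Fin n → L),
      ∑ i, r i • ((g i : M)) = m := by
    obtain ⟨n, r, g, h⟩ := Submodule.mem_span_set'.1 hm
    exact ⟨n, r, g, h⟩
  -- the value as a function of the coefficients
  set φ : (Fin n → ℝ) → ℝ := fun r => f (F fun _ => ∑ i, r i • ((g i : M))) with hφ
  have hcont : Continuous φ := by
    have h1 : φ = fun r => ∑ σ : Fin d → Fin n, (∏ j, r (σ j)) * f (F fun j => ((g (σ j) : M))) := by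
      funext r
      simp only [hφ]
      rw [MultilinearMap.map_sum, map_sum]
      refine Finset.sum_congr rfl fun σ _ => ?_
      rw [MultilinearMap.map_smul_univ, map_smul, smul_eq_mul]
    rw [h1]
    fun_prop
  -- rational coefficients
  have hrat : ∀ q : Fin n → ℚ, 0 ≤ φ fun i => (q i : ℝ) := by
    intro q
    obtain ⟨N, hN, z, hz⟩ : ∃ (N : ℕ) (_ : 0 < N) (z : Fin n → ℤ), ∀ i, (q i : ℝ) * N = z i := by
      refine ⟨∏ i, (q i).den, Finset.prod_pos fun i _ => (q i).den_pos,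
        fun i => (q i).num * ∏ j ∈ Finset.univ.erase i, ((q j).den : ℤ), fun i => ?_⟩
      rw [← Finset.mul_prod_erase _ _ (Finset.mem_univ i)]
      push_cast
      rw [← mul_assoc]
      congr 1
      exact_mod_cast Rat.mul_den_eq_num (q i)
    have hN' : (0 : ℝ) < N := by exact_mod_cast hN
    have h1 : (∑ i, (q i : ℝ) • ((g i : M))) =
        (N : ℝ)⁻¹ • ∑ i, (z i) • ((g i : M)) := by
      rw [Finset.smul_sum]
      refine Finset.sum_congr rfl fun i _ => ?_
      rw [← Int.cast_smul_eq_zsmul ℝ, smul_smul]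
      congr 1
      rw [← hz i]
      field_simp
    have h2 : (∑ i, (z i) • ((g i : M))) ∈ L :=
      AddSubgroup.sum_mem _ fun i _ => AddSubgroup.zsmul_mem _ (g i).2 _
    have h3 : φ (fun i => (q i : ℝ)) =
        ((N : ℝ)⁻¹) ^ d * f (F fun _ => ∑ i, (z i) • ((g i : M))) := by
      simp only [hφ]
      rw [h1, MultilinearMap.map_smul_univ (f := F) (c := fun _ : Fin d => (N : ℝ)⁻¹)
        (m := fun _ => ∑ i, (z i) • ((g i : M))), map_smul, smul_eq_mul]
      simp
    rw [h3]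
    exact mul_nonneg (pow_nonneg (inv_nonneg.2 hN'.le) _) (h _ h2 f hf)
  -- density
  have hd : DenseRange (fun q : Fin n → ℚ => fun i => ((q i : ℚ) : ℝ)) := by
    have := DenseRange.piMap (ι := Fin n) (f := fun _ : Fin n => ((↑) : ℚ → ℝ))
      (fun _ => Rat.denseRange_cast)
    exact this
  have hclosed : IsClosed {r : Fin n → ℝ | 0 ≤ φ r} := isClosed_le continuous_const hcont
  have : ∀ r, r ∈ {r : Fin n → ℝ | 0 ≤ φ r} :=
    fun r => hd.induction_on (p := fun r => r ∈ {r : Fin n → ℝ | 0 ≤ φ r}) r hclosed hrat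
  exact this r

/-- The same for a set closed under sums that contains with every element a negative multiple. -/
theorem Bip.realPull' {d : ℕ} (L : Set M) (h0 : (0 : M) ∈ L) (hadd : ∀ x ∈ L, ∀ y ∈ L, x + y ∈ L)
    (hneg : ∀ x ∈ L, ∃ N : ℕ, 0 < N ∧ -(N • x) ∈ L)
    (F : MultilinearMap ℝ (fun _ : Fin d => M) A) (h : ∀ m ∈ L, F (fun _ => m) ∈ Bip E) :
    ∀ m ∈ Submodule.span ℝ L, F (fun _ => m) ∈ Bip E := by
  have hmul : ∀ (N : ℕ), ∀ x ∈ L, N • x ∈ L := by
    intro N x hx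
    induction N with
    | zero => simpa using h0
    | succ N ih => rw [succ_nsmul]; exact hadd _ ih _ hx
  let L' : AddSubgroup M :=
    { carrier := {x | ∃ N : ℕ, 0 < N ∧ N • x ∈ L}
      zero_mem' := ⟨1, one_pos, by simpa using h0⟩
      add_mem' := by
        rintro x y ⟨N, hN, hx⟩ ⟨N', hN', hy⟩
        refine ⟨N * N', Nat.mul_pos hN hN', ?_⟩
        rw [nsmul_add]
        refine hadd _ ?_ _ ?_
        · rw [mul_comm, mul_nsmul']
          exact hmul _ _ hx
        · rw [mul_nsmul']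
          exact hmul _ _ hy
      neg_mem' := by
        rintro x ⟨N, hN, hx⟩
        obtain ⟨N', hN', hy⟩ := hneg _ hx
        refine ⟨N' * N, Nat.mul_pos hN' hN, ?_⟩
        rw [smul_neg, mul_nsmul']
        exact hy }
  have hL : L ⊆ (L' : Set M) := fun x hx => ⟨1, one_pos, by simpa using hx⟩
  have key := Bip.realPull (E := E) L' F (by
    rintro m ⟨N, hN, hm⟩
    have hN' : (0 : ℝ) < N := by exact_mod_cast hN
    have h1 : m = (N : ℝ)⁻¹ • (N • m) := by
      rw [← Nat.cast_smul_eq_nsmul ℝ, smul_smul, inv_mul_cancel₀ hN'.ne', one_smul]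
    have h2 : F (fun _ => m) = ((N : ℝ)⁻¹) ^ d • F (fun _ => N • m) := by
      conv_lhs => rw [h1]
      rw [MultilinearMap.map_smul_univ (f := F) (c := fun _ : Fin d => (N : ℝ)⁻¹)
        (m := fun _ => N • m)]
      simp
    rw [h2]
    exact Bip.smul (pow_nonneg (inv_nonneg.2 hN'.le) _) (h _ hm))
  exact fun m hm => key m (Submodule.span_mono hL hm)

end real

section letters

variable {R M κ : Type*} [Ring R] [Algebra ℂ R] [Fintype κ] [AddCommGroup M] [Module ℝ M]

/-- a form of degree `d` in letters, with the letters replaced by `x` -/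
noncomputable def form {d : ℕ} (c : (Fin d → κ) → ℂ) (x : κ → R) : R :=
  ∑ w : Fin d → κ, c w • (List.ofFn fun j => x (w j)).prod

/-- the multilinear map of a form -/
noncomputable def formM {d : ℕ} (c : (Fin d → κ) → ℂ) (T : M →ₗ[ℝ] (κ → R)) :
    MultilinearMap ℝ (fun _ : Fin d => M) R :=
  ∑ w : Fin d → κ, c w •
    (MultilinearMap.mkPiAlgebraFin ℝ d R).compLinearMap
      (fun j => (LinearMap.proj (w j) : (κ → R) →ₗ[ℝ] R) ∘ₗ T)

theorem formM_apply {d : ℕ} (c : (Fin d → κ) → ℂ) (T : M →ₗ[ℝ] (κ → R)) (m : M) :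
    formM c T (fun _ => m) = form c (T m) := by
  simp only [formM, form, _root_.sum_apply, _root_.smul_apply,
    MultilinearMap.compLinearMap_apply, MultilinearMap.mkPiAlgebraFin_apply]
  rfl

/-- Real pull-backs of forms. -/
theorem Bip.form {E : Set R} {d : ℕ} (c : (Fin d → κ) → ℂ) (T : M →ₗ[ℝ] (κ → R)) (L : Set M)
    (h0 : (0 : M) ∈ L) (hadd : ∀ x ∈ L, ∀ y ∈ L, x + y ∈ L)
    (hneg : ∀ x ∈ L, ∃ N : ℕ, 0 < N ∧ -(N • x) ∈ L)
    (h : ∀ m ∈ L, PT.form c (T m) ∈ Bip E) :
    ∀ m ∈ Submodule.span ℝ L, PT.form c (T m) ∈ Bip E := by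
  intro m hm
  rw [← formM_apply]
  exact Bip.realPull' L h0 hadd hneg (formM c T) (fun m hm => by rw [formM_apply]; exact h m hm)
    m hm

/-- an algebra homomorphism replaces the letters -/
theorem map_form {S : Type*} [Ring S] [Algebra ℂ S] {d : ℕ} (c : (Fin d → κ) → ℂ) (x : κ → S)
    (φ : S →ₐ[ℂ] R) : φ (PT.form c x) = PT.form c (fun k => φ (x k)) := by
  simp only [PT.form, map_sum, map_smul, map_list_prod, List.map_ofFn]
  rfl

end letters

end Pool.Agent.Lib.MP_361a6f_ag.FL.PT
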