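import Pool.Agent.Lib.MP_361a6f_ag.FL.PT.B3b
import Pool.Agent.Lib.MP_361a6f_ag.FL.PT.Cone

/-!
# Theorem PT, row B3: the data of the geometric part
-/

open CategoryTheory AlgebraicGeometry MonoidalCategory CartesianMonoidalCategory

universe u w

set_option autoImplicit false

namespace Pool.Agent.Lib.MP_361a6f_ag.FL.PT

open Pool.Agent.Lib.MP_361a6f_ag.H3

variable {k : Type u} [Field k]

noncomputable section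

/-- `X^4` (this is `pw X P` for `P = prod (prod leaf leaf) (prod leaf leaf)`, by `rfl`) -/
abbrev Y4 (X : Sch k) : Sch k := (X ⊗ X) ⊗ (X ⊗ X)

/-- the projections of `X^4` -/
def pr4 (X : Sch k) : Fin 4 → (Y4 X ⟶ X) :=
  ![fst (X ⊗ X) (X ⊗ X) ≫ fst X X, fst (X ⊗ X) (X ⊗ X) ≫ snd X X,
    snd (X ⊗ X) (X ⊗ X) ≫ fst X X, snd (X ⊗ X) (X ⊗ X) ≫ snd X X]

/-- the facts on the group law that are used: additivity on `H^1` and a negative endomorphism -/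
structure Law (W : CohomologyData.{u, 0, w} k ℂ) (X : Sch k) where
  m : X ⊗ X ⟶ X
  e : 𝟙_ (Sch k) ⟶ X
  mul : ∀ v ∈ W.gr X 1, W.pull m v = W.pull (fst X X) v + W.pull (snd X X) v
  one : ∀ v ∈ W.gr X 1, W.pull e v = 0
  N : ℕ
  pos : 0 < N
  n : X ⟶ X
  neg : ∀ v ∈ W.gr X 1, W.pull n v = -((N : ℂ) • v)

/-- the facts on the sets `E Z j` of the effective classes of codimension `j` on `Z` -/
structure Eff (W : CohomologyData.{u, 0, w} k ℂ) (X : Sch k) (g : ℕ) (ξ : W.coh X)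
    (E : ∀ Z : Sch k, ℕ → Set (W.coh Z)) : Prop where
  mulY : ∀ i j x y, x ∈ E (Y4 X) i → y ∈ E (Y4 X) j → x * y ∈ E (Y4 X) (i + j)
  mulZ : ∀ i j x y, x ∈ E (Y4 X ⊗ Y4 X) i → y ∈ E (Y4 X ⊗ Y4 X) j →
    x * y ∈ E (Y4 X ⊗ Y4 X) (i + j)
  pullY : ∀ (f : Y4 X ⟶ Y4 X) j y, y ∈ E (Y4 X) j → W.pull f y ∈ E (Y4 X) j
  pullZ : ∀ (f : Y4 X ⊗ Y4 X ⟶ Y4 X) j y, y ∈ E (Y4 X) j → W.pull f y ∈ E (Y4 X ⊗ Y4 X) j
  push : ∀ j x, x ∈ E (Y4 X ⊗ Y4 X) (j + 4 * g) → W.push (fst (Y4 X) (Y4 X)) x ∈ E (Y4 X) j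
  tr : ∀ x ∈ E (Y4 X) (4 * g), ∃ r : ℝ, 0 ≤ r ∧ W.tr (Y4 X) x = (r : ℂ)
  big : ∀ j x, x ∈ W.alg (Y4 X) j →
    ∃ N : ℕ, (N : ℂ) • (∑ i, W.pull (pr4 X i) ξ) ^ j + x ∈ E (Y4 X) j

/-- an adapted basis of `H^1(X)` -/
structure Fr (W : CohomologyData.{u, 0, w} k ℂ) (X : Sch k) (g : ℕ) (ξ : W.coh X) (J : Type)
    [Fintype J] [DecidableEq J] where
  f : J → W.coh X
  τ : J → J
  s : J → ℂ
  c : ℝ
  κ : ℝ
  f_gr : ∀ j, f j ∈ W.gr X 1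
  τ_τ : ∀ j, τ (τ j) = j
  s_sq : ∀ j, s j * s j = 1
  s_τ : ∀ j, s (τ j) = -s j
  c_pos : 0 < c
  κ_pos : 0 < κ
  ξ_eq : ξ = (c : ℂ) • ∑ j, s j • (f j * f (τ j))
  tr : ∀ j, W.tr X (s j • (f j * f (τ j)) * ξ ^ (g - 1)) = (κ : ℂ)
  diag : ∀ z : J → ℂ, (∀ j, z (τ j) = (starRingEnd ℂ) (z j)) → (fun j => z j • f j) ∈
    Submodule.span ℝ {m : J → W.coh X | ∃ h : X ⟶ X, ∀ j, m j = W.pull h (f j)}

/-- The output of row B3. -/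
def B3Statement : Prop :=
  RowA1.{w} → RowA2.{w} →
  ∀ {k : Type u} [Field k] {W : CohomologyData.{u, 0, w} k ℂ} {𝒱 : VarietyClass k}
    (_ : IsWeilCohomology W 𝒱) {X : Sch k} {g : ℕ} (_ : 𝒱.mem X g) (_ : 0 < g)
    (_ : Law W X) {ξ : W.coh X} (_ : ξ ∈ W.alg X 1) {E : ∀ Z : Sch k, ℕ → Set (W.coh Z)}
    (_ : Eff W X g ξ E) {J : Type} [Fintype J] [DecidableEq J] (F : Fr W X g ξ J)
    (w : Fin 4 → J) (a b : ℂ),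
    a • (W.pull (pr4 X 0) (F.f (w 0)) * W.pull (pr4 X 1) (F.f (w 1)) *
        W.pull (pr4 X 2) (F.f (w 2)) * W.pull (pr4 X 3) (F.f (w 3))) +
      b • (W.pull (pr4 X 0) (F.f (F.τ (w 0))) * W.pull (pr4 X 1) (F.f (F.τ (w 1))) *
        W.pull (pr4 X 2) (F.f (F.τ (w 2))) * W.pull (pr4 X 3) (F.f (F.τ (w 3)))) ∈
      Submodule.span ℝ (W.alg (Y4 X) 2 : Set (W.coh (Y4 X))) →
    ∀ x : ℝ, (∏ i, F.s (w i)) * (a * b) = (x : ℂ) → 0 ≤ x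

end

end Pool.Agent.Lib.MP_361a6f_ag.FL.PT
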