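import Pool.Agent.Lib.MP_361a6f_ag.FL.PT.EndFm

/-!
# Theorem PT, the end, fourth part: frames for all products and all polarisations
-/

open CategoryTheory AlgebraicGeometry MonoidalCategory CartesianMonoidalCategory

universe u v w

set_option autoImplicit false
set_option linter.unusedSectionVars false

namespace Pool.Agent.Lib.MP_361a6f_ag.FL

open Pool.Agent.Lib.MP_361a6f_ag.H3 Pool.Agent.Lib.MP_361a6f_ag.SQ
  Pool.Agent.Lib.MP_361a6f_ag.PP Pool.Agent.Lib.MP_361a6f_ag.AV48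

namespace EndFr

open EndE

variable {k : Type u} [Field k] {m : ℕ} {W : CohomologyData.{u, 0, w} k ℂ} {𝒱 : VarietyClass k}
  (H : Host W 𝒱 m)

/-- the data of a frame, with the facts needed for the frame formula -/
def HasFrm (P : Prd m) (η : W.coh (P.obj H.X)) : Prop :=
  ∃ (Lam : Module.End ℂ (W.coh (P.obj H.X))) (D : LamData W (P.obj H.X) (P.dim H.n) η Lam)
    (S : Type) (_ : Fintype S) (_ : DecidableEq S) (a : S → Fin m)
    (f : ∀ s, P.obj H.X ⟶ H.X (a s)) (κ : S → ℝ),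
    Frm H P D a f κ ∧ AbelianType W (P.obj H.X) (P.dim H.n) ∧
      PositiveDivisor W (P.obj H.X) (P.dim H.n) η

/-- `ψ` for a multiple of the polarisation -/
theorem psi_scale {X : Sch k} {n : ℕ} {ξ : W.coh X} {Lam : Module.End ℂ (W.coh X)}
    (D : LamData W X n ξ Lam) {c : ℂ} (hc : c ≠ 0)
    (D' : LamData W X n (c • ξ) (c⁻¹ • Lam)) {i : ℕ} (hi : i ≤ 2 * n) (x : W.coh X)
    {y : W.coh X} (hy : y ∈ W.gr X i) :
    psi W X (c • ξ) (c⁻¹ • Lam) D'.slm.internal x y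
      = c ^ ((n : ℤ) - i) * psi W X ξ Lam D.slm.internal x y := by
  have h1 := ((staB D.slm).2.2.2.2.2.1 c hc).2 i y hi hy
  have h2 : ∀ (h : DirectSum.IsInternal (W.gr X)) (L' : Module.End ℂ (W.coh X)),
      L' = c • Lop W X ξ → PP.star h L' (c⁻¹ • Lam) y
        = c ^ ((n : ℤ) - i) • PP.star D.slm.internal (Lop W X ξ) Lam y := by
    rintro h _ rfl
    exact h1
  rw [psi, psi, h2 D'.slm.internal _ (RSC.Lop_smul ξ c), mul_smul_comm, map_smul, smul_eq_mul]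

theorem lamData_smul (a₀ : Fin m) {c : ℚ} (hc : 0 < c) :
    LamData W (H.X a₀) (H.n a₀) ((c : ℂ) • H.ξ a₀) ((c : ℂ)⁻¹ • H.Lam a₀) where
  slm := by
    rw [RSC.Lop_smul]
    exact ((staB (H.lam a₀).slm).2.2.2.2.2.1 (c : ℂ) (by exact_mod_cast hc.ne')).1
  adj x y := by
    rw [LinearMap.smul_apply, LinearMap.smul_apply, smul_mul_assoc, mul_smul_comm, map_smul,
      map_smul, (H.lam a₀).adj]
  alg := by
    have h := AlgOp.smul H.hW (H.mem a₀) (c⁻¹) (H.lam a₀).alg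
    push_cast at h
    exact h

/-- the trace of the top power of the polarisation -/
theorem tr_top (hW : IsWeilCohomology W 𝒱) {X : Sch k} {n : ℕ} (hX : 𝒱.mem X n) {ξ : W.coh X}
    {Lam : Module.End ℂ (W.coh X)} (D : LamData W X n ξ Lam) :
    psi W X ξ Lam D.slm.internal 1 1 = ((n.factorial : ℂ))⁻¹ * W.tr X (ξ ^ n) := by
  have h2 := (staB D.slm).2.2.2.2.1 0 (1 : W.coh X) (Nat.zero_le _) (hW.one_gr hX)
    (D.slm.Λ_low 0 1 (by norm_num) (hW.one_gr hX))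
  have h3 : ((Lop W X ξ) ^ n) (1 : W.coh X) = ξ ^ n := by
    rw [Lop, LinearMap.pow_mulLeft, LinearMap.mulLeft_apply, mul_one]
  rw [psi, one_mul, h2, pow_zero, one_mul]
  simp only [mul_zero, Nat.sub_zero]
  rw [h3, map_smul, smul_eq_mul]

/-- a positive value of `ψ(1, 1)` gives a positive divisor -/
theorem posDiv (hW : IsWeilCohomology W 𝒱) {X : Sch k} {n : ℕ} (hX : 𝒱.mem X n) {ξ : W.coh X}
    (hξ : ξ ∈ W.alg X 1) {Lam : Module.End ℂ (W.coh X)} (D : LamData W X n ξ Lam) {r : ℝ}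
    (hr : 0 < r) (h : psi W X ξ Lam D.slm.internal 1 1 = (r : ℂ)) : PositiveDivisor W X n ξ := by
  refine ⟨hξ, ?_⟩
  obtain ⟨q, hq⟩ := tot_tr hW hX (EndNum.pow_tot hW hX hξ n)
  have h1 := tr_top hW hX D
  rw [h, hq] at h1
  refine ⟨q, ?_, hq⟩
  have h2 : r = ((n.factorial : ℝ))⁻¹ * (q : ℝ) := by
    have h3 : (r : ℂ) = ((((n.factorial : ℝ))⁻¹ * (q : ℝ) : ℝ) : ℂ) := by
      rw [h1]
      push_cast
      rfl
    exact_mod_cast h3
  have h3 : (0 : ℝ) < (n.factorial : ℝ) := by exact_mod_cast n.factorial_pos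
  by_contra hcon
  have h4 : (q : ℝ) ≤ 0 := by
    have : q ≤ 0 := not_lt.1 hcon
    exact_mod_cast this
  have h5 : ((n.factorial : ℝ))⁻¹ * (q : ℝ) ≤ 0 :=
    mul_nonpos_of_nonneg_of_nonpos (by positivity) h4
  rw [← h2] at h5
  exact absurd hr (not_lt.2 h5)

/-- one factor -/
theorem frm_leaf (hAb : ∀ a, AbelianType W (H.X a) (H.n a))
    (hpd : ∀ a, PositiveDivisor W (H.X a) (H.n a) (H.ξ a)) (a₀ : Fin m) {c : ℚ} (hc : 0 < c) :
    HasFrm H (.leaf a₀) ((c : ℂ) • H.ξ a₀) := by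
  have ge := ge H
  have hc0 : (c : ℂ) ≠ 0 := by exact_mod_cast hc.ne'
  have hcr : (0 : ℝ) < ((c : ℚ) : ℝ) := by exact_mod_cast hc
  have D' := lamData_smul H a₀ hc
  have hpsi : ∀ x y : H.I, H.D.typ x = (a₀, 1) → H.D.typ y = (a₀, 1) →
      psi W (H.X a₀) ((c : ℂ) • H.ξ a₀) ((c : ℂ)⁻¹ • H.Lam a₀) D'.slm.internal (H.e a₀ x)
        (H.e a₀ y) = (c : ℂ) ^ (((H.n a₀ : ℕ) : ℤ) - 1) * (if y = H.D.τ x then H.D.s x else 0) := by
    intro x y hx hy
    have hyg : H.e a₀ y ∈ W.gr (H.X a₀) 1 := by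
      have := H.e_gr a₀ y
      rwa [hy] at this
    have h2 := H.e_psi a₀ x y (by rw [hx]) (by rw [hy])
    by_cases hn : 1 ≤ 2 * H.n a₀
    · rw [psi_scale (H.lam a₀) hc0 D' hn _ hyg, h2]
      norm_num
    · -- there are no letters
      exfalso
      have h0 : H.e a₀ (H.D.τ x) = 0 := by
        have h3 : H.e a₀ (H.D.τ x) ∈ W.gr (H.X a₀) 1 := by
          have := H.e_gr a₀ (H.D.τ x)
          rwa [H.D.typ_τ, hx] at this
        exact (H.lam a₀).slm.top 1 _ h3 (by omega)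
      have h4 := H.e_psi a₀ x (H.D.τ x) (by rw [hx]) (by rw [H.D.typ_τ, hx])
      rw [if_pos rfl, h0] at h4
      have h5 := psi_smul_right (W := W) (X := H.X a₀) (ξ := H.ξ a₀) (Lam := H.Lam a₀)
        (H.lam a₀).slm.internal 0 (H.e a₀ x) 0
      rw [zero_smul, zero_mul] at h5
      rw [h5] at h4
      rcases H.D.s_val x with h6 | h6 <;> rw [h6] at h4 <;> norm_num at h4
  refine ⟨(c : ℂ)⁻¹ • H.Lam a₀, D', Unit, inferInstance, inferInstance, fun _ => a₀,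
    fun _ => 𝟙 (H.X a₀), fun _ => ((c : ℚ) : ℝ) ^ (((H.n a₀ : ℕ) : ℤ) - 1), ?_, hAb a₀, ?_⟩
  · refine ⟨fun _ => Pj.leaf a₀, fun _ => zpow_pos hcr _, ?_, ?_⟩
    · intro s t x y hx hy
      have e1 : W.pull (𝟙 (H.X a₀)) (H.e a₀ x) = H.e a₀ x := by rw [W.pull_id]
      have e2 : W.pull (𝟙 (H.X a₀)) (H.e a₀ y) = H.e a₀ y := by rw [W.pull_id]
      have h := hpsi x y hx hy
      refine ⟨fun h0 => ?_, fun _ h1 => ?_⟩
      · have h1 : y ≠ H.D.τ x := h0.resolve_left fun h2 => h2 (Subsingleton.elim s t)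
        refine (?_ : _ = _).trans ((h.trans (by rw [if_neg h1, mul_zero])))
        exact congrArg₂ (fun x y => psi W (H.X a₀) ((c : ℂ) • H.ξ a₀) ((c : ℂ)⁻¹ • H.Lam a₀)
          D'.slm.internal x y) e1 e2
      · refine (?_ : _ = _).trans ((h.trans (by rw [if_pos h1]; push_cast; rfl)))
        exact congrArg₂ (fun x y => psi W (H.X a₀) ((c : ℂ) • H.ξ a₀) ((c : ℂ)⁻¹ • H.Lam a₀)
          D'.slm.internal x y) e1 e2
    · intro v hv
      refine Submodule.span_mono ?_ (mem_span_leaf H ge staB a₀ hv)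
      rintro _ ⟨a', f, x, hf, hx, rfl⟩
      cases hf
      exact ⟨(), x, hx, rfl⟩
  · obtain ⟨q, hq, h⟩ := (hpd a₀).2
    obtain ⟨r, hr, h1⟩ := psi_one H.hW (H.mem a₀) (hAb a₀) (hpd a₀) (H.lam a₀)
    have h2 := psi_scale (H.lam a₀) hc0 D' (Nat.zero_le _) 1 (H.hW.one_gr (H.mem a₀))
    refine posDiv H.hW (H.mem a₀) (W.alg_smul _ (H.ξ_alg a₀)) D'
      (r := ((c : ℚ) : ℝ) ^ (((H.n a₀ : ℕ) : ℤ) - (0 : ℕ)) * r) (mul_pos (zpow_pos hcr _) hr) ?_
    rw [h2, h1]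
    push_cast
    rfl

/-! ### Products -/

section prod

variable {P Q : Prd m} {η : W.coh (P.obj H.X)} {θ : W.coh (Q.obj H.X)}
  {L₁ : Module.End ℂ (W.coh (P.obj H.X))} {L₂ : Module.End ℂ (W.coh (Q.obj H.X))}
  (hη : η ∈ W.alg (P.obj H.X) 1) (hθ : θ ∈ W.alg (Q.obj H.X) 1)
  (D₁ : LamData W (P.obj H.X) (P.dim H.n) η L₁) (D₂ : LamData W (Q.obj H.X) (Q.dim H.n) θ L₂)

include hη hθ D₁ D₂ in
theorem lamData_prod : LamData W ((P.obj H.X) ⊗ (Q.obj H.X)) (P.dim H.n + Q.dim H.n)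
    (sumPol W η θ) (lamProd H.hW (H.memP P) (H.memP Q) L₁ L₂) :=
  (lmp PP.tal H.hW (H.memP P) (H.memP Q) (H.hW.alg_gr (H.memP P) hη)
    (H.hW.alg_gr (H.memP Q) hθ)).2 D₁ D₂

variable (D : LamData W ((P.obj H.X) ⊗ (Q.obj H.X)) (P.dim H.n + Q.dim H.n)
    (sumPol W η θ) (lamProd H.hW (H.memP P) (H.memP Q) L₁ L₂))

include hη hθ in
theorem psi_pr (y y' : W.coh (P.obj H.X)) (x x' : W.coh (Q.obj H.X)) :
    psi W ((P.obj H.X) ⊗ (Q.obj H.X)) (sumPol W η θ)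
        (lamProd H.hW (H.memP P) (H.memP Q) L₁ L₂) D.slm.internal
        (W.pull (fst (P.obj H.X) (Q.obj H.X)) y * W.pull (snd (P.obj H.X) (Q.obj H.X)) x)
        (W.pull (fst (P.obj H.X) (Q.obj H.X)) y' * W.pull (snd (P.obj H.X) (Q.obj H.X)) x')
      = psi W (P.obj H.X) η L₁ D₁.slm.internal y y'
        * psi W (Q.obj H.X) θ L₂ D₂.slm.internal x x' :=
  (stp sl2 staB H.hW (H.memP P) (H.memP Q) (H.hW.alg_gr (H.memP P) hη)
    (H.hW.alg_gr (H.memP Q) hθ) D₁.slm D₂.slm D.slm).2 y x y' x'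

/-- the classes of degree one of a product -/
theorem span_one
    (hA₁ : AbelianType W (P.obj H.X) (P.dim H.n)) (hA₂ : AbelianType W (Q.obj H.X) (Q.dim H.n))
    (hp₁ : PositiveDivisor W (P.obj H.X) (P.dim H.n) η)
    (hp₂ : PositiveDivisor W (Q.obj H.X) (Q.dim H.n) θ)
    {v : W.coh ((P.obj H.X) ⊗ (Q.obj H.X))} (hv : v ∈ W.gr ((P.obj H.X) ⊗ (Q.obj H.X)) 1) :
    ∃ x ∈ W.gr (P.obj H.X) 1, ∃ y ∈ W.gr (Q.obj H.X) 1,
      v = W.pull (fst (P.obj H.X) (Q.obj H.X)) x + W.pull (snd (P.obj H.X) (Q.obj H.X)) y := by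
  have ge := ge H
  let M : Submodule ℂ (W.coh ((P.obj H.X) ⊗ (Q.obj H.X))) :=
    (W.gr (P.obj H.X) 1).map (W.pull (fst (P.obj H.X) (Q.obj H.X))).toLinearMap
      ⊔ (W.gr (Q.obj H.X) 1).map (W.pull (snd (P.obj H.X) (Q.obj H.X))).toLinearMap
  have hM : v ∈ M := by
    have h0 : v = ∑ w, H.tc (.prod P Q) v w • H.E (.prod P Q) w := ge.expand (.prod P Q) v
    rw [h0]
    refine Submodule.sum_mem _ fun w _ => ?_
    by_cases hw : H.tc (.prod P Q) v w = 0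
    · rw [hw, zero_smul]
      exact zero_mem _
    refine Submodule.smul_mem _ _ ?_
    have hdeg : ∑ l, (H.D.typ (w l)).2 = 1 := by
      by_contra hne
      exact hw (GJ.tc_gr H ge staB (.prod P Q) (i := 1) hv w hne)
    have hsum : (∑ l, (H.D.typ (w (Fin.castAdd Q.size l))).2)
        + ∑ l, (H.D.typ (w (Fin.natAdd P.size l))).2 = 1 := by
      rw [← hdeg]
      exact (Fin.sum_univ_add (fun l : Fin (P.size + Q.size) => (H.D.typ (w l)).2)).symm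
    have g1 := ge.E_gr P fun l => w (Fin.castAdd Q.size l)
    have g2 := ge.E_gr Q fun l => w (Fin.natAdd P.size l)
    rcases Nat.eq_zero_or_pos (∑ l, (H.D.typ (w (Fin.castAdd Q.size l))).2) with h1 | h1
    · have h2 : (∑ l, (H.D.typ (w (Fin.natAdd P.size l))).2) = 1 := by omega
      rw [h1] at g1
      rw [h2] at g2
      obtain ⟨c, hc⟩ := zero_gr H.hW (H.memP P) hA₁ hp₁ g1
      have e : H.E (.prod P Q) w
          = W.pull (snd (P.obj H.X) (Q.obj H.X)) (c • H.E Q fun l => w (Fin.natAdd P.size l)) := by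
        change W.pull (fst (P.obj H.X) (Q.obj H.X)) (H.E P fun l => w (Fin.castAdd Q.size l))
          * W.pull (snd (P.obj H.X) (Q.obj H.X)) (H.E Q fun l => w (Fin.natAdd P.size l)) = _
        rw [hc, map_smul, map_one, smul_mul_assoc, one_mul, map_smul]
      rw [e]
      exact Submodule.mem_sup_right ⟨_, Submodule.smul_mem _ _ g2, rfl⟩
    · have h2 : (∑ l, (H.D.typ (w (Fin.natAdd P.size l))).2) = 0 := by omega
      have h3 : (∑ l, (H.D.typ (w (Fin.castAdd Q.size l))).2) = 1 := by omega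
      rw [h3] at g1
      rw [h2] at g2
      obtain ⟨c, hc⟩ := zero_gr H.hW (H.memP Q) hA₂ hp₂ g2
      have e : H.E (.prod P Q) w
          = W.pull (fst (P.obj H.X) (Q.obj H.X)) (c • H.E P fun l => w (Fin.castAdd Q.size l)) := by
        change W.pull (fst (P.obj H.X) (Q.obj H.X)) (H.E P fun l => w (Fin.castAdd Q.size l))
          * W.pull (snd (P.obj H.X) (Q.obj H.X)) (H.E Q fun l => w (Fin.natAdd P.size l)) = _
        rw [hc, map_smul, map_one, mul_smul_comm, mul_one, map_smul]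
      rw [e]
      exact Submodule.mem_sup_left ⟨_, Submodule.smul_mem _ _ g1, rfl⟩
  obtain ⟨x', ⟨x, hx, rfl⟩, y', ⟨y, hy, rfl⟩, h⟩ := Submodule.mem_sup.1 hM
  exact ⟨x, hx, y, hy, h.symm⟩

/-- `H^1` of a product has the dimension `2 dim` -/
theorem rank_prod (hη : η ∈ W.alg (P.obj H.X) 1) (hθ : θ ∈ W.alg (Q.obj H.X) 1)
    (D₁ : LamData W (P.obj H.X) (P.dim H.n) η L₁) (D₂ : LamData W (Q.obj H.X) (Q.dim H.n) θ L₂)
    (D : LamData W ((P.obj H.X) ⊗ (Q.obj H.X)) (P.dim H.n + Q.dim H.n)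
      (sumPol W η θ) (lamProd H.hW (H.memP P) (H.memP Q) L₁ L₂))
    (hA₁ : AbelianType W (P.obj H.X) (P.dim H.n)) (hA₂ : AbelianType W (Q.obj H.X) (Q.dim H.n))
    (hp₁ : PositiveDivisor W (P.obj H.X) (P.dim H.n) η)
    (hp₂ : PositiveDivisor W (Q.obj H.X) (Q.dim H.n) θ) :
    Module.finrank ℂ (W.gr ((P.obj H.X) ⊗ (Q.obj H.X)) 1) = 2 * (P.dim H.n + Q.dim H.n) := by
  have hMP := H.memP P
  have hMQ := H.memP Q
  have hM := 𝒱.prod hMP hMQ
  have f1 : Module.Finite ℂ (W.coh (P.obj H.X)) := H.hW.finite hMP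
  have f2 : Module.Finite ℂ (W.coh (Q.obj H.X)) := H.hW.finite hMQ
  have f3 : Module.Finite ℂ (W.coh ((P.obj H.X) ⊗ (Q.obj H.X))) := H.hW.finite hM
  obtain ⟨r₁, hr₁, h1⟩ := psi_one H.hW hMP hA₁ hp₁ D₁
  obtain ⟨r₂, hr₂, h2⟩ := psi_one H.hW hMQ hA₂ hp₂ D₂
  let T : (W.gr (P.obj H.X) 1 × W.gr (Q.obj H.X) 1) →ₗ[ℂ]
      W.gr ((P.obj H.X) ⊗ (Q.obj H.X)) 1 :=
    LinearMap.codRestrict _
      (((W.pull (fst (P.obj H.X) (Q.obj H.X))).toLinearMap ∘ₗ
          (W.gr (P.obj H.X) 1).subtype).coprod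
        ((W.pull (snd (P.obj H.X) (Q.obj H.X))).toLinearMap ∘ₗ (W.gr (Q.obj H.X) 1).subtype))
      (fun x => by
        have e1 := H.hW.pull_gr hM hMP (fst (P.obj H.X) (Q.obj H.X)) x.1.2
        have e2 := H.hW.pull_gr hM hMQ (snd (P.obj H.X) (Q.obj H.X)) x.2.2
        exact add_mem e1 e2)
  have hT : ∀ x : W.gr (P.obj H.X) 1 × W.gr (Q.obj H.X) 1,
      ((T x : W.gr ((P.obj H.X) ⊗ (Q.obj H.X)) 1) : W.coh ((P.obj H.X) ⊗ (Q.obj H.X)))
        = W.pull (fst (P.obj H.X) (Q.obj H.X)) (x.1 : W.coh (P.obj H.X))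
          + W.pull (snd (P.obj H.X) (Q.obj H.X)) (x.2 : W.coh (Q.obj H.X)) := fun x => rfl
  have hsurj : Function.Surjective T := by
    rintro ⟨v, hv⟩
    obtain ⟨x, hx, y, hy, e⟩ := span_one H hA₁ hA₂ hp₁ hp₂ hv
    exact ⟨(⟨x, hx⟩, ⟨y, hy⟩), Subtype.ext e.symm⟩
  have hinj : Function.Injective T := by
    rw [injective_iff_map_eq_zero]
    rintro ⟨x, y⟩ h0
    have e0 : W.pull (fst (P.obj H.X) (Q.obj H.X)) (x : W.coh (P.obj H.X))
        + W.pull (snd (P.obj H.X) (Q.obj H.X)) (y : W.coh (Q.obj H.X)) = 0 := by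
      rw [← hT (x, y), h0]
      rfl
    have ex : W.pull (fst (P.obj H.X) (Q.obj H.X)) (x : W.coh (P.obj H.X))
        * W.pull (snd (P.obj H.X) (Q.obj H.X)) 1
        + W.pull (fst (P.obj H.X) (Q.obj H.X)) 1
          * W.pull (snd (P.obj H.X) (Q.obj H.X)) (y : W.coh (Q.obj H.X)) = 0 := by
      rw [map_one, map_one, mul_one, one_mul, e0]
    have hzero : ∀ z, psi W ((P.obj H.X) ⊗ (Q.obj H.X)) (sumPol W η θ)
        (lamProd H.hW (H.memP P) (H.memP Q) L₁ L₂) D.slm.internal 0 z = 0 := fun z => by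
      rw [psi, zero_mul, map_zero]
    have hx : x = 0 := by
      refine GB.psiG_nondeg H.hW staB hMP hη D₁ 1 x fun x' => ?_
      rw [GB.psiG_apply]
      have e1 := hzero (W.pull (fst (P.obj H.X) (Q.obj H.X)) (x' : W.coh (P.obj H.X))
        * W.pull (snd (P.obj H.X) (Q.obj H.X)) 1)
      rw [← ex, psi_add_left, psi_pr H hη hθ D₁ D₂ D, psi_pr H hη hθ D₁ D₂ D,
        GB.psi_gr_ne H.hW staB hMQ hθ D₂ y.2 (H.hW.one_gr hMQ) (by norm_num), mul_zero,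
        add_zero, h2] at e1
      exact (mul_eq_zero.1 e1).resolve_right (by exact_mod_cast hr₂.ne')
    have hy : y = 0 := by
      refine GB.psiG_nondeg H.hW staB hMQ hθ D₂ 1 y fun y' => ?_
      rw [GB.psiG_apply]
      have e1 := hzero (W.pull (fst (P.obj H.X) (Q.obj H.X)) 1
        * W.pull (snd (P.obj H.X) (Q.obj H.X)) (y' : W.coh (Q.obj H.X)))
      rw [← ex, psi_add_left, psi_pr H hη hθ D₁ D₂ D, psi_pr H hη hθ D₁ D₂ D,
        GB.psi_gr_ne H.hW staB hMP hη D₁ x.2 (H.hW.one_gr hMP) (by norm_num), zero_mul,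
        zero_add, h1] at e1
      exact (mul_eq_zero.1 e1).resolve_left (by exact_mod_cast hr₁.ne')
    rw [hx, hy]
    rfl
  have e := (LinearEquiv.ofBijective T ⟨hinj, hsurj⟩).finrank_eq
  rw [← e, Module.finrank_prod, hA₁.rank, hA₂.rank]
  ring

/-- products -/
theorem frm_prod (hAb : ∀ a, AbelianType W (H.X a) (H.n a)) (h₁ : HasFrm H P η)
    (h₂ : HasFrm H Q θ) : HasFrm H (.prod P Q)
      (W.pull (fst (P.obj H.X) (Q.obj H.X)) η + W.pull (snd (P.obj H.X) (Q.obj H.X)) θ) := by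
  obtain ⟨L₁, D₁, S₁, i₁, j₁, a₁, f₁, κ₁, F₁, hA₁, hp₁⟩ := h₁
  obtain ⟨L₂, D₂, S₂, i₂, j₂, a₂, f₂, κ₂, F₂, hA₂, hp₂⟩ := h₂
  have D := lamData_prod H hp₁.1 hp₂.1 D₁ D₂
  obtain ⟨r₁, hr₁, h11⟩ := psi_one H.hW (H.memP P) hA₁ hp₁ D₁
  obtain ⟨r₂, hr₂, h22⟩ := psi_one H.hW (H.memP Q) hA₂ hp₂ D₂
  have hMP := H.memP P
  have hMQ := H.memP Q
  have hM := 𝒱.prod hMP hMQ
  have g1 : ∀ (s : S₁) (x : H.I), H.D.typ x = (a₁ s, 1) →
      W.pull (f₁ s) (H.e (a₁ s) x) ∈ W.gr (P.obj H.X) 1 := by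
    intro s x hx
    have h := H.e_gr (a₁ s) x
    rw [hx] at h
    exact H.hW.pull_gr hMP (H.mem _) (f₁ s) h
  have g2 : ∀ (s : S₂) (x : H.I), H.D.typ x = (a₂ s, 1) →
      W.pull (f₂ s) (H.e (a₂ s) x) ∈ W.gr (Q.obj H.X) 1 := by
    intro s x hx
    have h := H.e_gr (a₂ s) x
    rw [hx] at h
    exact H.hW.pull_gr hMQ (H.mem _) (f₂ s) h
  have e1 : ∀ (s : S₁) (x : H.I), W.pull (fst (P.obj H.X) (Q.obj H.X) ≫ f₁ s) (H.e (a₁ s) x)
      = W.pull (fst (P.obj H.X) (Q.obj H.X)) (W.pull (f₁ s) (H.e (a₁ s) x))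
        * W.pull (snd (P.obj H.X) (Q.obj H.X)) 1 := fun s x => by
    rw [map_one, mul_one]
    exact W.pull_comp _ _ _
  have e2 : ∀ (s : S₂) (x : H.I), W.pull (snd (P.obj H.X) (Q.obj H.X) ≫ f₂ s) (H.e (a₂ s) x)
      = W.pull (fst (P.obj H.X) (Q.obj H.X)) 1
        * W.pull (snd (P.obj H.X) (Q.obj H.X)) (W.pull (f₂ s) (H.e (a₂ s) x)) := fun s x => by
    rw [map_one, one_mul]
    exact W.pull_comp _ _ _
  refine ⟨_, D, S₁ ⊕ S₂, inferInstance, inferInstance, Sum.elim a₁ a₂,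
    fun s => match s with
      | Sum.inl s => fst (P.obj H.X) (Q.obj H.X) ≫ f₁ s
      | Sum.inr s => snd (P.obj H.X) (Q.obj H.X) ≫ f₂ s,
    Sum.elim (fun s => κ₁ s * r₂) (fun s => r₁ * κ₂ s), ⟨?_, ?_, ?_, ?_⟩, ⟨?_, ?_⟩, ?_⟩
  · rintro (s | s)
    · exact Pj.fst P Q _ _ (F₁.pj s)
    · exact Pj.snd P Q _ _ (F₂.pj s)
  · rintro (s | s)
    · exact mul_pos (F₁.pos s) hr₂
    · exact mul_pos hr₁ (F₂.pos s)
  · rintro (s | s) (t | t) x y hx hy
    · have hx' : H.D.typ x = (a₁ s, 1) := hx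
      have hy' : H.D.typ y = (a₁ t, 1) := hy
      have h := psi_pr H hp₁.1 hp₂.1 D₁ D₂ D (W.pull (f₁ s) (H.e (a₁ s) x))
        (W.pull (f₁ t) (H.e (a₁ t) y)) 1 1
      rw [← e1, ← e1, h22] at h
      have ho := F₁.orth s t x y hx' hy'
      refine ⟨fun h0 => h.trans ?_, fun h0 h1 => h.trans ?_⟩
      · rw [ho.1 (h0.imp (fun h3 h4 => h3 (congrArg Sum.inl h4)) id), zero_mul]
      · rw [ho.2 (Sum.inl.inj h0) h1]
        change _ = ((κ₁ s * r₂ : ℝ) : ℂ) * _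
        push_cast
        ring
    · have hx' : H.D.typ x = (a₁ s, 1) := hx
      have hy' : H.D.typ y = (a₂ t, 1) := hy
      have h := psi_pr H hp₁.1 hp₂.1 D₁ D₂ D (W.pull (f₁ s) (H.e (a₁ s) x)) 1 1
        (W.pull (f₂ t) (H.e (a₂ t) y))
      rw [← e1, ← e2, GB.psi_gr_ne H.hW staB hMP hp₁.1 D₁ (g1 s x hx') (H.hW.one_gr hMP)
        (by norm_num), zero_mul] at h
      exact ⟨fun _ => h, fun h0 => absurd h0 (by simp)⟩
    · have hx' : H.D.typ x = (a₂ s, 1) := hx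
      have hy' : H.D.typ y = (a₁ t, 1) := hy
      have h := psi_pr H hp₁.1 hp₂.1 D₁ D₂ D 1 (W.pull (f₁ t) (H.e (a₁ t) y))
        (W.pull (f₂ s) (H.e (a₂ s) x)) 1
      rw [← e1, ← e2, GB.psi_gr_ne H.hW staB hMQ hp₂.1 D₂ (g2 s x hx') (H.hW.one_gr hMQ)
        (by norm_num), mul_zero] at h
      exact ⟨fun _ => h, fun h0 => absurd h0 (by simp)⟩
    · have hx' : H.D.typ x = (a₂ s, 1) := hx
      have hy' : H.D.typ y = (a₂ t, 1) := hy
      have h := psi_pr H hp₁.1 hp₂.1 D₁ D₂ D 1 1 (W.pull (f₂ s) (H.e (a₂ s) x))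
        (W.pull (f₂ t) (H.e (a₂ t) y))
      rw [← e2, ← e2, h11] at h
      have ho := F₂.orth s t x y hx' hy'
      refine ⟨fun h0 => h.trans ?_, fun h0 h1 => h.trans ?_⟩
      · rw [ho.1 (h0.imp (fun h3 h4 => h3 (congrArg Sum.inr h4)) id), mul_zero]
      · rw [ho.2 (Sum.inr.inj h0) h1]
        change _ = ((r₁ * κ₂ s : ℝ) : ℂ) * _
        push_cast
        ring
  · intro v hv
    obtain ⟨x, hx, y, hy, rfl⟩ := span_one H hA₁ hA₂ hp₁ hp₂ hv
    refine add_mem ?_ ?_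
    · have h := F₁.span hx
      refine Submodule.span_induction ?_ ?_ ?_ ?_ h
      · rintro _ ⟨s, z, hz, rfl⟩
        refine Submodule.subset_span ⟨Sum.inl s, z, hz, ?_⟩
        exact (W.pull_comp _ _ _).symm
      · rw [map_zero]
        exact zero_mem _
      · intro a b _ _ ha hb
        rw [map_add]
        exact add_mem ha hb
      · intro c a _ ha
        rw [map_smul]
        exact Submodule.smul_mem _ _ ha
    · have h := F₂.span hy
      refine Submodule.span_induction ?_ ?_ ?_ ?_ h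
      · rintro _ ⟨s, z, hz, rfl⟩
        refine Submodule.subset_span ⟨Sum.inr s, z, hz, ?_⟩
        exact (W.pull_comp _ _ _).symm
      · rw [map_zero]
        exact zero_mem _
      · intro a b _ _ ha hb
        rw [map_add]
        exact add_mem ha hb
      · intro c a _ ha
        rw [map_smul]
        exact Submodule.smul_mem _ _ ha
  · intro x
    have h1 := adjoin_top H (ge H) staB hAb (.prod P Q)
    have h2 : x ∈ Algebra.adjoin ℂ (Ltr H (.prod P Q)) := by rw [h1]; trivial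
    refine Algebra.adjoin_mono ?_ h2
    rintro _ ⟨a, f, z, hf, hz, rfl⟩
    have h3 := H.e_gr a z
    rw [hz] at h3
    exact H.hW.pull_gr hM (H.mem a) f h3
  · exact rank_prod H hp₁.1 hp₂.1 D₁ D₂ D hA₁ hA₂ hp₁ hp₂
  · have hal : sumPol W η θ ∈ W.alg ((P.obj H.X) ⊗ (Q.obj H.X)) 1 :=
      add_mem (H.hW.pull_alg hM hMP _ hp₁.1) (H.hW.pull_alg hM hMQ _ hp₂.1)
    have h := psi_pr H hp₁.1 hp₂.1 D₁ D₂ D 1 1 1 1
    rw [h11, h22, map_one, map_one, mul_one] at h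
    refine posDiv H.hW hM hal D (r := r₁ * r₂) (mul_pos hr₁ hr₂) ?_
    refine h.trans ?_
    push_cast
    rfl

end prod

/-- **Frames for all products and all polarisations.** -/
theorem exists_frm (hAb : ∀ a, AbelianType W (H.X a) (H.n a))
    (hpd : ∀ a, PositiveDivisor W (H.X a) (H.n a) (H.ξ a)) {P : Prd m} {η : W.coh (P.obj H.X)}
    (hη : IsPol W H.ξ P η) : HasFrm H P η := by
  induction hη with
  | leaf a c hc => exact frm_leaf H hAb hpd a hc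
  | prod P Q η θ _ _ h h' => exact frm_prod H hAb h h'

end EndFr

end Pool.Agent.Lib.MP_361a6f_ag.FL
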