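import Pool.Agent.Lib.MP_361a6f_ag.AV48.Hr
import Pool.Agent.Lib.MP_361a6f_ag.FL.E.Sub
import Pool.Agent.Lib.MP_361a6f_ag.FL.GeoDefs
import Pool.Agent.Lib.MP_361a6f_ag.PP.WEY

/-!
# The polarisation in the letters of an adapted basis
-/

open CategoryTheory AlgebraicGeometry MonoidalCategory CartesianMonoidalCategory

universe u w

set_option autoImplicit false
set_option linter.unusedSectionVars false

namespace Pool.Agent.Lib.MP_361a6f_ag.FL.PT

open Pool.Agent.Lib.MP_361a6f_ag.H3 Pool.Agent.Lib.MP_361a6f_ag.SQ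
  Pool.Agent.Lib.MP_361a6f_ag.PP Pool.Agent.Lib.MP_361a6f_ag.AV48

namespace Theta

section main

variable {k : Type u} [Field k] {W : CohomologyData.{u, 0, w} k ℂ} {𝒱 : VarietyClass k}
  (hW : IsWeilCohomology W 𝒱) {X : Sch k} {g : ℕ} (hX : 𝒱.mem X g)
  (hA : AbelianType W X g) {ξ : W.coh X} (hξ : PositiveDivisor W X g ξ)
  {Lam : Module.End ℂ (W.coh X)} (D : LamData W X g ξ Lam)

include hW hX hA hξ

theorem pow_gr (r : ℕ) : ξ ^ r ∈ W.gr X (2 * r) := by
  induction r with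
  | zero => rw [pow_zero]; exact hW.one_gr hX
  | succ r ih =>
    rw [pow_succ]
    exact hW.mul_gr hX ih (ξ_gr hW hX hA hξ)

theorem pow_comm (r : ℕ) {v : W.coh X} (hv : v ∈ W.gr X 1) : ξ ^ r * v = v * ξ ^ r := by
  have h := hW.comm_gr hX (pow_gr hW hX hA hξ r) hv
  rw [h, mul_one, (even_two_mul r).neg_one_pow, one_smul]

/-- `D_d (ξ^(r+1)) = (r+1) ξ^r D_d ξ` -/
theorem D_pow (d : Module.Dual ℂ (W.gr X 1)) (r : ℕ) :
    (extAlg hW hX hA hξ).D d (ξ ^ (r + 1)) =
      ((r : ℂ) + 1) • (ξ ^ r * (extAlg hW hX hA hξ).D d ξ) := by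
  have hE := extAlg hW hX hA hξ
  have hξ2 := ξ_gr hW hX hA hξ
  have hD : hE.D d ξ ∈ W.gr X 1 := (hE.D_gr d 2 ξ hξ2).2 1 rfl
  induction r with
  | zero => rw [zero_add, pow_one, pow_zero, one_mul, Nat.cast_zero, zero_add, one_smul]
  | succ r ih =>
    rw [pow_succ' ξ (r + 1), hE.D_ξ_mul hξ2, ih, mul_smul_comm, ← mul_assoc, ← pow_succ',
      ← pow_comm hW hX hA hξ (r + 1) hD]
    push_cast
    module

/-- `Tr(ξ^(g-1) D_d(ξ) v) = -d(v) Tr(ξ^g) / g` -/
theorem tr_D (hg : 0 < g) (d : Module.Dual ℂ (W.gr X 1)) (v : W.gr X 1) :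
    (g : ℂ) * W.tr X (ξ ^ (g - 1) * (extAlg hW hX hA hξ).D d ξ * v) =
      -(d v * W.tr X (ξ ^ g)) := by
  obtain ⟨r, rfl⟩ : ∃ r, g = r + 1 := ⟨g - 1, by omega⟩
  have hE := extAlg hW hX hA hξ
  have h0 : ξ ^ (r + 1) * (v : W.coh X) = 0 :=
    hW.top_gr hX (hW.mul_gr hX (pow_gr hW hX hA hξ (r + 1)) v.2) (by omega)
  have h1 := hE.D_leib d (2 * (r + 1)) (ξ ^ (r + 1)) (pow_gr hW hX hA hξ (r + 1)) (v : W.coh X)
  rw [h0, map_zero, (even_two_mul (r + 1)).neg_one_pow, one_smul, hE.D_v d v, mul_smul_comm,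
    mul_one, D_pow hW hX hA hξ d r, smul_mul_assoc] at h1
  have h2 := congrArg (W.tr X) h1
  rw [map_zero, map_add, map_smul, map_smul, smul_eq_mul, smul_eq_mul] at h2
  rw [Nat.add_sub_cancel]
  push_cast
  linear_combination -h2

/-- `ψ` in degree one -/
theorem psi_eq (hg : 0 < g) {u v : W.coh X} (hu : u ∈ W.gr X 1) (hv : v ∈ W.gr X 1) :
    psi W X ξ Lam D.slm.internal u v =
      -(((g - 1).factorial : ℂ)⁻¹ * W.tr X (ξ ^ (g - 1) * (u * v))) := by
  have h1 := (wey D.slm).2.2.2.2 1 v (by omega) hv (D.slm.Λ_low 1 v (by norm_num) hv)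
  have h2 : ((Lop W X ξ) ^ (g - 1)) v = ξ ^ (g - 1) * v := by
    rw [Lop, LinearMap.pow_mulLeft, LinearMap.mulLeft_apply]
  have h3 : (sgn 1 : ℂ) = -1 := by
    have := StaB.sgn_odd 0
    norm_num at this
    exact this
  rw [psi, StaB.star_apply D.slm hv, h1, h2, h3, smul_smul, mul_smul_comm, map_smul,
    ← mul_assoc u, ← pow_comm hW hX hA hξ (g - 1) hu, mul_assoc, smul_eq_mul]
  ring

/-- `ψ(D_d ξ, v) = c d(v)` for `c = Tr(ξ^g) / g!` -/
theorem psi_D (hg : 0 < g) (d : Module.Dual ℂ (W.gr X 1)) (v : W.gr X 1) :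
    psi W X ξ Lam D.slm.internal ((extAlg hW hX hA hξ).D d ξ) v =
      (W.tr X (ξ ^ g) / (g.factorial : ℂ)) * d v := by
  have hE := extAlg hW hX hA hξ
  have hD : hE.D d ξ ∈ W.gr X 1 := (hE.D_gr d 2 ξ (ξ_gr hW hX hA hξ)).2 1 rfl
  have h1 := tr_D hW hX hA hξ hg d v
  rw [psi_eq hW hX hA hξ D hg hD v.2, ← mul_assoc]
  have hg0 : (g : ℂ) ≠ 0 := by exact_mod_cast hg.ne'
  have hf : ((g - 1).factorial : ℂ) ≠ 0 := by exact_mod_cast (g - 1).factorial_ne_zero
  have h2 : (g.factorial : ℂ) = g * (g - 1).factorial := by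
    exact_mod_cast (Nat.mul_factorial_pred hg.ne').symm
  rw [h2, eq_comm, div_mul_eq_mul_div, div_eq_iff (mul_ne_zero hg0 hf)]
  field_simp
  linear_combination h1

section letters

variable {ι : Type} [Fintype ι] [DecidableEq ι] {e : ι → W.coh X} {τ : ι → ι} {s : ι → ℂ}
  (he : ∀ i, e i ∈ W.gr X 1) (hs : ∀ i, s i * s i = 1) (hτ : ∀ i, τ (τ i) = i)
  (hsτ : ∀ i, s (τ i) = -s i)
  (hψ : ∀ i j, psi W X ξ Lam D.slm.internal (e i) (e j) = if j = τ i then s i else 0)
  (hspan : ∀ v ∈ W.gr X 1, v ∈ Submodule.span ℂ (Set.range e))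

/-- the coordinate functionals -/
noncomputable def crd (D : LamData W X g ξ Lam) (e : ι → W.coh X) (τ : ι → ι) (s : ι → ℂ)
    (j : ι) : Module.Dual ℂ (W.gr X 1) where
  toFun v := s j * psi W X ξ Lam D.slm.internal v (e (τ j))
  map_add' v v' := by
    show s j * psi W X ξ Lam D.slm.internal ((v : W.coh X) + v') (e (τ j)) = _
    rw [psi_add_left]
    ring
  map_smul' c v := by
    show s j * psi W X ξ Lam D.slm.internal (c • (v : W.coh X)) (e (τ j)) = _
    rw [psi_smul_left, RingHom.id_apply, smul_eq_mul]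
    ring

omit hW hX hA hξ in
theorem crd_apply (j : ι) (v : W.gr X 1) :
    crd D e τ s j v = s j * psi W X ξ Lam D.slm.internal v (e (τ j)) := rfl

include hs hτ hψ in
omit hW hX hA hξ in
theorem crd_e (j i : ι) : crd D e τ s j ⟨e i, he i⟩ = if i = j then 1 else 0 := by
  rw [crd_apply]
  show s j * psi W X ξ Lam D.slm.internal (e i) (e (τ j)) = _
  rw [hψ i (τ j)]
  by_cases h : i = j
  · subst h
    rw [if_pos rfl, if_pos rfl, hs]
  · rw [if_neg, if_neg h, mul_zero]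
    intro h'
    exact h (by rw [← hτ j, h', hτ])

include he hs hτ hψ hspan in
omit hW hX hA hξ in
/-- the expansion in the letters -/
theorem expand (v : W.gr X 1) : (v : W.coh X) = ∑ j, crd D e τ s j v • e j := by
  obtain ⟨v, hv⟩ := v
  have key : ∀ x ∈ Submodule.span ℂ (Set.range e), ∀ hx : x ∈ W.gr X 1,
      x = ∑ j, crd D e τ s j ⟨x, hx⟩ • e j := by
    intro x hx hx1
    have h1 : x = ∑ j, (s j * psi W X ξ Lam D.slm.internal x (e (τ j))) • e j := by
      refine Submodule.span_induction (p := fun x _ =>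
        x = ∑ j, (s j * psi W X ξ Lam D.slm.internal x (e (τ j))) • e j) ?_ ?_ ?_ ?_ hx
      · rintro _ ⟨i, rfl⟩
        have h2 : ∀ j, s j * psi W X ξ Lam D.slm.internal (e i) (e (τ j)) =
            if i = j then 1 else 0 := fun j => crd_e D he hs hτ hψ j i
        simp only [h2, ite_smul, one_smul, zero_smul, Finset.sum_ite_eq, Finset.mem_univ, if_true]
      · have h2 : ∀ y, psi W X ξ Lam D.slm.internal 0 y = 0 := fun y => by
          have := psi_smul_left (ξ := ξ) (Lam := Lam) D.slm.internal (0 : ℂ) (0 : W.coh X) y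
          rwa [zero_smul, zero_mul] at this
        simp only [h2, mul_zero, zero_smul, Finset.sum_const_zero]
      · intro x y _ _ hx hy
        simp only [psi_add_left, mul_add, add_smul, Finset.sum_add_distrib]
        rw [← hx, ← hy]
      · intro c x _ hx
        have h2 : ∀ j, (s j * psi W X ξ Lam D.slm.internal (c • x) (e (τ j))) • e j =
            c • ((s j * psi W X ξ Lam D.slm.internal x (e (τ j))) • e j) := fun j => by
          rw [psi_smul_left, smul_smul]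
          congr 1
          ring
        simp only [h2]
        rw [← Finset.smul_sum, ← hx]
    exact h1
  exact key v (hspan v hv) hv

include he hs hτ hsτ hψ hspan in
/-- `D_j ξ = -c s_j e_(τ j)` -/
theorem D_crd (hg : 0 < g) (j : ι) : (extAlg hW hX hA hξ).D (crd D e τ s j) ξ =
    (-((W.tr X (ξ ^ g) / (g.factorial : ℂ)) * s j)) • e (τ j) := by
  have hE := extAlg hW hX hA hξ
  have hD : hE.D (crd D e τ s j) ξ ∈ W.gr X 1 :=
    (hE.D_gr (crd D e τ s j) 2 ξ (ξ_gr hW hX hA hξ)).2 1 rfl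
  have h1 := expand D he hs hτ hψ hspan ⟨_, hD⟩
  have h2 : ∀ i, crd D e τ s i ⟨hE.D (crd D e τ s j) ξ, hD⟩ =
      if i = τ j then -((W.tr X (ξ ^ g) / (g.factorial : ℂ)) * s j) else 0 := by
    intro i
    rw [crd_apply]
    show s i * psi W X ξ Lam D.slm.internal (hE.D (crd D e τ s j) ξ) (e (τ i)) = _
    have h3 := psi_D hW hX hA hξ D hg (crd D e τ s j) ⟨e (τ i), he (τ i)⟩
    have h4 : psi W X ξ Lam D.slm.internal (hE.D (crd D e τ s j) ξ) (e (τ i)) =
      (W.tr X (ξ ^ g) / (g.factorial : ℂ)) * crd D e τ s j ⟨e (τ i), he (τ i)⟩ := h3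
    rw [h4, crd_e D he hs hτ hψ j (τ i)]
    by_cases h : i = τ j
    · rw [if_pos h, if_pos (by rw [h, hτ]), h, hsτ]
      ring
    · rw [if_neg h, if_neg (fun h' => h (by rw [← h', hτ])), mul_zero, mul_zero]
  refine h1.trans ?_
  simp only [h2, ite_smul, zero_smul, Finset.sum_ite_eq', Finset.mem_univ, if_true]

include he hs hτ hψ hspan in
/-- the number operator -/
theorem num_gr {i : ℕ} {x : W.coh X} (hx : x ∈ W.gr X i) :
    ∑ j, e j * (extAlg hW hX hA hξ).D (crd D e τ s j) x = (i : ℂ) • x := by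
  have hE := extAlg hW hX hA hξ
  refine hE.deg_ind (P := fun i x => ∑ j, e j * hE.D (crd D e τ s j) x = (i : ℂ) • x)
    ?_ ?_ ?_ ?_ i x hx
  · intro i
    simp
  · intro i x y _ _ hx hy
    simp only [map_add, mul_add, Finset.sum_add_distrib, smul_add]
    rw [hx, hy]
  · intro c
    simp [hE.D_one]
  · intro i v hv x _ hx
    have h1 : ∀ j, e j * hE.D (crd D e τ s j) (v * x) = (crd D e τ s j ⟨v, hv⟩ • e j) * x +
        v * (e j * hE.D (crd D e τ s j) x) := by
      intro j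
      have h2 : hE.D (crd D e τ s j) (v * x) = crd D e τ s j ⟨v, hv⟩ • x -
        v * hE.D (crd D e τ s j) x := hE.D_mul (crd D e τ s j) ⟨v, hv⟩ x
      have h3 : e j * v = -(v * e j) := by
        rw [hW.comm_gr hX (he j) hv, mul_one, pow_one, neg_one_smul]
      rw [h2, mul_sub, mul_smul_comm, smul_mul_assoc, ← mul_assoc, h3, neg_mul, sub_neg_eq_add,
        mul_assoc]
    simp only [h1, Finset.sum_add_distrib]
    rw [← Finset.sum_mul, ← Finset.mul_sum, hx, ← expand D he hs hτ hψ hspan ⟨v, hv⟩,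
      mul_smul_comm]
    push_cast
    module

include he hs hτ hsτ hψ hspan in
/-- **The polarisation in the letters.** -/
theorem theta (hg : 0 < g) :
    ξ = (-(W.tr X (ξ ^ g) / (g.factorial : ℂ) / 2)) • ∑ j, s j • (e j * e (τ j)) := by
  have h1 := num_gr hW hX hA hξ D he hs hτ hψ hspan (ξ_gr hW hX hA hξ)
  simp only [D_crd hW hX hA hξ D he hs hτ hsτ hψ hspan hg, mul_smul_comm] at h1
  have h2 : ξ = (2 : ℂ)⁻¹ • (((2 : ℕ) : ℂ) • ξ) := by
    rw [smul_smul]
    norm_num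
  refine h2.trans ?_
  rw [← h1, Finset.smul_sum, Finset.smul_sum]
  refine Finset.sum_congr rfl fun j _ => ?_
  rw [smul_smul, smul_smul]
  congr 1
  ring

include he hs hψ in
/-- the traces of the letters -/
theorem tr_pair (hg : 0 < g) (j : ι) :
    W.tr X (s j • (e j * e (τ j)) * ξ ^ (g - 1)) = -((g - 1).factorial : ℂ) := by
  have h1 := psi_eq hW hX hA hξ D hg (he j) (he (τ j))
  rw [hψ, if_pos rfl] at h1
  have hf : ((g - 1).factorial : ℂ) ≠ 0 := by exact_mod_cast (g - 1).factorial_ne_zero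
  have h2 : e j * e (τ j) * ξ ^ (g - 1) = ξ ^ (g - 1) * (e j * e (τ j)) := by
    have h3 := hW.comm_gr hX (hW.mul_gr hX (he j) (he (τ j))) (pow_gr hW hX hA hξ (g - 1))
    rw [h3, show (1 + 1) * (2 * (g - 1)) = 2 * (2 * (g - 1)) by ring,
      (even_two_mul _).neg_one_pow, one_smul]
  have h4 : W.tr X (ξ ^ (g - 1) * (e j * e (τ j))) = -((g - 1).factorial : ℂ) * s j := by
    rw [h1]
    field_simp
  rw [smul_mul_assoc, map_smul, h2, h4, smul_eq_mul]
  linear_combination (-((g - 1).factorial : ℂ)) * hs j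

include he hs hτ hsτ hψ hspan in
/-- the facts on the polarisation, with positive constants -/
theorem facts (hg : 0 < g) : ∃ c κ : ℝ, 0 < c ∧ 0 < κ ∧
    ξ = (c : ℂ) • ∑ j, (-s j) • (e j * e (τ j)) ∧
    ∀ j, W.tr X ((-s j) • (e j * e (τ j)) * ξ ^ (g - 1)) = (κ : ℂ) := by
  obtain ⟨q, hq, hq'⟩ := hξ.2
  have h1 : W.tr X (ξ ^ g) = (q : ℂ) := hq'
  refine ⟨(q : ℝ) / (g.factorial : ℝ) / 2, ((g - 1).factorial : ℝ), ?_, ?_, ?_, fun j => ?_⟩
  · have : (0 : ℝ) < q := by exact_mod_cast hq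
    positivity
  · exact_mod_cast (g - 1).factorial_pos
  · refine (theta hW hX hA hξ D he hs hτ hsτ hψ hspan hg).trans ?_
    rw [h1]
    simp only [neg_smul, Finset.sum_neg_distrib, smul_neg]
    push_cast
    rfl
  · have h2 := tr_pair hW hX hA hξ D he hs hψ hg j
    rw [neg_smul, neg_mul, map_neg, h2, neg_neg]
    push_cast
    rfl

end letters

end main

/-! ### The letters of degree one of a host -/

section host

open Pool.Agent.Lib.MP_361a6f_ag.FL.E

variable {k : Type u} [Field k] {W : CohomologyData.{u, 0, w} k ℂ} {𝒱 : VarietyClass k}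
  (H : Host W 𝒱 1)

theorem he : ∀ i : Sub H.D (0, 1), H.e 0 i.1 ∈ W.gr (H.X 0) 1 := by
  intro i
  have := H.e_gr 0 i.1
  rwa [i.2] at this

theorem hs : ∀ i : Sub H.D (0, 1), (subD H.D (0, 1)).s i * (subD H.D (0, 1)).s i = 1 := by
  intro i
  rcases (subD H.D (0, 1)).s_val i with h | h <;> rw [h] <;> norm_num

theorem hodd (i : Sub H.D (0, 1)) : H.D.odd (H.D.typ i.1) := by
  rw [H.odd_iff, i.2]
  exact odd_one

theorem hsτ : ∀ i : Sub H.D (0, 1), (subD H.D (0, 1)).s ((subD H.D (0, 1)).τ i) =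
    -(subD H.D (0, 1)).s i :=
  fun i => (H.D.odd_τ i.1 (hodd H i)).2

theorem hψ : ∀ i j : Sub H.D (0, 1),
    psi W (H.X 0) (H.ξ 0) (H.Lam 0) (H.lam 0).slm.internal (H.e 0 i.1) (H.e 0 j.1) =
      if j = (subD H.D (0, 1)).τ i then (subD H.D (0, 1)).s i else 0 := by
  intro i j
  rw [H.e_psi 0 i.1 j.1 (by rw [i.2]) (by rw [j.2])]
  by_cases h : j = (subD H.D (0, 1)).τ i
  · rw [if_pos h, if_pos (by rw [h, subD_τ])]
    rfl
  · have h2 : ¬ (j.1 = H.D.τ i.1) := fun h' => h (Subtype.ext h')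
    rw [if_neg h, if_neg h2]

theorem hspan : ∀ v ∈ W.gr (H.X 0) 1,
    v ∈ Submodule.span ℂ (Set.range fun i : Sub H.D (0, 1) => H.e 0 i.1) := by
  intro v hv
  have hI := (H.lam 0).slm.internal
  have key : ∀ x ∈ Submodule.span ℂ (Set.range (H.e 0)), pj hI 1 x ∈
      Submodule.span ℂ (Set.range fun i : Sub H.D (0, 1) => H.e 0 i.1) := by
    intro x hx
    refine Submodule.span_induction (p := fun x _ => pj hI 1 x ∈
      Submodule.span ℂ (Set.range fun i : Sub H.D (0, 1) => H.e 0 i.1)) ?_ ?_ ?_ ?_ hx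
    · rintro _ ⟨i, rfl⟩
      have h0 : (H.D.typ i).1 = 0 := Subsingleton.elim _ _
      by_cases h1 : (H.D.typ i).2 = 1
      · have h2 : H.D.typ i = (0, 1) := Prod.ext h0 h1
        have h3 := H.e_gr 0 i
        rw [h1] at h3
        rw [pj_same hI h3]
        exact Submodule.subset_span ⟨⟨i, h2⟩, rfl⟩
      · rw [pj_ne hI h1 (H.e_gr 0 i)]
        exact Submodule.zero_mem _
    · rw [map_zero]
      exact Submodule.zero_mem _
    · intro x y _ _ hx hy
      rw [map_add]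
      exact Submodule.add_mem _ hx hy
    · intro c x _ hx
      rw [map_smul]
      exact Submodule.smul_mem _ _ hx
  have h1 := key v (by rw [H.e_span 0]; trivial)
  rwa [pj_same hI hv] at h1

/-- **The facts on the polarisation of a host.** -/
theorem host (hA : AbelianType W (H.X 0) (H.n 0))
    (hξ : PositiveDivisor W (H.X 0) (H.n 0) (H.ξ 0)) (hg : 0 < H.n 0) :
    ∃ c κ : ℝ, 0 < c ∧ 0 < κ ∧
    H.ξ 0 = (c : ℂ) • ∑ j : Sub H.D (0, 1), (-(subD H.D (0, 1)).s j) •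
      (H.e 0 j.1 * H.e 0 ((subD H.D (0, 1)).τ j).1) ∧
    ∀ j : Sub H.D (0, 1), W.tr (H.X 0) ((-(subD H.D (0, 1)).s j) •
      (H.e 0 j.1 * H.e 0 ((subD H.D (0, 1)).τ j).1) * (H.ξ 0) ^ (H.n 0 - 1)) = (κ : ℂ) :=
  facts H.hW (H.mem 0) hA hξ (H.lam 0) (e := fun i : Sub H.D (0, 1) => H.e 0 i.1)
    (he H) (hs H) (subD H.D (0, 1)).τ_τ (hsτ H) (hψ H) (hspan H) hg

end host

end Theta

end Pool.Agent.Lib.MP_361a6f_ag.FL.PT
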