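import Pool.Agent.Lib.MP_361a6f_ag.FL.PT.Wrd

/-!
# Codimension two: the adapted basis and the reduction to pairs of words

`Ct` is the system of the algebraic tensors over `H^1` of a variety over a finite field, and `F` is
the matrix of Frobenius.
-/

set_option autoImplicit false
set_option linter.unusedSectionVars false

open Matrix

namespace Pool.Agent.Lib.MP_361a6f_ag.FL.PT

open Pool.Agent.Lib.MP_361a6f_ag.FL.E Pool.Agent.Lib.MP_361a6f_ag.FL.E.QS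

variable {I Λ : Type} [Fintype I] [DecidableEq I] [DecidableEq Λ]

/-- the data of the reduction: the part of `NSys` that belongs to `Ct` and `F` -/
structure YSys (D : Dat I Λ) (Ct : (L : ℕ) → Ten I L → Prop) (F : Matrix I I ℂ) : Prop where
  csys : ASys D Ct
  typ_eq : ∀ i j, D.typ i = D.typ j
  odd : ∀ i, D.odd (D.typ i)
  frob : IsG D F
  mten : mten D F ∈ Submodule.span ℝ {u | Ct 2 u}
  pos : ∀ u, Ct 2 u → u ≠ 0 → ∃ q : ℚ, 0 < q ∧ psiT D u u = (q : ℂ)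
  comm : ∀ x : Matrix I I ℂ, (∀ u, Ct 2 u → x * opM D u = opM D u * x) →
    x ∈ Algebra.adjoin ℂ {F}

theorem YSys.of_nsys {D : Dat I Λ} {At Ct : (L : ℕ) → Ten I L → Prop} {F : Matrix I I ℂ}
    {Γ : Set (Matrix I I ℂ)} (S : NSys D At Ct F Γ) : YSys D Ct F :=
  ⟨S.csys, S.typ_eq, S.odd, S.frob, S.mten, S.pos, S.comm⟩

/-- **The adapted basis.** -/
theorem exists_frame (hY : YStatement) (a1 : Alg1) (a2 : Alg2) {D : Dat I Λ}
    {Ct : (L : ℕ) → Ten I L → Prop} {F : Matrix I I ℂ} (S : YSys D Ct F) :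
    ∃ Y : Matrix I I ℂ, IsG D Y ∧ PSys D (fun L u => Ct L (gT Y u)) := by
  obtain ⟨Y, l, hG, hFY, hn, hτ, hj⟩ := rea hY a1 S.odd S.typ_eq S.csys S.pos S.frob S.mten
  obtain ⟨hY1, hY2, hY3⟩ := a1.G_inv D Y hG
  have hS : ASys D (fun L u => Ct L (gT Y u)) := asys a1 a2 S.odd hG S.csys
  refine ⟨Y, hG, hS, S.odd, S.typ_eq, fun z hz => ?_⟩
  refine diag_mem a1 hS S.odd S.typ_eq ?_ ?_ hz
  · intro u hu
    have h := hj (gT Y u) (Submodule.subset_span hu)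
    rwa [gT_inv_gT a1 hG] at h
  · intro x hx
    have h5 : ∀ u, Ct 2 u → (Y * x * Y⁻¹) * opM D u = opM D u * (Y * x * Y⁻¹) := by
      intro u hu
      have h6 := hx (gT Y⁻¹ u) (by rw [psi_outer_gT a1 hG]; exact hu)
      have h7 := opM_gT S.odd a1 hG (gT Y⁻¹ u)
      rw [psi_outer_gT a1 hG] at h7
      rw [h7]
      have e1 : Y * x * Y⁻¹ * (Y * opM D (gT Y⁻¹ u) * Y⁻¹)
          = Y * (x * (Y⁻¹ * Y) * opM D (gT Y⁻¹ u)) * Y⁻¹ := by
        simp only [Matrix.mul_assoc]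
      have e2 : Y * opM D (gT Y⁻¹ u) * Y⁻¹ * (Y * x * Y⁻¹)
          = Y * (opM D (gT Y⁻¹ u) * (Y⁻¹ * Y) * x) * Y⁻¹ := by
        simp only [Matrix.mul_assoc]
      rw [e1, e2, hY3, Matrix.mul_one, Matrix.mul_one, h6]
    obtain ⟨z, -, hz'⟩ := adjoin_diag hY3 hY2 hFY (S.comm _ h5)
    refine ⟨z, ?_⟩
    rw [← hz']
    have : Y⁻¹ * (Y * x * Y⁻¹) * Y = (Y⁻¹ * Y) * x * (Y⁻¹ * Y) := by
      simp only [Matrix.mul_assoc]
    rw [this, hY3, Matrix.one_mul, Matrix.mul_one]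

/-- real combinations of tensors of length two, transported -/
theorem frame_diag (a1 : Alg1) {D : Dat I Λ} (hodd : ∀ i, D.odd (D.typ i))
    {Ct : (L : ℕ) → Ten I L → Prop} {Y : Matrix I I ℂ} (hG : IsG D Y)
    (P : PSys D (fun L u => Ct L (gT Y u))) {z : I → ℂ}
    (hz : ∀ i, z (D.τ i) = (starRingEnd ℂ) (z i)) :
    mten D (Y * Matrix.diagonal z * Y⁻¹) ∈ Submodule.span ℝ {u | Ct 2 u} := by
  obtain ⟨hY1, hY2, hY3⟩ := a1.G_inv D Y hG
  have h := P.diag z hz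
  have h2 : gT Y (mten D (Matrix.diagonal z)) = mten D (Y * Matrix.diagonal z * Y⁻¹) := by
    refine (Rea.gT_mten hodd hG ?_)
    rw [Matrix.mul_assoc (Y * Matrix.diagonal z), hY3, Matrix.mul_one]
  rw [← h2, ← spanR a1 hG Ct 2]
  exact ⟨_, h, rfl⟩

/-- **Positivity from the pairs of words.** -/
theorem psd (a1 : Alg1) {D : Dat I Λ} {Ct : (L : ℕ) → Ten I L → Prop} {Y : Matrix I I ℂ}
    (hG : IsG D Y) (P : PSys D (fun L u => Ct L (gT Y u))) {L : ℕ}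
    (hw : ∀ (w : Fin (L + 1) → I) (t : Ten I (L + 1)),
      gT Y t ∈ Submodule.span ℝ {u | Ct (L + 1) u} →
      (∀ w', w' ≠ w → w' ≠ D.τ ∘ w → t w' = 0) →
      ∃ r : ℝ, 0 ≤ r ∧ sg D w * (t w * t (D.τ ∘ w)) = (r : ℂ))
    {u : Ten I (L + 1)} (hu : u ∈ Submodule.span ℝ {u | Ct (L + 1) u}) :
    ∃ r : ℝ, 0 ≤ r ∧ psiT D u u = (r : ℂ) := by
  rw [← spanR a1 hG Ct (L + 1)] at hu
  obtain ⟨u', hu', rfl⟩ := hu
  obtain ⟨r, hr, h⟩ := psd_of_words P (fun w t ht h0 => hw w t (by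
    rw [← spanR a1 hG Ct (L + 1)]
    exact ⟨t, ht, rfl⟩) h0) hu'
  refine ⟨r, hr, ?_⟩
  rw [← h]
  exact a1.psiT_gT D Y u' u' hG

end Pool.Agent.Lib.MP_361a6f_ag.FL.PT
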