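import Pool.Agent.Lib.MP_361a6f_ag.FL.PT.Stat

/-!
# Codimension two, all abelian varieties, all powers: the statement
-/

open CategoryTheory AlgebraicGeometry MonoidalCategory CartesianMonoidalCategory

universe u v w w'

namespace Pool.Agent.Lib.MP_361a6f_ag.FL.EQ

open Pool.Agent.Lib.MP_361a6f_ag.H3 Pool.Agent.Lib.MP_361a6f_ag.SQ

variable {k : Type u} [Field k]

/-- `x` is numerically equivalent to `0`. -/
def NumTrivial (W : CohomologyData.{u, 0, w} k ℂ) (Y : Sch k) (x : W.coh Y) : Prop :=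
  ∀ l y, W.IsAlg Y l y → W.Tr (W.cup x y) = 0

/-- `Q1` modulo numerical equivalence for `(Y, η)`, in codimension `j`. -/
def Q1Num (W : CohomologyData.{u, 0, w} k ℂ) (Y : Sch k) (n : ℕ) (η : W.coh Y) (j : ℕ) : Prop :=
  ∀ x, 2 * j ≤ n → W.IsAlg Y j x → NumTrivial W Y (W.cup (η ^ (n - 2 * j + 1)) x) →
    ¬ NumTrivial W Y x → RatPos ((-1) ^ j * W.Tr (W.cup (η ^ (n - 2 * j)) (W.cup x x)))

end Pool.Agent.Lib.MP_361a6f_ag.FL.EQ

namespace Pool.Agent.Lib.MP_361a6f_ag.FL

open Pool.Agent.Lib.MP_361a6f_ag.H3 Pool.Agent.Lib.MP_361a6f_ag.SQ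

/-- **Theorem PT.** `Q1` modulo numerical equivalence holds in codimension at most `2` on all powers
of every abelian variety `X`; so it holds in all codimensions if the dimension is at most `5`. Here
`X'` is a reduction of `X` over the algebraic closure of a finite field and `ξ` is the class of an
ample divisor, so that `s(ξ)` is the class of an ample divisor on `X'`. -/
def ThmPGeoStatement : Prop :=
  ∀ {k : Type u} [Field k] (W : CohomologyData.{u, 0, w} k ℂ) (𝒱 : VarietyClass k)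
    (_ : IsWeilCohomology W 𝒱) {k' : Type v} [Field k'] (W' : CohomologyData.{v, 0, w'} k' ℂ)
    (𝒱' : VarietyClass k') (_ : IsWeilCohomology W' 𝒱') (D : EQ.Data W W') (_ : EQ.Hyp 𝒱 𝒱' D)
    (_ : EQ.Moving W' D.X' D.g (D.s (.leaf 0) D.ξ))
    (P : Prd 1) (η : W.coh (EQ.pw D.X P)) (_ : IsPol W (fun _ => D.ξ) P η) (j : ℕ) (_ : j ≤ 2),
    EQ.Q1Num W (EQ.pw D.X P) (P.dim fun _ => D.g) η j

end Pool.Agent.Lib.MP_361a6f_ag.FL
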