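import Pool.Agent.Lib.MP_361a6f_ag.FL.PT.EndPol
import Pool.Agent.Lib.MP_361a6f_ag.FL.PT.StatP

/-!
# Theorem PT, the end: `Q1` modulo numerical equivalence on all products

If `ψ` is positive semidefinite on the algebraic tensors of length `2 j` whose letters all have
degree one, then `Q1` holds in codimension `j`, modulo numerical equivalence, on all products of the
factors, for all polarisations. For `j = 0` nothing is assumed.
-/

open CategoryTheory AlgebraicGeometry MonoidalCategory CartesianMonoidalCategory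

universe u v w

set_option autoImplicit false
set_option linter.unusedSectionVars false

namespace Pool.Agent.Lib.MP_361a6f_ag.FL

open Pool.Agent.Lib.MP_361a6f_ag.H3 Pool.Agent.Lib.MP_361a6f_ag.SQ
  Pool.Agent.Lib.MP_361a6f_ag.PP Pool.Agent.Lib.MP_361a6f_ag.AV48

namespace EndFr

open EndE

variable {k : Type u} [Field k] {m : ℕ} {W : CohomologyData.{u, 0, w} k ℂ} {𝒱 : VarietyClass k}

section main

variable (H : Host W 𝒱 m) (hAb : ∀ a, AbelianType W (H.X a) (H.n a))
  (hpd : ∀ a, PositiveDivisor W (H.X a) (H.n a) (H.ξ a))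

include hAb hpd

/-- `ψ ≥ 0` on algebraic classes of codimension `j` -/
theorem semi {P : Prd m} {η : W.coh (P.obj H.X)} (hη : IsPol W H.ξ P η) (j : ℕ)
    (hpos : 0 < j → PosS H (2 * j)) :
    ∃ (Lam : Module.End ℂ (W.coh (P.obj H.X))) (D : LamData W (P.obj H.X) (P.dim H.n) η Lam),
      ∀ x ∈ tot W (P.obj H.X), x ∈ W.gr (P.obj H.X) (2 * j) →
        ∃ r : ℝ, 0 ≤ r ∧ psi W (P.obj H.X) η Lam D.slm.internal x x = (r : ℂ) := by
  obtain ⟨Lam, D, S, i, i', a, f, κ, F, hA, hp⟩ := exists_frm H hAb hpd hη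
  refine ⟨Lam, D, fun x hx hg => ?_⟩
  rcases Nat.eq_zero_or_pos j with rfl | hj
  · -- codimension zero
    obtain ⟨c, rfl⟩ := zero_gr H.hW (H.memP P) hA hp hg
    obtain ⟨r, hr, h11⟩ := psi_one H.hW (H.memP P) hA hp D
    have h1 : (1 : W.coh (P.obj H.X)) ∈ tot W (P.obj H.X) := one_tot H.hW (H.memP P)
    obtain ⟨q, hq⟩ := tot_tr H.hW (H.memP P) (tot_mul H.hW (H.memP P) hx
      (PSI.star_tot H.hW (H.memP P) hp.1 D h1 (H.hW.one_gr (H.memP P))))
    have h2 : psi W (P.obj H.X) η Lam D.slm.internal (c • 1) 1 = (q : ℂ) := hq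
    rw [psi_smul_left, h11] at h2
    have hr0 : (r : ℂ) ≠ 0 := by exact_mod_cast hr.ne'
    have h3 : c = (((q : ℝ) / r : ℝ) : ℂ) := by
      push_cast
      rw [eq_div_iff hr0, h2]
    refine ⟨((q : ℝ) / r) ^ 2 * r, by positivity, ?_⟩
    rw [psi_smul_left, psi_smul_right, h11, h3]
    push_cast
    ring
  · obtain ⟨n, hn⟩ : ∃ n, 2 * j = n + 1 := ⟨2 * j - 1, by omega⟩
    have hpos' := hpos hj
    rw [hn] at hpos' hg
    exact psi_nonneg H F hA hp hpos' hx hg

/-- **`Q1` in codimension `j`, modulo numerical equivalence.** -/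
theorem q1num {P : Prd m} {η : W.coh (P.obj H.X)} (hη : IsPol W H.ξ P η) (j : ℕ)
    (hpos : 0 < j → PosS H (2 * j)) : EQ.Q1Num W (P.obj H.X) (P.dim H.n) η j := by
  intro x hj hx h hx0
  obtain ⟨Lam, D, hs⟩ := semi H hAb hpd hη j hpos
  have key : ∀ z : W.coh (P.obj H.X), EQ.NumTrivial W (P.obj H.X) z ↔
      EndNum.Num W (P.obj H.X) z := by
    intro z
    constructor
    · intro hz y hy
      refine tot_induction H.hW (P := fun y => W.tr (P.obj H.X) (z * y) = 0) hy ?_ ?_
      · intro l y hy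
        exact hz l y hy
      · intro y y' h h'
        rw [mul_add, map_add, h, h', add_zero]
    · intro hz l y hy
      exact hz y (alg_le_tot H.hW _ l hy)
  exact EndNum.q1num H.hW (H.memP P) (GQ.pol_alg H hη) D hj hs hx ((key _).1 h)
    fun h1 => hx0 ((key _).2 h1)

end main

/-- semidefiniteness over the letter `(0, 1)` -/
theorem posS_of (H : Host W 𝒱 1) {L : ℕ} (h : ∀ u : Ten (E.Sub H.D (0, 1)) L,
    E.atS H.D (0, 1) (fun L u => u ∈ H.At L) L u →
      ∃ r : ℝ, 0 ≤ r ∧ psiT (E.subD H.D (0, 1)) u u = (r : ℂ)) : PosS H L := by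
  intro u hu hu1
  have e : u = E.ext0 H.D (0, 1) (fun w => u (E.up w)) :=
    E.eq_ext0 (fun _ => rfl) fun w hw => hu1 w fun hh => hw ((on_iff H w).2 hh)
  obtain ⟨r, hr, hp⟩ := h (fun w => u (E.up w)) (by
    change E.ext0 H.D (0, 1) (fun w => u (E.up w)) ∈ H.At L
    rw [← e]
    exact hu)
  refine ⟨r, hr, ?_⟩
  rwa [← E.psiT_ext, ← e] at hp

end EndFr

end Pool.Agent.Lib.MP_361a6f_ag.FL
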