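import Pool.Agent.Lib.MP_361a6f_ag.FL.PT.StatP

/-!
# All abelian varieties, all codimensions: what is generated by the classes of codimension at most 2
-/

open CategoryTheory AlgebraicGeometry MonoidalCategory CartesianMonoidalCategory

universe u v w w'

namespace Pool.Agent.Lib.MP_361a6f_ag.FL

open Pool.Agent.Lib.MP_361a6f_ag.H3 Pool.Agent.Lib.MP_361a6f_ag.SQ
  Pool.Agent.Lib.MP_361a6f_ag.PP

/-- `EQ.Made2 W X n P l z`: the class `z` of codimension `l` on the power `P` of `X` is made of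
algebraic classes of codimension at most `2` on the powers of `X` (`n` is the dimension of `X`), by
linear combinations with rational coefficients, cup products, and pull-backs and push-forwards along
the morphisms that are composed of projections, permutations of the factors and diagonals. -/
inductive EQ.Made2 {k : Type u} [Field k] (W : CohomologyData.{u, 0, w} k ℂ) (X : Sch k) (n : ℕ) :
    (P : Prd 1) → ℕ → W.coh (EQ.pw X P) → Prop
  | alg (P : Prd 1) (l : ℕ) (z : W.coh (EQ.pw X P)) : l ≤ 2 → W.IsAlg (EQ.pw X P) l z →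
      EQ.Made2 W X n P l z
  | add (P : Prd 1) (l : ℕ) (z z' : W.coh (EQ.pw X P)) : EQ.Made2 W X n P l z →
      EQ.Made2 W X n P l z' → EQ.Made2 W X n P l (z + z')
  | scal (P : Prd 1) (l : ℕ) (q : ℚ) (z : W.coh (EQ.pw X P)) : EQ.Made2 W X n P l z →
      EQ.Made2 W X n P l (W.scal (q : ℂ) z)
  | cup (P : Prd 1) (l l' : ℕ) (z z' : W.coh (EQ.pw X P)) : EQ.Made2 W X n P l z →
      EQ.Made2 W X n P l' z' → EQ.Made2 W X n P (l + l') (W.cup z z')
  | pb (P Q : Prd 1) (f : Sch.Mor (EQ.pw X P) (EQ.pw X Q)) (l : ℕ) (z : W.coh (EQ.pw X Q)) :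
      CoordMor (fun _ => X) 3 P Q f → EQ.Made2 W X n Q l z → EQ.Made2 W X n P l (W.pb f z)
  | pf (P Q : Prd 1) (f : Sch.Mor (EQ.pw X P) (EQ.pw X Q)) (l l' : ℕ) (z : W.coh (EQ.pw X P)) :
      CoordMor (fun _ => X) 3 P Q f → l + Q.dim (fun _ => n) = l' + P.dim (fun _ => n) →
      EQ.Made2 W X n P l z → EQ.Made2 W X n Q l' (W.pf f z)

/-- **Theorem PT+.** `Q1` modulo numerical equivalence holds, in all codimensions, for all classes
on the powers of an abelian variety that are generated by the algebraic classes of codimension at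
most `2` on these powers. -/
def ThmPPGeoStatement : Prop :=
  ∀ {k : Type u} [Field k] (W : CohomologyData.{u, 0, w} k ℂ) (𝒱 : VarietyClass k)
    (_ : IsWeilCohomology W 𝒱) {k' : Type v} [Field k'] (W' : CohomologyData.{v, 0, w'} k' ℂ)
    (𝒱' : VarietyClass k') (_ : IsWeilCohomology W' 𝒱') (D : EQ.Data W W') (_ : EQ.Hyp 𝒱 𝒱' D)
    (_ : EQ.Moving W' D.X' D.g (D.s (.leaf 0) D.ξ))
    (P : Prd 1) (η : W.coh (EQ.pw D.X P)) (_ : IsPol W (fun _ => D.ξ) P η) (j : ℕ)
    (z : W.coh (EQ.pw D.X P)) (_ : EQ.Made2 W D.X D.g P j z)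
    (_ : 2 * j ≤ P.dim fun _ => D.g)
    (_ : EQ.NumTrivial W (EQ.pw D.X P) (W.cup (η ^ ((P.dim fun _ => D.g) - 2 * j + 1)) z))
    (_ : ¬ EQ.NumTrivial W (EQ.pw D.X P) z),
    RatPos ((-1) ^ j * W.Tr (W.cup (η ^ ((P.dim fun _ => D.g) - 2 * j)) (W.cup z z)))

end Pool.Agent.Lib.MP_361a6f_ag.FL
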