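import Pool.Agent.Lib.MP_361a6f_ag.FL.PT.HR
import Pool.Agent.Lib.MP_361a6f_ag.FL.PT.StatPP

/-!
# From codimension at most two to everything that is generated
-/

open CategoryTheory AlgebraicGeometry MonoidalCategory CartesianMonoidalCategory
open Filter Topology

universe u v w w'

set_option autoImplicit false

namespace Pool.Agent.Lib.MP_361a6f_ag.FL

open Pool.Agent.Lib.MP_361a6f_ag.H3 Pool.Agent.Lib.MP_361a6f_ag.SQ
  Pool.Agent.Lib.MP_361a6f_ag.IP2 Pool.Agent.Lib.MP_361a6f_ag.PP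

namespace PTG

variable {k : Type u} [Field k] {W : CohomologyData.{u, 0, w} k ℂ} {𝒱 : VarietyClass k}

/-- the polarisations are algebraic -/
theorem isPol_alg (hW : IsWeilCohomology W 𝒱) {m : ℕ} {X : Fin m → Sch k} {n : Fin m → ℕ}
    (hX : ∀ a, 𝒱.mem (X a) (n a)) {ξ : ∀ a, W.coh (X a)} (hξ : ∀ a, ξ a ∈ W.alg (X a) 1)
    {P : Prd m} {η : W.coh (P.obj X)} (hη : IsPol W ξ P η) : η ∈ W.alg (P.obj X) 1 := by
  induction hη with
  | leaf a c _ => exact W.alg_smul _ (hξ a)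
  | prod P Q η θ _ _ h h' =>
    have hp := 𝒱.prod (memP hX P) (memP hX Q)
    exact add_mem (hW.pull_alg hp (memP hX P) _ h) (hW.pull_alg hp (memP hX Q) _ h')

/-- the trace of an algebraic class is rational -/
theorem tr_rat (hW : IsWeilCohomology W 𝒱) {Y : Sch k} {d : ℕ} (hY : 𝒱.mem Y d) {l : ℕ}
    {x : W.coh Y} (hx : x ∈ W.alg Y l) : ∃ q : ℚ, W.tr Y x = (q : ℂ) :=
  tot_tr hW hY (alg_le_tot hW _ l hx)

/-- `Q1` modulo numerical equivalence in codimension `j` gives a nonnegative form. -/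
theorem semi_of_q1 (hW : IsWeilCohomology W 𝒱) {Y : Sch k} {d : ℕ} (hY : 𝒱.mem Y d)
    {η : W.coh Y} (hη : η ∈ W.alg Y 1) {j : ℕ} (h : EQ.Q1Num W Y d η j) :
    SemiCodim W Y d η j := by
  intro hj x hx h0
  by_cases hn : EQ.NumTrivial W Y x
  · left
    have hx' : x ∈ W.alg Y j := hx
    have h1 : W.tr Y (x * (η ^ (d - 2 * j) * x)) = 0 :=
      hn _ _ (hW.mul_alg hY (hW.pow_alg hY hη _) hx')
    have h2 : η ^ (d - 2 * j) * (x * x) = x * (η ^ (d - 2 * j) * x) := by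
      rw [hW.alg_comm hY hx' (η ^ (d - 2 * j) * x), mul_assoc]
    change (-1) ^ j * W.tr Y (η ^ (d - 2 * j) * (x * x)) = 0
    rw [h2, h1, mul_zero]
  · right
    refine h x hj hx ?_ hn
    intro l y _
    rw [h0]
    have h3 : W.Tr (W.cup (0 : W.coh Y) y) = W.tr Y ((0 : W.coh Y) * y) := rfl
    rw [h3, zero_mul, map_zero]

variable {X : Sch k} {g : ℕ} {ξ : W.coh X}

/-- the classes made of classes of codimension at most two are algebraic -/
theorem made2_alg (hW : IsWeilCohomology W 𝒱) (hX : 𝒱.mem X g) {P : Prd 1} {l : ℕ}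
    {z : W.coh (EQ.pw X P)} (h : EQ.Made2 W X g P l z) : z ∈ W.alg (EQ.pw X P) l := by
  have hP : ∀ P : Prd 1, 𝒱.mem (EQ.pw X P) (P.dim fun _ => g) := fun P => memP (fun _ => hX) P
  induction h with
  | alg P l z _ hz => exact hz
  | add P l z z' _ _ h h' => exact add_mem h h'
  | scal P l q z _ h => exact W.alg_smul q h
  | cup P l l' z z' _ _ h h' => exact hW.mul_alg (hP P) h h'
  | pb P Q f l z _ _ h => exact hW.pull_alg (hP P) (hP Q) f h
  | pf P Q f l l' z _ hl _ h => exact hW.push_alg (hP P) (hP Q) f h hl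

/-- **Everything generated by the algebraic classes of codimension at most two.** -/
theorem gen_of_q1 (hW : IsWeilCohomology W 𝒱) (hX : 𝒱.mem X g)
    (h0 : ∀ x, W.Deg X 0 x → ∃ c : ℂ, x = W.scal c 1) (hU : EQ.Unital X)
    (hξ : PositiveDivisor W X g ξ)
    (hQ : ∀ P : Prd 1, ∀ j ≤ 2, EQ.Q1Num W (EQ.pw X P) (P.dim fun _ => g)
      (P.pol W fun _ => ξ) j)
    {P : Prd 1} {η : W.coh (EQ.pw X P)} (hη : IsPol W (fun _ => ξ) P η) {j : ℕ}
    {z : W.coh (EQ.pw X P)} (hz : EQ.Made2 W X g P j z) (hj : 2 * j ≤ P.dim fun _ => g)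
    (hp : EQ.NumTrivial W (EQ.pw X P) (W.cup (η ^ ((P.dim fun _ => g) - 2 * j + 1)) z))
    (hn : ¬ EQ.NumTrivial W (EQ.pw X P) z) :
    RatPos ((-1) ^ j * W.Tr (W.cup (η ^ ((P.dim fun _ => g) - 2 * j)) (W.cup z z))) := by
  obtain ⟨hHL, hAL, j0, hj0⟩ := unital hW hX h0 hU hξ
  have hP : ∀ P : Prd 1, 𝒱.mem (EQ.pw X P) (P.dim fun _ => g) := fun P => memP (fun _ => hX) P
  obtain ⟨J, hJ⟩ := exists_hrSys (X := fun _ : Fin 1 => X) (n := fun _ => g) hW (fun _ => hX)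
    (ξ := fun _ => ξ) (fun _ => hξ) (fun _ => hHL) (fun _ => hAL) (fun _ => j0) (fun _ => hj0)
  obtain ⟨C, G, Par, hodd⟩ := parity_semi (X := fun _ : Fin 1 => X) (n := fun _ => g) W 𝒱 hW
    (fun _ => hX) (ξ := fun _ => ξ) (fun _ => hξ) (fun _ => hHL) (fun _ => hAL) J hJ
  -- the classes of codimension at most two are even
  have heven : ∀ (P : Prd 1) (l : ℕ) (z : W.coh (EQ.pw X P)), l ≤ 2 → z ∈ W.alg (EQ.pw X P) l →
      C 0 P l z := by
    intro P l z hl hz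
    obtain ⟨x, y, hx, hy, hxy⟩ := (G.sum P l z).1 (Submodule.subset_span hz)
    have h1 : IsNumR W (P.obj fun _ => X) l y := hodd P l (fun i hi =>
      semi_of_q1 hW (hP P) (isPol_alg hW (fun _ => hX) (fun _ => hξ.1) (HodgeZ.isPol _ P))
        (hQ P i (hi.trans hl))) y hy
    obtain ⟨V, hV⟩ := G.lin 0 P l
    rw [hV] at hx ⊢
    rw [hxy]
    exact add_mem hx ((hV y).1 ((G.num P l y).1 h1).1)
  -- so all classes made of them are even
  have hgen : ∀ (P : Prd 1) (l : ℕ) (z : W.coh (EQ.pw X P)), EQ.Made2 W X g P l z →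
      C 0 P l z := by
    intro P l z h
    induction h with
    | alg P l z hl hz => exact heven P l z hl hz
    | add P l z z' _ _ h h' =>
      obtain ⟨V, hV⟩ := G.lin 0 P l
      rw [hV] at h h' ⊢
      exact add_mem h h'
    | scal P l q z _ h =>
      obtain ⟨V, hV⟩ := G.lin 0 P l
      rw [hV] at h ⊢
      have h1 := V.smul_mem (q : ℝ) h
      have h2 : ((q : ℝ) • z : W.coh (EQ.pw X P)) = W.scal (q : ℂ) z := by
        have e : (((q : ℝ) : ℂ)) = (q : ℂ) := by push_cast; rfl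
        change (((q : ℝ) : ℂ)) • z = (q : ℂ) • z
        rw [e]
      rw [← h2]
      exact h1
    | cup P l l' z z' _ _ h h' =>
      have h1 := G.cup P 0 0 l l' z z' h h'
      rwa [add_zero] at h1
    | pb P Q f l z hf _ h => exact G.pb P Q f hf 0 l z h
    | pf P Q f l l' z hf hl _ h => exact G.pf P Q f hf 0 l l' z hl h
  have hza := made2_alg hW hX hz
  have hηa : η ∈ W.alg (EQ.pw X P) 1 := isPol_alg hW (fun _ => hX) (fun _ => hξ.1) hη
  have hal : η ^ ((P.dim fun _ => g) - 2 * j + 1) * z ∈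
      W.alg (EQ.pw X P) ((P.dim fun _ => g) - j + 1) := by
    have h1 := hW.mul_alg (hP P) (hW.pow_alg (hP P) hηa ((P.dim fun _ => g) - 2 * j + 1)) hza
    rwa [show (P.dim fun _ => g) - 2 * j + 1 + j = (P.dim fun _ => g) - j + 1 by omega] at h1
  obtain ⟨r, hr, h⟩ := Par.form P η hη 0 j z hj (hgen P j z hz)
    ⟨Submodule.subset_span hal, hp⟩ (fun h => hn h.2)
  have h1 : j + (0 : ZMod 2).val = j := by rw [ZMod.val_zero, add_zero]
  rw [h1] at h
  obtain ⟨q, hq⟩ := tr_rat hW (hP P) (hW.mul_alg (hP P)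
    (hW.pow_alg (hP P) hηa ((P.dim fun _ => g) - 2 * j)) (hW.mul_alg (hP P) hza hza))
  have h2 : W.Tr (W.cup (η ^ ((P.dim fun _ => g) - 2 * j)) (W.cup z z)) = (q : ℂ) := hq
  rw [h2] at h ⊢
  refine ⟨(-1) ^ j * q, ?_, by push_cast; rfl⟩
  have h3 : (((-1) ^ j * q : ℚ) : ℝ) = r := by
    have h4 : ((((-1) ^ j * q : ℚ) : ℝ) : ℂ) = (r : ℂ) := by
      rw [← h]
      push_cast
      rfl
    exact_mod_cast h4
  exact_mod_cast h3.symm ▸ hr

/-- **Theorem PT+ from Theorem PT.** -/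
theorem thmPP (h : ThmPGeoStatement.{u, v, w, w'}) : ThmPPGeoStatement.{u, v, w, w'} := by
  intro k _ W 𝒱 hW k' _ W' 𝒱' hW' D hD hM P η hη j z hz hj hp hn
  exact gen_of_q1 hW hD.mem hD.conn hD.unital hD.div
    (fun P j hj => h W 𝒱 hW W' 𝒱' hW' D hD hM P _ (HodgeZ.isPol _ P) j hj) hη hz hj hp hn

end PTG

end Pool.Agent.Lib.MP_361a6f_ag.FL
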