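import Pool.Agent.Lib.MP_361a6f_ag.FL.E.NSys
import Pool.Agent.Lib.MP_361a6f_ag.FL.E.S.Slot
import Mathlib.RingTheory.SimpleModule.Basic

/-!
# Codimension two: the diagonal matrices are real combinations of endomorphisms

In a basis of eigenvectors of Frobenius which is adapted to the real structure of the endomorphisms,
the real span of the matrices of the endomorphisms contains all diagonal matrices that commute with
the real structure (double commutant theorem and the theorem of Tate).
-/

set_option autoImplicit false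
set_option linter.unusedSectionVars false

open Matrix
open scoped ComplexOrder

namespace Pool.Agent.Lib.MP_361a6f_ag.FL.PT

open Pool.Agent.Lib.MP_361a6f_ag.FL.E Pool.Agent.Lib.MP_361a6f_ag.FL.E.QS

variable {I Λ : Type} [Fintype I] [DecidableEq I] [DecidableEq Λ] {D : Dat I Λ}

/-- **Double commutant theorem**: a matrix that commutes with the commutant of a subspace of
matrices closed under products and adjoints, with unit, belongs to the subspace. -/
theorem bicommutant (B : Submodule ℂ (Matrix I I ℂ)) (h1 : (1 : Matrix I I ℂ) ∈ B)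
    (hm : ∀ x ∈ B, ∀ y ∈ B, x * y ∈ B) (hs : ∀ x ∈ B, x.conjTranspose ∈ B) (T : Matrix I I ℂ)
    (hT : ∀ x : Matrix I I ℂ, (∀ y ∈ B, x * y = y * x) → x * T = T * x) : T ∈ B := by
  classical
  -- the algebra as a subalgebra of the endomorphisms
  let R : Subalgebra ℂ (Module.End ℂ (I → ℂ)) :=
    { carrier := {f | ∃ x ∈ B, Matrix.toLin' x = f}
      mul_mem' := by
        rintro _ _ ⟨x, hx, rfl⟩ ⟨y, hy, rfl⟩
        exact ⟨x * y, hm x hx y hy, Matrix.toLin'_mul x y⟩
      add_mem' := by
        rintro _ _ ⟨x, hx, rfl⟩ ⟨y, hy, rfl⟩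
        exact ⟨x + y, add_mem hx hy, map_add _ _ _⟩
      algebraMap_mem' := by
        intro c
        refine ⟨c • 1, B.smul_mem c h1, ?_⟩
        rw [map_smul, Matrix.toLin'_one]
        rfl }
  have hR : ∀ x ∈ B, Matrix.toLin' x ∈ R := fun x hx => ⟨x, hx, rfl⟩
  -- semisimplicity
  have hss : IsSemisimpleModule R (I → ℂ) := by
    rw [isSemisimpleModule_iff]
    refine ⟨fun U => ?_⟩
    -- the orthogonal complement
    let V : Submodule R (I → ℂ) :=
      { carrier := {v | ∀ u ∈ U, star u ⬝ᵥ v = 0}
        add_mem' := by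
          intro a b ha hb u hu
          rw [dotProduct_add, ha u hu, hb u hu, add_zero]
        zero_mem' := by
          intro u hu
          exact dotProduct_zero _
        smul_mem' := by
          rintro ⟨_, x, hx, rfl⟩ v hv u hu
          have h2 : (⟨Matrix.toLin' x.conjTranspose, hR _ (hs x hx)⟩ : R) • u ∈ U :=
            U.smul_mem _ hu
          have h3 := hv _ h2
          have h4 : (⟨Matrix.toLin' x.conjTranspose, hR _ (hs x hx)⟩ : R) • u
              = x.conjTranspose.mulVec u := rfl
          have h5 : (⟨Matrix.toLin' x, hR _ hx⟩ : R) • v = x.mulVec v := rfl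
          rw [h4, Matrix.star_mulVec, Matrix.conjTranspose_conjTranspose,
            ← Matrix.dotProduct_mulVec] at h3
          show star u ⬝ᵥ ((⟨Matrix.toLin' x, _⟩ : R) • v) = 0
          exact h3 }
    refine ⟨V, ?_, ?_⟩
    · rw [disjoint_iff]
      refine (Submodule.eq_bot_iff _).2 fun v hv => ?_
      have h2 := hv.2 v hv.1
      exact dotProduct_self_star_eq_zero.1 (by rw [dotProduct_comm]; exact h2)
    · rw [codisjoint_iff]
      refine (Submodule.eq_top_iff').2 fun v => ?_
      -- orthogonal projection in the euclidean space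
      let K : Submodule ℂ (EuclideanSpace ℂ I) :=
        { carrier := {u | (WithLp.ofLp u : I → ℂ) ∈ U}
          add_mem' := fun {a b} ha hb => U.add_mem ha hb
          zero_mem' := U.zero_mem
          smul_mem' := by
            intro c u hu
            have h2 := U.smul_mem (⟨algebraMap ℂ _ c, R.algebraMap_mem c⟩ : R) hu
            exact h2 }
      obtain ⟨y, hy, z, hz, hyz⟩ := K.exists_add_mem_mem_orthogonal (WithLp.toLp 2 v)
      refine Submodule.mem_sup.2 ⟨WithLp.ofLp y, hy, WithLp.ofLp z, ?_, ?_⟩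
      · intro u hu
        have h2 := (Submodule.mem_orthogonal _ _).1 hz (WithLp.toLp 2 u) hu
        rw [EuclideanSpace.inner_eq_star_dotProduct] at h2
        rw [dotProduct_comm]
        exact h2
      · rw [← WithLp.ofLp_add, ← hyz]
  -- the endomorphism
  let f : Module.End (Module.End R (I → ℂ)) (I → ℂ) :=
    { toFun := fun v => T.mulVec v
      map_add' := fun a b => Matrix.mulVec_add T a b
      map_smul' := by
        intro φ v
        -- the matrix of `φ`
        have hc : ∀ (c : ℂ) (v : I → ℂ), φ (c • v) = c • φ v := fun c v =>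
          φ.map_smul (⟨algebraMap ℂ _ c, R.algebraMap_mem c⟩ : R) v
        let ψ : (I → ℂ) →ₗ[ℂ] (I → ℂ) :=
          { toFun := φ, map_add' := φ.map_add, map_smul' := hc }
        have h2 := hT (LinearMap.toMatrix' ψ) (by
          intro y hy
          apply Matrix.toLin'.injective
          rw [Matrix.toLin'_mul, Matrix.toLin'_mul, Matrix.toLin'_toMatrix']
          refine LinearMap.ext fun v => ?_
          exact φ.map_smul (⟨Matrix.toLin' y, hR y hy⟩ : R) v)
        have h3 : ∀ v, (LinearMap.toMatrix' ψ).mulVec v = φ v := by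
          intro v
          rw [← Matrix.toLin'_apply, Matrix.toLin'_toMatrix']
          rfl
        show T.mulVec (φ v) = φ (T.mulVec v)
        rw [← h3 v, ← h3 (T.mulVec v), Matrix.mulVec_mulVec, Matrix.mulVec_mulVec, h2] }
  obtain ⟨r, hr⟩ := jacobson_density (R := R) (M := I → ℂ) f (Finset.univ.image fun i : I => Pi.single i (1 : ℂ))
  obtain ⟨x, hx, hxr⟩ := r.2
  have h2 : T = x := by
    ext i j
    have h3 := hr (Pi.single j 1) (Finset.mem_image.2 ⟨j, Finset.mem_univ j, rfl⟩)
    have h4 : r • (Pi.single j 1 : I → ℂ) = x.mulVec (Pi.single j 1) := by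
      have : r • (Pi.single j 1 : I → ℂ) = (r : Module.End ℂ (I → ℂ)) (Pi.single j 1) := rfl
      rw [this, ← hxr]
      rfl
    have h5 : T.mulVec (Pi.single j 1) = x.mulVec (Pi.single j 1) := by
      rw [← h4]
      exact h3
    have h6 := congrFun h5 i
    rwa [Matrix.mulVec_single_one, Matrix.mulVec_single_one] at h6
  rw [h2]
  exact hx

/-- a matrix in the first slot of a tensor of length `2` -/
theorem opM_sl (A : Matrix I I ℂ) (u : Ten I 2) : opM D (Slot.sl A 0 u) = A * opM D u := by
  ext i j
  rw [Matrix.mul_apply]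
  show Slot.sl A 0 u ![i, D.τ j] * D.s j = ∑ c, A i c * (u ![c, D.τ j] * D.s j)
  rw [Slot.sl, Finset.sum_mul]
  refine Finset.sum_congr rfl fun c _ => ?_
  have h : Function.update (![i, D.τ j] : Fin 2 → I) 0 c = ![c, D.τ j] := by
    funext t
    fin_cases t <;> rfl
  rw [h]
  show A i c * u ![c, D.τ j] * D.s j = _
  ring

/-- the adjoint of the matrix of a real tensor of length `2` -/
theorem opM_star (hodd : ∀ i, D.odd (D.typ i)) {u : Ten I 2} (hu : jT D u = u) :
    (opM D u).conjTranspose = -opM D (permT (Equiv.swap 0 1) u) := by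
  have h1 : jT D (mten D (opM D u)) = mten D (opM D u) := by rw [mten_opM, hu]
  have h2 := Rea.mten_fix hodd h1
  ext i j
  rw [Matrix.conjTranspose_apply, Matrix.neg_apply]
  have h3 := h2 (D.τ j) (D.τ i)
  rw [D.τ_τ, D.τ_τ, (D.odd_τ j (hodd j)).2, (D.odd_τ i (hodd i)).2] at h3
  show (starRingEnd ℂ) (opM D u j i) = _
  rw [h3]
  have h4 : opM D u (D.τ j) (D.τ i) = u ![D.τ j, i] * (-D.s i) := by
    show u ![D.τ j, D.τ (D.τ i)] * D.s (D.τ i) = _
    rw [D.τ_τ, (D.odd_τ i (hodd i)).2]
  have h5 : opM D (permT (Equiv.swap 0 1) u) i j = u ![D.τ j, i] * D.s j := by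
    show u (![i, D.τ j] ∘ (Equiv.swap (0 : Fin 2) 1)) * D.s j = _
    congr 2
    funext t
    fin_cases t <;> rfl
  rw [h4, h5]
  have h6 := s_sq D i
  linear_combination (-D.s j * u ![D.τ j, i]) * h6

variable {Bt : (L : ℕ) → Ten I L → Prop}

theorem endS_one (S : ASys D Bt) (htyp : ∀ i j, D.typ i = D.typ j) :
    (1 : Matrix I I ℂ) ∈ endS D Bt := by
  by_cases hI : Nonempty I
  · obtain ⟨i0⟩ := hI
    refine Submodule.subset_span ⟨om D (D.typ i0), S.om _, ?_⟩
    ext i j
    show _ = om D (D.typ i0) ![i, D.τ j] * D.s j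
    rw [om]
    have h1 : (![i, D.τ j] : Fin 2 → I) 0 = i := rfl
    have h2 : (![i, D.τ j] : Fin 2 → I) 1 = D.τ j := rfl
    rw [h1, h2]
    by_cases h : i = j
    · subst h
      rw [Matrix.one_apply_eq, if_pos ⟨htyp _ _, rfl⟩, s_sq]
    · rw [Matrix.one_apply_ne h, if_neg, zero_mul]
      rintro ⟨-, h3⟩
      apply h
      have h4 := congrArg D.τ h3
      rw [D.τ_τ, D.τ_τ] at h4
      exact h4.symm
  · have h : (1 : Matrix I I ℂ) = 0 := by
      ext i
      exact absurd ⟨i⟩ hI
    rw [h]
    exact zero_mem _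

theorem endS_mul (S : ASys D Bt) (hodd : ∀ i, D.odd (D.typ i))
    (htyp : ∀ i j, D.typ i = D.typ j) {x y : Matrix I I ℂ} (hx : x ∈ endS D Bt)
    (hy : y ∈ endS D Bt) : x * y ∈ endS D Bt := by
  induction hx using Submodule.span_induction with
  | mem x hx =>
    obtain ⟨z, hz, rfl⟩ := hx
    induction hy using Submodule.span_induction with
    | mem y hy =>
      obtain ⟨z', hz', rfl⟩ := hy
      rw [← opM_sl]
      exact Submodule.subset_span ⟨_, Slot.sl_mem S htyp hodd hz 0 hz', rfl⟩
    | zero => rw [Matrix.mul_zero]; exact zero_mem _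
    | add a b _ _ ha hb => rw [Matrix.mul_add]; exact add_mem ha hb
    | smul c a _ ha => rw [Matrix.mul_smul]; exact Submodule.smul_mem _ _ ha
  | zero => rw [Matrix.zero_mul]; exact zero_mem _
  | add a b _ _ ha hb => rw [Matrix.add_mul]; exact add_mem ha hb
  | smul c a _ ha => rw [Matrix.smul_mul]; exact Submodule.smul_mem _ _ ha

theorem endS_star (S : ASys D Bt) (hodd : ∀ i, D.odd (D.typ i))
    (hfix : ∀ u, Bt 2 u → jT D u = u) {x : Matrix I I ℂ} (hx : x ∈ endS D Bt) :
    x.conjTranspose ∈ endS D Bt := by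
  induction hx using Submodule.span_induction with
  | mem x hx =>
    obtain ⟨z, hz, rfl⟩ := hx
    rw [opM_star hodd (hfix z hz)]
    exact neg_mem (Submodule.subset_span ⟨_, S.perm 2 _ z hz, rfl⟩)
  | zero => rw [Matrix.conjTranspose_zero]; exact zero_mem _
  | add a b _ _ ha hb => rw [Matrix.conjTranspose_add]; exact add_mem ha hb
  | smul c a _ ha => rw [Matrix.conjTranspose_smul]; exact Submodule.smul_mem _ _ ha

/-- the real part of a complex combination of real tensors is a real combination -/
theorem add_jT_mem (a1 : Alg1) {L : ℕ} {B : Set (Ten I L)} (hB : ∀ u ∈ B, jT D u = u)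
    {u : Ten I L} (hu : u ∈ Submodule.span ℂ B) :
    ∀ c : ℂ, c • u + (starRingEnd ℂ) c • jT D u ∈ Submodule.span ℝ B := by
  induction hu using Submodule.span_induction with
  | mem u hu =>
    intro c
    rw [hB u hu, ← add_smul, Complex.add_conj, Complex.coe_smul]
    exact Submodule.smul_mem _ _ (Submodule.subset_span hu)
  | zero =>
    intro c
    have h := a1.jT_smul D (0 : ℂ) (0 : Ten I L)
    rw [zero_smul, map_zero, zero_smul] at h
    rw [h, smul_zero, smul_zero, add_zero]
    exact zero_mem _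
  | add a b _ _ ha hb =>
    intro c
    rw [a1.jT_add]
    have h : c • (a + b) + (starRingEnd ℂ) c • (jT D a + jT D b)
        = (c • a + (starRingEnd ℂ) c • jT D a) + (c • b + (starRingEnd ℂ) c • jT D b) := by
      rw [smul_add, smul_add]
      abel
    rw [h]
    exact add_mem (ha c) (hb c)
  | smul r a _ ha =>
    intro c
    rw [a1.jT_smul, smul_smul, smul_smul, ← map_mul]
    exact ha (c * r)

/-- a real tensor in the complex span of real tensors is in the real span -/
theorem real_mem (a1 : Alg1) {L : ℕ} {B : Set (Ten I L)} (hB : ∀ u ∈ B, jT D u = u)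
    {u : Ten I L} (hu : u ∈ Submodule.span ℂ B) (hj : jT D u = u) :
    u ∈ Submodule.span ℝ B := by
  have h := add_jT_mem a1 hB hu (1 / 2)
  rw [hj, ← add_smul] at h
  have h2 : (1 / 2 + (starRingEnd ℂ) (1 / 2) : ℂ) = 1 := by
    rw [map_div₀, map_one, Complex.conj_ofNat]
    norm_num
  rwa [h2, one_smul] at h

/-- **The diagonal matrices that commute with the real structure are real combinations of
endomorphisms.** -/
theorem diag_mem (a1 : Alg1) (S : ASys D Bt) (hodd : ∀ i, D.odd (D.typ i))
    (htyp : ∀ i j, D.typ i = D.typ j) (hfix : ∀ u, Bt 2 u → jT D u = u)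
    (comm : ∀ x : Matrix I I ℂ, (∀ u, Bt 2 u → x * opM D u = opM D u * x) →
      ∃ z : I → ℂ, x = Matrix.diagonal z)
    {z : I → ℂ} (hz : ∀ i, z (D.τ i) = (starRingEnd ℂ) (z i)) :
    mten D (Matrix.diagonal z) ∈ Submodule.span ℝ {u | Bt 2 u} := by
  have h1 : Matrix.diagonal z ∈ endS D Bt := by
    refine bicommutant _ (endS_one S htyp) (fun x hx y hy => endS_mul S hodd htyp hx hy)
      (fun x hx => endS_star S hodd hfix hx) _ fun x hx => ?_
    obtain ⟨y, rfl⟩ := comm x fun u hu => hx _ (Submodule.subset_span ⟨u, hu, rfl⟩)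
    rw [Matrix.diagonal_mul_diagonal, Matrix.diagonal_mul_diagonal]
    congr 1
    funext i
    exact mul_comm _ _
  have h2 : mten D (Matrix.diagonal z) ∈ Submodule.span ℂ {u | Bt 2 u} := by
    have h3 : ∀ x ∈ endS D Bt, mten D x ∈ Submodule.span ℂ {u | Bt 2 u} := by
      intro x hx
      induction hx using Submodule.span_induction with
      | mem x hx =>
        obtain ⟨u, hu, rfl⟩ := hx
        rw [mten_opM]
        exact Submodule.subset_span hu
      | zero =>
        rw [← opM_zero (D := D), mten_opM]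
        exact zero_mem _
      | add a b _ _ ha hb =>
        have h4 : mten D (a + b) = mten D a + mten D b := by
          rw [← mten_opM (D := D) (mten D a + mten D b), opM_add, opM_mten, opM_mten]
        rw [h4]
        exact add_mem ha hb
      | smul c a _ ha =>
        have h4 : mten D (c • a) = c • mten D a := by
          rw [← mten_opM (D := D) (c • mten D a), opM_smul, opM_mten]
        rw [h4]
        exact Submodule.smul_mem _ _ ha
    exact h3 _ h1
  refine real_mem a1 hfix h2 ?_
  funext w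
  rw [jT, sg, Fin.prod_univ_two]
  show D.s (D.τ (w 0)) * D.s (D.τ (w 1)) * (starRingEnd ℂ)
      (Matrix.diagonal z (D.τ (w 0)) (D.τ (D.τ (w 1))) * D.s (D.τ (D.τ (w 1))))
    = Matrix.diagonal z (w 0) (D.τ (w 1)) * D.s (D.τ (w 1))
  rw [D.τ_τ, Matrix.diagonal_apply, Matrix.diagonal_apply]
  by_cases h : w 0 = D.τ (w 1)
  · rw [if_pos (by rw [h, D.τ_τ]), if_pos h, map_mul, hz, Complex.conj_conj, Rea.conj_s,
      (D.odd_τ _ (hodd (w 1))).2]
    have h3 : D.s (D.τ (w 0)) = D.s (w 1) := by rw [h, D.τ_τ]
    have h4 := s_sq D (w 1)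
    rw [h3]
    linear_combination (-(D.s (w 1)) * z (w 0)) * h4
  · have h2 : ¬ D.τ (w 0) = D.τ (D.τ (w 1)) := by
      intro h3
      apply h
      have h4 := congrArg D.τ h3
      rwa [D.τ_τ, D.τ_τ] at h4
    rw [D.τ_τ] at h2
    rw [if_neg h, if_neg h2, zero_mul, zero_mul, map_zero, mul_zero]

end Pool.Agent.Lib.MP_361a6f_ag.FL.PT
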