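import Mathlib

/-!
# Theorem PT, row A: the Grassmann step

Four slots with letters `x i`, `y i`, two copies (`φ` and `ψ`) of each letter. The class
`e (p, q; a) = ∑_{i < j} w_i w_j + p ∏ x_i(a) + q ∏ y_i(a)`, with `x_i(a) = a φ x_i + ψ x_i`,
`y_i(a) = ā φ y_i + ψ y_i` and `w_i = x_i(a) y_i(a)`. The integral over the second copy of the
product of three such classes is computed.
-/

set_option autoImplicit false
set_option linter.unusedSimpArgs false
set_option linter.unusedSectionVars false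

namespace Pool.Agent.Lib.MP_361a6f_ag.FL.PT

universe u v

variable {S : Type u} {R : Type v} [Ring S] [Algebra ℂ S] [Ring R] [Algebra ℂ R]

/-- The letters `x i`, `y i` anticommute. -/
structure Let (x y : Fin 4 → S) : Prop where
  xx : ∀ i j, x i * x j = -(x j * x i)
  yy : ∀ i j, y i * y j = -(y j * y i)
  xy : ∀ i j, x i * y j = -(y j * x i)

/-- the four monomials in the letters of the slot `i` -/
def mf (x y : Fin 4 → S) (i : Fin 4) : Fin 4 → S := ![1, x i, y i, x i * y i]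

/-- Two copies `φ`, `ψ` of the algebra of the letters; the integral `I` over the second copy, given
by a functional `τ` that is `κ` on the product of all letters and `0` on the other monomials. -/
structure Sys (x y : Fin 4 → S) (φ ψ : S →ₐ[ℂ] R) (τ : S →ₗ[ℂ] ℂ) (I : R →ₗ[ℂ] S) (κ : ℂ) :
    Prop where
  letS : Let x y
  xx : ∀ i j, φ (x i) * ψ (x j) = -(ψ (x j) * φ (x i))
  yy : ∀ i j, φ (y i) * ψ (y j) = -(ψ (y j) * φ (y i))
  xy : ∀ i j, φ (x i) * ψ (y j) = -(ψ (y j) * φ (x i))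
  yx : ∀ i j, φ (y i) * ψ (x j) = -(ψ (x j) * φ (y i))
  int : ∀ b c, I (φ b * ψ c) = τ c • b
  tau : ∀ b : Fin 4 → Fin 4,
    τ (mf x y 0 (b 0) * mf x y 1 (b 1) * mf x y 2 (b 2) * mf x y 3 (b 3))
      = if ∀ i, b i = 3 then κ else 0

/-- the square of a letter is zero -/
theorem sq_zero_of {A : Type*} [Ring A] [Algebra ℂ A] {a : A} (h : a * a = -(a * a)) :
    a * a = 0 := by
  have h2 : (2 : ℂ) • (a * a) = 0 := by
    rw [two_smul]
    nth_rewrite 1 [h]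
    simp
  exact (smul_eq_zero.mp h2).resolve_left two_ne_zero

/-- multiplication slot by slot, even factors -/
theorem mul4 {A : Type*} [Ring A] {g h : Fin 4 → A} (hc : ∀ i j, i ≠ j → h i * g j = g j * h i) :
    (g 0 * g 1 * g 2 * g 3) * (h 0 * h 1 * h 2 * h 3)
      = (g 0 * h 0) * (g 1 * h 1) * (g 2 * h 2) * (g 3 * h 3) := by
  have h01 := hc 0 1 (by decide)
  have h02 := hc 0 2 (by decide)
  have h03 := hc 0 3 (by decide)
  have h12 := hc 1 2 (by decide)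
  have h13 := hc 1 3 (by decide)
  have h23 := hc 2 3 (by decide)
  calc (g 0 * g 1 * g 2 * g 3) * (h 0 * h 1 * h 2 * h 3)
      = g 0 * g 1 * g 2 * (g 3 * h 0) * h 1 * h 2 * h 3 := by noncomm_ring
    _ = g 0 * g 1 * (g 2 * h 0) * g 3 * h 1 * h 2 * h 3 := by rw [← h03]; noncomm_ring
    _ = g 0 * (g 1 * h 0) * g 2 * g 3 * h 1 * h 2 * h 3 := by rw [← h02]; noncomm_ring
    _ = g 0 * h 0 * g 1 * g 2 * (g 3 * h 1) * h 2 * h 3 := by rw [← h01]; noncomm_ring
    _ = g 0 * h 0 * g 1 * (g 2 * h 1) * g 3 * h 2 * h 3 := by rw [← h13]; noncomm_ring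
    _ = g 0 * h 0 * g 1 * h 1 * g 2 * (g 3 * h 2) * h 3 := by rw [← h12]; noncomm_ring
    _ = _ := by rw [← h23]; noncomm_ring

/-- multiplication slot by slot, odd factors: six signs -/
theorem mul4' {A : Type*} [Ring A] {g h : Fin 4 → A}
    (hc : ∀ i j, i ≠ j → h i * g j = -(g j * h i)) :
    (g 0 * g 1 * g 2 * g 3) * (h 0 * h 1 * h 2 * h 3)
      = (g 0 * h 0) * (g 1 * h 1) * (g 2 * h 2) * (g 3 * h 3) := by
  have h01 : g 1 * h 0 = -(h 0 * g 1) := by rw [hc 0 1 (by decide), neg_neg]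
  have h02 : g 2 * h 0 = -(h 0 * g 2) := by rw [hc 0 2 (by decide), neg_neg]
  have h03 : g 3 * h 0 = -(h 0 * g 3) := by rw [hc 0 3 (by decide), neg_neg]
  have h12 : g 2 * h 1 = -(h 1 * g 2) := by rw [hc 1 2 (by decide), neg_neg]
  have h13 : g 3 * h 1 = -(h 1 * g 3) := by rw [hc 1 3 (by decide), neg_neg]
  have h23 : g 3 * h 2 = -(h 2 * g 3) := by rw [hc 2 3 (by decide), neg_neg]
  calc (g 0 * g 1 * g 2 * g 3) * (h 0 * h 1 * h 2 * h 3)
      = g 0 * g 1 * g 2 * (g 3 * h 0) * h 1 * h 2 * h 3 := by noncomm_ring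
    _ = -(g 0 * g 1 * (g 2 * h 0) * g 3 * h 1 * h 2 * h 3) := by rw [h03]; noncomm_ring
    _ = g 0 * (g 1 * h 0) * g 2 * g 3 * h 1 * h 2 * h 3 := by rw [h02]; noncomm_ring
    _ = -(g 0 * h 0 * g 1 * g 2 * (g 3 * h 1) * h 2 * h 3) := by rw [h01]; noncomm_ring
    _ = g 0 * h 0 * g 1 * (g 2 * h 1) * g 3 * h 2 * h 3 := by rw [h13]; noncomm_ring
    _ = -(g 0 * h 0 * g 1 * h 1 * g 2 * (g 3 * h 2) * h 3) := by rw [h12]; noncomm_ring
    _ = _ := by rw [h23]; noncomm_ring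

section slots

variable {x y : Fin 4 → S} {φ ψ : S →ₐ[ℂ] R} {τ : S →ₗ[ℂ] ℂ} {I : R →ₗ[ℂ] S} {κ : ℂ}

/-- the sign of moving `ψ B` across `φ a` -/
def SC (φ ψ : S →ₐ[ℂ] R) (B a : S) : Prop :=
  ψ B * φ a = φ a * ψ B ∨ ψ B * φ a = -(φ a * ψ B)

theorem SC.mulL {B B' a : S} (h : SC φ ψ B a) (h' : SC φ ψ B' a) : SC φ ψ (B * B') a := by
  unfold SC at *
  rw [map_mul]
  rcases h with h | h <;> rcases h' with h' | h'
  · left; rw [mul_assoc, h', ← mul_assoc, h, mul_assoc]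
  · right; rw [mul_assoc, h', mul_neg, ← mul_assoc, h, mul_assoc]
  · right; rw [mul_assoc, h', ← mul_assoc, h, neg_mul, mul_assoc]
  · left; rw [mul_assoc, h', mul_neg, ← mul_assoc, h, neg_mul, neg_neg, mul_assoc]

theorem SC.mulR {B a a' : S} (h : SC φ ψ B a) (h' : SC φ ψ B a') : SC φ ψ B (a * a') := by
  unfold SC at *
  rw [map_mul]
  rcases h with h | h <;> rcases h' with h' | h'
  · left; rw [← mul_assoc, h, mul_assoc, h', ← mul_assoc]
  · right; rw [← mul_assoc, h, mul_assoc, h', mul_neg, ← mul_assoc]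
  · right; rw [← mul_assoc, h, neg_mul, mul_assoc, h', ← mul_assoc]
  · left; rw [← mul_assoc, h, neg_mul, mul_assoc, h', mul_neg, neg_neg, ← mul_assoc]

theorem SC.oneL {a : S} : SC φ ψ 1 a := Or.inl (by simp)
theorem SC.oneR {B : S} : SC φ ψ B 1 := Or.inl (by simp)

theorem sc_mf (h : Sys x y φ ψ τ I κ) (i j b a : Fin 4) : SC φ ψ (mf x y i b) (mf x y j a) := by
  have hxx : ∀ i j, SC φ ψ (x i) (x j) := fun i j => Or.inr (by rw [h.xx, neg_neg])
  have hxy : ∀ i j, SC φ ψ (x i) (y j) := fun i j => Or.inr (by rw [h.yx, neg_neg])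
  have hyx : ∀ i j, SC φ ψ (y i) (x j) := fun i j => Or.inr (by rw [h.xy, neg_neg])
  have hyy : ∀ i j, SC φ ψ (y i) (y j) := fun i j => Or.inr (by rw [h.yy, neg_neg])
  have hL : ∀ B, SC φ ψ B (x j) → SC φ ψ B (y j) → SC φ ψ B (mf x y j a) := by
    intro B h1 h2
    fin_cases a
    · exact SC.oneR
    · exact h1
    · exact h2
    · exact h1.mulR h2
  fin_cases b
  · exact SC.oneL
  · exact hL _ (hxx _ _) (hxy _ _)
  · exact hL _ (hyx _ _) (hyy _ _)
  · exact (hL _ (hxx _ _) (hxy _ _)).mulL (hL _ (hyx _ _) (hyy _ _))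

/-- the even letter pair commutes -/
theorem sc_full (h : Sys x y φ ψ τ I κ) (i j a : Fin 4) :
    ψ (mf x y i 3) * φ (mf x y j a) = φ (mf x y j a) * ψ (mf x y i 3) := by
  have hx : ψ (x i * y i) * φ (x j) = φ (x j) * ψ (x i * y i) := by
    rw [map_mul, mul_assoc, show ψ (y i) * φ (x j) = -(φ (x j) * ψ (y i)) by
      rw [h.xy, neg_neg], mul_neg, ← mul_assoc, show ψ (x i) * φ (x j) = -(φ (x j) * ψ (x i)) by
      rw [h.xx, neg_neg], neg_mul, neg_neg, mul_assoc]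
  have hy : ψ (x i * y i) * φ (y j) = φ (y j) * ψ (x i * y i) := by
    rw [map_mul, mul_assoc, show ψ (y i) * φ (y j) = -(φ (y j) * ψ (y i)) by
      rw [h.yy, neg_neg], mul_neg, ← mul_assoc, show ψ (x i) * φ (y j) = -(φ (y j) * ψ (x i)) by
      rw [h.yx, neg_neg], neg_mul, neg_neg, mul_assoc]
  change ψ (x i * y i) * _ = _ * ψ (x i * y i)
  fin_cases a
  · simp [mf]
  · exact hx
  · exact hy
  · change ψ (x i * y i) * φ (x j * y j) = φ (x j * y j) * ψ (x i * y i)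
    rw [map_mul φ, ← mul_assoc, hx, mul_assoc, hy, ← mul_assoc]

/-- the integral of a monomial -/
theorem int_mono (h : Sys x y φ ψ τ I κ) (a b : Fin 4 → Fin 4) :
    I ((φ (mf x y 0 (a 0)) * ψ (mf x y 0 (b 0))) * (φ (mf x y 1 (a 1)) * ψ (mf x y 1 (b 1)))
        * (φ (mf x y 2 (a 2)) * ψ (mf x y 2 (b 2))) * (φ (mf x y 3 (a 3)) * ψ (mf x y 3 (b 3))))
      = if ∀ i, b i = 3 then
          κ • (mf x y 0 (a 0) * mf x y 1 (a 1) * mf x y 2 (a 2) * mf x y 3 (a 3)) else 0 := by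
  split_ifs with hb
  · have e : ∀ i, b i = 3 := hb
    rw [e 0, e 1, e 2, e 3]
    have c := sc_full h
    have key : (φ (mf x y 0 (a 0)) * ψ (mf x y 0 3)) * (φ (mf x y 1 (a 1)) * ψ (mf x y 1 3))
        * (φ (mf x y 2 (a 2)) * ψ (mf x y 2 3)) * (φ (mf x y 3 (a 3)) * ψ (mf x y 3 3))
        = φ (mf x y 0 (a 0) * mf x y 1 (a 1) * mf x y 2 (a 2) * mf x y 3 (a 3))
          * ψ (mf x y 0 3 * mf x y 1 3 * mf x y 2 3 * mf x y 3 3) := by
      rw [← mul4 (g := fun i => φ (mf x y i (a i))) (h := fun i => ψ (mf x y i 3))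
        (fun i j _ => c i j (a j))]
      simp only [map_mul]
    rw [key, h.int]
    have := h.tau (fun _ => 3)
    simp only [implies_true, if_true] at this
    rw [this]
  · obtain ⟨s, hs⟩ : ∃ s : ℂ,
        (φ (mf x y 0 (a 0)) * ψ (mf x y 0 (b 0))) * (φ (mf x y 1 (a 1)) * ψ (mf x y 1 (b 1)))
        * (φ (mf x y 2 (a 2)) * ψ (mf x y 2 (b 2))) * (φ (mf x y 3 (a 3)) * ψ (mf x y 3 (b 3)))
        = s • (φ (mf x y 0 (a 0) * mf x y 1 (a 1) * mf x y 2 (a 2) * mf x y 3 (a 3))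
          * ψ (mf x y 0 (b 0) * mf x y 1 (b 1) * mf x y 2 (b 2) * mf x y 3 (b 3))) := by
      have st : ∀ (A B a b : S), SC φ ψ B a → ∃ s : ℂ,
          (φ A * ψ B) * (φ a * ψ b) = s • (φ (A * a) * ψ (B * b)) := by
        intro A B a b hc
        rcases hc with hc | hc
        · refine ⟨1, ?_⟩
          rw [one_smul, map_mul, map_mul]
          calc φ A * ψ B * (φ a * ψ b) = φ A * (ψ B * φ a) * ψ b := by noncomm_ring
            _ = _ := by rw [hc]; noncomm_ring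
        · refine ⟨-1, ?_⟩
          rw [neg_one_smul, map_mul, map_mul]
          calc φ A * ψ B * (φ a * ψ b) = φ A * (ψ B * φ a) * ψ b := by noncomm_ring
            _ = _ := by rw [hc]; noncomm_ring
      obtain ⟨s1, h1⟩ := st (mf x y 0 (a 0)) (mf x y 0 (b 0)) (mf x y 1 (a 1)) (mf x y 1 (b 1))
        (sc_mf h _ _ _ _)
      obtain ⟨s2, h2⟩ := st (mf x y 0 (a 0) * mf x y 1 (a 1)) (mf x y 0 (b 0) * mf x y 1 (b 1))
        (mf x y 2 (a 2)) (mf x y 2 (b 2)) ((sc_mf h _ _ _ _).mulL (sc_mf h _ _ _ _))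
      obtain ⟨s3, h3⟩ := st (mf x y 0 (a 0) * mf x y 1 (a 1) * mf x y 2 (a 2))
        (mf x y 0 (b 0) * mf x y 1 (b 1) * mf x y 2 (b 2))
        (mf x y 3 (a 3)) (mf x y 3 (b 3))
        (((sc_mf h _ _ _ _).mulL (sc_mf h _ _ _ _)).mulL (sc_mf h _ _ _ _))
      refine ⟨s1 * (s2 * s3), ?_⟩
      rw [h1, smul_mul_assoc, h2, smul_mul_assoc, smul_mul_assoc, h3, smul_smul, smul_smul,
        mul_assoc]
    rw [hs, map_smul, h.int, h.tau, if_neg hb, zero_smul, smul_zero]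

/-- `g` is an element of the slot `i` with the top coefficient `l` in the second copy. -/
def Top (x y : Fin 4 → S) (φ ψ : S →ₐ[ℂ] R) (i : Fin 4) (g : R) (l : S) : Prop :=
  ∃ c : Fin 4 → Fin 4 → ℂ, g = ∑ m : Fin 4 × Fin 4, c m.1 m.2 •
      (φ (mf x y i m.1) * ψ (mf x y i m.2)) ∧ l = ∑ a, c a 3 • mf x y i a

theorem Top.lin {i : Fin 4} {g : R} {l : S} (hg : Top x y φ ψ i g l) (F : R →ₗ[ℂ] S)
    (G : S →ₗ[ℂ] S)
    (hF : ∀ a b, F (φ (mf x y i a) * ψ (mf x y i b)) = if b = 3 then G (mf x y i a) else 0) :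
    F g = G l := by
  obtain ⟨c, rfl, rfl⟩ := hg
  rw [map_sum, map_sum, Fintype.sum_prod_type]
  refine Finset.sum_congr rfl fun a _ => ?_
  simp only [map_smul, hF]
  rw [Finset.sum_eq_single (3 : Fin 4)]
  · simp
  · intro b _ hb
    simp [hb]
  · simp

/-- **The integral is computed slot by slot.** -/
theorem int_top (h : Sys x y φ ψ τ I κ) {g : Fin 4 → R} {l : Fin 4 → S}
    (hg : ∀ i, Top x y φ ψ i (g i) (l i)) :
    I (g 0 * g 1 * g 2 * g 3) = κ • (l 0 * l 1 * l 2 * l 3) := by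
  have hm : ∀ a0 b0 a1 b1 a2 b2 a3 b3 : Fin 4,
      I ((φ (mf x y 0 a0) * ψ (mf x y 0 b0)) * (φ (mf x y 1 a1) * ψ (mf x y 1 b1))
        * (φ (mf x y 2 a2) * ψ (mf x y 2 b2)) * (φ (mf x y 3 a3) * ψ (mf x y 3 b3)))
      = if b0 = 3 then (if b1 = 3 then (if b2 = 3 then (if b3 = 3 then
          κ • (mf x y 0 a0 * mf x y 1 a1 * mf x y 2 a2 * mf x y 3 a3) else 0) else 0) else 0)
          else 0 := by
    intro a0 b0 a1 b1 a2 b2 a3 b3
    have := int_mono h ![a0, a1, a2, a3] ![b0, b1, b2, b3]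
    simp only [Matrix.cons_val_zero, Matrix.cons_val_one, Matrix.cons_val, Fin.forall_fin_succ,
      Fin.isValue, Matrix.cons_val_succ] at this
    rw [this]
    by_cases h0 : b0 = 3 <;> by_cases h1 : b1 = 3 <;> by_cases h2 : b2 = 3 <;>
      by_cases h3 : b3 = 3 <;> simp [h0, h1, h2, h3]
  have s0 : ∀ a1 b1 a2 b2 a3 b3 : Fin 4,
      I (g 0 * (φ (mf x y 1 a1) * ψ (mf x y 1 b1))
        * (φ (mf x y 2 a2) * ψ (mf x y 2 b2)) * (φ (mf x y 3 a3) * ψ (mf x y 3 b3)))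
      = (if b1 = 3 then (if b2 = 3 then (if b3 = 3 then
          κ • (l 0 * mf x y 1 a1 * mf x y 2 a2 * mf x y 3 a3) else 0) else 0) else 0) := by
    intro a1 b1 a2 b2 a3 b3
    have := (hg 0).lin (I ∘ₗ LinearMap.mulRight ℂ ((φ (mf x y 1 a1) * ψ (mf x y 1 b1))
        * (φ (mf x y 2 a2) * ψ (mf x y 2 b2)) * (φ (mf x y 3 a3) * ψ (mf x y 3 b3))))
      (if b1 = 3 then (if b2 = 3 then (if b3 = 3 then
          κ • LinearMap.mulRight ℂ (mf x y 1 a1 * mf x y 2 a2 * mf x y 3 a3) else 0) else 0)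
            else 0) (fun a b => by
        simp only [LinearMap.comp_apply, LinearMap.mulRight_apply]
        have e := hm a b a1 b1 a2 b2 a3 b3
        rw [mul_assoc, mul_assoc, ← mul_assoc (φ (mf x y 1 a1) * ψ (mf x y 1 b1))] at e
        rw [e]
        split_ifs <;> simp [mul_assoc])
    simp only [LinearMap.comp_apply, LinearMap.mulRight_apply] at this
    rw [mul_assoc, mul_assoc, ← mul_assoc (φ (mf x y 1 a1) * ψ (mf x y 1 b1)), this]
    split_ifs <;> simp [mul_assoc]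
  have s1 : ∀ a2 b2 a3 b3 : Fin 4,
      I (g 0 * g 1
        * (φ (mf x y 2 a2) * ψ (mf x y 2 b2)) * (φ (mf x y 3 a3) * ψ (mf x y 3 b3)))
      = (if b2 = 3 then (if b3 = 3 then
          κ • (l 0 * l 1 * mf x y 2 a2 * mf x y 3 a3) else 0) else 0) := by
    intro a2 b2 a3 b3
    have := (hg 1).lin (I ∘ₗ LinearMap.mulRight ℂ (
        (φ (mf x y 2 a2) * ψ (mf x y 2 b2)) * (φ (mf x y 3 a3) * ψ (mf x y 3 b3)))
          ∘ₗ LinearMap.mulLeft ℂ (g 0))
      (if b2 = 3 then (if b3 = 3 then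
          κ • (LinearMap.mulRight ℂ (mf x y 2 a2 * mf x y 3 a3) ∘ₗ LinearMap.mulLeft ℂ (l 0))
            else 0) else 0) (fun a b => by
        simp only [LinearMap.comp_apply, LinearMap.mulRight_apply, LinearMap.mulLeft_apply]
        rw [← mul_assoc, s0]
        split_ifs <;> simp [mul_assoc])
    simp only [LinearMap.comp_apply, LinearMap.mulRight_apply, LinearMap.mulLeft_apply] at this
    rw [← mul_assoc] at this
    rw [this]
    split_ifs <;> simp [mul_assoc]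
  have s2 : ∀ a3 b3 : Fin 4,
      I (g 0 * g 1 * g 2 * (φ (mf x y 3 a3) * ψ (mf x y 3 b3)))
      = (if b3 = 3 then κ • (l 0 * l 1 * l 2 * mf x y 3 a3) else 0) := by
    intro a3 b3
    have := (hg 2).lin (I ∘ₗ LinearMap.mulRight ℂ (φ (mf x y 3 a3) * ψ (mf x y 3 b3))
          ∘ₗ LinearMap.mulLeft ℂ (g 0 * g 1))
      (if b3 = 3 then
          κ • (LinearMap.mulRight ℂ (mf x y 3 a3) ∘ₗ LinearMap.mulLeft ℂ (l 0 * l 1))
            else 0) (fun a b => by
        simp only [LinearMap.comp_apply, LinearMap.mulRight_apply, LinearMap.mulLeft_apply]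
        rw [s1]
        split_ifs <;> simp [mul_assoc])
    simp only [LinearMap.comp_apply, LinearMap.mulRight_apply, LinearMap.mulLeft_apply] at this
    rw [this]
    split_ifs <;> simp [mul_assoc]
  have := (hg 3).lin (I ∘ₗ LinearMap.mulLeft ℂ (g 0 * g 1 * g 2))
    (κ • LinearMap.mulLeft ℂ (l 0 * l 1 * l 2)) (fun a b => by
      simp only [LinearMap.comp_apply, LinearMap.mulLeft_apply]
      rw [s2]
      split_ifs <;> simp [mul_assoc])
  simpa only [LinearMap.comp_apply, LinearMap.mulLeft_apply, LinearMap.smul_apply] using this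

/-- four anticommuting letters -/
structure Rel {A : Type*} [Ring A] (p P q Q : A) : Prop where
  pp : p * p = 0
  PP : P * P = 0
  qq : q * q = 0
  QQ : Q * Q = 0
  Pp : P * p = -(p * P)
  qp : q * p = -(p * q)
  Qp : Q * p = -(p * Q)
  Pq : P * q = -(q * P)
  Qz : Q * q = -(q * Q)
  QP : Q * P = -(P * Q)

namespace Rel

variable {A : Type*} [Ring A] [Algebra ℂ A] {p P q Q : A} (r : Rel p P q Q)

include r

theorem pp' (t : A) : p * (p * t) = 0 := by rw [← mul_assoc, r.pp, zero_mul]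
theorem PP' (t : A) : P * (P * t) = 0 := by rw [← mul_assoc, r.PP, zero_mul]
theorem qq' (t : A) : q * (q * t) = 0 := by rw [← mul_assoc, r.qq, zero_mul]
theorem QQ' (t : A) : Q * (Q * t) = 0 := by rw [← mul_assoc, r.QQ, zero_mul]
theorem Pp' (t : A) : P * (p * t) = -(p * (P * t)) := by
  rw [← mul_assoc, r.Pp, neg_mul, mul_assoc]
theorem qp' (t : A) : q * (p * t) = -(p * (q * t)) := by
  rw [← mul_assoc, r.qp, neg_mul, mul_assoc]
theorem Qp' (t : A) : Q * (p * t) = -(p * (Q * t)) := by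
  rw [← mul_assoc, r.Qp, neg_mul, mul_assoc]
theorem Pq' (t : A) : P * (q * t) = -(q * (P * t)) := by
  rw [← mul_assoc, r.Pq, neg_mul, mul_assoc]
theorem Qz' (t : A) : Q * (q * t) = -(q * (Q * t)) := by
  rw [← mul_assoc, r.Qz, neg_mul, mul_assoc]
theorem QP' (t : A) : Q * (P * t) = -(P * (Q * t)) := by
  rw [← mul_assoc, r.QP, neg_mul, mul_assoc]

/-- the product of two first letters -/
theorem exx (a b : ℂ) : (a • p + P) * (b • p + P) = (a - b) • (p * P) := by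
  simp only [mul_add, add_mul, smul_mul_assoc, mul_smul_comm, smul_add, mul_assoc, r.pp, r.PP,
    r.Pp, smul_zero, smul_neg]
  module

theorem eyy (a b : ℂ) : (a • q + Q) * (b • q + Q) = (a - b) • (q * Q) := by
  simp only [mul_add, add_mul, smul_mul_assoc, mul_smul_comm, smul_add, mul_assoc, r.qq, r.QQ,
    r.Qz, smul_zero, smul_neg]
  module

theorem exy (a b : ℂ) : (a • p + P) * (b • q + Q)
    = (a * b) • (p * q) + a • (p * Q) - b • (q * P) + P * Q := by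
  simp only [mul_add, add_mul, smul_mul_assoc, mul_smul_comm, smul_add, mul_assoc, r.Pq, smul_neg,
    smul_smul]
  module

theorem eyx (a b : ℂ) : (b • q + Q) * (a • p + P) = -((a • p + P) * (b • q + Q)) := by
  simp only [mul_add, add_mul, smul_mul_assoc, mul_smul_comm, smul_add, mul_assoc, r.Pq, smul_neg,
    smul_smul, r.qp, r.Qp, r.QP]
  module

/-- `x_a w_b` -/
theorem exw (a b b' : ℂ) : (a • p + P) * ((b • p + P) * (b' • q + Q))
    = (a - b) • (p * (P * Q)) - ((a - b) * b') • (p * (q * P)) := by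
  rw [← mul_assoc, r.exx]
  simp only [mul_add, smul_mul_assoc, mul_smul_comm, smul_add, mul_assoc, r.Pq, smul_neg,
    smul_smul, mul_neg]
  module

/-- `y_a w_b` -/
theorem eyw (a b b' : ℂ) : (a • q + Q) * ((b • p + P) * (b' • q + Q))
    = (a - b') • (q * (P * Q)) - ((a - b') * b) • (p * (q * Q)) := by
  rw [← mul_assoc, r.eyx, neg_mul, mul_assoc, r.eyy]
  simp only [add_mul, smul_mul_assoc, mul_smul_comm, smul_add, mul_assoc, smul_neg, mul_neg,
    smul_smul, r.Pq']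
  module

/-- `w_a w_b` -/
theorem eww (a a' b b' : ℂ) : ((a • p + P) * (a' • q + Q)) * ((b • p + P) * (b' • q + Q))
    = ((a - b) * (a' - b')) • (p * (q * (P * Q))) := by
  rw [mul_assoc, ← mul_assoc (a' • q + Q), r.eyx, neg_mul, mul_neg, mul_assoc, ← mul_assoc, r.exx,
    r.eyy]
  simp only [smul_mul_assoc, mul_smul_comm, mul_assoc, smul_smul, r.Pq', mul_neg, smul_neg]
  module

/-- `x_a w_b w_c` -/
theorem exww (a b b' c c' : ℂ) : (a • p + P) * (((b • p + P) * (b' • q + Q))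
    * ((c • p + P) * (c' • q + Q))) = 0 := by
  rw [r.eww]
  simp only [add_mul, smul_mul_assoc, mul_smul_comm, mul_assoc, r.pp', r.Pp', r.Pq', r.PP',
    smul_zero, neg_zero, mul_neg, mul_zero, neg_neg, add_zero]

theorem eyww (a b b' c c' : ℂ) : (a • q + Q) * (((b • p + P) * (b' • q + Q))
    * ((c • p + P) * (c' • q + Q))) = 0 := by
  rw [r.eww]
  simp only [add_mul, smul_mul_assoc, mul_smul_comm, mul_assoc, r.qp', r.qq', r.Qp', r.Qz', r.QP',
    r.QQ, smul_zero, neg_zero, mul_neg, mul_zero, neg_neg, add_zero]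

/-- `x_a y_b w_c` -/
theorem exyw (a b c c' : ℂ) : ((a • p + P) * (b • q + Q)) * ((c • p + P) * (c' • q + Q))
    = ((a - c) * (b - c')) • (p * (q * (P * Q))) := r.eww a b c c'

/-- `x_a x_b y_c` -/
theorem exxy (a b c : ℂ) : ((a • p + P) * (b • p + P)) * (c • q + Q)
    = (a - b) • (p * (P * Q)) - ((a - b) * c) • (p * (q * P)) := by
  rw [mul_assoc, r.exw]

/-- `x_a y_b y_c` -/
theorem exyy (a b c : ℂ) : ((a • p + P) * (b • q + Q)) * (c • q + Q)
    = (-(b - c)) • (q * (P * Q)) + ((b - c) * a) • (p * (q * Q)) := by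
  rw [mul_assoc, r.eyy]
  simp only [add_mul, smul_mul_assoc, mul_smul_comm, mul_assoc, smul_smul, r.Pq', smul_neg,
    smul_add]
  module

end Rel

/-- the letters of one slot -/
theorem rel (h : Sys x y φ ψ τ I κ) (i : Fin 4) :
    Rel (φ (x i)) (ψ (x i)) (φ (y i)) (ψ (y i)) := by
  have hx : x i * x i = 0 := sq_zero_of (h.letS.xx i i)
  have hy : y i * y i = 0 := sq_zero_of (h.letS.yy i i)
  refine ⟨by rw [← map_mul, hx, map_zero], by rw [← map_mul, hx, map_zero],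
    by rw [← map_mul, hy, map_zero], by rw [← map_mul, hy, map_zero],
    by rw [h.xx, neg_neg], ?_, by rw [h.xy, neg_neg], by rw [h.yx, neg_neg],
    by rw [h.yy, neg_neg], ?_⟩
  · rw [← map_mul, ← map_mul, h.letS.xy, map_neg, neg_neg]
  · rw [← map_mul, ← map_mul, h.letS.xy, map_neg, neg_neg]

theorem top_mk {i : Fin 4} {g : R} {l : S} (c : Fin 4 → Fin 4 → ℂ)
    (hg : g = c 0 0 • 1 + c 0 1 • ψ (x i) + c 0 2 • ψ (y i) + c 0 3 • (ψ (x i) * ψ (y i))
      + (c 1 0 • φ (x i) + c 1 1 • (φ (x i) * ψ (x i)) + c 1 2 • (φ (x i) * ψ (y i))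
        + c 1 3 • (φ (x i) * (ψ (x i) * ψ (y i))))
      + (c 2 0 • φ (y i) + c 2 1 • (φ (y i) * ψ (x i)) + c 2 2 • (φ (y i) * ψ (y i))
        + c 2 3 • (φ (y i) * (ψ (x i) * ψ (y i))))
      + (c 3 0 • (φ (x i) * φ (y i)) + c 3 1 • (φ (x i) * (φ (y i) * ψ (x i)))
        + c 3 2 • (φ (x i) * (φ (y i) * ψ (y i)))
        + c 3 3 • (φ (x i) * (φ (y i) * (ψ (x i) * ψ (y i))))))
    (hl : l = c 0 3 • 1 + c 1 3 • x i + c 2 3 • y i + c 3 3 • (x i * y i)) :
    Top x y φ ψ i g l := by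
  refine ⟨c, ?_, ?_⟩
  · rw [hg, Fintype.sum_prod_type]
    simp only [Fin.sum_univ_four, mf, Matrix.cons_val_zero, Matrix.cons_val_one, Matrix.cons_val,
      map_one, one_mul, mul_one, map_mul, mul_assoc]
  · rw [hl]
    simp only [Fin.sum_univ_four, mf, Matrix.cons_val_zero, Matrix.cons_val_one, Matrix.cons_val]

/-- the letter `x_i(a)` -/
def Xa (x : Fin 4 → S) (φ ψ : S →ₐ[ℂ] R) (a : ℂ) (i : Fin 4) : R := a • φ (x i) + ψ (x i)

/-- the class `w_i(a)` -/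
def Wa (x y : Fin 4 → S) (φ ψ : S →ₐ[ℂ] R) (a a' : ℂ) (i : Fin 4) : R :=
  Xa x φ ψ a i * Xa y φ ψ a' i


theorem top_one (i : Fin 4) : Top x y φ ψ i 1 0 :=
  top_mk ![![1, 0, 0, 0], 0, 0, 0] (by simp) (by simp)

theorem top_zero (i : Fin 4) : Top x y φ ψ i 0 0 :=
  top_mk ![![0, 0, 0, 0], 0, 0, 0] (by simp) (by simp)

theorem top_x (i : Fin 4) (a : ℂ) : Top x y φ ψ i ((Xa x φ ψ) a i) 0 :=
  top_mk ![![0, 1, 0, 0], ![a, 0, 0, 0], 0, 0] (by simp [Xa, add_comm]) (by simp)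

theorem top_y (i : Fin 4) (a : ℂ) : Top x y φ ψ i ((Xa y φ ψ) a i) 0 :=
  top_mk ![![0, 0, 1, 0], 0, ![a, 0, 0, 0], 0] (by simp [Xa, add_comm]) (by simp)

theorem top_xy (h : Sys x y φ ψ τ I κ) (i : Fin 4) (a b : ℂ) : Top x y φ ψ i ((Xa x φ ψ) a i * (Xa y φ ψ) b i) 1 :=
  top_mk ![![0, 0, 0, 1], ![0, 0, a, 0], ![0, -b, 0, 0], ![a * b, 0, 0, 0]]
    (by rw [Xa, Xa, (rel h i).exy]; simp; abel) (by simp)

theorem top_xx (h : Sys x y φ ψ τ I κ) (i : Fin 4) (a b : ℂ) : Top x y φ ψ i ((Xa x φ ψ) a i * (Xa x φ ψ) b i) 0 :=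
  top_mk ![0, ![0, a - b, 0, 0], 0, 0] (by rw [Xa, Xa, (rel h i).exx]; simp) (by simp)

theorem top_yy (h : Sys x y φ ψ τ I κ) (i : Fin 4) (a b : ℂ) : Top x y φ ψ i ((Xa y φ ψ) a i * (Xa y φ ψ) b i) 0 :=
  top_mk ![0, 0, ![0, 0, a - b, 0], 0] (by rw [Xa, Xa, (rel h i).eyy]; simp) (by simp)

theorem top_w (h : Sys x y φ ψ τ I κ) (i : Fin 4) (a a' : ℂ) : Top x y φ ψ i ((Wa x y φ ψ) a a' i) 1 :=
  top_xy h i a a'

theorem top_ww (h : Sys x y φ ψ τ I κ) (i : Fin 4) (a a' b b' : ℂ) :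
    Top x y φ ψ i ((Wa x y φ ψ) a a' i * (Wa x y φ ψ) b b' i) (((a - b) * (a' - b')) • (x i * y i)) :=
  top_mk ![0, 0, 0, ![0, 0, 0, (a - b) * (a' - b')]]
    (by rw [Wa, Wa, Xa, Xa, Xa, Xa, (rel h i).eww]; simp) (by simp)

theorem top_www (h : Sys x y φ ψ τ I κ) (i : Fin 4) (a a' b b' c c' : ℂ) :
    Top x y φ ψ i ((Wa x y φ ψ) a a' i * (Wa x y φ ψ) b b' i * (Wa x y φ ψ) c c' i) 0 := by
  have e : (Wa x y φ ψ) a a' i * (Wa x y φ ψ) b b' i * (Wa x y φ ψ) c c' i = 0 := by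
    rw [mul_assoc, Wa, mul_assoc]
    have : (Xa y φ ψ) a' i * ((Wa x y φ ψ) b b' i * (Wa x y φ ψ) c c' i) = 0 := (rel h i).eyww a' b b' c c'
    rw [this, mul_zero]
  rw [e]
  exact top_zero i

theorem top_xw (h : Sys x y φ ψ τ I κ) (i : Fin 4) (a b b' : ℂ) :
    Top x y φ ψ i ((Xa x φ ψ) a i * (Wa x y φ ψ) b b' i) ((a - b) • x i) :=
  top_mk ![0, ![0, 0, 0, a - b], 0, ![0, -((a - b) * b'), 0, 0]]
    (by rw [Wa, Xa, Xa, Xa, (rel h i).exw]; simp; abel) (by simp)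

theorem top_yw (h : Sys x y φ ψ τ I κ) (i : Fin 4) (a b b' : ℂ) :
    Top x y φ ψ i ((Xa y φ ψ) a i * (Wa x y φ ψ) b b' i) ((a - b') • y i) :=
  top_mk ![0, 0, ![0, 0, 0, a - b'], ![0, 0, -((a - b') * b), 0]]
    (by rw [Wa, Xa, Xa, Xa, (rel h i).eyw]; simp; abel) (by simp)

theorem top_xww (h : Sys x y φ ψ τ I κ) (i : Fin 4) (a b b' c c' : ℂ) :
    Top x y φ ψ i ((Xa x φ ψ) a i * (Wa x y φ ψ) b b' i * (Wa x y φ ψ) c c' i) 0 := by
  have e : (Xa x φ ψ) a i * (Wa x y φ ψ) b b' i * (Wa x y φ ψ) c c' i = 0 := by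
    rw [mul_assoc]
    exact (rel h i).exww a b b' c c'
  rw [e]
  exact top_zero i

theorem top_yww (h : Sys x y φ ψ τ I κ) (i : Fin 4) (a b b' c c' : ℂ) :
    Top x y φ ψ i ((Xa y φ ψ) a i * (Wa x y φ ψ) b b' i * (Wa x y φ ψ) c c' i) 0 := by
  have e : (Xa y φ ψ) a i * (Wa x y φ ψ) b b' i * (Wa x y φ ψ) c c' i = 0 := by
    rw [mul_assoc]
    exact (rel h i).eyww a b b' c c'
  rw [e]
  exact top_zero i

theorem top_xyw (h : Sys x y φ ψ τ I κ) (i : Fin 4) (a b c c' : ℂ) :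
    Top x y φ ψ i ((Xa x φ ψ) a i * (Xa y φ ψ) b i * (Wa x y φ ψ) c c' i) (((a - c) * (b - c')) • (x i * y i)) :=
  top_ww h i a b c c'

theorem top_xxy (h : Sys x y φ ψ τ I κ) (i : Fin 4) (a b c : ℂ) :
    Top x y φ ψ i ((Xa x φ ψ) a i * (Xa x φ ψ) b i * (Xa y φ ψ) c i) ((a - b) • x i) :=
  top_mk ![0, ![0, 0, 0, a - b], 0, ![0, -((a - b) * c), 0, 0]]
    (by rw [Xa, Xa, Xa, (rel h i).exxy]; simp; abel) (by simp)

theorem top_xyy (h : Sys x y φ ψ τ I κ) (i : Fin 4) (a b c : ℂ) :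
    Top x y φ ψ i ((Xa x φ ψ) a i * (Xa y φ ψ) b i * (Xa y φ ψ) c i) ((-(b - c)) • y i) :=
  top_mk ![0, 0, ![0, 0, 0, -(b - c)], ![0, 0, (b - c) * a, 0]]
    (by rw [Xa, Xa, Xa, (rel h i).exyy]; simp) (by simp)

theorem top_xxw (h : Sys x y φ ψ τ I κ) (i : Fin 4) (a b c c' : ℂ) :
    Top x y φ ψ i ((Xa x φ ψ) a i * (Xa x φ ψ) b i * (Wa x y φ ψ) c c' i) 0 := by
  have e : (Xa x φ ψ) a i * (Xa x φ ψ) b i * (Wa x y φ ψ) c c' i = 0 := by
    rw [Wa, ← mul_assoc, mul_assoc ((Xa x φ ψ) a i)]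
    rw [Xa, Xa, Xa, (rel h i).exx]
    simp only [add_mul, smul_mul_assoc, mul_smul_comm, mul_assoc, (rel h i).pp', (rel h i).Pp',
      (rel h i).PP', smul_neg, mul_neg, mul_zero, smul_zero, neg_zero, add_zero, (rel h i).PP,
      zero_mul]
  rw [e]
  exact top_zero i

theorem top_yyw (h : Sys x y φ ψ τ I κ) (i : Fin 4) (a b c c' : ℂ) :
    Top x y φ ψ i ((Xa y φ ψ) a i * (Xa y φ ψ) b i * (Wa x y φ ψ) c c' i) 0 := by
  have e : (Xa y φ ψ) a i * (Xa y φ ψ) b i * (Wa x y φ ψ) c c' i = 0 := by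
    have e1 := (rel h i).eyw b c c'
    have e2 : (Xa y φ ψ) a i * (Xa y φ ψ) b i * (Wa x y φ ψ) c c' i = (Xa y φ ψ) a i * ((Xa y φ ψ) b i * (Wa x y φ ψ) c c' i) := mul_assoc _ _ _
    rw [e2, Wa, Xa, Xa, Xa, Xa, e1]
    simp only [mul_sub, add_mul, smul_mul_assoc, mul_smul_comm, mul_assoc, (rel h i).qq',
      (rel h i).Qz', (rel h i).QP', (rel h i).QQ', (rel h i).QQ, (rel h i).qp', (rel h i).Qp',
      (rel h i).QP, (rel h i).qq, smul_neg, mul_neg, mul_zero, smul_zero, neg_zero, add_zero,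
      sub_zero]
  rw [e]
  exact top_zero i

/-! ### commutation -/

theorem anti_lin {A : Type*} [Ring A] [Algebra ℂ A] {p P q Q : A} (h1 : p * q = -(q * p))
    (h2 : p * Q = -(Q * p)) (h3 : P * q = -(q * P)) (h4 : P * Q = -(Q * P)) (a b : ℂ) :
    (a • p + P) * (b • q + Q) = -((b • q + Q) * (a • p + P)) := by
  simp only [mul_add, add_mul, smul_mul_assoc, mul_smul_comm, smul_add, h1, h2, h3, h4, smul_neg,
    smul_smul]
  module

theorem anti_xx (h : Sys x y φ ψ τ I κ) (i j : Fin 4) (a b : ℂ) :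
    (Xa x φ ψ) a i * (Xa x φ ψ) b j = -((Xa x φ ψ) b j * (Xa x φ ψ) a i) :=
  anti_lin (by rw [← map_mul, h.letS.xx, map_neg, map_mul]) (h.xx i j)
    (by rw [h.xx, neg_neg]) (by rw [← map_mul, h.letS.xx, map_neg, map_mul]) a b

theorem anti_yy (h : Sys x y φ ψ τ I κ) (i j : Fin 4) (a b : ℂ) :
    (Xa y φ ψ) a i * (Xa y φ ψ) b j = -((Xa y φ ψ) b j * (Xa y φ ψ) a i) :=
  anti_lin (by rw [← map_mul, h.letS.yy, map_neg, map_mul]) (h.yy i j)
    (by rw [h.yy, neg_neg]) (by rw [← map_mul, h.letS.yy, map_neg, map_mul]) a b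

theorem anti_xy (h : Sys x y φ ψ τ I κ) (i j : Fin 4) (a b : ℂ) :
    (Xa x φ ψ) a i * (Xa y φ ψ) b j = -((Xa y φ ψ) b j * (Xa x φ ψ) a i) :=
  anti_lin (by rw [← map_mul, h.letS.xy, map_neg, map_mul]) (h.xy i j)
    (by rw [h.yx, neg_neg]) (by rw [← map_mul, h.letS.xy, map_neg, map_mul]) a b

theorem anti_yx (h : Sys x y φ ψ τ I κ) (i j : Fin 4) (a b : ℂ) :
    (Xa y φ ψ) a i * (Xa x φ ψ) b j = -((Xa x φ ψ) b j * (Xa y φ ψ) a i) := by rw [anti_xy h, neg_neg]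

theorem comm_wx (h : Sys x y φ ψ τ I κ) (i j : Fin 4) (a a' b : ℂ) :
    (Wa x y φ ψ) a a' i * (Xa x φ ψ) b j = (Xa x φ ψ) b j * (Wa x y φ ψ) a a' i := by
  rw [Wa, mul_assoc, anti_yx h, mul_neg, ← mul_assoc, anti_xx h, neg_mul, neg_neg, mul_assoc]

theorem comm_wy (h : Sys x y φ ψ τ I κ) (i j : Fin 4) (a a' b : ℂ) :
    (Wa x y φ ψ) a a' i * (Xa y φ ψ) b j = (Xa y φ ψ) b j * (Wa x y φ ψ) a a' i := by
  rw [Wa, mul_assoc, anti_yy h, mul_neg, ← mul_assoc, anti_xy h, neg_mul, neg_neg, mul_assoc]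

theorem comm_ww (h : Sys x y φ ψ τ I κ) (i j : Fin 4) (a a' b b' : ℂ) :
    (Wa x y φ ψ) a a' i * (Wa x y φ ψ) b b' j = (Wa x y φ ψ) b b' j * (Wa x y φ ψ) a a' i := by
  conv_lhs => rw [Wa.eq_def x y φ ψ b b' j]
  rw [← mul_assoc, comm_wx h, mul_assoc, comm_wy h, ← mul_assoc]
  rfl

/-! ### the sums -/

/-- the six pairs of slots -/
def ind : Fin 6 → Fin 4 → Bool :=
  ![![true, true, false, false], ![true, false, true, false], ![true, false, false, true],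
    ![false, true, true, false], ![false, true, false, true], ![false, false, true, true]]

/-- the factor `g i` if the slot `i` is in the pair `J` -/
def sl {A : Type*} [One A] (g : Fin 4 → A) (J : Fin 6) (i : Fin 4) : A :=
  if ind J i then g i else 1

/-- the second elementary symmetric function -/
def sig {A : Type*} [Ring A] (g : Fin 4 → A) : A :=
  g 0 * g 1 + g 0 * g 2 + g 0 * g 3 + g 1 * g 2 + g 1 * g 3 + g 2 * g 3

theorem sig_eq {A : Type*} [Ring A] (g : Fin 4 → A) :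
    sig g = ∑ J, sl g J 0 * sl g J 1 * sl g J 2 * sl g J 3 := by
  simp [sig, Fin.sum_univ_six, sl, ind]

theorem comm_sl {A : Type*} [Ring A] {g : Fin 4 → A} {i : Fin 4} {t : A}
    (h : g i * t = t * g i) (J : Fin 6) : sl g J i * t = t * sl g J i := by
  unfold sl
  split_ifs
  · exact h
  · simp

/-- the slot values for three even factors -/
def lam3 (δ : ℂ) (w : S) : Bool → Bool → Bool → S
  | false, false, false => 0
  | true, false, false => 1
  | false, true, false => 1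
  | false, false, true => 1
  | true, true, false => δ • w
  | true, false, true => δ • w
  | false, true, true => δ • w
  | true, true, true => 0

theorem top_sss (h : Sys x y φ ψ τ I κ) {a a' b b' c c' δ : ℂ} (hab : (a - b) * (a' - b') = δ)
    (hac : (a - c) * (a' - c') = δ) (hbc : (b - c) * (b' - c') = δ) (J K L : Fin 6) (i : Fin 4) :
    Top x y φ ψ i (sl ((Wa x y φ ψ) a a') J i * sl ((Wa x y φ ψ) b b') K i * sl ((Wa x y φ ψ) c c') L i)
      (lam3 δ (x i * y i) (ind J i) (ind K i) (ind L i)) := by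
  unfold sl
  cases ind J i <;> cases ind K i <;> cases ind L i <;>
    simp only [if_true, if_false, mul_one, one_mul, lam3, Bool.false_eq_true]
  · exact top_one i
  · exact top_w h i c c'
  · exact top_w h i b b'
  · have := top_ww h i b b' c c'
    rwa [hbc] at this
  · exact top_w h i a a'
  · have := top_ww h i a a' c c'
    rwa [hac] at this
  · have := top_ww h i a a' b b'
    rwa [hab] at this
  · exact top_www h i a a' b b' c c'

theorem sum_sss (δ : ℂ) (w : Fin 4 → S) : ∑ J, ∑ K, ∑ L,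
      lam3 δ (w 0) (ind J 0) (ind K 0) (ind L 0) * lam3 δ (w 1) (ind J 1) (ind K 1) (ind L 1)
      * lam3 δ (w 2) (ind J 2) (ind K 2) (ind L 2) * lam3 δ (w 3) (ind J 3) (ind K 3) (ind L 3)
      = (15 * δ ^ 2) • sig w := by
  simp [Fin.sum_univ_six, ind, lam3, sig]
  module

theorem sum3 {A : Type*} [Ring A] (f g h : Fin 6 → A) :
    (∑ J, f J) * (∑ K, g K) * (∑ L, h L) = ∑ J, ∑ K, ∑ L, f J * g K * h L := by
  rw [Finset.sum_mul_sum, Finset.sum_mul]
  refine Finset.sum_congr rfl fun J _ => ?_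
  rw [Finset.sum_mul_sum]

/-- the integral of three even classes -/
theorem int_sss (h : Sys x y φ ψ τ I κ) {a a' b b' c c' δ : ℂ} (hab : (a - b) * (a' - b') = δ)
    (hac : (a - c) * (a' - c') = δ) (hbc : (b - c) * (b' - c') = δ) :
    I (sig ((Wa x y φ ψ) a a') * sig ((Wa x y φ ψ) b b') * sig ((Wa x y φ ψ) c c'))
      = κ • (15 * δ ^ 2) • sig (fun i => x i * y i) := by
  rw [sig_eq, sig_eq, sig_eq, sum3, map_sum, ← sum_sss, Finset.smul_sum]
  refine Finset.sum_congr rfl fun J _ => ?_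
  rw [map_sum, Finset.smul_sum]
  refine Finset.sum_congr rfl fun K _ => ?_
  rw [map_sum, Finset.smul_sum]
  refine Finset.sum_congr rfl fun L _ => ?_
  rw [mul4 (g := sl ((Wa x y φ ψ) a a') J) (h := sl ((Wa x y φ ψ) b b') K)
      (fun i j _ => comm_sl (comm_sl (comm_ww h j i a a' b b') J).symm K),
    mul4 (g := fun i => sl ((Wa x y φ ψ) a a') J i * sl ((Wa x y φ ψ) b b') K i) (h := sl ((Wa x y φ ψ) c c') L)
      (fun i j _ => by
        rw [← mul_assoc, comm_sl (comm_sl (comm_ww h j i a a' c c') J).symm L, mul_assoc,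
          comm_sl (comm_sl (comm_ww h j i b b' c c') K).symm L, mul_assoc])]
  exact int_top h (g := fun i => sl ((Wa x y φ ψ) a a') J i * sl ((Wa x y φ ψ) b b') K i * sl ((Wa x y φ ψ) c c') L i)
    (l := fun i => lam3 δ (x i * y i) (ind J i) (ind K i) (ind L i))
    (fun i => top_sss h hab hac hbc J K L i)

/-- the product over the four slots -/
def tt {A : Type*} [Mul A] (g : Fin 4 → A) : A := g 0 * g 1 * g 2 * g 3

/-- the slot values for a letter and two even factors -/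
def lam2 (d e : ℂ) (w : S) : Bool → Bool → S
  | false, false => 0
  | true, false => d • w
  | false, true => e • w
  | true, true => 0

theorem sum_xss (d e : ℂ) (w : Fin 4 → S) : ∑ J, ∑ K,
      lam2 d e (w 0) (ind J 0) (ind K 0) * lam2 d e (w 1) (ind J 1) (ind K 1)
      * lam2 d e (w 2) (ind J 2) (ind K 2) * lam2 d e (w 3) (ind J 3) (ind K 3)
      = (6 * (d * e) ^ 2) • tt w := by
  simp [Fin.sum_univ_six, ind, lam2, tt]
  module

theorem int_css (h : Sys x y φ ψ τ I κ) {g : Fin 4 → R} {w : Fin 4 → S} {b b' c c' d e : ℂ}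
    (c1 : ∀ i j, (Wa x y φ ψ) b b' i * g j = g j * (Wa x y φ ψ) b b' i) (c2 : ∀ i j, (Wa x y φ ψ) c c' i * g j = g j * (Wa x y φ ψ) c c' i)
    (h0 : ∀ i, Top x y φ ψ i (g i) 0) (hb : ∀ i, Top x y φ ψ i (g i * (Wa x y φ ψ) b b' i) (d • w i))
    (hc : ∀ i, Top x y φ ψ i (g i * (Wa x y φ ψ) c c' i) (e • w i))
    (hbc : ∀ i, Top x y φ ψ i (g i * (Wa x y φ ψ) b b' i * (Wa x y φ ψ) c c' i) 0) :
    I (tt g * (sig ((Wa x y φ ψ) b b') * sig ((Wa x y φ ψ) c c'))) = κ • (6 * (d * e) ^ 2) • tt w := by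
  rw [sig_eq, sig_eq, Finset.sum_mul_sum, Finset.mul_sum, map_sum, ← sum_xss, Finset.smul_sum]
  refine Finset.sum_congr rfl fun J _ => ?_
  rw [Finset.mul_sum, map_sum, Finset.smul_sum]
  refine Finset.sum_congr rfl fun K _ => ?_
  rw [tt, ← mul_assoc, mul4 (g := g) (h := sl ((Wa x y φ ψ) b b') J)
      (fun i j _ => comm_sl (c1 i j) J),
    mul4 (g := fun i => g i * sl ((Wa x y φ ψ) b b') J i) (h := sl ((Wa x y φ ψ) c c') K)
      (fun i j _ => by
        rw [← mul_assoc, comm_sl (c2 i j) K, mul_assoc,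
          comm_sl (comm_sl (comm_ww h j i b b' c c') J).symm K, mul_assoc])]
  refine int_top h (g := fun i => g i * sl ((Wa x y φ ψ) b b') J i * sl ((Wa x y φ ψ) c c') K i)
    (l := fun i => lam2 d e (w i) (ind J i) (ind K i)) (fun i => ?_)
  simp only [sl]
  cases ind J i <;> cases ind K i <;>
    simp only [if_true, if_false, mul_one, one_mul, lam2, Bool.false_eq_true]
  · exact h0 i
  · exact hc i
  · exact hb i
  · exact hbc i

theorem int_xss (h : Sys x y φ ψ τ I κ) (a b b' c c' : ℂ) :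
    I (tt ((Xa x φ ψ) a) * (sig ((Wa x y φ ψ) b b') * sig ((Wa x y φ ψ) c c')))
      = κ • (6 * ((a - b) * (a - c)) ^ 2) • tt x :=
  int_css h (fun i j => comm_wx h i j b b' a) (fun i j => comm_wx h i j c c' a)
    (fun i => top_x i a) (fun i => top_xw h i a b b') (fun i => top_xw h i a c c')
    (fun i => top_xww h i a b b' c c')

theorem int_yss (h : Sys x y φ ψ τ I κ) (a b b' c c' : ℂ) :
    I (tt ((Xa y φ ψ) a) * (sig ((Wa x y φ ψ) b b') * sig ((Wa x y φ ψ) c c')))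
      = κ • (6 * ((a - b') * (a - c')) ^ 2) • tt y :=
  int_css h (fun i j => comm_wy h i j b b' a) (fun i j => comm_wy h i j c c' a)
    (fun i => top_y i a) (fun i => top_yw h i a b b') (fun i => top_yw h i a c c')
    (fun i => top_yww h i a b b' c c')

theorem int_ccs (h : Sys x y φ ψ τ I κ) {g : Fin 4 → R} {c c' : ℂ} {u w : Fin 4 → S}
    (c1 : ∀ i j, (Wa x y φ ψ) c c' i * g j = g j * (Wa x y φ ψ) c c' i)
    (h0 : ∀ i, Top x y φ ψ i (g i) (u i)) (hc : ∀ i, Top x y φ ψ i (g i * (Wa x y φ ψ) c c' i) (w i)) :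
    I (tt g * sig ((Wa x y φ ψ) c c')) = κ • ∑ J, ((if ind J 0 then w 0 else u 0)
      * (if ind J 1 then w 1 else u 1) * (if ind J 2 then w 2 else u 2)
      * (if ind J 3 then w 3 else u 3)) := by
  rw [sig_eq, Finset.mul_sum, map_sum, Finset.smul_sum]
  refine Finset.sum_congr rfl fun J _ => ?_
  rw [tt, mul4 (g := g) (h := sl ((Wa x y φ ψ) c c') J) (fun i j _ => comm_sl (c1 i j) J)]
  refine int_top h (g := fun i => g i * sl ((Wa x y φ ψ) c c') J i)
    (l := fun i => if ind J i then w i else u i) (fun i => ?_)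
  simp only [sl]
  cases ind J i <;> simp only [if_true, if_false, mul_one, Bool.false_eq_true]
  · exact h0 i
  · exact hc i

theorem tt_xy (h : Sys x y φ ψ τ I κ) (a b : ℂ) :
    tt ((Xa x φ ψ) a) * tt ((Xa y φ ψ) b) = tt (fun i => (Xa x φ ψ) a i * (Xa y φ ψ) b i) :=
  mul4' (g := (Xa x φ ψ) a) (h := (Xa y φ ψ) b) fun i j _ => anti_yx h i j b a

theorem tt_xx (h : Sys x y φ ψ τ I κ) (a b : ℂ) :
    tt ((Xa x φ ψ) a) * tt ((Xa x φ ψ) b) = tt (fun i => (Xa x φ ψ) a i * (Xa x φ ψ) b i) :=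
  mul4' (g := (Xa x φ ψ) a) (h := (Xa x φ ψ) b) fun i j _ => anti_xx h i j b a

theorem tt_yy (h : Sys x y φ ψ τ I κ) (a b : ℂ) :
    tt ((Xa y φ ψ) a) * tt ((Xa y φ ψ) b) = tt (fun i => (Xa y φ ψ) a i * (Xa y φ ψ) b i) :=
  mul4' (g := (Xa y φ ψ) a) (h := (Xa y φ ψ) b) fun i j _ => anti_yy h i j b a

theorem int_xys (h : Sys x y φ ψ τ I κ) (a b c c' : ℂ) :
    I (tt ((Xa x φ ψ) a) * tt ((Xa y φ ψ) b) * sig ((Wa x y φ ψ) c c'))
      = κ • ((a - c) * (b - c')) ^ 2 • sig (fun i => x i * y i) := by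
  rw [tt_xy h, int_ccs h (u := fun _ => 1)
    (w := fun i => ((a - c) * (b - c')) • (x i * y i)) (fun i j => by
      rw [← mul_assoc, comm_wx h, mul_assoc, comm_wy h, mul_assoc])
    (fun i => top_xy h i a b) (fun i => top_xyw h i a b c c')]
  simp [Fin.sum_univ_six, ind, sig]
  module

theorem int_xxs (h : Sys x y φ ψ τ I κ) (a b c c' : ℂ) :
    I (tt ((Xa x φ ψ) a) * tt ((Xa x φ ψ) b) * sig ((Wa x y φ ψ) c c')) = 0 := by
  rw [tt_xx h, int_ccs h (u := fun _ => 0) (w := fun _ => 0) (fun i j => by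
      rw [← mul_assoc, comm_wx h, mul_assoc, comm_wx h, mul_assoc])
    (fun i => top_xx h i a b) (fun i => top_xxw h i a b c c')]
  simp

theorem int_yys (h : Sys x y φ ψ τ I κ) (a b c c' : ℂ) :
    I (tt ((Xa y φ ψ) a) * tt ((Xa y φ ψ) b) * sig ((Wa x y φ ψ) c c')) = 0 := by
  rw [tt_yy h, int_ccs h (u := fun _ => 0) (w := fun _ => 0) (fun i j => by
      rw [← mul_assoc, comm_wy h, mul_assoc, comm_wy h, mul_assoc])
    (fun i => top_yy h i a b) (fun i => top_yyw h i a b c c')]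
  simp

theorem int_xxy (h : Sys x y φ ψ τ I κ) (a b c : ℂ) :
    I (tt ((Xa x φ ψ) a) * tt ((Xa x φ ψ) b) * tt ((Xa y φ ψ) c)) = κ • (a - b) ^ 4 • tt x := by
  rw [tt_xx h]
  have e : tt (fun i => (Xa x φ ψ) a i * (Xa x φ ψ) b i) * tt ((Xa y φ ψ) c) = tt (fun i => (Xa x φ ψ) a i * (Xa x φ ψ) b i * (Xa y φ ψ) c i) :=
    mul4 (g := fun i => (Xa x φ ψ) a i * (Xa x φ ψ) b i) (h := (Xa y φ ψ) c) fun i j _ => by
      rw [← mul_assoc, anti_yx h, neg_mul, mul_assoc, anti_yx h, mul_neg, neg_neg, mul_assoc]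
  rw [e]
  have := int_top h (g := fun i => (Xa x φ ψ) a i * (Xa x φ ψ) b i * (Xa y φ ψ) c i) (l := fun i => (a - b) • x i)
    (fun i => top_xxy h i a b c)
  rw [tt, this, tt]
  congr 1
  simp only [smul_mul_assoc, mul_smul_comm, smul_smul]
  congr 1
  ring

theorem int_xyy (h : Sys x y φ ψ τ I κ) (a b c : ℂ) :
    I (tt ((Xa x φ ψ) a) * (tt ((Xa y φ ψ) b) * tt ((Xa y φ ψ) c))) = κ • (b - c) ^ 4 • tt y := by
  rw [← mul_assoc, tt_xy h]
  have e : tt (fun i => (Xa x φ ψ) a i * (Xa y φ ψ) b i) * tt ((Xa y φ ψ) c) = tt (fun i => (Xa x φ ψ) a i * (Xa y φ ψ) b i * (Xa y φ ψ) c i) :=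
    mul4 (g := fun i => (Xa x φ ψ) a i * (Xa y φ ψ) b i) (h := (Xa y φ ψ) c) fun i j _ => by
      rw [← mul_assoc, anti_yx h, neg_mul, mul_assoc, anti_yy h, mul_neg, neg_neg, mul_assoc]
  rw [e]
  have := int_top h (g := fun i => (Xa x φ ψ) a i * (Xa y φ ψ) b i * (Xa y φ ψ) c i) (l := fun i => (-(b - c)) • y i)
    (fun i => top_xyy h i a b c)
  rw [tt, this, tt]
  congr 1
  simp only [smul_mul_assoc, mul_smul_comm, smul_smul]
  congr 1
  ring

theorem xxx (h : Sys x y φ ψ τ I κ) (a b c : ℂ) : tt ((Xa x φ ψ) a) * (tt ((Xa x φ ψ) b) * tt ((Xa x φ ψ) c)) = 0 := by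
  rw [← mul_assoc, tt_xx h]
  have e : tt (fun i => (Xa x φ ψ) a i * (Xa x φ ψ) b i) * tt ((Xa x φ ψ) c) = tt (fun i => (Xa x φ ψ) a i * (Xa x φ ψ) b i * (Xa x φ ψ) c i) :=
    mul4 (g := fun i => (Xa x φ ψ) a i * (Xa x φ ψ) b i) (h := (Xa x φ ψ) c) fun i j _ => by
      rw [← mul_assoc, anti_xx h, neg_mul, mul_assoc, anti_xx h, mul_neg, neg_neg, mul_assoc]
  have z : (Xa x φ ψ) a 0 * (Xa x φ ψ) b 0 * (Xa x φ ψ) c 0 = 0 := by
    rw [Xa, Xa, Xa, (rel h 0).exx]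
    simp only [mul_add, smul_mul_assoc, mul_smul_comm, mul_assoc, (rel h 0).Pp,
      (rel h 0).PP, smul_neg, mul_neg, mul_zero, smul_zero, neg_zero, add_zero, (rel h 0).pp']
  rw [e, tt, z]
  simp

theorem yyy (h : Sys x y φ ψ τ I κ) (a b c : ℂ) : tt ((Xa y φ ψ) a) * (tt ((Xa y φ ψ) b) * tt ((Xa y φ ψ) c)) = 0 := by
  rw [← mul_assoc, tt_yy h]
  have e : tt (fun i => (Xa y φ ψ) a i * (Xa y φ ψ) b i) * tt ((Xa y φ ψ) c) = tt (fun i => (Xa y φ ψ) a i * (Xa y φ ψ) b i * (Xa y φ ψ) c i) :=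
    mul4 (g := fun i => (Xa y φ ψ) a i * (Xa y φ ψ) b i) (h := (Xa y φ ψ) c) fun i j _ => by
      rw [← mul_assoc, anti_yy h, neg_mul, mul_assoc, anti_yy h, mul_neg, neg_neg, mul_assoc]
  have z : (Xa y φ ψ) a 0 * (Xa y φ ψ) b 0 * (Xa y φ ψ) c 0 = 0 := by
    rw [Xa, Xa, Xa, (rel h 0).eyy]
    simp only [mul_add, smul_mul_assoc, mul_smul_comm, mul_assoc, (rel h 0).Qz,
      (rel h 0).QQ, smul_neg, mul_neg, mul_zero, smul_zero, neg_zero, add_zero, (rel h 0).qq']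
  rw [e, tt, z]
  simp

/-! ### the product of three classes -/

theorem comm_sig {A : Type*} [Ring A] {g h : Fin 4 → A} (hc : ∀ i j, g i * h j = h j * g i) :
    sig g * tt h = tt h * sig g := by
  have e : ∀ i, g i * tt h = tt h * g i := fun i => by
    simp only [tt]
    rw [← mul_assoc, ← mul_assoc, ← mul_assoc, hc i 0, mul_assoc (h 0), hc i 1, ← mul_assoc,
      mul_assoc (h 0 * h 1), hc i 2, ← mul_assoc, mul_assoc (h 0 * h 1 * h 2), hc i 3, ← mul_assoc]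
  have e2 : ∀ i j, g i * g j * tt h = tt h * (g i * g j) := fun i j => by
    rw [mul_assoc, e j, ← mul_assoc, e i, mul_assoc]
  simp only [sig, add_mul, mul_add, e2]

theorem comm_tt' {A : Type*} [Ring A] {g h : Fin 4 → A} (hc : ∀ i j, g i * h j = -(h j * g i)) :
    tt g * tt h = tt h * tt g := by
  have e : ∀ j, tt g * h j = h j * tt g := fun j => by
    simp only [tt]
    calc g 0 * g 1 * g 2 * g 3 * h j = g 0 * g 1 * g 2 * (g 3 * h j) := by noncomm_ring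
      _ = -(g 0 * g 1 * (g 2 * h j) * g 3) := by rw [hc 3 j]; noncomm_ring
      _ = g 0 * (g 1 * h j) * g 2 * g 3 := by rw [hc 2 j]; noncomm_ring
      _ = -(g 0 * h j * g 1 * g 2 * g 3) := by rw [hc 1 j]; noncomm_ring
      _ = _ := by rw [hc 0 j]; noncomm_ring
  change tt g * (h 0 * h 1 * h 2 * h 3) = (h 0 * h 1 * h 2 * h 3) * tt g
  rw [← mul_assoc, ← mul_assoc, ← mul_assoc, e 0, mul_assoc (h 0), e 1, ← mul_assoc,
      mul_assoc (h 0 * h 1), e 2, ← mul_assoc, mul_assoc (h 0 * h 1 * h 2), e 3, ← mul_assoc]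

/-- the class `e (p, q)` at the point `(a, a')` -/
def ee (x y : Fin 4 → S) (φ ψ : S →ₐ[ℂ] R) (a a' p q : ℂ) : R :=
  sig (Wa x y φ ψ a a') + p • tt (Xa x φ ψ a) + q • tt (Xa y φ ψ a')

/-- **The product of three classes, integrated over the second copy.** -/
theorem int_eee (h : Sys x y φ ψ τ I κ) {a a' b b' c c' δ : ℂ} (hab : (a - b) * (a' - b') = δ)
    (hac : (a - c) * (a' - c') = δ) (hbc : (b - c) * (b' - c') = δ) (p1 q1 p2 q2 p3 q3 : ℂ) :
    I (ee x y φ ψ a a' p1 q1 * (ee x y φ ψ b b' p2 q2 * ee x y φ ψ c c' p3 q3))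
      = κ • ((15 * δ ^ 2
          + (p1 * q2 * ((a - c) * (b' - c')) ^ 2 + p1 * q3 * ((a - b) * (c' - b')) ^ 2
            + p2 * q1 * ((b - c) * (a' - c')) ^ 2 + p2 * q3 * ((b - a) * (c' - a')) ^ 2
            + p3 * q1 * ((c - b) * (a' - b')) ^ 2 + p3 * q2 * ((c - a) * (b' - a')) ^ 2)) •
            sig (fun i => x i * y i)
          + (p1 * (6 * ((a - b) * (a - c)) ^ 2) + p2 * (6 * ((b - a) * (b - c)) ^ 2)
              + p3 * (6 * ((c - a) * (c - b)) ^ 2)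
              + (p1 * p2 * q3 * (a - b) ^ 4 + p1 * p3 * q2 * (a - c) ^ 4
                + p2 * p3 * q1 * (b - c) ^ 4)) • tt x
          + (q1 * (6 * ((a' - b') * (a' - c')) ^ 2) + q2 * (6 * ((b' - a') * (b' - c')) ^ 2)
              + q3 * (6 * ((c' - a') * (c' - b')) ^ 2)
              + (q1 * q2 * p3 * (a' - b') ^ 4 + q1 * q3 * p2 * (a' - c') ^ 4
                + q2 * q3 * p1 * (b' - c') ^ 4)) • tt y) := by
  have sT : ∀ a a' b, sig ((Wa x y φ ψ) a a') * tt ((Xa x φ ψ) b) = tt ((Xa x φ ψ) b) * sig ((Wa x y φ ψ) a a') := fun a a' b =>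
    comm_sig fun i j => comm_wx h i j a a' b
  have sU : ∀ a a' b, sig ((Wa x y φ ψ) a a') * tt ((Xa y φ ψ) b) = tt ((Xa y φ ψ) b) * sig ((Wa x y φ ψ) a a') := fun a a' b =>
    comm_sig fun i j => comm_wy h i j a a' b
  have uT : ∀ a b, tt ((Xa y φ ψ) a) * tt ((Xa x φ ψ) b) = tt ((Xa x φ ψ) b) * tt ((Xa y φ ψ) a) := fun a b =>
    comm_tt' fun i j => anti_yx h i j a b
  have sT' : ∀ a a' b t, sig ((Wa x y φ ψ) a a') * (tt ((Xa x φ ψ) b) * t) = tt ((Xa x φ ψ) b) * (sig ((Wa x y φ ψ) a a') * t) :=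
    fun a a' b t => by rw [← mul_assoc, sT, mul_assoc]
  have sU' : ∀ a a' b t, sig ((Wa x y φ ψ) a a') * (tt ((Xa y φ ψ) b) * t) = tt ((Xa y φ ψ) b) * (sig ((Wa x y φ ψ) a a') * t) :=
    fun a a' b t => by rw [← mul_assoc, sU, mul_assoc]
  have uT' : ∀ a b t, tt ((Xa y φ ψ) a) * (tt ((Xa x φ ψ) b) * t) = tt ((Xa x φ ψ) b) * (tt ((Xa y φ ψ) a) * t) :=
    fun a b t => by rw [← mul_assoc, uT, mul_assoc]
  have i1 := int_sss h hab hac hbc
  have i2 := int_xss h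
  have i3 := int_yss h
  have i4 := int_xys h
  have i5 := int_xxs h
  have i6 := int_yys h
  have i7 := int_xxy h
  have i8 := int_xyy h
  simp only [mul_assoc] at i1 i4 i5 i6 i7
  unfold ee
  simp only [mul_add, add_mul, smul_mul_assoc, mul_smul_comm, mul_assoc, sT, sU, uT, sT', sU',
    uT', map_add, map_smul, i1, i2, i3, i4, i5, i6, i7, i8, xxx h, yyy h, map_zero, smul_zero,
    add_zero, zero_add]
  module

end slots

end Pool.Agent.Lib.MP_361a6f_ag.FL.PT
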