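import Pool.Agent.Lib.MP_361a6f_ag.FL.PT.DefsA
import Pool.Agent.Lib.MP_361a6f_ag.FL.PT.Gr

/-!
# Theorem PT, row A2: the intersection number of two classes
-/

set_option autoImplicit false

namespace Pool.Agent.Lib.MP_361a6f_ag.FL.PT

universe w

section

variable {A : Type w} [Ring A] [Algebra ℂ A]

/-- relations of even elements -/
private theorem evenMul (w : Fin 4 → A) (hc : ∀ i j, w i * w j = w j * w i)
    (hz : ∀ i, w i * w i = 0) :
    (w 0 * w 1 + w 0 * w 2 + w 0 * w 3 + w 1 * w 2 + w 1 * w 3 + w 2 * w 3) *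
      (w 0 * w 1 + w 0 * w 2 + w 0 * w 3 + w 1 * w 2 + w 1 * w 3 + w 2 * w 3) =
    (6 : ℂ) • (w 0 * w 1 * w 2 * w 3) := by
  have hz' : ∀ i (t : A), w i * (w i * t) = 0 := fun i t => by rw [← mul_assoc, hz, zero_mul]
  have c10 : w 1 * w 0 = w 0 * w 1 := hc 1 0
  have c20 : w 2 * w 0 = w 0 * w 2 := hc 2 0
  have c30 : w 3 * w 0 = w 0 * w 3 := hc 3 0
  have c21 : w 2 * w 1 = w 1 * w 2 := hc 2 1
  have c31 : w 3 * w 1 = w 1 * w 3 := hc 3 1
  have c32 : w 3 * w 2 = w 2 * w 3 := hc 3 2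
  have d10 : ∀ t, w 1 * (w 0 * t) = w 0 * (w 1 * t) := fun t => by
    rw [← mul_assoc, c10, mul_assoc]
  have d20 : ∀ t, w 2 * (w 0 * t) = w 0 * (w 2 * t) := fun t => by
    rw [← mul_assoc, c20, mul_assoc]
  have d30 : ∀ t, w 3 * (w 0 * t) = w 0 * (w 3 * t) := fun t => by
    rw [← mul_assoc, c30, mul_assoc]
  have d21 : ∀ t, w 2 * (w 1 * t) = w 1 * (w 2 * t) := fun t => by
    rw [← mul_assoc, c21, mul_assoc]
  have d31 : ∀ t, w 3 * (w 1 * t) = w 1 * (w 3 * t) := fun t => by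
    rw [← mul_assoc, c31, mul_assoc]
  have d32 : ∀ t, w 3 * (w 2 * t) = w 2 * (w 3 * t) := fun t => by
    rw [← mul_assoc, c32, mul_assoc]
  simp only [mul_add, add_mul, mul_assoc, hz, hz', c21, c31, c32, d10, d20, d30, d21, d31, d32,
    mul_zero, add_zero, zero_add]
  module

end

theorem rowA2 : RowA2.{w} := by
  intro A _ _ v V hv hV hvV a b a' b'
  have hVv : ∀ i j, V j * v i = -(v i * V j) := fun i j => by rw [hvV, neg_neg]
  have v2 : ∀ i, v i * v i = 0 := fun i => sq_zero_of (hv i i)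
  have V2 : ∀ i, V i * V i = 0 := fun i => sq_zero_of (hV i i)
  -- the even elements
  have hc : ∀ i j, v i * V i * (v j * V j) = v j * V j * (v i * V i) := by
    intro i j
    calc v i * V i * (v j * V j) = v i * (V i * v j) * V j := by noncomm_ring
      _ = -(v i * v j * (V i * V j)) := by rw [hVv]; noncomm_ring
      _ = -(v j * v i * (V j * V i)) := by rw [hv i j, hV i j]; noncomm_ring
      _ = v j * (V j * v i) * V i := by rw [hVv]; noncomm_ring
      _ = _ := by noncomm_ring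
  have hz : ∀ i, v i * V i * (v i * V i) = 0 := by
    intro i
    calc v i * V i * (v i * V i) = v i * (V i * v i) * V i := by noncomm_ring
      _ = -(v i * v i * (V i * V i)) := by rw [hVv]; noncomm_ring
      _ = 0 := by rw [v2]; simp
  -- a letter times an even element
  have cv : ∀ i j, v i * V i * v j = v j * (v i * V i) := by
    intro i j
    calc v i * V i * v j = v i * (V i * v j) := by noncomm_ring
      _ = -(v i * v j * V i) := by rw [hVv]; noncomm_ring
      _ = v j * (v i * V i) := by rw [hv i j]; noncomm_ring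
  have cV : ∀ i j, v i * V i * V j = V j * (v i * V i) := by
    intro i j
    calc v i * V i * V j = v i * (V i * V j) := by noncomm_ring
      _ = -(v i * V j * V i) := by rw [hV i j]; noncomm_ring
      _ = V j * (v i * V i) := by rw [hvV i j]; noncomm_ring
  have zv : ∀ i, v i * (v i * V i) = 0 := fun i => by rw [← mul_assoc, v2, zero_mul]
  have zV : ∀ i, V i * (v i * V i) = 0 := fun i => by
    rw [← mul_assoc, hVv, neg_mul, mul_assoc, V2, mul_zero, neg_zero]
  -- the products of letters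
  have kT : ∀ i, (v 0 * v 1 * v 2 * v 3) * (v i * V i) = 0 := by
    intro i
    have h : ∀ j, v j * (v i * V i) = v i * V i * v j := fun j => (cv i j).symm
    fin_cases i
    · calc v 0 * v 1 * v 2 * v 3 * (v 0 * V 0) = v 0 * (v 1 * (v 2 * (v 3 * (v 0 * V 0)))) := by
            noncomm_ring
        _ = v 0 * (v 1 * (v 2 * (v 0 * V 0 * v 3))) := by rw [← cv 0 3]
        _ = v 0 * (v 1 * (v 2 * (v 0 * V 0) * v 3)) := by noncomm_ring
        _ = v 0 * (v 1 * (v 0 * V 0) * v 2 * v 3) := by rw [← cv 0 2]; noncomm_ring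
        _ = v 0 * (v 0 * V 0) * v 1 * v 2 * v 3 := by rw [← cv 0 1]; noncomm_ring
        _ = 0 := by rw [zv]; simp
    · calc v 0 * v 1 * v 2 * v 3 * (v 1 * V 1) = v 0 * (v 1 * (v 2 * (v 3 * (v 1 * V 1)))) := by
            noncomm_ring
        _ = v 0 * (v 1 * (v 2 * (v 1 * V 1 * v 3))) := by rw [← cv 1 3]
        _ = v 0 * (v 1 * (v 2 * (v 1 * V 1) * v 3)) := by noncomm_ring
        _ = v 0 * (v 1 * (v 1 * V 1) * v 2 * v 3) := by rw [← cv 1 2]; noncomm_ring
        _ = 0 := by rw [zv]; simp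
    · calc v 0 * v 1 * v 2 * v 3 * (v 2 * V 2) = v 0 * (v 1 * (v 2 * (v 3 * (v 2 * V 2)))) := by
            noncomm_ring
        _ = v 0 * (v 1 * (v 2 * (v 2 * V 2 * v 3))) := by rw [← cv 2 3]
        _ = v 0 * (v 1 * (v 2 * (v 2 * V 2) * v 3)) := by noncomm_ring
        _ = 0 := by rw [zv]; simp
    · calc v 0 * v 1 * v 2 * v 3 * (v 3 * V 3) = v 0 * (v 1 * (v 2 * (v 3 * (v 3 * V 3)))) := by
            noncomm_ring
        _ = 0 := by rw [zv]; simp
  have kT' : ∀ i, (V 0 * V 1 * V 2 * V 3) * (v i * V i) = 0 := by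
    intro i
    fin_cases i
    · calc V 0 * V 1 * V 2 * V 3 * (v 0 * V 0) = V 0 * (V 1 * (V 2 * (V 3 * (v 0 * V 0)))) := by
            noncomm_ring
        _ = V 0 * (V 1 * (V 2 * (v 0 * V 0 * V 3))) := by rw [← cV 0 3]
        _ = V 0 * (V 1 * (V 2 * (v 0 * V 0) * V 3)) := by noncomm_ring
        _ = V 0 * (V 1 * (v 0 * V 0) * V 2 * V 3) := by rw [← cV 0 2]; noncomm_ring
        _ = V 0 * (v 0 * V 0) * V 1 * V 2 * V 3 := by rw [← cV 0 1]; noncomm_ring
        _ = 0 := by rw [zV]; simp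
    · calc V 0 * V 1 * V 2 * V 3 * (v 1 * V 1) = V 0 * (V 1 * (V 2 * (V 3 * (v 1 * V 1)))) := by
            noncomm_ring
        _ = V 0 * (V 1 * (V 2 * (v 1 * V 1 * V 3))) := by rw [← cV 1 3]
        _ = V 0 * (V 1 * (V 2 * (v 1 * V 1) * V 3)) := by noncomm_ring
        _ = V 0 * (V 1 * (v 1 * V 1) * V 2 * V 3) := by rw [← cV 1 2]; noncomm_ring
        _ = 0 := by rw [zV]; simp
    · calc V 0 * V 1 * V 2 * V 3 * (v 2 * V 2) = V 0 * (V 1 * (V 2 * (V 3 * (v 2 * V 2)))) := by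
            noncomm_ring
        _ = V 0 * (V 1 * (V 2 * (v 2 * V 2 * V 3))) := by rw [← cV 2 3]
        _ = V 0 * (V 1 * (V 2 * (v 2 * V 2) * V 3)) := by noncomm_ring
        _ = 0 := by rw [zV]; simp
    · calc V 0 * V 1 * V 2 * V 3 * (v 3 * V 3) = V 0 * (V 1 * (V 2 * (V 3 * (v 3 * V 3)))) := by
            noncomm_ring
        _ = 0 := by rw [zV]; simp
  have wT : ∀ i, v i * V i * (v 0 * v 1 * v 2 * v 3) = 0 := by
    intro i
    calc v i * V i * (v 0 * v 1 * v 2 * v 3) = v i * V i * v 0 * v 1 * v 2 * v 3 := by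
          noncomm_ring
      _ = v 0 * (v i * V i * v 1) * v 2 * v 3 := by rw [cv i 0]; noncomm_ring
      _ = v 0 * v 1 * (v i * V i * v 2) * v 3 := by rw [cv i 1]; noncomm_ring
      _ = v 0 * v 1 * v 2 * (v i * V i * v 3) := by rw [cv i 2]; noncomm_ring
      _ = v 0 * v 1 * v 2 * v 3 * (v i * V i) := by rw [cv i 3]; noncomm_ring
      _ = 0 := kT i
  have wT' : ∀ i, v i * V i * (V 0 * V 1 * V 2 * V 3) = 0 := by
    intro i
    calc v i * V i * (V 0 * V 1 * V 2 * V 3) = v i * V i * V 0 * V 1 * V 2 * V 3 := by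
          noncomm_ring
      _ = V 0 * (v i * V i * V 1) * V 2 * V 3 := by rw [cV i 0]; noncomm_ring
      _ = V 0 * V 1 * (v i * V i * V 2) * V 3 := by rw [cV i 1]; noncomm_ring
      _ = V 0 * V 1 * V 2 * (v i * V i * V 3) := by rw [cV i 2]; noncomm_ring
      _ = V 0 * V 1 * V 2 * V 3 * (v i * V i) := by rw [cV i 3]; noncomm_ring
      _ = 0 := kT' i
  have TT : (v 0 * v 1 * v 2 * v 3) * (v 0 * v 1 * v 2 * v 3) = 0 := by
    rw [mul4' (fun i j _ => hv i j), v2]
    simp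
  have TT' : (V 0 * V 1 * V 2 * V 3) * (V 0 * V 1 * V 2 * V 3) = 0 := by
    rw [mul4' (fun i j _ => hV i j), V2]
    simp
  have T1 : (v 0 * v 1 * v 2 * v 3) * (V 0 * V 1 * V 2 * V 3) = vol v V := by
    rw [mul4' (fun i j _ => hVv j i)]
    rfl
  have T2 : (V 0 * V 1 * V 2 * V 3) * (v 0 * v 1 * v 2 * v 3) = vol v V := by
    rw [mul4' (fun i j _ => hvV i j), hVv, hVv, hVv, hVv]
    simp only [vol]
    noncomm_ring
  have h6 := evenMul (fun i => v i * V i) hc hz
  have sT : ∀ i j, v i * V i * (v j * V j) * (v 0 * v 1 * v 2 * v 3) = 0 := fun i j => by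
    rw [mul_assoc, wT, mul_zero]
  have sT' : ∀ i j, v i * V i * (v j * V j) * (V 0 * V 1 * V 2 * V 3) = 0 := fun i j => by
    rw [mul_assoc, wT', mul_zero]
  have Ts : ∀ i j, (v 0 * v 1 * v 2 * v 3) * (v i * V i * (v j * V j)) = 0 := fun i j => by
    rw [← mul_assoc, kT, zero_mul]
  have Ts' : ∀ i j, (V 0 * V 1 * V 2 * V 3) * (v i * V i * (v j * V j)) = 0 := fun i j => by
    rw [← mul_assoc, kT', zero_mul]
  simp only [ecl, one_smul]
  generalize hS : v 0 * V 0 * (v 1 * V 1) + v 0 * V 0 * (v 2 * V 2) + v 0 * V 0 * (v 3 * V 3)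
    + v 1 * V 1 * (v 2 * V 2) + v 1 * V 1 * (v 3 * V 3) + v 2 * V 2 * (v 3 * V 3) = S at h6 ⊢
  have ST : S * (v 0 * v 1 * v 2 * v 3) = 0 := by
    rw [← hS]
    simp only [add_mul, sT, add_zero]
  have ST' : S * (V 0 * V 1 * V 2 * V 3) = 0 := by
    rw [← hS]
    simp only [add_mul, sT', add_zero]
  have TS : (v 0 * v 1 * v 2 * v 3) * S = 0 := by
    rw [← hS]
    simp only [mul_add, Ts, add_zero]
  have TS' : (V 0 * V 1 * V 2 * V 3) * S = 0 := by
    rw [← hS]
    simp only [mul_add, Ts', add_zero]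
  generalize (v 0 * v 1 * v 2 * v 3) = T at *
  generalize (V 0 * V 1 * V 2 * V 3) = T' at *
  simp only [add_mul, mul_add, smul_mul_assoc, mul_smul_comm, h6, ST, ST', TS, TS', TT, TT', T1,
    T2, smul_zero, add_zero, zero_add]
  rw [show v 0 * V 0 * (v 1 * V 1) * (v 2 * V 2) * (v 3 * V 3) = vol v V from rfl]
  module

end Pool.Agent.Lib.MP_361a6f_ag.FL.PT
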