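import Pool.Agent.Lib.MP_361a6f_ag.FL.PT.FrD
import Pool.Agent.Lib.MP_361a6f_ag.FL.PT.Theta
import Pool.Agent.Lib.MP_361a6f_ag.FL.PT.B3d

/-!
# Codimension two: the frame of the adapted basis
-/

open CategoryTheory AlgebraicGeometry MonoidalCategory CartesianMonoidalCategory

universe u v u' w w'

set_option autoImplicit false
set_option linter.unusedSectionVars false

namespace Pool.Agent.Lib.MP_361a6f_ag.FL.PT

open Pool.Agent.Lib.MP_361a6f_ag.FL.E
open Pool.Agent.Lib.MP_361a6f_ag.H3 Pool.Agent.Lib.MP_361a6f_ag.SQ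
  Pool.Agent.Lib.MP_361a6f_ag.PP

noncomputable section

variable {k : Type u} [Field k] {W : CohomologyData.{u, 0, w} k ℂ} {𝒱 : VarietyClass k}
  (H : Host W 𝒱 1)

/-- the form `ψ` on `H^1` in coordinates -/
theorem psi_vec1 (v w : Sub H.D (0, 1) → ℂ) :
    psi W (H.X 0) (H.ξ 0) (H.Lam 0) (H.lam 0).slm.internal (vec1 H v) (vec1 H w) =
      dotProduct v ((Psi (subD H.D (0, 1))).mulVec w) := by
  have h1 : psi W (H.X 0) (H.ξ 0) (H.Lam 0) (H.lam 0).slm.internal (vec1 H v) (vec1 H w) =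
      ∑ i : Sub H.D (0, 1), ∑ j : Sub H.D (0, 1), v i * (w j *
        psi W (H.X 0) (H.ξ 0) (H.Lam 0) (H.lam 0).slm.internal (H.e 0 i.1) (H.e 0 j.1)) := by
    change W.tr (H.X 0) ((∑ i : Sub H.D (0, 1), v i • H.e 0 i.1) *
      PP.star (H.lam 0).slm.internal (Lop W (H.X 0) (H.ξ 0)) (H.Lam 0)
        (∑ j : Sub H.D (0, 1), w j • H.e 0 j.1)) = _
    rw [Finset.sum_mul, map_sum]
    refine Finset.sum_congr rfl fun i _ => ?_
    rw [map_sum, Finset.mul_sum, map_sum]
    refine Finset.sum_congr rfl fun j _ => ?_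
    rw [map_smul, smul_mul_assoc, mul_smul_comm, map_smul, map_smul, smul_eq_mul, smul_eq_mul]
    rfl
  rw [h1]
  unfold dotProduct Matrix.mulVec dotProduct
  refine Finset.sum_congr rfl fun i _ => ?_
  rw [Finset.mul_sum]
  refine Finset.sum_congr rfl fun j _ => ?_
  rw [Theta.hψ]
  change v i * (w j * if j = (subD H.D (0, 1)).τ i then (subD H.D (0, 1)).s i else 0) =
    v i * ((if j = (subD H.D (0, 1)).τ i then (subD H.D (0, 1)).s i else 0) * w j)
  ring

/-- the adapted basis -/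
def fY (Y : Matrix (Sub H.D (0, 1)) (Sub H.D (0, 1)) ℂ) (j : Sub H.D (0, 1)) : W.coh (H.X 0) :=
  vec1 H (fun i => Y i j)

variable {Y : Matrix (Sub H.D (0, 1)) (Sub H.D (0, 1)) ℂ} (hG : IsG (subD H.D (0, 1)) Y)

include hG in
theorem psi_fY (i j : Sub H.D (0, 1)) :
    psi W (H.X 0) (H.ξ 0) (H.Lam 0) (H.lam 0).slm.internal (fY H Y i) (fY H Y j) =
      if j = (subD H.D (0, 1)).τ i then (subD H.D (0, 1)).s i else 0 := by
  have h1 := congrFun (congrFun hG.2 i) j
  rw [Psi_apply] at h1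
  rw [fY, fY, psi_vec1, ← h1, Matrix.mul_assoc, Matrix.mul_apply, dotProduct]
  refine Finset.sum_congr rfl fun a _ => ?_
  rw [Matrix.transpose_apply]
  rfl

/-- `vec1` is a combination of the columns -/
theorem vec1_col (c : Sub H.D (0, 1) → ℂ) :
    vec1 H (Y.mulVec c) = ∑ j, c j • fY H Y j := by
  have h : Y.mulVec c = ∑ j, c j • fun i => Y i j := by
    funext i
    rw [Matrix.mulVec, dotProduct, Finset.sum_apply]
    exact Finset.sum_congr rfl fun j _ => mul_comm _ _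
  rw [h, map_sum]
  exact Finset.sum_congr rfl fun j _ => map_smul _ _ _

include hG in
theorem span_fY (v : W.coh (H.X 0)) (hv : v ∈ W.gr (H.X 0) 1) :
    v ∈ Submodule.span ℂ (Set.range (fY H Y)) := by
  obtain ⟨hY1, hY2, hY3⟩ := alg1.G_inv (subD H.D (0, 1)) Y hG
  have h1 : v = vec1 H (Y.mulVec (Y⁻¹.mulVec (crd1 H v))) := by
    rw [Matrix.mulVec_mulVec, hY2, Matrix.one_mulVec, vec1_crd1 H hv]
  rw [h1, vec1_col]
  exact Submodule.sum_mem _ fun j _ => Submodule.smul_mem _ _ (Submodule.subset_span ⟨j, rfl⟩)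

/-- **The frame of the adapted basis.** -/
theorem exists_fr (hG : IsG (subD H.D (0, 1)) Y)
    (P : PSys (subD H.D (0, 1)) (fun L u => At1 H L (gT Y u)))
    (hA : AbelianType W (H.X 0) (H.n 0)) (hξ : PositiveDivisor W (H.X 0) (H.n 0) (H.ξ 0))
    (hg : 0 < H.n 0)
    (hE : ∀ z ∈ W.alg (H.X 0 ⊗ H.X 0) (H.n 0), ∃ (n : ℕ) (h : H.X 0 ⟶ H.X 0), 0 < n ∧
      ∀ x ∈ W.gr (H.X 0) 1, W.pull h x = (n : ℂ) • cor W z x) :
    ∃ F : Fr W (H.X 0) (H.n 0) (H.ξ 0) (Sub H.D (0, 1)), F.f = fY H Y ∧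
      F.τ = (subD H.D (0, 1)).τ ∧ F.s = fun j => -(subD H.D (0, 1)).s j := by
  obtain ⟨c, κ, hc, hκ, h1, h2⟩ := Theta.facts H.hW (H.mem 0) hA hξ (H.lam 0) (e := fY H Y)
    (fun i => vec1_gr H _) (Theta.hs H) (subD H.D (0, 1)).τ_τ (Theta.hsτ H) (psi_fY H hG)
    (span_fY H hG) hg
  refine ⟨{ f := fY H Y
            τ := (subD H.D (0, 1)).τ
            s := fun j => -(subD H.D (0, 1)).s j
            c := c
            κ := κ
            f_gr := fun i => vec1_gr H _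
            τ_τ := (subD H.D (0, 1)).τ_τ
            s_sq := fun j => by rw [neg_mul_neg]; exact Theta.hs H j
            s_τ := fun j => by rw [Theta.hsτ H j]
            c_pos := hc
            κ_pos := hκ
            ξ_eq := h1
            tr := h2
            diag := fun z hz => diag_endo H hE hG P z hz }, rfl, rfl, rfl⟩

end

end Pool.Agent.Lib.MP_361a6f_ag.FL.PT
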