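import Pool.Agent.Lib.MP_361a6f_ag.FL.E.Tate
import Pool.Agent.Lib.MP_361a6f_ag.FL.Alg1

/-!
# Theorem PT, row HB: change of the basis of a host

An element `g` of the group of `ψ` gives a new host of the same variety, with the basis
`e'_x = ∑ g z x e_z`. The coordinates are transported by `gT g⁻¹`.
-/

open CategoryTheory AlgebraicGeometry MonoidalCategory CartesianMonoidalCategory

universe u w

set_option autoImplicit false
set_option linter.unusedSectionVars false

namespace Pool.Agent.Lib.MP_361a6f_ag.FL.PT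

open Pool.Agent.Lib.MP_361a6f_ag.H3 Pool.Agent.Lib.MP_361a6f_ag.SQ
  Pool.Agent.Lib.MP_361a6f_ag.PP Pool.Agent.Lib.MP_361a6f_ag.FL.E

noncomputable section

/-! ### Extension of a matrix by the identity -/

section ext

variable {I Λ : Type} [Fintype I] [DecidableEq I] [DecidableEq Λ] {D : Dat I Λ} {α : Λ}

/-- the extension of a matrix on the letter `α` by the identity -/
def extM (y : Matrix (Sub D α) (Sub D α) ℂ) : Matrix I I ℂ :=
  Matrix.of fun i j => if h : D.typ i = α ∧ D.typ j = α then y ⟨i, h.1⟩ ⟨j, h.2⟩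
    else if i = j then 1 else 0

theorem extM_in (y : Matrix (Sub D α) (Sub D α) ℂ) (i j : Sub D α) :
    extM y (i : I) (j : I) = y i j := by
  rw [extM, Matrix.of_apply, dif_pos ⟨i.2, j.2⟩]

theorem extM_out (y : Matrix (Sub D α) (Sub D α) ℂ) {i j : I}
    (h : ¬(D.typ i = α ∧ D.typ j = α)) : extM y i j = if i = j then 1 else 0 := by
  rw [extM, Matrix.of_apply, dif_neg h]

theorem blk_extM (y : Matrix (Sub D α) (Sub D α) ℂ) : blk (extM y) = y := by
  ext i j
  exact extM_in y i j

theorem extM_typ (y : Matrix (Sub D α) (Sub D α) ℂ) {i j : I} (h : D.typ i ≠ D.typ j) :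
    extM y i j = 0 := by
  rw [extM_out y (fun e => h (e.1.trans e.2.symm)), if_neg fun e => h (by rw [e])]

/-- the entries of `gᵀ Ψ g` -/
theorem gram_entry (D : Dat I Λ) (g : Matrix I I ℂ) (i j : I) :
    (g.transpose * Psi D * g) i j = ∑ a, D.s a * (g a i * g (D.τ a) j) := by
  rw [Matrix.mul_assoc, Matrix.mul_apply]
  refine Finset.sum_congr rfl fun a _ => ?_
  rw [Matrix.transpose_apply, Matrix.mul_apply, Finset.sum_eq_single (D.τ a)]
  · rw [Psi, Matrix.of_apply, if_pos rfl]
    ring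
  · intro b _ hb
    rw [Psi, Matrix.of_apply, if_neg hb, zero_mul]
  · intro h
    exact absurd (Finset.mem_univ _) h

theorem isG_extM {y : Matrix (Sub D α) (Sub D α) ℂ} (hy : IsG (subD D α) y) :
    IsG D (extM y) := by
  refine ⟨fun i j h => extM_typ y h, ?_⟩
  ext i j
  rw [gram_entry, Psi, Matrix.of_apply]
  by_cases hj : D.typ j = α
  · by_cases hi : D.typ i = α
    · -- both in the letter
      have h1 : ∑ a, D.s a * (extM y a i * extM y (D.τ a) j) =
          ∑ a : Sub D α, (subD D α).s a * (y a ⟨i, hi⟩ * y ((subD D α).τ a) ⟨j, hj⟩) := by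
        rw [← Finset.sum_filter_add_sum_filter_not Finset.univ (fun k => D.typ k = α),
          Finset.sum_eq_zero (s := Finset.univ.filter fun k => ¬ D.typ k = α), add_zero]
        · refine (Finset.sum_bij (fun (k : Sub D α) _ => (k : I)) ?_ ?_ ?_ ?_).symm
          · intro k _
            exact Finset.mem_filter.2 ⟨Finset.mem_univ _, k.2⟩
          · intro k _ k' _ h
            exact Subtype.ext h
          · intro k hk
            exact ⟨⟨k, (Finset.mem_filter.1 hk).2⟩, Finset.mem_univ _, rfl⟩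
          · intro k _
            have e1 : extM y (k : I) i = y k ⟨i, hi⟩ := extM_in y k ⟨i, hi⟩
            have e2 : extM y (D.τ (k : I)) j = y ((subD D α).τ k) ⟨j, hj⟩ :=
              extM_in y ((subD D α).τ k) ⟨j, hj⟩
            rw [e1, e2]
            rfl
        · intro k hk
          rw [extM_typ y (fun e => (Finset.mem_filter.1 hk).2 (e.trans hi)), zero_mul, mul_zero]
      rw [h1, ← gram_entry (subD D α) y ⟨i, hi⟩ ⟨j, hj⟩, hy.2, Psi, Matrix.of_apply]
      by_cases h : j = D.τ i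
      · rw [if_pos h, if_pos (Subtype.ext h)]
        rfl
      · rw [if_neg h, if_neg fun e => h (congrArg Subtype.val e)]
    · rw [Finset.sum_eq_single i, extM_out y (j := i) (fun e => hi e.1), if_pos rfl,
        extM_typ y (i := D.τ i) (j := j) (by rw [D.typ_τ]; exact fun e => hi (e.trans hj)),
        if_neg fun e => hi (by rw [← D.typ_τ, ← e, hj])]
      · ring
      · intro a _ ha
        rw [extM_out y (fun e => hi e.2), if_neg ha, zero_mul, mul_zero]
      · intro h
        exact absurd (Finset.mem_univ _) h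
  · rw [Finset.sum_eq_single (D.τ j), D.τ_τ, extM_out y (i := j) (j := j) (fun e => hj e.1),
      if_pos rfl, extM_out y (fun e => hj (by rw [← D.typ_τ]; exact e.1))]
    · by_cases h : D.τ j = i
      · rw [if_pos h, if_pos (by rw [← h, D.τ_τ]), h]
        ring
      · rw [if_neg h, if_neg fun e => h (by rw [e, D.τ_τ])]
        ring
    · intro a _ ha
      rw [extM_out y (i := D.τ a) (fun e => hj e.2), if_neg, mul_zero, mul_zero]
      intro e
      exact ha (by rw [← e, D.τ_τ])
    · intro h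
      exact absurd (Finset.mem_univ _) h

end ext

/-! ### The new host -/

section host

variable {k : Type u} [Field k] {W : CohomologyData.{u, 0, w} k ℂ} {𝒱 : VarietyClass k}
  (H : Host W 𝒱 1) {g : Matrix H.I H.I ℂ} (hg : IsG H.D g)

/-- the new basis -/
def hbe (g : Matrix H.I H.I ℂ) (a : Fin 1) (x : H.I) : W.coh (H.X a) :=
  ∑ z, g z x • H.e a z

/-- the host with the basis `∑ g z x e_z` -/
def hb : Host W 𝒱 1 where
  hW := H.hW
  X := H.X
  n := H.n
  mem := H.mem
  ξ := H.ξ
  ξ_alg := H.ξ_alg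
  Lam := H.Lam
  lam := H.lam
  I := H.I
  fin := H.fin
  dec := H.dec
  D := H.D
  odd_iff := H.odd_iff
  e := hbe H g
  e_ne a x h := absurd (Subsingleton.elim _ _) h
  e_gr a x := by
    refine Submodule.sum_mem _ fun z _ => ?_
    by_cases hz : H.D.typ z = H.D.typ x
    · rw [← hz]
      exact Submodule.smul_mem _ _ (H.e_gr a z)
    · rw [hg.1 z x hz, zero_smul]
      exact zero_mem _
  e_psi a x y _ _ := by
    have hs : ∀ z : H.I, (H.D.typ z).1 = a := fun z => Subsingleton.elim _ _
    have h1 : psi W (H.X a) (H.ξ a) (H.Lam a) (H.lam a).slm.internal (hbe H g a x) (hbe H g a y)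
        = ∑ z, ∑ z', g z x * (g z' y * if z' = H.D.τ z then H.D.s z else 0) := by
      unfold psi hbe
      rw [Finset.sum_mul, map_sum]
      refine Finset.sum_congr rfl fun z _ => ?_
      rw [map_sum, Finset.mul_sum, map_sum]
      refine Finset.sum_congr rfl fun z' _ => ?_
      rw [map_smul, smul_mul_assoc, mul_smul_comm, map_smul, map_smul, smul_eq_mul, smul_eq_mul,
        ← H.e_psi a z z' (hs z) (hs z')]
      rfl
    rw [h1]
    have h2 := congrFun (congrFun hg.2 x) y
    rw [gram_entry, Psi, Matrix.of_apply] at h2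
    rw [← h2]
    refine Finset.sum_congr rfl fun z _ => ?_
    rw [Finset.sum_eq_single (H.D.τ z)]
    · rw [if_pos rfl]
      ring
    · intro b _ hb
      rw [if_neg hb, mul_zero, mul_zero]
    · intro h
      exact absurd (Finset.mem_univ _) h
  e_span a := by
    refine top_le_iff.1 ?_
    rw [← H.e_span a, Submodule.span_le]
    rintro _ ⟨z, rfl⟩
    have h1 : H.e a z = ∑ x, g⁻¹ x z • hbe H g a x := by
      have h2 : ∀ y, ∑ x, g y x * g⁻¹ x z = (1 : Matrix H.I H.I ℂ) y z := by
        intro y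
        rw [← (alg1.G_inv H.D g hg).2.1, Matrix.mul_apply]
      have h3 : ∑ x, g⁻¹ x z • hbe H g a x = ∑ y, (∑ x, g y x * g⁻¹ x z) • H.e a y := by
        simp only [hbe, Finset.smul_sum, Finset.sum_smul, smul_smul]
        rw [Finset.sum_comm]
        refine Finset.sum_congr rfl fun y _ => Finset.sum_congr rfl fun x _ => ?_
        rw [mul_comm]
      rw [h3, Finset.sum_eq_single z]
      · rw [h2, Matrix.one_apply_eq, one_smul]
      · intro b _ hb
        rw [h2, Matrix.one_apply_ne hb, zero_smul]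
      · intro h
        exact absurd (Finset.mem_univ _) h
    rw [h1]
    exact Submodule.sum_mem _ fun x _ => Submodule.smul_mem _ _ (Submodule.subset_span ⟨x, rfl⟩)

theorem hb_e (a : Fin 1) (x : H.I) : (hb H hg).e a x = ∑ z, g z x • H.e a z := rfl

/-- the exterior products of the new basis -/
theorem hb_E : ∀ (P : Prd 1) (w : Fin P.size → H.I),
    (hb H hg).E P w = ∑ v : Fin P.size → H.I, (∏ i, g (v i) (w i)) • H.E P v
  | .leaf a, w => by
    show ∑ z, g z (w ⟨0, Nat.one_pos⟩) • H.e a z = _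
    refine Fintype.sum_equiv (Equiv.funUnique (Fin 1) H.I).symm _ _ fun z => ?_
    show _ = (∏ i : Fin 1, g z (w i)) • H.e a z
    rw [Fin.prod_univ_one]
    rfl
  | .prod P Q, w => by
    show W.pull (fst (P.obj H.X) (Q.obj H.X)) ((hb H hg).E P (fun i => w (Fin.castAdd Q.size i)))
      * W.pull (snd (P.obj H.X) (Q.obj H.X)) ((hb H hg).E Q (fun i => w (Fin.natAdd P.size i))) = _
    rw [hb_E P, hb_E Q]
    simp only [map_sum, map_smul]
    rw [Finset.sum_mul]
    refine Eq.trans ?_ (Fintype.sum_equiv (Fin.appendEquiv P.size Q.size (α := H.I))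
      (fun p => (∏ i, g (Fin.append p.1 p.2 i) (w i)) • H.E (.prod P Q) (Fin.append p.1 p.2))
      (fun v => (∏ i, g (v i) (w i)) • H.E (.prod P Q) v) (fun p => rfl))
    rw [Fintype.sum_prod_type]
    refine Finset.sum_congr rfl fun v _ => ?_
    rw [Finset.mul_sum]
    refine Finset.sum_congr rfl fun v' _ => ?_
    rw [smul_mul_assoc, mul_smul_comm, smul_smul]
    have h1 : (∏ i, g (Fin.append v v' i) (w i)) =
        (∏ i, g (v i) (w (Fin.castAdd Q.size i))) * ∏ i, g (v' i) (w (Fin.natAdd P.size i)) := by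
      refine (Fin.prod_univ_add _).trans ?_
      simp only [Fin.append_left, Fin.append_right]
    have h2 : H.E (.prod P Q) (Fin.append v v') = W.pull (fst (P.obj H.X) (Q.obj H.X)) (H.E P v)
        * W.pull (snd (P.obj H.X) (Q.obj H.X)) (H.E Q v') := by
      show W.pull (fst (P.obj H.X) (Q.obj H.X)) (H.E P fun i => Fin.append v v' (Fin.castAdd Q.size i))
        * W.pull (snd (P.obj H.X) (Q.obj H.X))
            (H.E Q fun i => Fin.append v v' (Fin.natAdd P.size i)) = _
      simp only [Fin.append_left, Fin.append_right]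
    rw [h1, h2]
    rfl

theorem hb_aux (g : Matrix H.I H.I ℂ) (P : Prd 1) (z : W.coh (P.obj H.X)) (T : Ten H.I P.size)
    (h : z = ∑ w, T w • ∑ v : Fin P.size → H.I, (∏ i, g (v i) (w i)) • H.E P v) :
    gT g T = H.tc P z := by
  have hoff : ∀ w : Fin P.size → H.I, ¬ H.Off P w := by
    rintro w ⟨i, hi⟩
    exact hi (Subsingleton.elim _ _)
  have h2 : z = ∑ v : Fin P.size → H.I, gT g T v • H.E P v := by
    refine h.trans ?_
    have h3 : ∀ w : Fin P.size → H.I,
        T w • (∑ v : Fin P.size → H.I, (∏ i, g (v i) (w i)) • H.E P v) =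
        ∑ v : Fin P.size → H.I, ((∏ i, g (v i) (w i)) * T w) • H.E P v := by
      intro w
      rw [Finset.smul_sum]
      refine Finset.sum_congr rfl fun v _ => ?_
      rw [smul_smul, mul_comm]
    refine (Finset.sum_congr rfl fun w _ => h3 w).trans ?_
    rw [Finset.sum_comm]
    refine Finset.sum_congr rfl fun v _ => ?_
    rw [← Finset.sum_smul]
    rfl
  have h4 := (ge H).tc_sum P (gT g T) (fun w hw => absurd hw (hoff w))
  rw [← h2] at h4
  exact h4.symm

/-- **The new coordinates.** -/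
theorem hb_tc (P : Prd 1) (z : W.coh (P.obj H.X)) :
    gT g ((hb H hg).tc P z : Ten H.I P.size) = H.tc P z :=
  hb_aux H g P z _ (((ge (hb H hg)).expand P z).trans
    (Finset.sum_congr rfl fun w _ => congrArg _ (hb_E H hg P w)))

theorem hb_tc' (P : Prd 1) (z : W.coh (P.obj H.X)) :
    (hb H hg).tc P z = gT g⁻¹ (H.tc P z) := by
  rw [← hb_tc H hg, ← alg1.gT_mul, (alg1.G_inv H.D g hg).2.2, alg1.gT_one]

theorem gT_zero_len (g : Matrix H.I H.I ℂ) (c : ℂ) :
    gT g (fun _ : Fin 0 → H.I => c) = fun _ => c := by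
  funext w
  unfold gT
  rw [Fintype.sum_unique]
  simp

include hg in
theorem gT_inv_at {L : ℕ} (u : Ten H.I L) : gT g⁻¹ (gT g u) = u := by
  rw [← alg1.gT_mul, (alg1.G_inv H.D g hg).2.2, alg1.gT_one]

include hg in
theorem gT_at_inv {L : ℕ} (u : Ten H.I L) : gT g (gT g⁻¹ u) = u := by
  rw [← alg1.gT_mul, (alg1.G_inv H.D g hg).2.1, alg1.gT_one]

/-- a matrix as an additive map on the tensors -/
def gA (g : Matrix H.I H.I ℂ) (L : ℕ) : Ten H.I L →+ Ten H.I L :=
  AddMonoidHom.mk' (gT g) (alg1.gT_add g)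

/-- **The algebraic tensors of the new host.** -/
theorem hb_at (L : ℕ) (u : Ten H.I L) : u ∈ (hb H hg).At L ↔ gT g u ∈ H.At L := by
  have h1 : (hb H hg).At L ≤ (H.At L).comap (gA H g L) := by
    refine (AddSubgroup.closure_le _).2 ?_
    rintro v (⟨rfl, q, rfl⟩ | ⟨P, rfl, z, hz, rfl⟩)
    · show gT g (fun _ => (q : ℂ)) ∈ H.At 0
      rw [gT_zero_len]
      exact AddSubgroup.subset_closure (Or.inl ⟨rfl, q, rfl⟩)
    · show gT g ((hb H hg).tc P z) ∈ H.At P.size
      rw [hb_tc]
      exact AddSubgroup.subset_closure (Or.inr ⟨P, rfl, z, hz, rfl⟩)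
  have h2 : H.At L ≤ ((hb H hg).At L).comap (gA H g⁻¹ L) := by
    refine (AddSubgroup.closure_le _).2 ?_
    rintro v (⟨rfl, q, rfl⟩ | ⟨P, rfl, z, hz, rfl⟩)
    · show gT g⁻¹ (fun _ => (q : ℂ)) ∈ (hb H hg).At 0
      rw [gT_zero_len]
      exact AddSubgroup.subset_closure (Or.inl ⟨rfl, q, rfl⟩)
    · show gT g⁻¹ (H.tc P z) ∈ (hb H hg).At P.size
      rw [← hb_tc' H hg]
      exact AddSubgroup.subset_closure (Or.inr ⟨P, rfl, z, hz, rfl⟩)
  refine ⟨fun h => h1 h, fun h => ?_⟩
  have h3 : gT g⁻¹ (gT g u) ∈ (hb H hg).At L := h2 h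
  rwa [gT_inv_at H hg] at h3

/-- the algebraic tensors over the letter `(0, 1)` of the new host -/
theorem hb_at1 (L : ℕ) (u : Ten (Sub H.D (0, 1)) L) :
    At1 (hb H hg) L u ↔ At1 H L (gT (blk g) u) := by
  show ext0 H.D (0, 1) u ∈ (hb H hg).At L ↔ ext0 H.D (0, 1) (gT (blk g) u) ∈ H.At L
  rw [hb_at, gT_ext hg.1]

end host

/-- **Row HB.** Change of the basis of the letter `(0, 1)`. -/
theorem exists_hb {k : Type u} [Field k] {W : CohomologyData.{u, 0, w} k ℂ} {𝒱 : VarietyClass k}
    (H : Host W 𝒱 1) {y : Matrix (Sub H.D (0, 1)) (Sub H.D (0, 1)) ℂ}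
    (hy : IsG (subD H.D (0, 1)) y) (L : ℕ) (u : Ten (Sub H.D (0, 1)) L) :
    At1 (hb H (isG_extM hy)) L u ↔ At1 H L (gT y u) := by
  rw [hb_at1, blk_extM]

end

end Pool.Agent.Lib.MP_361a6f_ag.FL.PT
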