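import Pool.Agent.Lib.MP_361a6f_ag.FL.E.NSys
import Pool.Agent.Lib.MP_361a6f_ag.FL.E.Rsp
import Pool.Agent.Lib.MP_361a6f_ag.FL.PT.FrY
import Pool.Agent.Lib.MP_361a6f_ag.FL.PT.Hb

/-!
# Theorem PT: the classes of the words, and the sign of a pair of words

`H` is a host whose letters `(0, 1)` are adapted: the real span of the algebraic tensors of length
two contains the diagonal matrices `z` with `z (τ i) = conj (z i)`.

* `cls_real`: a tensor over the letter `(0, 1)` in the real span of the algebraic tensors of length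
  four is the tensor of a real combination of algebraic classes of codimension two on `X^4`;
* `pair_of_b3`: the hypothesis of `psd_of_words` in length four;
* `pos_four`: `ψ` is positive semidefinite in length four.
-/

open CategoryTheory AlgebraicGeometry MonoidalCategory CartesianMonoidalCategory

universe u w

set_option autoImplicit false
set_option linter.unusedSectionVars false

namespace Pool.Agent.Lib.MP_361a6f_ag.FL.PT

open Pool.Agent.Lib.MP_361a6f_ag.H3 Pool.Agent.Lib.MP_361a6f_ag.SQ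
  Pool.Agent.Lib.MP_361a6f_ag.PP Pool.Agent.Lib.MP_361a6f_ag.FL.E
  Pool.Agent.Lib.MP_361a6f_ag.FL.E.QS

noncomputable section

variable {k : Type u} [Field k] {W : CohomologyData.{u, 0, w} k ℂ} {𝒱 : VarietyClass k}
  (H : Host W 𝒱 1)

theorem vec1_single (j : Sub H.D (0, 1)) : vec1 H (Pi.single j 1) = H.e 0 (j : H.I) := by
  rw [vec1_apply, Finset.sum_eq_single j]
  · rw [Pi.single_eq_same, one_smul]
  · intro b _ hb
    rw [Pi.single_eq_of_ne hb, zero_smul]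
  · intro h
    exact absurd (Finset.mem_univ _) h

/-! ### The classes of the tensors over the letter `(0, 1)` -/

/-- the class of a tensor over the letter `(0, 1)` -/
def cls (P : Prd 1) : Ten (Sub H.D (0, 1)) P.size →ₗ[ℂ] W.coh (P.obj H.X) where
  toFun u := ∑ v : Fin P.size → H.I, ext0 H.D (0, 1) u v • H.E P v
  map_add' u v := by
    rw [← Finset.sum_add_distrib]
    refine Finset.sum_congr rfl fun i _ => ?_
    rw [map_add, Pi.add_apply, add_smul]
  map_smul' c u := by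
    rw [RingHom.id_apply, Finset.smul_sum]
    refine Finset.sum_congr rfl fun i _ => ?_
    rw [map_smul, Pi.smul_apply, smul_eq_mul, mul_smul]

theorem cls_apply (P : Prd 1) (u : Ten (Sub H.D (0, 1)) P.size) :
    cls H P u = ∑ v : Fin P.size → H.I, ext0 H.D (0, 1) u v • H.E P v := rfl

theorem cls_eq (P : Prd 1) (u : Ten (Sub H.D (0, 1)) P.size) :
    cls H P u = ∑ v : Fin P.size → Sub H.D (0, 1), u v • H.E P (up v) := by
  rw [cls_apply, sum_on (D := H.D) (α := (0, 1))]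
  · refine Finset.sum_congr rfl fun v _ => ?_
    rw [ext0_up]
  · intro v hv
    rw [ext0_off u hv, zero_smul]

theorem cls_alg (P : Prd 1) (i : ℕ) (hi : P.size = 2 * i) {u : Ten (Sub H.D (0, 1)) P.size}
    (hu : At1 H P.size u) : cls H P u ∈ W.alg (P.obj H.X) i := by
  obtain ⟨z, hz, h1⟩ := PosL.at_word H (gr ge H) (ge H) P (fun _ => (0, 1))
    (fun j => Subsingleton.elim _ _) i (by
      rw [Finset.sum_const, Finset.card_univ, Fintype.card_fin, smul_eq_mul, mul_one]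
      exact hi) hu (fun w hw => ext0_off u hw)
  rw [cls_apply, ← h1, ← (ge H).expand P z]
  exact hz

/-- **(s4).** -/
theorem cls_real (P : Prd 1) (i : ℕ) (hi : P.size = 2 * i) {u : Ten (Sub H.D (0, 1)) P.size}
    (hu : u ∈ Submodule.span ℝ {u | At1 H P.size u}) :
    cls H P u ∈ Submodule.span ℝ (W.alg (P.obj H.X) i : Set (W.coh (P.obj H.X))) := by
  refine Submodule.span_induction (p := fun u _ => cls H P u ∈
    Submodule.span ℝ (W.alg (P.obj H.X) i : Set (W.coh (P.obj H.X)))) ?_ ?_ ?_ ?_ hu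
  · intro u hu
    exact Submodule.subset_span (cls_alg H P i hi hu)
  · rw [map_zero]
    exact zero_mem _
  · intro x y _ _ hx hy
    rw [map_add]
    exact add_mem hx hy
  · intro c x _ hx
    rw [← Complex.coe_smul, map_smul, Complex.coe_smul]
    exact Submodule.smul_mem _ _ hx

/-- the formal product of four factors -/
abbrev Q4w : Prd 1 := .prod (.prod (.leaf 0) (.leaf 0)) (.prod (.leaf 0) (.leaf 0))

theorem E_Q4w (v : Fin 4 → H.I) :
    H.E Q4w v = W.pull (pr4 (H.X 0) 0) (H.e 0 (v 0)) * W.pull (pr4 (H.X 0) 1) (H.e 0 (v 1)) *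
      W.pull (pr4 (H.X 0) 2) (H.e 0 (v 2)) * W.pull (pr4 (H.X 0) 3) (H.e 0 (v 3)) := by
  have h0 : ∀ x, W.pull (pr4 (H.X 0) 0) x = W.pull (fst (H.X 0 ⊗ H.X 0) (H.X 0 ⊗ H.X 0))
      (W.pull (fst (H.X 0) (H.X 0)) x) := fun x => W.pull_comp _ _ _
  have h1 : ∀ x, W.pull (pr4 (H.X 0) 1) x = W.pull (fst (H.X 0 ⊗ H.X 0) (H.X 0 ⊗ H.X 0))
      (W.pull (snd (H.X 0) (H.X 0)) x) := fun x => W.pull_comp _ _ _
  have h2 : ∀ x, W.pull (pr4 (H.X 0) 2) x = W.pull (snd (H.X 0 ⊗ H.X 0) (H.X 0 ⊗ H.X 0))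
      (W.pull (fst (H.X 0) (H.X 0)) x) := fun x => W.pull_comp _ _ _
  have h3 : ∀ x, W.pull (pr4 (H.X 0) 3) x = W.pull (snd (H.X 0 ⊗ H.X 0) (H.X 0 ⊗ H.X 0))
      (W.pull (snd (H.X 0) (H.X 0)) x) := fun x => W.pull_comp _ _ _
  rw [h0, h1, h2, h3]
  exact (congrArg₂ (· * ·) (map_mul _ _ _) (map_mul _ _ _)).trans (mul_assoc _ _ _).symm

/-! ### The pairs of words -/

variable {H}

/-- if there is a letter, the dimension is positive -/
theorem pos_dim (i : Sub H.D (0, 1)) : 0 < H.n 0 := by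
  by_contra hg
  have h1 : H.e 0 (i : H.I) = 0 := H.hW.top_gr (H.mem 0) (Theta.he H i) (by omega)
  have h2 := H.e_psi 0 i (H.D.τ i) (by rw [i.2]) (by rw [H.D.typ_τ, i.2])
  rw [if_pos rfl, h1, psi, zero_mul, map_zero] at h2
  rcases H.D.s_val i with h | h <;> rw [h] at h2 <;> norm_num at h2

/-- the columns of the identity -/
theorem fY_one (j : Sub H.D (0, 1)) : fY H 1 j = H.e 0 (j : H.I) := by
  rw [← vec1_single H j, fY]
  congr 1
  funext i
  rw [Matrix.one_apply, Pi.single_apply]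

/-- the hypothesis of `psd_of_words` in length four -/
theorem pair_of_b3 (hB : B3Statement.{u, w}) (r1 : RowA1.{w}) (r2 : RowA2.{w})
    (Lw : Law W (H.X 0)) {E : ∀ Z : Sch k, ℕ → Set (W.coh Z)}
    (hE : Eff W (H.X 0) (H.n 0) (H.ξ 0) E)
    (hA : AbelianType W (H.X 0) (H.n 0)) (hξ : PositiveDivisor W (H.X 0) (H.n 0) (H.ξ 0))
    (hend : ∀ z ∈ W.alg (H.X 0 ⊗ H.X 0) (H.n 0), ∃ (n : ℕ) (h : H.X 0 ⟶ H.X 0), 0 < n ∧
      ∀ x ∈ W.gr (H.X 0) 1, W.pull h x = (n : ℂ) • cor W z x)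
    (P : PT.PSys (subD H.D (0, 1)) (At1 H))
    (w : Fin 4 → Sub H.D (0, 1)) (t : Ten (Sub H.D (0, 1)) 4)
    (ht : t ∈ Submodule.span ℝ {u | At1 H 4 u})
    (h0 : ∀ w', w' ≠ w → w' ≠ (subD H.D (0, 1)).τ ∘ w → t w' = 0) :
    ∃ r : ℝ, 0 ≤ r ∧ sg (subD H.D (0, 1)) w * (t w * t ((subD H.D (0, 1)).τ ∘ w)) = (r : ℂ) := by
  classical
  set D1 := subD H.D (0, 1) with hD1
  have hg : 0 < H.n 0 := pos_dim (w 0)
  have P1 : PT.PSys D1 (fun L u => At1 H L (gT (1 : Matrix (Sub H.D (0, 1)) _ ℂ) u)) := by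
    have e : (fun (L : ℕ) (u : Ten (Sub H.D (0, 1)) L) =>
        At1 H L (gT (1 : Matrix (Sub H.D (0, 1)) _ ℂ) u)) = fun L u => At1 H L u := by
      funext L u
      rw [alg1.gT_one]
    rw [e]
    exact P
  obtain ⟨F, hf, hτ, hs⟩ := exists_fr H (alg1.G_one D1) P1 hA hξ hg hend
  have hfe : ∀ j, F.f j = H.e 0 (j : H.I) := fun j => by rw [hf, fY_one]
  have hne : D1.τ ∘ w ≠ w := fun h => (D1.odd_τ (w 0) (P.odd _)).1 (congrFun h 0)
  have hττ : D1.τ ∘ (D1.τ ∘ w) = w := funext fun i => D1.τ_τ (w i)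
  have hsgτ : sg D1 (D1.τ ∘ w) = sg D1 w := by
    unfold sg
    rw [Fin.prod_univ_four, Fin.prod_univ_four]
    simp only [Function.comp_apply, (D1.odd_τ _ (P.odd _)).2]
    ring
  -- the value of `ψ`
  have hψ : psiT D1 t t = 2 * (sg D1 w * (t w * t (D1.τ ∘ w))) := by
    unfold psiT
    rw [Finset.sum_eq_add w (D1.τ ∘ w) hne.symm]
    · rw [hττ, hsgτ]
      ring
    · intro v _ hv
      rw [h0 v hv.1 hv.2, zero_mul, mul_zero]
    · intro h
      exact absurd (Finset.mem_univ _) h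
    · intro h
      exact absurd (Finset.mem_univ _) h
  obtain ⟨ρ, hρ⟩ := Rsp.psi_real D1 P.sys (L := 4) (u := t) (v := t) ht ht
  have h2 : sg D1 w * (t w * t (D1.τ ∘ w)) = ((ρ / 2 : ℝ) : ℂ) := by
    rw [hρ] at hψ
    push_cast
    linear_combination (-1 / 2 : ℂ) * hψ
  refine ⟨ρ / 2, ?_, h2⟩
  -- the class
  have hcls := cls_real H Q4w 2 rfl (u := t) ht
  have hE4 : cls H Q4w t = t w • H.E Q4w (up w) + t (D1.τ ∘ w) • H.E Q4w (up (D1.τ ∘ w)) := by
    rw [cls_eq]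
    refine (Finset.sum_eq_add w (D1.τ ∘ w) hne.symm ?_ ?_ ?_)
    · intro v _ hv
      rw [h0 v hv.1 hv.2, zero_smul]
    · intro h
      exact absurd (Finset.mem_univ _) h
    · intro h
      exact absurd (Finset.mem_univ _) h
  rw [hE4] at hcls
  refine hB r1 r2 H.hW (H.mem 0) hg Lw (H.ξ_alg 0) hE F w (t w) (t (D1.τ ∘ w)) ?_ (ρ / 2) ?_
  · have e1 := E_Q4w H (up w)
    have e2 := E_Q4w H (up (D1.τ ∘ w))
    rw [hτ]
    simp only [hfe]
    have e3 : ∀ x y x' y' : W.coh (Y4 (H.X 0)), x = x' → y = y' →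
        t w • x + t (D1.τ ∘ w) • y ∈
          Submodule.span ℝ (W.alg (Y4 (H.X 0)) 2 : Set (W.coh (Y4 (H.X 0)))) →
        t w • x' + t (D1.τ ∘ w) • y' ∈
          Submodule.span ℝ (W.alg (Y4 (H.X 0)) 2 : Set (W.coh (Y4 (H.X 0)))) := by
      rintro x y _ _ rfl rfl h
      exact h
    exact e3 _ _ _ _ e1 e2 hcls
  · rw [hs, ← h2]
    congr 1
    unfold sg
    rw [Fin.prod_univ_four, Fin.prod_univ_four]
    ring

/-- **`ψ` is positive semidefinite in length four**, for a host with an adapted basis `Y`. -/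
theorem pos_four (hB : B3Statement.{u, w}) (r1 : RowA1.{w}) (r2 : RowA2.{w})
    (Lw : Law W (H.X 0)) {E : ∀ Z : Sch k, ℕ → Set (W.coh Z)}
    (hE : Eff W (H.X 0) (H.n 0) (H.ξ 0) E)
    (hA : AbelianType W (H.X 0) (H.n 0)) (hξ : PositiveDivisor W (H.X 0) (H.n 0) (H.ξ 0))
    (hend : ∀ z ∈ W.alg (H.X 0 ⊗ H.X 0) (H.n 0), ∃ (n : ℕ) (h : H.X 0 ⟶ H.X 0), 0 < n ∧
      ∀ x ∈ W.gr (H.X 0) 1, W.pull h x = (n : ℂ) • cor W z x)
    {Y : Matrix (Sub H.D (0, 1)) (Sub H.D (0, 1)) ℂ} (hG : IsG (subD H.D (0, 1)) Y)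
    (P : PT.PSys (subD H.D (0, 1)) (fun L u => At1 H L (gT Y u)))
    {u : Ten (Sub H.D (0, 1)) 4} (hu : u ∈ Submodule.span ℝ {u | At1 H 4 u}) :
    ∃ r : ℝ, 0 ≤ r ∧ psiT (subD H.D (0, 1)) u u = (r : ℂ) := by
  have e : (fun (L : ℕ) (u : Ten (Sub H.D (0, 1)) L) => At1 H L (gT Y u)) =
      fun L u => At1 (hb H (isG_extM hG)) L u := by
    funext L u
    exact propext (exists_hb H hG L u).symm
  have P' : PT.PSys (subD H.D (0, 1)) (fun L u => At1 (hb H (isG_extM hG)) L u) := e ▸ P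
  refine psd alg1 hG P (L := 3) (fun w t ht h0 => ?_) hu
  refine pair_of_b3 (H := hb H (isG_extM hG)) hB r1 r2 Lw hE hA hξ hend P' w t ?_ h0
  have h1 : gT Y⁻¹ (gT Y t) ∈ Submodule.span ℝ {u | At1 (hb H (isG_extM hG)) 4 u} := by
    refine Submodule.span_induction (p := fun v _ => gT Y⁻¹ v ∈
      Submodule.span ℝ {u | At1 (hb H (isG_extM hG)) 4 u}) ?_ ?_ ?_ ?_ ht
    · intro v hv
      refine Submodule.subset_span ?_
      show At1 (hb H (isG_extM hG)) 4 (gT Y⁻¹ v)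
      rw [exists_hb H hG, ← alg1.gT_mul, (alg1.G_inv (subD H.D (0, 1)) Y hG).2.1, alg1.gT_one]
      exact hv
    · have h2 := alg1.gT_smul Y⁻¹ (0 : ℂ) (0 : Ten (Sub H.D (0, 1)) 4)
      rw [zero_smul, zero_smul] at h2
      rw [h2]
      exact zero_mem _
    · intro x y _ _ hx hy
      rw [alg1.gT_add]
      exact add_mem hx hy
    · intro c x _ hx
      rw [← Complex.coe_smul, alg1.gT_smul, Complex.coe_smul]
      exact Submodule.smul_mem _ _ hx
  rwa [← alg1.gT_mul, (alg1.G_inv (subD H.D (0, 1)) Y hG).2.2, alg1.gT_one] at h1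

end

end Pool.Agent.Lib.MP_361a6f_ag.FL.PT
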