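import Pool.Agent.Lib.MP_361a6f_ag.FL.PT.B3f

/-!
# Theorem PT, row B3: the sign
-/

open CategoryTheory AlgebraicGeometry MonoidalCategory CartesianMonoidalCategory

universe u w

set_option autoImplicit false
set_option linter.unusedSectionVars false

namespace Pool.Agent.Lib.MP_361a6f_ag.FL.PT

open Pool.Agent.Lib.MP_361a6f_ag.H3

noncomputable section

namespace B3

variable {k : Type u} [Field k] {W : CohomologyData.{u, 0, w} k ℂ} {𝒱 : VarietyClass k}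
  {X : Sch k} {g : ℕ} {ξ : W.coh X} {E : ∀ Z : Sch k, ℕ → Set (W.coh Z)} {J : Type} [Fintype J]
  [DecidableEq J]

section start

variable (F : Fr W X g ξ J) (w : Fin 4 → J)

/-- the coefficients of `N θ² + a T + b T'` -/
def sco (N a b : ℂ) : ((Fin 4 × J) × (Fin 4 × J)) ⊕ Fin 2 → ℂ :=
  Sum.elim (fun q => N * (F.c * F.s q.1.2) * (F.c * F.s q.2.2)) ![a, b]

/-- the words of `N θ² + a T + b T'` -/
def swd : ((Fin 4 × J) × (Fin 4 × J)) ⊕ Fin 2 → Fin 4 → Fin 4 × J :=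
  Sum.elim (fun q => ![q.1, (q.1.1, F.τ q.1.2), q.2, (q.2.1, F.τ q.2.2)])
    ![fun i => (i, w i), fun i => (i, F.τ (w i))]

theorem wsum_start {R : Type*} [Ring R] [Algebra ℂ R] (N a b : ℂ) (x : Fin 4 × J → R) :
    wsum (sco F N a b) (swd F w) x =
      N • (∑ p : Fin 4 × J, ((F.c : ℂ) * F.s p.2) • (x p * x (p.1, F.τ p.2))) ^ 2 +
      (a • (x (0, w 0) * x (1, w 1) * x (2, w 2) * x (3, w 3)) +
       b • (x (0, F.τ (w 0)) * x (1, F.τ (w 1)) * x (2, F.τ (w 2)) * x (3, F.τ (w 3)))) := by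
  unfold wsum
  rw [Fintype.sum_sum_type, Fin.sum_univ_two, Fintype.sum_prod_type, pow_two, Finset.sum_mul_sum,
    Finset.smul_sum]
  congr 1
  refine Finset.sum_congr rfl fun p _ => ?_
  rw [Finset.smul_sum]
  refine Finset.sum_congr rfl fun p' _ => ?_
  simp only [sco, swd, Sum.elim_inl, Matrix.cons_val_zero, Matrix.cons_val_one, Matrix.cons_val,
    smul_mul_smul_comm, smul_smul, mul_assoc]

theorem sq_four {R : Type*} [Ring R] (A : Fin 4 → R) (hc : ∀ i j, A i * A j = A j * A i)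
    (h0 : ∀ i, A i * A i = 0) : (∑ i, A i) ^ 2 =
      (A 0 * A 1 + A 0 * A 2 + A 0 * A 3 + A 1 * A 2 + A 1 * A 3 + A 2 * A 3) +
      (A 0 * A 1 + A 0 * A 2 + A 0 * A 3 + A 1 * A 2 + A 1 * A 3 + A 2 * A 3) := by
  rw [Fin.sum_univ_four, pow_two]
  simp only [mul_add, add_mul, h0]
  rw [hc 1 0, hc 2 0, hc 3 0, hc 2 1, hc 3 1, hc 3 2]
  abel

theorem th_eq : th W ξ =
    ∑ p : Fin 4 × J, ((F.c : ℂ) * F.s p.2) • (lett F p * lett F (p.1, F.τ p.2)) := by
  rw [th, Fintype.sum_prod_type]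
  refine Finset.sum_congr rfl fun i _ => ?_
  conv_lhs => rw [F.ξ_eq]
  rw [map_smul, map_sum, Finset.smul_sum]
  refine Finset.sum_congr rfl fun j _ => ?_
  rw [map_smul, map_mul, smul_smul]
  rfl

end start

section final

variable (hW : IsWeilCohomology W 𝒱) (hX : 𝒱.mem X g) (hg : 0 < g) (Lw : Law W X)
  (hξ : ξ ∈ W.alg X 1) (hE : Eff W X g ξ E) (F : Fr W X g ξ J) (w : Fin 4 → J)

include hW hX hξ hE in
theorem start_real {z : W.coh (Y4 X)}
    (hz : z ∈ Submodule.span ℝ (W.alg (Y4 X) 2 : Set (W.coh (Y4 X)))) :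
    (∃ N : ℝ, 0 ≤ N ∧ N • th W ξ ^ 2 + z ∈ Bip (E (Y4 X) 2)) ∧
      ∃ N : ℝ, 0 ≤ N ∧ N • th W ξ ^ 2 - z ∈ Bip (E (Y4 X) 2) := by
  have big : ∀ z ∈ W.alg (Y4 X) 2, ∃ N : ℝ, 0 ≤ N ∧ N • th W ξ ^ 2 + z ∈ Bip (E (Y4 X) 2) := by
    intro z hz
    obtain ⟨N, hN⟩ := hE.big 2 z hz
    refine ⟨N, Nat.cast_nonneg N, ?_⟩
    have e : (N : ℝ) • th W ξ ^ 2 = (N : ℂ) • th W ξ ^ 2 := by
      rw [← Complex.coe_smul, Complex.ofReal_natCast]
    rw [e]
    exact Bip.of_mem hN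
  induction hz using Submodule.span_induction with
  | mem z hz =>
    refine ⟨big z hz, ?_⟩
    obtain ⟨N, hN, h⟩ := big (-z) (neg_mem hz)
    exact ⟨N, hN, by rwa [sub_eq_add_neg]⟩
  | zero => exact ⟨⟨0, le_refl _, by simpa using Bip.zero⟩, ⟨0, le_refl _, by simpa using Bip.zero⟩⟩
  | add x y _ _ hx hy =>
    obtain ⟨⟨N, hN, h⟩, ⟨M, hM, h'⟩⟩ := hx
    obtain ⟨⟨N', hN', k⟩, ⟨M', hM', k'⟩⟩ := hy
    refine ⟨⟨N + N', by positivity, ?_⟩, ⟨M + M', by positivity, ?_⟩⟩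
    · have e : (N + N') • th W ξ ^ 2 + (x + y) =
          (N • th W ξ ^ 2 + x) + (N' • th W ξ ^ 2 + y) := by
        rw [add_smul]; abel
      rw [e]
      exact Bip.add h k
    · have e : (M + M') • th W ξ ^ 2 - (x + y) =
          (M • th W ξ ^ 2 - x) + (M' • th W ξ ^ 2 - y) := by
        rw [add_smul]; abel
      rw [e]
      exact Bip.add h' k'
  | smul r x _ hx =>
    obtain ⟨⟨N, hN, h⟩, ⟨M, hM, h'⟩⟩ := hx
    rcases le_total 0 r with hr | hr
    · refine ⟨⟨r * N, by positivity, ?_⟩, ⟨r * M, by positivity, ?_⟩⟩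
      · have := Bip.smul hr h
        rwa [smul_add, smul_smul] at this
      · have := Bip.smul hr h'
        rwa [smul_sub, smul_smul] at this
    · have hr' : 0 ≤ -r := by linarith
      refine ⟨⟨-r * M, by positivity, ?_⟩, ⟨-r * N, by positivity, ?_⟩⟩
      · have := Bip.smul hr' h'
        rwa [smul_sub, smul_smul, neg_smul r x, sub_neg_eq_add] at this
      · have := Bip.smul hr' h
        rwa [smul_add, smul_smul, neg_smul r x, ← sub_eq_add_neg] at this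

include hW hX in
theorem vl_gr (i : Fin 4) : vl F w i ∈ W.gr (Y4 X) 1 :=
  hW.pull_gr (memY hX) hX (pr4 X i) (F.f_gr _)

include hW hX in
theorem Vl_gr (i : Fin 4) : Vl F w i ∈ W.gr (Y4 X) 1 :=
  Submodule.smul_mem _ _ (hW.pull_gr (memY hX) hX (pr4 X i) (F.f_gr _))

include hW hX in
theorem anti1 {x y : W.coh (Y4 X)} (hx : x ∈ W.gr (Y4 X) 1) (hy : y ∈ W.gr (Y4 X) 1) :
    x * y = -(y * x) := by
  rw [hW.comm_gr (memY hX) hx hy, mul_one, pow_one, neg_one_smul]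

include hW hX in
theorem sq1 {x : W.coh (Y4 X)} (hx : x ∈ W.gr (Y4 X) 1) : x * x = 0 := by
  have h := anti1 hW hX hx hx
  have h2 : (2 : ℂ) • (x * x) = 0 := by
    rw [two_smul]
    nth_rewrite 2 [h]
    exact add_neg_cancel _
  exact (smul_eq_zero.1 h2).resolve_left two_ne_zero

include hW hX in
/-- the value of the class after the projection to the letters of the word -/
theorem start_val (N a b : ℂ) (m : Fin 4 × J → W.coh (Y4 X))
    (hm : m = fun p => zz F w (fun _ => 1) p.1 p.2 • W.pull (pr4 X p.1) (F.f p.2)) :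
    wsum (sco F N a b) (swd F w) m = ecl (vl F w) (Vl F w) (N * (8 * F.c ^ 2)) a
      (b * ∏ i, F.s (w i)) := by
  have h1 : ∀ i, m (i, w i) = vl F w i := fun i => by
    rw [hm]
    simp only [zz_one, one_smul]
    rfl
  have h2 : ∀ i, m (i, F.τ (w i)) = lett F (i, F.τ (w i)) := fun i => by
    rw [hm]
    simp only [zz_two, map_one, one_smul]
    rfl
  have h3 : (∑ p : Fin 4 × J, ((F.c : ℂ) * F.s p.2) • (m p * m (p.1, F.τ p.2))) =
      ∑ i, (2 * (F.c : ℂ)) • (vl F w i * Vl F w i) := by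
    rw [Fintype.sum_prod_type]
    refine Finset.sum_congr rfl fun i _ => ?_
    rw [Fintype.sum_eq_add (w i) (F.τ (w i)) (tau_ne F (w i)).symm]
    · simp only [F.τ_τ, h1, h2, F.s_τ]
      have hl : lett F (i, F.τ (w i)) ∈ W.gr (Y4 X) 1 :=
        hW.pull_gr (memY hX) hX (pr4 X i) (F.f_gr (F.τ (w i)))
      rw [anti1 hW hX hl (vl_gr hW hX F w i), Vl, mul_smul_comm, smul_smul,
        smul_neg, ← neg_smul, ← add_smul]
      congr 1
      ring
    · rintro j ⟨hj1, hj2⟩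
      have : m (i, j) = 0 := by
        rw [hm]
        simp only [zz, if_neg hj1, if_neg hj2, zero_smul]
      rw [this, zero_mul, smul_zero]
  rw [wsum_start, h3, ← Finset.smul_sum, smul_pow, sq_four (fun i => vl F w i * Vl F w i)]
  · simp only [h1, h2]
    have h4 : lett F (0, F.τ (w 0)) * lett F (1, F.τ (w 1)) * lett F (2, F.τ (w 2)) *
        lett F (3, F.τ (w 3)) = (∏ i, F.s (w i)) •
          (Vl F w 0 * Vl F w 1 * Vl F w 2 * Vl F w 3) := by
      rw [Fin.prod_univ_four]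
      simp only [Vl, smul_mul_smul_comm, smul_smul]
      have e : F.s (w 0) * F.s (w 1) * F.s (w 2) * F.s (w 3) *
          (F.s (w 0) * F.s (w 1) * F.s (w 2) * F.s (w 3)) = 1 := by
        have q0 := F.s_sq (w 0)
        have q1 := F.s_sq (w 1)
        have q2 := F.s_sq (w 2)
        have q3 := F.s_sq (w 3)
        calc _ = (F.s (w 0) * F.s (w 0)) * (F.s (w 1) * F.s (w 1)) * (F.s (w 2) * F.s (w 2)) *
              (F.s (w 3) * F.s (w 3)) := by ring
          _ = 1 := by rw [q0, q1, q2, q3]; ring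
      rw [e, one_smul]
    rw [h4, smul_smul, ← two_smul ℂ, smul_smul, smul_smul]
    unfold ecl
    rw [← add_assoc]
    congr 3
    ring
  · intro i j
    have ev : ∀ i, vl F w i * Vl F w i ∈ W.gr (Y4 X) (2 * 1) := fun i => by
      have h := hW.mul_gr (memY hX) (vl_gr hW hX F w i) (Vl_gr hW hX F w i)
      exact h
    exact hW.even_comm (memY hX) (ev i) _
  · intro i
    have h5 := anti1 hW hX (Vl_gr hW hX F w i) (vl_gr hW hX F w i)
    have h6 := sq1 hW hX (vl_gr hW hX F w i)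
    calc vl F w i * Vl F w i * (vl F w i * Vl F w i)
        = vl F w i * (Vl F w i * vl F w i) * Vl F w i := by simp only [mul_assoc]
      _ = 0 := by rw [h5, mul_neg, ← mul_assoc, h6]; simp

end final

end B3

/-- **Row B3.** -/
theorem b3 : B3Statement.{u, w} := by
  intro a1 a2 k _ W 𝒱 hW X g hX hg Lw ξ hξ E hE J _ _ F w a b hz x hx
  obtain ⟨⟨N0, hN0, hN⟩, -⟩ := B3.start_real hW hX hξ hE hz
  have h1 := Bip.add hN (B3.th_mem hW hX hξ hE 2)
  have hN1 : 0 < N0 + 1 := by linarith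
  -- the class as a sum of words
  have h2 : B3.wsum (B3.sco F ((N0 + 1 : ℝ) : ℂ) a b) (B3.swd F w) (B3.lett F) ∈
      Bip (E (Y4 X) 2) := by
    rw [B3.wsum_start, ← B3.th_eq]
    have e : (((N0 + 1 : ℝ) : ℂ)) • B3.th W ξ ^ 2 +
        (a • (B3.lett F (0, w 0) * B3.lett F (1, w 1) * B3.lett F (2, w 2) * B3.lett F (3, w 3)) +
         b • (B3.lett F (0, F.τ (w 0)) * B3.lett F (1, F.τ (w 1)) * B3.lett F (2, F.τ (w 2)) *
          B3.lett F (3, F.τ (w 3)))) = N0 • B3.th W ξ ^ 2 +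
        (a • (W.pull (pr4 X 0) (F.f (w 0)) * W.pull (pr4 X 1) (F.f (w 1)) *
        W.pull (pr4 X 2) (F.f (w 2)) * W.pull (pr4 X 3) (F.f (w 3))) +
      b • (W.pull (pr4 X 0) (F.f (F.τ (w 0))) * W.pull (pr4 X 1) (F.f (F.τ (w 1))) *
        W.pull (pr4 X 2) (F.f (F.τ (w 2))) * W.pull (pr4 X 3) (F.f (F.τ (w 3))))) +
        B3.th W ξ ^ 2 := by
      rw [Complex.coe_smul, add_smul, one_smul]
      simp only [B3.lett]
      abel
    rw [e]
    exact h1
  have hm := B3.slots_mem Lw F (fun i => pr4 X i) (B3.zz F w (fun _ => 1)) (B3.zz_conj F w _)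
  have h3 := B3.real_sub Lw F (hE.pullY · 2) _ _ h2 _ hm
  rw [B3.start_val hW hX F w _ a b _ rfl] at h3
  -- scaling
  have hc := F.c_pos
  have hd : 0 < (N0 + 1) * (8 * F.c ^ 2) := by positivity
  have h4 := (B3.calc_of hW hX hg hξ F w Lw hE).smul ((N0 + 1) * (8 * F.c ^ 2))⁻¹
    (inv_nonneg.2 hd.le) _ h3
  rw [ecl_smul] at h4
  have hd' : (((N0 + 1) * (8 * F.c ^ 2) : ℝ) : ℂ) ≠ 0 := by exact_mod_cast hd.ne'
  have e1 : ((((N0 + 1) * (8 * F.c ^ 2))⁻¹ : ℝ) : ℂ) * (((N0 + 1 : ℝ) : ℂ) * (8 * (F.c : ℂ) ^ 2))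
      = 1 := by
    have : (((N0 + 1 : ℝ) : ℂ) * (8 * (F.c : ℂ) ^ 2)) = (((N0 + 1) * (8 * F.c ^ 2) : ℝ) : ℂ) := by
      push_cast
      ring
    rw [this, Complex.ofReal_inv, inv_mul_cancel₀ hd']
  rw [e1] at h4
  have hB := berY hW (B3.memY hX) (B3.Om_gr hW hX hξ) (by omega : 8 * (g - 1) + 8 = 2 * (4 * g))
  have h5 := amp a1 a2 rowC hB (B3.vl_gr hW hX F w) (B3.Vl_gr hW hX F w)
    (B3.calc_of hW hX hg hξ F w Lw hE) _ _ h4 (((N0 + 1) * (8 * F.c ^ 2))⁻¹ ^ 2 * x) (by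
      push_cast
      rw [← hx]
      ring)
  have h6 : 0 < ((N0 + 1) * (8 * F.c ^ 2))⁻¹ ^ 2 := by positivity
  exact nonneg_of_mul_nonneg_right h5 h6

end

end Pool.Agent.Lib.MP_361a6f_ag.FL.PT
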