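import Pool.Agent.Lib.MP_361a6f_ag.FL.E.StatE

/-!
# Codimension two on abelian varieties in characteristic `p`: the definitions used in the statement
-/

open CategoryTheory AlgebraicGeometry MonoidalCategory CartesianMonoidalCategory

universe u v w w'

namespace Pool.Agent.Lib.MP_361a6f_ag.FL

open Pool.Agent.Lib.MP_361a6f_ag.H3 Pool.Agent.Lib.MP_361a6f_ag.SQ

/-- The effective classes of codimension `j` on `Y`: the sums of the classes of closed integral
subschemes of codimension `j` with rational coefficients `≥ 0`. -/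
def EQ.eff {k : Type u} [Field k] (W : CohomologyData.{u, 0, w} k ℂ) (Y : Sch k) (j : ℕ) :
    AddSubmonoid (W.coh Y) :=
  AddSubmonoid.closure {x | ∃ (q : ℚ) (Z : Y.Pt j), 0 ≤ q ∧ x = (q : ℂ) • W.cl Y j Z}

/-- `Y` is an abelian variety of dimension `g` over an algebraically closed field (with a unital
law), `θ` is an ample class. Products, pull-backs and push-forwards of effective classes on the
powers of `Y` are effective (a cycle can be translated into general position, and the class of a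
translate is the class of the cycle), `N θ^j + z` is effective for every algebraic class `z` if `N`
is large, and an algebraic correspondence acts on `H^1(Y)` as an endomorphism of `Y`, up to a
factor. -/
structure EQ.Moving {k : Type u} [Field k] (W : CohomologyData.{u, 0, w} k ℂ) (Y : Sch k) (g : ℕ)
    (θ : W.coh Y) : Prop where
  unital : EQ.Unital Y
  mul : ∀ (P : Prd 1) (i j : ℕ) (x y : W.coh (EQ.pw Y P)), x ∈ EQ.eff W (EQ.pw Y P) i →
    y ∈ EQ.eff W (EQ.pw Y P) j → W.cup x y ∈ EQ.eff W (EQ.pw Y P) (i + j)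
  pull : ∀ (P Q : Prd 1) (f : Sch.Mor (EQ.pw Y P) (EQ.pw Y Q)) (j : ℕ) (y : W.coh (EQ.pw Y Q)),
    y ∈ EQ.eff W (EQ.pw Y Q) j → W.pb f y ∈ EQ.eff W (EQ.pw Y P) j
  push : ∀ (P Q : Prd 1) (j : ℕ) (x : W.coh ((EQ.pw Y P).prod (EQ.pw Y Q))),
    x ∈ EQ.eff W ((EQ.pw Y P).prod (EQ.pw Y Q)) (j + Q.dim fun _ => g) →
    W.pf (Sch.pr₁ (EQ.pw Y P) (EQ.pw Y Q)) x ∈ EQ.eff W (EQ.pw Y P) j
  ample : ∀ (P : Prd 1) (j : ℕ) (z : W.coh (EQ.pw Y P)), W.IsAlg (EQ.pw Y P) j z →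
    ∃ N : ℕ, W.scal (N : ℂ) (Prd.pol W (fun _ => θ) P ^ j) + z ∈ EQ.eff W (EQ.pw Y P) j
  endo : ∀ z, W.IsAlg (Y.prod Y) g z → ∃ (n : ℕ) (f : Sch.Mor Y Y), 0 < n ∧
    ∀ x, W.Deg Y 1 x → W.pb f x = W.scal (n : ℂ) (EQ.act W z x)

/-- **Theorem PT.** `Q1` in codimension `2`, up to numerical equivalence. -/
def ThmPTGeoStatement : Prop :=
  ∀ {k : Type u} [Field k] (W : CohomologyData.{u, 0, w} k ℂ) (𝒱 : VarietyClass k)
    (_ : IsWeilCohomology W 𝒱) {k' : Type v} [Field k'] (W' : CohomologyData.{v, 0, w'} k' ℂ)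
    (𝒱' : VarietyClass k') (_ : IsWeilCohomology W' 𝒱') (D : EQ.Data W W') (_ : EQ.Hyp 𝒱 𝒱' D)
    (_ : EQ.Moving W' D.X' D.g (D.s (.leaf 0) D.ξ)),
    4 ≤ D.g → ∀ x, W.IsAlg D.X 2 x → W.cup (D.ξ ^ (D.g - 3)) x = 0 →
      (∀ y, W.IsAlg D.X (D.g - 2) y → W.Tr (W.cup x y) = 0) ∨
        RatPos (W.Tr (W.cup (D.ξ ^ (D.g - 4)) (W.cup x x)))

end Pool.Agent.Lib.MP_361a6f_ag.FL
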