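import Pool.Agent.Lib.MP_361a6f_ag.FL.PT.B3d
import Pool.Agent.Lib.MP_361a6f_ag.FL.PT.Stat
import Pool.Agent.Lib.MP_361a6f_ag.FL.B.AbV
import Pool.Agent.Lib.MP_361a6f_ag.SQ.Op

/-!
# Theorem PT: the structures `Law` and `Eff` from `EQ.Moving`
-/

open CategoryTheory AlgebraicGeometry MonoidalCategory CartesianMonoidalCategory

universe u w

set_option autoImplicit false

namespace Pool.Agent.Lib.MP_361a6f_ag.FL.PT

open Pool.Agent.Lib.MP_361a6f_ag.H3 Pool.Agent.Lib.MP_361a6f_ag.SQ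

namespace Fill

variable {k : Type u} [Field k] {W : CohomologyData.{u, 0, w} k ℂ} {𝒱 : VarietyClass k}
  (hW : IsWeilCohomology W 𝒱) {X : Sch k} {g : ℕ} (hX : 𝒱.mem X g)

include hW hX in
/-- the class of the diagonal -/
theorem diag_alg : W.push (lift (𝟙 X) (𝟙 X)) (1 : W.coh X) ∈ W.alg (X ⊗ X) g :=
  hW.push_alg hX (𝒱.prod hX hX) _ (hW.one_alg hX) (by omega)

include hW hX in
theorem act_diag (x : W.coh X) :
    EQ.act W (W.push (lift (𝟙 X) (𝟙 X)) (1 : W.coh X)) x = x := by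
  show H3.act W _ x = x
  rw [← sub_eq_zero]
  refine hW.duality hX _ fun t => ?_
  rw [sub_mul, map_sub, act_tr hW hX (diag_alg hW hX), bil_push_lift hW hX _ _ (one_tot hW hX),
    W.pull_id, W.pull_id, one_mul, sub_self]

include hW hX in
/-- `Law` from `EQ.Moving` -/
theorem law {θ : W.coh X} (h0 : ∀ x, W.Deg X 0 x → ∃ c, x = W.scal c 1)
    (hM : EQ.Moving W X g θ) : Nonempty (Law W X) := by
  obtain ⟨m, e, h1, h2⟩ := hM.unital
  obtain ⟨N, n, hN, hn⟩ := hM.endo _ (neg_mem (diag_alg hW hX))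
  refine ⟨⟨m, e, fun v hv => AbV.pull_m hW hX h0 h1 h2 hv, fun v hv =>
    hW.top_gr 𝒱.point (hW.pull_gr 𝒱.point hX e hv) (by omega), N, hN, n, fun v hv => ?_⟩⟩
  have h3 : EQ.act W (-(W.push (lift (𝟙 X) (𝟙 X)) (1 : W.coh X))) v = -v := by
    have h4 := act_diag hW hX v
    show W.push (snd X X) (W.pull (fst X X) v *
      -(W.push (lift (𝟙 X) (𝟙 X)) (1 : W.coh X))) = -v
    rw [mul_neg, map_neg]
    exact congrArg Neg.neg h4
  rw [← smul_neg, ← h3]
  exact hn v hv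

include hW in
theorem tr_eff {Y : Sch k} {d : ℕ} (hY : 𝒱.mem Y d) {x : W.coh Y} (hx : x ∈ EQ.eff W Y d) :
    ∃ r : ℝ, 0 ≤ r ∧ W.tr Y x = (r : ℂ) := by
  induction hx using AddSubmonoid.closure_induction with
  | mem x hx =>
    obtain ⟨q, Z, hq, rfl⟩ := hx
    refine ⟨(q : ℝ), by exact_mod_cast hq, ?_⟩
    have h := hW.cycles.point hY Z
    rw [map_smul, smul_eq_mul]
    have h' : W.tr Y (W.cl Y d Z) = 1 := h
    rw [h', mul_one]
    push_cast
    rfl
  | zero => exact ⟨0, le_refl _, by simp⟩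
  | add x y _ _ hx hy =>
    obtain ⟨r, hr, e⟩ := hx
    obtain ⟨s, hs, e'⟩ := hy
    exact ⟨r + s, add_nonneg hr hs, by rw [map_add, e, e']; push_cast; rfl⟩

/-- four factors -/
abbrev Q4 : Prd 1 := .prod (.prod (.leaf 0) (.leaf 0)) (.prod (.leaf 0) (.leaf 0))

include hW hX in
/-- `Eff` from `EQ.Moving` -/
theorem eff {θ : W.coh X} (hM : EQ.Moving W X g θ) :
    Eff W X g θ (fun Z j => (EQ.eff W Z j : Set (W.coh Z))) where
  mulY := fun i j x y hx hy => hM.mul Q4 i j x y hx hy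
  mulZ := fun i j x y hx hy => hM.mul (.prod Q4 Q4) i j x y hx hy
  pullY := fun f j y hy => hM.pull Q4 Q4 f j y hy
  pullZ := fun f j y hy => hM.pull (.prod Q4 Q4) Q4 f j y hy
  push := fun j x hx => by
    have e : 4 * g = Q4.dim fun _ => g := by
      show 4 * g = g + g + (g + g)
      omega
    rw [e] at hx
    exact hM.push Q4 Q4 j x hx
  tr := fun x hx => by
    have h : 𝒱.mem (Y4 X) (4 * g) := by
      have h1 := 𝒱.prod (𝒱.prod hX hX) (𝒱.prod hX hX)
      have e : g + g + (g + g) = 4 * g := by omega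
      rw [e] at h1
      exact h1
    exact tr_eff hW h hx
  big := fun j x hx => by
    obtain ⟨N, hN⟩ := hM.ample Q4 j x hx
    refine ⟨N, ?_⟩
    have e : (Prd.pol W (fun _ => θ) Q4 : W.coh (Y4 X)) = ∑ i, W.pull (pr4 X i) θ := by
      rw [Fin.sum_univ_four]
      show W.pull (fst (X ⊗ X) (X ⊗ X)) (W.pull (fst X X) θ + W.pull (snd X X) θ)
        + W.pull (snd (X ⊗ X) (X ⊗ X)) (W.pull (fst X X) θ + W.pull (snd X X) θ) = _
      rw [map_add, map_add, ← W.pull_comp, ← W.pull_comp, ← W.pull_comp, ← W.pull_comp]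
      simp only [pr4, Matrix.cons_val_zero, Matrix.cons_val_one, Matrix.cons_val]
      abel
    rw [← e]
    exact hN

end Fill

end Pool.Agent.Lib.MP_361a6f_ag.FL.PT
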