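import Pool.Agent.Lib.MP_361a6f_ag.FL.E.AsmF
import Pool.Agent.Lib.MP_361a6f_ag.FL.PT.Frm

/-!
# Codimension two: the data of the reduction
-/

open CategoryTheory AlgebraicGeometry MonoidalCategory CartesianMonoidalCategory

universe u v u' w w'

set_option autoImplicit false
set_option linter.unusedSectionVars false

namespace Pool.Agent.Lib.MP_361a6f_ag.FL.PT

open Pool.Agent.Lib.MP_361a6f_ag.FL.E
open Pool.Agent.Lib.MP_361a6f_ag.H3 Pool.Agent.Lib.MP_361a6f_ag.SQ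
  Pool.Agent.Lib.MP_361a6f_ag.PP

noncomputable section

section host

variable {k : Type u} [Field k] {W : CohomologyData.{u, 0, w} k ℂ} {k' : Type u'} [Field k']
  {W' : CohomologyData.{u', 0, w'} k' ℂ} {𝒱 : VarietyClass k} {𝒱' : VarietyClass k'}

variable (H : Host W 𝒱 1) {X' : Sch k'} {ξ' : W'.coh X'} (S : Spc W W' H.X X' H.ξ ξ')
  (hW' : IsWeilCohomology W' 𝒱') (hX' : 𝒱'.mem X' (H.n 0))
  (F : X' ⟶ X') {q : ℕ}

/-- the data of the reduction -/
theorem ysys (hq : 0 < q)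
    (hc : ∀ x ∈ W.gr (H.X 0) 0, ∃ c : ℂ, x = c • (1 : W.coh (H.X 0)))
    (hp : PositiveDivisor W (H.X 0) (H.n 0) (H.ξ 0))
    (hF : W'.pull F ξ' = (((q : ℚ) : ℂ)) • ξ')
    (idx : HodgeCodim W' (X' ⊗ X') (H.n 0 + H.n 0)
      (W'.pull (fst X' X') ξ' + W'.pull (snd X' X') ξ') 1)
    (tate : ∀ A : Module.End ℂ (W'.coh X'), (∀ v ∈ W'.gr X' 1, A v ∈ W'.gr X' 1) →
      (∀ z ∈ W'.alg (X' ⊗ X') (H.n 0), ∀ v ∈ W'.gr X' 1, A (cor W' z v) = cor W' z (A v)) →
      ∃ p : Polynomial ℂ, ∀ v ∈ W'.gr X' 1, A v = Polynomial.aeval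
        ((W'.pull F).toLinearMap : Module.End ℂ (W'.coh X')) p v) :
    YSys (subD H.D (0, 1)) (At1 (host2 H S hW' hX')) (FM H S hW' hX' F q) where
  csys := aSys_sub (aSys_at (at_ (host2 H S hW' hX')))
  typ_eq i j := i.2.trans j.2.symm
  odd i := by
    show H.D.odd (H.D.typ i.1)
    rw [i.2]
    exact Hst.odd_one H 0
  frob := gam_one (host2 H S hW' hX') (sq_ne hq) (sq_sq q) (symH H S hW' hX' hc hp hF)
    (S.posd hp)
  mten := mten_real (host2 H S hW' hX') (mten_mem (host2 H S hW' hX') (sq_ne hq)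
    (symH H S hW' hX' hc hp hF) F (leafH H S hW' hX' F))
  pos u hu h0 := pos_two (host2 H S hW' hX') idx u hu h0
  comm x hx := by
    obtain ⟨p, hp⟩ := comm_of_tate (host2 H S hW' hX') (sq_ne hq) (symH H S hW' hX' hc hp hF)
      (FrH H S hW' hX' F (.leaf 0)) rfl tate x hx
    rw [Algebra.adjoin_singleton_eq_range_aeval]
    exact ⟨p, hp.symm⟩

end host

section hyp

variable {k : Type u} [Field k] {k' : Type v} [Field k'] {W : CohomologyData.{u, 0, w} k ℂ}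
  {𝒱 : VarietyClass k} {W' : CohomologyData.{v, 0, w'} k' ℂ} {𝒱' : VarietyClass k'}
  (hW : IsWeilCohomology W 𝒱) (hW' : IsWeilCohomology W' 𝒱') {D : EQ.Data W W'}
  (h : EQ.Hyp 𝒱 𝒱' D) (c : Hst.Core W D.X D.g D.ξ)

/-- the host of the reduction -/
abbrev hstY : Host W' 𝒱' 1 := host2 (hst hW h c) (spcOf h.spec D.ξ) hW' h.mem'

/-- the data of the reduction -/
theorem ysys_hyp : YSys (subD c.D (0, 1)) (At1 (hstY hW hW' h c))
    (FM (hst hW h c) (spcOf h.spec D.ξ) hW' h.mem' D.F D.q) :=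
  ysys (hst hW h c) (spcOf h.spec D.ξ) hW' h.mem' D.F h.pos h.conn h.div (pull_xi h)
    h.index h.tate

/-- **The adapted basis of `H^1` of the reduction.** -/
theorem exists_frame_hyp : ∃ Y : Matrix (Sub c.D (0, 1)) (Sub c.D (0, 1)) ℂ,
    IsG (subD c.D (0, 1)) Y ∧
      PSys (subD c.D (0, 1)) (fun L u => At1 (hstY hW hW' h c) L (gT Y u)) :=
  exists_frame mainY alg1 alg2 (ysys_hyp hW hW' h c)

/-- the algebraic tensors of the variety are algebraic tensors of the reduction -/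
theorem at_le_hyp (L : ℕ) (u : Ten (Sub c.D (0, 1)) L) (hu : At1 (hst hW h c) L u) :
    At1 (hstY hW hW' h c) L u :=
  at_le (hst hW h c) (spcOf h.spec D.ξ) hW' h.mem' (ge (hst hW h c)) (ge (hstY hW hW' h c)) L hu

end hyp

end

end Pool.Agent.Lib.MP_361a6f_ag.FL.PT
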