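import Pool.Agent.Lib.MP_361a6f_ag.FL.PT.A1
import Pool.Agent.Lib.MP_361a6f_ag.FL.PT.A2
import Pool.Agent.Lib.MP_361a6f_ag.FL.PT.B3g
import Pool.Agent.Lib.MP_361a6f_ag.FL.PT.AdF
import Pool.Agent.Lib.MP_361a6f_ag.FL.PT.YHyp
import Pool.Agent.Lib.MP_361a6f_ag.FL.PT.Fill
import Pool.Agent.Lib.MP_361a6f_ag.FL.PT.EndP
import Pool.Agent.Lib.MP_361a6f_ag.FL.PT.StatP
import Pool.Agent.Lib.MP_361a6f_ag.FL.PT.Gen
import Pool.Agent.Lib.MP_361a6f_ag.FL.B.HopF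

/-!
# Theorem PT and Theorem PT+
-/

open CategoryTheory AlgebraicGeometry MonoidalCategory CartesianMonoidalCategory

universe u v w w'

set_option autoImplicit false
set_option linter.unusedSectionVars false

namespace Pool.Agent.Lib.MP_361a6f_ag.FL

open Pool.Agent.Lib.MP_361a6f_ag.H3 Pool.Agent.Lib.MP_361a6f_ag.SQ
  Pool.Agent.Lib.MP_361a6f_ag.PP Pool.Agent.Lib.MP_361a6f_ag.FL.E
  Pool.Agent.Lib.MP_361a6f_ag.FL.PT

section hyp

variable {k : Type u} [Field k] {k' : Type v} [Field k'] {W : CohomologyData.{u, 0, w} k ℂ}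
  {𝒱 : VarietyClass k} {W' : CohomologyData.{v, 0, w'} k' ℂ} {𝒱' : VarietyClass k'}
  (hW : IsWeilCohomology W 𝒱) (hW' : IsWeilCohomology W' 𝒱') {D : EQ.Data W W'}
  (h : EQ.Hyp 𝒱 𝒱' D) (hM : EQ.Moving W' D.X' D.g (D.s (.leaf 0) D.ξ))
  (c : Hst.Core W D.X D.g D.ξ)

include hW' hM in
/-- `ψ` is positive semidefinite on the algebraic tensors of length four of the variety. -/
theorem pos4 (u : Ten (Sub c.D (0, 1)) 4) (hu : At1 (hst hW h c) 4 u) :
    ∃ r : ℝ, 0 ≤ r ∧ psiT (subD c.D (0, 1)) u u = (r : ℂ) := by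
  obtain ⟨Y, hG, P⟩ := exists_frame_hyp hW hW' h c
  have h0 : ∀ x, W'.Deg D.X' 0 x → ∃ c, x = W'.scal c 1 := conn_hyp hW hW' h
  obtain ⟨Lw⟩ := Fill.law hW' h.mem' h0 hM
  exact pos_four (H := hstY hW hW' h c) b3 rowA1 rowA2 Lw (Fill.eff hW' h.mem' hM)
    (abelianType_of_unital hW' h.mem' h0 hM.unital (posd_hyp h)) (posd_hyp h)
    (fun z hz => hM.endo z hz) hG P (Submodule.subset_span (at_le_hyp hW hW' h c 4 u hu))

include hW' in
/-- `ψ` is positive semidefinite on the algebraic tensors of length two. -/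
theorem pos2 (u : Ten (Sub c.D (0, 1)) 2) (hu : At1 (hst hW h c) 2 u) :
    ∃ r : ℝ, 0 ≤ r ∧ psiT (subD c.D (0, 1)) u u = (r : ℂ) := by
  by_cases h0 : u = 0
  · refine ⟨0, le_rfl, ?_⟩
    rw [h0, psiT, Finset.sum_eq_zero]
    · exact Complex.ofReal_zero.symm
    · intro w _
      rw [Pi.zero_apply, zero_mul, mul_zero]
  · obtain ⟨q, hq, h1⟩ := (ysys_hyp hW hW' h c).pos u (at_le_hyp hW hW' h c 2 u hu) h0
    refine ⟨(q : ℝ), by exact_mod_cast hq.le, ?_⟩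
    rw [h1]
    push_cast
    rfl

end hyp

/-- **Theorem PT.** -/
theorem thmPGeo : ThmPGeoStatement.{u, v, w, w'} := by
  intro k _ W 𝒱 hW k' _ W' 𝒱' hW' D h hM P η hη j hj
  obtain ⟨c⟩ := Hst.exists_core_hyp hW h
  refine EndFr.q1num (hst hW h c) (fun _ => Hst.abelianType hW h) (fun _ => h.div) hη j
    fun h0 => ?_
  have hj2 : j = 1 ∨ j = 2 := by omega
  rcases hj2 with rfl | rfl
  · exact EndFr.posS_of (hst hW h c) fun u hu => pos2 hW hW' h c u hu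
  · exact EndFr.posS_of (hst hW h c) fun u hu => pos4 hW hW' h hM c u hu

/-- **Theorem PT+.** -/
theorem thmPPGeo : ThmPPGeoStatement.{u, v, w, w'} := PTG.thmPP thmPGeo

end Pool.Agent.Lib.MP_361a6f_ag.FL
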