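import Pool.Agent.Lib.MP_361a6f_ag.FL.PT.DefsA
import Pool.Agent.Lib.MP_361a6f_ag.FL.PT.Gr

/-!
# Theorem PT, row A1: the key identity
-/

set_option autoImplicit false

namespace Pool.Agent.Lib.MP_361a6f_ag.FL.PT

universe w

theorem Ber.sys {A B : Type w} [Ring A] [Algebra ℂ A] [Ring B] [Algebra ℂ B]
    {gr : ℕ → Submodule ℂ A} {p q : A →ₐ[ℂ] B} {I : B →ₗ[ℂ] A} {L : A →ₗ[ℂ] ℂ}
    (h : Ber gr p q I L) {v V : Fin 4 → A} (hv : ∀ i, v i ∈ gr 1) (hV : ∀ i, V i ∈ gr 1) :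
    Sys v V p q L I (L (vol v V)) := by
  refine ⟨⟨fun i j => h.anti _ (hv i) _ (hv j), fun i j => h.anti _ (hV i) _ (hV j),
    fun i j => h.anti _ (hv i) _ (hV j)⟩, fun i j => h.anti2 _ (hv i) _ (hv j),
    fun i j => h.anti2 _ (hV i) _ (hV j), fun i j => h.anti2 _ (hv i) _ (hV j),
    fun i j => h.anti2 _ (hV i) _ (hv j), h.int, fun b => ?_⟩
  have hd : ∀ i (a : Fin 4), mf v V i a ∈ gr (![0, 1, 1, 2] a) := by
    intro i a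
    fin_cases a
    · exact h.one
    · exact hv i
    · exact hV i
    · exact h.mul 1 1 _ _ (hv i) (hV i)
  split_ifs with hb
  · rw [hb 0, hb 1, hb 2, hb 3]
    rfl
  · have h4 := h.mul _ _ _ _ (h.mul _ _ _ _ (h.mul _ _ _ _ (hd 0 (b 0)) (hd 1 (b 1)))
      (hd 2 (b 2))) (hd 3 (b 3))
    refine h.deg _ ?_ _ h4
    intro e
    apply hb
    have : ∀ a : Fin 4, (![0, 1, 1, 2] a : ℕ) ≤ 2 ∧ ((![0, 1, 1, 2] a : ℕ) = 2 → a = 3) := by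
      decide
    have t0 := this (b 0)
    have t1 := this (b 1)
    have t2 := this (b 2)
    have t3 := this (b 3)
    intro i
    fin_cases i
    · exact t0.2 (by omega)
    · exact t1.2 (by omega)
    · exact t2.2 (by omega)
    · exact t3.2 (by omega)

theorem ecl_eq {A B : Type w} [Ring A] [Algebra ℂ A] [Ring B] [Algebra ℂ B]
    (p q : A →ₐ[ℂ] B) (v V : Fin 4 → A) (c c' a b : ℂ) :
    ecl (fun i => c • p (v i) + q (v i)) (fun i => c' • p (V i) + q (V i)) 1 a b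
      = ee v V p q c c' a b := by
  simp only [ecl, ee, sig, Wa, Xa, tt, one_smul]

theorem rowA1 : RowA1.{w} := by
  intro A B _ _ _ _ gr p q I L h v V hv hV ρ hρ a b
  have S := h.sys hv hV
  have e0 := ecl_eq p q v V 1 1 a b
  simp only [one_smul] at e0
  rw [e0, ecl_eq p q v V, ecl_eq p q v V,
    int_eee S (δ := 3) (by linear_combination (ρ - 2) * hρ) (by linear_combination (ρ - 2) * hρ)
      (by linear_combination (-ρ ^ 2 + 3 * ρ - 3) * hρ)]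
  rw [show ecl v V (15 + 6 * (a * b)) ((18 + 3 * (a * b)) * a) ((18 + 3 * (a * b)) * b)
      = (15 + 6 * (a * b)) • sig (fun i => v i * V i) + ((18 + 3 * (a * b)) * a) • tt v
        + ((18 + 3 * (a * b)) * b) • tt V from rfl]
  have key : ∀ C0 C1 C2 : ℂ, C0 = 9 * (15 + 6 * (a * b)) → C1 = 9 * ((18 + 3 * (a * b)) * a) →
      C2 = 9 * ((18 + 3 * (a * b)) * b) →
      L (vol v V) • (C0 • sig (fun i => v i * V i) + C1 • tt v + C2 • tt V)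
        = (9 * L (vol v V)) • ((15 + 6 * (a * b)) • sig (fun i => v i * V i)
          + ((18 + 3 * (a * b)) * a) • tt v + ((18 + 3 * (a * b)) * b) • tt V) := by
    rintro _ _ _ rfl rfl rfl
    module
  refine key _ _ _ ?_ ?_ ?_
  · linear_combination ((1)*ρ^8*a^1*b^1 + (1)*ρ^7*a^1*b^1 + (-7)*ρ^6*a^1*b^1 + (-8)*ρ^5*a^1*b^1 +
        (47)*ρ^4*a^1*b^1 + (-53)*ρ^3*a^1*b^1 + (1)*ρ^2*a^1*b^1 + (54)*ρ^1*a^1*b^1 +
        (-54)*ρ^0*a^1*b^1) * hρ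
  · linear_combination ((1)*ρ^9*a^2*b^1 + (-4)*ρ^8*a^2*b^1 + (9)*ρ^7*a^2*b^1 + (6)*ρ^7*a^1*b^0 +
        (-12)*ρ^6*a^2*b^1 + (-12)*ρ^6*a^1*b^0 + (-24)*ρ^5*a^1*b^0 + (24)*ρ^4*a^2*b^1 +
        (102)*ρ^4*a^1*b^0 + (-28)*ρ^3*a^2*b^1 + (-120)*ρ^3*a^1*b^0 + (1)*ρ^2*a^2*b^1 +
        (6)*ρ^2*a^1*b^0 + (27)*ρ^1*a^2*b^1 + (144)*ρ^1*a^1*b^0 + (-27)*ρ^0*a^2*b^1 +
        (-156)*ρ^0*a^1*b^0) * hρ
  · linear_combination ((1)*ρ^9*a^1*b^2 + (-4)*ρ^8*a^1*b^2 + (9)*ρ^7*a^1*b^2 + (6)*ρ^7*a^0*b^1 +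
        (-12)*ρ^6*a^1*b^2 + (-12)*ρ^6*a^0*b^1 + (-24)*ρ^5*a^0*b^1 + (24)*ρ^4*a^1*b^2 +
        (102)*ρ^4*a^0*b^1 + (-28)*ρ^3*a^1*b^2 + (-120)*ρ^3*a^0*b^1 + (1)*ρ^2*a^1*b^2 +
        (6)*ρ^2*a^0*b^1 + (27)*ρ^1*a^1*b^2 + (144)*ρ^1*a^0*b^1 + (-27)*ρ^0*a^1*b^2 +
        (-156)*ρ^0*a^0*b^1) * hρ

end Pool.Agent.Lib.MP_361a6f_ag.FL.PT
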