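import Pool.Agent.Lib.MP_361a6f_ag.FL.PT.DefsA

/-!
# Codimension two: the amplification, from the calculus of the cones
-/

set_option autoImplicit false

namespace Pool.Agent.Lib.MP_361a6f_ag.FL.PT

universe w

open ComplexConjugate

/-- the calculus of the cones `PA` (classes of codimension `2` on `Z`) and `PB` (on `Z × Z`) that
is used in the amplification -/
structure Calc {A B : Type w} [Ring A] [Algebra ℂ A] [Ring B] [Algebra ℂ B]
    (p q : A →ₐ[ℂ] B) (I : B →ₗ[ℂ] A) (L : A →ₗ[ℂ] ℂ) (v V : Fin 4 → A) (PA : Set A)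
    (PB : Set B) : Prop where
  add : ∀ x ∈ PA, ∀ y ∈ PA, x + y ∈ PA
  smul : ∀ r : ℝ, 0 ≤ r → ∀ x ∈ PA, (r : ℂ) • x ∈ PA
  rot : ∀ a b ζ : ℂ, ζ * conj ζ = 1 → ecl v V 1 a b ∈ PA → ecl v V 1 (ζ * a) (conj ζ * b) ∈ PA
  pull : ∀ a b ζ : ℂ, ζ * conj ζ = 1 → ecl v V 1 a b ∈ PA →
    ecl (fun i => ζ • p (v i) + q (v i)) (fun i => conj ζ • p (V i) + q (V i)) 1 a b ∈ PB
  prod : ∀ x ∈ PB, ∀ y ∈ PB, ∀ z ∈ PB, I (x * (y * z)) ∈ PA
  tr : ∀ x ∈ PA, ∀ y ∈ PA, 0 ≤ (L (x * y)).re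
  vol : ∃ r : ℝ, 0 < r ∧ L (vol v V) = r

section

variable {A B : Type w} [Ring A] [Algebra ℂ A] [Ring B] [Algebra ℂ B]

theorem ecl_smul (v V : Fin 4 → A) (c s a b : ℂ) :
    c • ecl v V s a b = ecl v V (c * s) (c * a) (c * b) := by
  simp only [ecl, smul_add, smul_smul]

theorem ecl_add (v V : Fin 4 → A) (s a b s' a' b' : ℂ) :
    ecl v V s a b + ecl v V s' a' b' = ecl v V (s + s') (a + a') (b + b') := by
  simp only [ecl, add_smul]
  abel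

/-- the primitive third root of unity -/
theorem exists_rho : ∃ ρ : ℂ, ρ ^ 2 + ρ + 1 = 0 ∧ ρ * conj ρ = 1 ∧ conj ρ = ρ ^ 2 := by
  have h3 : ((Real.sqrt 3 : ℝ) : ℂ) ^ 2 = 3 := by
    rw [← Complex.ofReal_pow, Real.sq_sqrt (by norm_num)]
    norm_num
  have hc : conj (⟨-1 / 2, Real.sqrt 3 / 2⟩ : ℂ) = ⟨-1 / 2, -(Real.sqrt 3 / 2)⟩ := by
    apply Complex.ext <;> simp
  have hs : Real.sqrt 3 * Real.sqrt 3 = 3 := Real.mul_self_sqrt (by norm_num)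
  refine ⟨⟨-1 / 2, Real.sqrt 3 / 2⟩, ?_, ?_, ?_⟩
  · apply Complex.ext
    · simp [pow_two]
      nlinarith
    · simp [pow_two]
      ring
  · rw [hc]
    apply Complex.ext
    · simp
      nlinarith
    · simp
      ring
  · rw [hc]
    apply Complex.ext
    · simp [pow_two]
      nlinarith
    · simp [pow_two]
      ring

/-- **The amplification argument.** -/
theorem amp (a1 : RowA1.{w}) (a2 : RowA2.{w}) (c : RowC) {gr : ℕ → Submodule ℂ A}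
    {p q : A →ₐ[ℂ] B} {I : B →ₗ[ℂ] A} {L : A →ₗ[ℂ] ℂ} (hB : Ber gr p q I L) {v V : Fin 4 → A}
    (hv : ∀ i, v i ∈ gr 1) (hV : ∀ i, V i ∈ gr 1) {PA : Set A} {PB : Set B}
    (K : Calc p q I L v V PA PB) :
    ∀ a b, ecl v V 1 a b ∈ PA → ∀ x : ℝ, a * b = (x : ℂ) → 0 ≤ x := by
  obtain ⟨v0, hv0, hv0'⟩ := K.vol
  have hneg : ∀ a b, ecl v V 1 a b ∈ PA → ecl v V 1 (-a) (-b) ∈ PA := fun a b h => by
    have := K.rot a b (-1) (by simp) h
    simpa using this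
  refine c (fun a b => ecl v V 1 a b ∈ PA) ?_ ?_ ?_
  · intro a b h t h0 h1
    have e : ecl v V 1 (t * a) (t * b) = (((1 + t) / 2 : ℝ) : ℂ) • ecl v V 1 a b +
        (((1 - t) / 2 : ℝ) : ℂ) • ecl v V 1 (-a) (-b) := by
      rw [ecl_smul, ecl_smul, ecl_add]
      congr 1 <;> push_cast <;> ring
    show ecl v V 1 (t * a) (t * b) ∈ PA
    rw [e]
    exact K.add _ (K.smul _ (by linarith) _ h) _ (K.smul _ (by linarith) _ (hneg a b h))
  · intro a b h r h0 h2 hr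
    obtain ⟨ρ, h1, h3, h4⟩ := exists_rho
    have h5 : ρ ^ 2 * conj (ρ ^ 2) = 1 := by
      rw [map_pow, ← mul_pow, h3, one_pow]
    have h6 : conj (ρ ^ 2) = ρ := by
      rw [map_pow, h4]
      have h7 : ρ ^ 3 = 1 := by
        have : ρ ^ 3 - 1 = (ρ - 1) * (ρ ^ 2 + ρ + 1) := by ring
        rw [h1, mul_zero] at this
        exact sub_eq_zero.1 this
      calc (ρ ^ 2) ^ 2 = ρ ^ 3 * ρ := by ring
        _ = ρ := by rw [h7, one_mul]
    have g0 := K.pull a b 1 (by simp) h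
    have g1 := K.pull _ _ ρ h3 (K.rot a b (ρ ^ 2) h5 h)
    have g2 := K.pull _ _ (ρ ^ 2) h5 (K.rot a b ρ h3 h)
    simp only [h6, h4, map_one, one_smul] at g0 g1 g2
    have g3 := K.prod _ g0 _ g1 _ g2
    rw [a1 gr p q I L hB v V hv hV ρ h1 a b, hv0'] at g3
    have hpos : 0 < 15 - 6 * r ^ 2 := by nlinarith
    have hpos' : 0 < 5 - 2 * r ^ 2 := by nlinarith
    have g4 := K.smul (9 * v0 * (15 - 6 * r ^ 2))⁻¹ (by positivity) _ g3
    rw [smul_smul, ecl_smul] at g4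
    have hne : ((9 * v0 * (15 - 6 * r ^ 2) : ℝ) : ℂ) ≠ 0 := by
      exact_mod_cast (by positivity : (9 * v0 * (15 - 6 * r ^ 2) : ℝ) ≠ 0)
    have hne' : ((5 - 2 * r ^ 2 : ℝ) : ℂ) ≠ 0 := by exact_mod_cast hpos'.ne'
    have hv1 : (v0 : ℂ) ≠ 0 := by exact_mod_cast hv0.ne'
    have hne2 : (15 - 6 * (r : ℂ) ^ 2) ≠ 0 := by
      have : ((15 - 6 * r ^ 2 : ℝ) : ℂ) ≠ 0 := by exact_mod_cast hpos.ne'
      simpa using this
    have hne3 : (5 - 2 * (r : ℂ) ^ 2) ≠ 0 := by simpa using hne'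
    have e1 : ((9 * v0 * (15 - 6 * r ^ 2))⁻¹ : ℝ) * (9 * (v0 : ℂ)) * (15 + 6 * (a * b)) = 1 := by
      rw [hr]
      push_cast
      field_simp
      ring
    have e2 : ∀ z : ℂ, ((9 * v0 * (15 - 6 * r ^ 2))⁻¹ : ℝ) * (9 * (v0 : ℂ)) *
        ((18 + 3 * (a * b)) * z) = (((6 - r ^ 2) / (5 - 2 * r ^ 2) : ℝ) : ℂ) * z := by
      intro z
      rw [hr]
      push_cast
      have : (15 - 6 * (r : ℂ) ^ 2) = 3 * (5 - 2 * (r : ℂ) ^ 2) := by ring
      rw [this]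
      field_simp
      ring
    rw [e1, e2, e2] at g4
    exact g4
  · intro a b h x hx
    have hr := K.tr _ h _ h
    rw [a2 v V (fun i j => hB.anti _ (hv i) _ (hv j)) (fun i j => hB.anti _ (hV i) _ (hV j))
      (fun i j => hB.anti _ (hv i) _ (hV j)), map_smul, hv0', smul_eq_mul, hx] at hr
    have h1 : ((6 + (x : ℂ) + (x : ℂ)) * (v0 : ℂ)) = (((6 + x + x) * v0 : ℝ) : ℂ) := by
      push_cast
      ring
    rw [h1, Complex.ofReal_re] at hr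
    by_contra hlt
    push Not at hlt
    have : (6 + x + x) * v0 < 0 := mul_neg_of_neg_of_pos (by linarith) hv0
    linarith

end

end Pool.Agent.Lib.MP_361a6f_ag.FL.PT
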