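import Pool.Agent.Lib.MP_361a6f_ag.FL.PT.DefsA
import Pool.Agent.Lib.MP_361a6f_ag.H3.Corr

/-!
# Theorem PT: the integral over the second factor
-/

open CategoryTheory AlgebraicGeometry MonoidalCategory CartesianMonoidalCategory

universe u w

namespace Pool.Agent.Lib.MP_361a6f_ag.FL.PT

open Pool.Agent.Lib.MP_361a6f_ag.H3

variable {k : Type u} [Field k] {W : CohomologyData.{u, 0, w} k ℂ} {𝒱 : VarietyClass k}

/-- the trace of the product with `Ω` -/
noncomputable def LOm (W : CohomologyData.{u, 0, w} k ℂ) {Y : Sch k} (Ω : W.coh Y) :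
    W.coh Y →ₗ[ℂ] ℂ :=
  W.tr Y ∘ₗ LinearMap.mulRight ℂ Ω

theorem LOm_apply {Y : Sch k} (Ω x : W.coh Y) : LOm W Ω x = W.tr Y (x * Ω) := rfl

/-- the push-forward along the first projection of the product with `q Ω` -/
noncomputable def IOm (W : CohomologyData.{u, 0, w} k ℂ) {Z Y : Sch k} (Ω : W.coh Y) :
    W.coh (Z ⊗ Y) →ₗ[ℂ] W.coh Z :=
  W.push (fst Z Y) ∘ₗ LinearMap.mulRight ℂ (W.pull (snd Z Y) Ω)

theorem IOm_apply {Z Y : Sch k} (Ω : W.coh Y) (x : W.coh (Z ⊗ Y)) :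
    IOm W Ω x = W.push (fst Z Y) (x * W.pull (snd Z Y) Ω) := rfl

/-- the structure `Ber` for `H^*(Y)` and `H^*(Y × Y)` and a class `Ω` of degree `2 dim Y - 8` -/
theorem berY (hW : IsWeilCohomology W 𝒱) {Y : Sch k} {d m : ℕ} (hY : 𝒱.mem Y d) {Ω : W.coh Y}
    (hΩ : Ω ∈ W.gr Y m) (hm : m + 8 = 2 * d) :
    Ber (W.gr Y) (W.pull (fst Y Y)) (W.pull (snd Y Y)) (IOm W Ω) (LOm W Ω) where
  one := hW.graded.one hY
  mul := fun i j x y hx hy => hW.graded.mul hY hx hy
  anti := fun x hx y hy => by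
    have h := hW.graded.comm hY hx hy
    simpa using h
  anti2 := fun x hx y hy => by
    have hYY := 𝒱.prod hY hY
    have h := hW.graded.comm hYY (hW.graded.pull hYY hY (fst Y Y) hx)
      (hW.graded.pull hYY hY (snd Y Y) hy)
    simpa using h
  int := fun β γ => by
    rw [IOm_apply, LOm_apply, mul_assoc, ← map_mul, hW.push_fst hY hY]
  deg := fun j hj γ hγ => by
    rw [LOm_apply]
    exact hW.poincare.deg hY (hW.graded.mul hY hγ hΩ) (by omega)

end Pool.Agent.Lib.MP_361a6f_ag.FL.PT
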