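import Pool.Agent.Lib.MP_361a6f_ag.FL.PT.DefsA

/-!
# Theorem PT, row C: the amplification
-/

set_option autoImplicit false

namespace Pool.Agent.Lib.MP_361a6f_ag.FL.PT

theorem rowC : RowC := by
  intro Q mono amp pos a b hQ x hx
  by_contra hneg
  push Not at hneg
  -- the value at a multiple
  have hval : ∀ t : ℝ, ((t : ℂ) * a) * ((t : ℂ) * b) = ((t ^ 2 * x : ℝ) : ℂ) := by
    intro t
    push_cast
    rw [← hx]
    ring
  set y : ℝ := -x with hy
  have hy0 : 0 < y := by linarith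
  -- no multiple with `t ^ 2 y ≥ 2`
  have hbig : ∀ t : ℝ, 0 < t → Q (t * a) (t * b) → t ^ 2 * y < 2 := by
    intro t ht hQt
    by_contra h2
    push Not at h2
    set u : ℝ := Real.sqrt (2 / y) with hu
    have hu2 : u ^ 2 = 2 / y := Real.sq_sqrt (by positivity)
    have hu0 : 0 ≤ u := Real.sqrt_nonneg _
    have hut : u ≤ t := by
      apply le_of_sq_le_sq _ ht.le
      rw [hu2, div_le_iff₀ hy0]
      linarith
    have h3 : Q (((u / t : ℝ) : ℂ) * (t * a)) (((u / t : ℝ) : ℂ) * (t * b)) :=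
      mono _ _ hQt (u / t) (by positivity) ((div_le_one ht).2 hut)
    have e : ∀ c : ℂ, ((u / t : ℝ) : ℂ) * (t * c) = (u : ℂ) * c := by
      intro c
      have : (t : ℂ) ≠ 0 := by exact_mod_cast ht.ne'
      push_cast
      field_simp
    rw [e, e] at h3
    have hprod : u ^ 2 * x = -2 := by
      rw [hu2]
      have : x = -y := by rw [hy]; ring
      rw [this]
      field_simp
    have h4 := amp _ _ h3 (Real.sqrt 2) (Real.sqrt_nonneg _)
      (by rw [Real.sq_sqrt (by norm_num)]) (by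
        rw [hval, hprod, Real.sq_sqrt (by norm_num)])
    rw [Real.sq_sqrt (by norm_num : (0 : ℝ) ≤ 2)] at h4
    have e2 : ∀ c : ℂ, ((((6 : ℝ) - 2) / (5 - 2 * 2) : ℝ) : ℂ) * ((u : ℂ) * c) =
        ((4 * u : ℝ) : ℂ) * c := by
      intro c
      push_cast
      ring
    rw [e2, e2] at h4
    have h5 := pos _ _ h4 ((4 * u) ^ 2 * x) (hval _)
    have : (4 * u) ^ 2 * x = -32 := by
      rw [mul_pow, mul_assoc, hprod]
      norm_num
    rw [this] at h5
    norm_num at h5
  -- all powers of `6 / 5`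
  have hall : ∀ n : ℕ, Q ((((6 / 5 : ℝ) ^ n : ℝ) : ℂ) * a) ((((6 / 5 : ℝ) ^ n : ℝ) : ℂ) * b) := by
    intro n
    induction n with
    | zero => simpa using hQ
    | succ n ih =>
      set t : ℝ := (6 / 5 : ℝ) ^ n with ht
      have ht0 : 0 < t := by positivity
      have h1 := hbig t ht0 ih
      set r : ℝ := Real.sqrt (t ^ 2 * y) with hr
      have hr2 : r ^ 2 = t ^ 2 * y := Real.sq_sqrt (by positivity)
      have h2 := amp _ _ ih r (Real.sqrt_nonneg _) (by rw [hr2]; exact h1.le) (by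
        rw [hval, hr2, hy]
        push_cast
        ring)
      set κ : ℝ := (6 - r ^ 2) / (5 - 2 * r ^ 2) with hκ
      have hr3 : r ^ 2 < 2 := by rw [hr2]; exact h1
      have hκ1 : 6 / 5 ≤ κ := by
        rw [hκ, le_div_iff₀ (by linarith)]
        nlinarith [sq_nonneg r]
      have hκ0 : 0 < κ := by linarith
      have h3 := mono _ _ h2 ((6 / 5) / κ) (by positivity) ((div_le_one hκ0).2 hκ1)
      have e : ∀ c : ℂ, (((6 / 5) / κ : ℝ) : ℂ) * ((κ : ℂ) * ((t : ℂ) * c)) =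
          (((6 / 5 : ℝ) ^ (n + 1) : ℝ) : ℂ) * c := by
        intro c
        have h4 : (κ : ℂ) ≠ 0 := by exact_mod_cast hκ0.ne'
        rw [pow_succ, ← ht]
        push_cast
        field_simp
      rw [e, e] at h3
      exact h3
  -- contradiction
  obtain ⟨n, hn⟩ := pow_unbounded_of_one_lt (2 / y + 1) (by norm_num : (1 : ℝ) < 6 / 5)
  have h1 := hbig ((6 / 5 : ℝ) ^ n) (by positivity) (hall n)
  have h2 : 1 ≤ (6 / 5 : ℝ) ^ n := one_le_pow₀ (by norm_num)
  have h3 : (2 / y + 1) ≤ ((6 / 5 : ℝ) ^ n) ^ 2 := by nlinarith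
  have h4 : (2 / y + 1) * y ≤ ((6 / 5 : ℝ) ^ n) ^ 2 * y := mul_le_mul_of_nonneg_right h3 hy0.le
  rw [add_mul, div_mul_cancel₀ _ hy0.ne'] at h4
  linarith

end Pool.Agent.Lib.MP_361a6f_ag.FL.PT
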