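import Pool.Agent.Lib.MP_361a6f_ag.FL.PT.B3d
import Pool.Agent.Lib.MP_361a6f_ag.FL.PT.Amp
import Pool.Agent.Lib.MP_361a6f_ag.FL.PT.C

/-!
# Theorem PT, row B3: real substitutions of the letters
-/

open CategoryTheory AlgebraicGeometry MonoidalCategory CartesianMonoidalCategory

universe u w

set_option autoImplicit false
set_option linter.unusedSectionVars false

namespace Pool.Agent.Lib.MP_361a6f_ag.FL.PT

open Pool.Agent.Lib.MP_361a6f_ag.H3

noncomputable section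

namespace B3

/-! ### Finite sums of words as forms -/

section sums

variable {R κ ι : Type*} [Ring R] [Algebra ℂ R] [Fintype κ] [DecidableEq κ] [Fintype ι]

/-- a finite sum of words in letters -/
def wsum (c : ι → ℂ) (w : ι → Fin 4 → κ) (x : κ → R) : R :=
  ∑ i, c i • (x (w i 0) * x (w i 1) * x (w i 2) * x (w i 3))

theorem wsum_form (c : ι → ℂ) (w : ι → Fin 4 → κ) (x : κ → R) :
    wsum c w x = PT.form (fun u => ∑ i, if w i = u then c i else 0) x := by
  unfold wsum PT.form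
  simp only [Finset.sum_smul, ite_smul, zero_smul]
  rw [Finset.sum_comm]
  refine Finset.sum_congr rfl fun i _ => ?_
  rw [Finset.sum_ite_eq Finset.univ (w i)]
  simp [List.ofFn_succ, mul_assoc]

end sums

variable {k : Type u} [Field k] {W : CohomologyData.{u, 0, w} k ℂ} {𝒱 : VarietyClass k}
  {X : Sch k} {g : ℕ} {ξ : W.coh X} {E : ∀ Z : Sch k, ℕ → Set (W.coh Z)} {J : Type} [Fintype J]
  [DecidableEq J]

/-- a morphism to `X^4` with given components -/
def lift4 {Z : Sch k} (a : Fin 4 → (Z ⟶ X)) : Z ⟶ Y4 X :=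
  lift (lift (a 0) (a 1)) (lift (a 2) (a 3))

theorem lift4_pr {Z : Sch k} (a : Fin 4 → (Z ⟶ X)) (i : Fin 4) : lift4 a ≫ pr4 X i = a i := by
  fin_cases i <;> simp [lift4, pr4]

/-- the letters -/
def lett (F : Fr W X g ξ J) (p : Fin 4 × J) : W.coh (Y4 X) := W.pull (pr4 X p.1) (F.f p.2)

/-- the assignments of values to the letters that come from morphisms -/
def LZ (F : Fr W X g ξ J) (Z : Sch k) : Set (Fin 4 × J → W.coh Z) :=
  {m | ∃ φ : Z ⟶ Y4 X, ∀ p, m p = W.pull φ (lett F p)}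

variable (Lw : Law W X) (F : Fr W X g ξ J)

theorem LZ_of {Z : Sch k} (a : Fin 4 → (Z ⟶ X)) :
    (fun p : Fin 4 × J => W.pull (a p.1) (F.f p.2)) ∈ LZ F Z :=
  ⟨lift4 a, fun p => by rw [lett, ← W.pull_comp, lift4_pr]⟩

include Lw

theorem pull_zero_map {Z : Sch k} (v : W.coh X) (hv : v ∈ W.gr X 1) :
    W.pull (toUnit Z ≫ Lw.e) v = 0 := by
  rw [W.pull_comp, Lw.one v hv, map_zero]

theorem LZ_zero (Z : Sch k) : (0 : Fin 4 × J → W.coh Z) ∈ LZ F Z := by
  have h := LZ_of F (fun _ : Fin 4 => toUnit Z ≫ Lw.e)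
  have e : (fun p : Fin 4 × J => W.pull (toUnit Z ≫ Lw.e) (F.f p.2)) = 0 := by
    funext p
    exact pull_zero_map Lw _ (F.f_gr _)
  rwa [e] at h

theorem LZ_add {Z : Sch k} : ∀ x ∈ LZ F Z, ∀ y ∈ LZ F Z, x + y ∈ LZ F Z := by
  rintro x ⟨φ, hφ⟩ y ⟨ψ, hψ⟩
  have h := LZ_of F (fun i : Fin 4 => lift (φ ≫ pr4 X i) (ψ ≫ pr4 X i) ≫ Lw.m)
  have e : (fun p : Fin 4 × J => W.pull (lift (φ ≫ pr4 X p.1) (ψ ≫ pr4 X p.1) ≫ Lw.m) (F.f p.2))
      = x + y := by
    funext p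
    rw [W.pull_comp, Lw.mul _ (F.f_gr _), map_add, ← W.pull_comp, ← W.pull_comp, lift_fst,
      lift_snd, Pi.add_apply, hφ, hψ, lett, W.pull_comp, W.pull_comp]
  rwa [e] at h

theorem LZ_neg {Z : Sch k} : ∀ x ∈ LZ F Z, ∃ N : ℕ, 0 < N ∧ -(N • x) ∈ LZ F Z := by
  rintro x ⟨φ, hφ⟩
  refine ⟨Lw.N, Lw.pos, ?_⟩
  have h := LZ_of F (fun i : Fin 4 => φ ≫ pr4 X i ≫ Lw.n)
  have e : (fun p : Fin 4 × J => W.pull (φ ≫ pr4 X p.1 ≫ Lw.n) (F.f p.2)) = -(Lw.N • x) := by
    funext p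
    rw [W.pull_comp, W.pull_comp, Lw.neg _ (F.f_gr _), map_neg, map_neg, map_smul, map_smul,
      Pi.neg_apply, Pi.smul_apply, hφ, lett, Nat.cast_smul_eq_nsmul]
  rwa [e] at h

/-- **Real substitutions.** -/
theorem real_sub {Z : Sch k} (hE : ∀ (φ : Z ⟶ Y4 X) (y : W.coh (Y4 X)), y ∈ E (Y4 X) 2 →
      W.pull φ y ∈ E Z 2) {ι : Type} [Fintype ι] (c : ι → ℂ) (wd : ι → Fin 4 → Fin 4 × J)
    (h : wsum c wd (lett F) ∈ Bip (E (Y4 X) 2)) :
    ∀ m ∈ Submodule.span ℝ (LZ F Z), wsum c wd m ∈ Bip (E Z 2) := by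
  intro m hm
  rw [wsum_form]
  refine Bip.form (M := Fin 4 × J → W.coh Z) (E := E Z 2) _ LinearMap.id (LZ F Z) (LZ_zero Lw F Z)
    (LZ_add Lw F) (LZ_neg Lw F) ?_ m hm
  rintro m ⟨φ, hφ⟩
  have e : ((LinearMap.id : (Fin 4 × J → W.coh Z) →ₗ[ℝ] (Fin 4 × J → W.coh Z)) m) =
      fun p => W.pull φ (lett F p) := funext hφ
  rw [e, ← map_form, ← wsum_form]
  exact Bip.map ((W.pull φ).toLinearMap.restrictScalars ℝ)
    (fun y hy => Bip.of_mem (hE φ y hy)) h

/-- the value `z j • π^* f_j` of the letters in the slot `i`, and `0` in the other slots -/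
theorem slot_mem {Z : Sch k} (π : Z ⟶ X) (i : Fin 4) (z : J → ℂ)
    (hz : ∀ j, z (F.τ j) = (starRingEnd ℂ) (z j)) :
    (fun p : Fin 4 × J => if p.1 = i then z p.2 • W.pull π (F.f p.2) else 0) ∈
      Submodule.span ℝ (LZ F Z) := by
  -- the linear map
  let Φ : (J → W.coh X) →ₗ[ℝ] (Fin 4 × J → W.coh Z) :=
    { toFun := fun μ p => if p.1 = i then W.pull π (μ p.2) else 0
      map_add' := fun a b => by
        funext p
        by_cases hp : p.1 = i
        · simp [hp]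
        · simp [hp]
      map_smul' := fun r a => by
        funext p
        by_cases hp : p.1 = i
        · have h : W.pull π (r • a p.2) = r • W.pull π (a p.2) := by
            rw [← Complex.coe_smul, ← Complex.coe_smul, map_smul]
          simp [hp, h]
        · simp [hp] }
  have h1 : Submodule.span ℝ {m : J → W.coh X | ∃ h : X ⟶ X, ∀ j, m j = W.pull h (F.f j)} ≤
      (Submodule.span ℝ (LZ F Z)).comap Φ := by
    rw [Submodule.span_le]
    rintro m ⟨h, hm⟩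
    refine Submodule.subset_span ?_
    have h2 := LZ_of F (fun i' : Fin 4 => if i' = i then π ≫ h else toUnit Z ≫ Lw.e)
    have e : (fun p : Fin 4 × J => W.pull (if p.1 = i then π ≫ h else toUnit Z ≫ Lw.e) (F.f p.2))
        = Φ m := by
      funext p
      show _ = if p.1 = i then W.pull π (m p.2) else 0
      by_cases hp : p.1 = i
      · rw [if_pos hp, if_pos hp, W.pull_comp, hm]
      · rw [if_neg hp, if_neg hp, pull_zero_map Lw _ (F.f_gr _)]
    rwa [e] at h2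
  have h2 := h1 (F.diag z hz)
  have e : Φ (fun j => z j • F.f j) =
      fun p : Fin 4 × J => if p.1 = i then z p.2 • W.pull π (F.f p.2) else 0 := by
    funext p
    show (if p.1 = i then W.pull π (z p.2 • F.f p.2) else 0) = _
    rw [map_smul]
  rw [← e]
  exact h2

/-- all slots at once -/
theorem slots_mem {Z : Sch k} (π : Fin 4 → (Z ⟶ X)) (z : Fin 4 → J → ℂ)
    (hz : ∀ i j, z i (F.τ j) = (starRingEnd ℂ) (z i j)) :
    (fun p : Fin 4 × J => z p.1 p.2 • W.pull (π p.1) (F.f p.2)) ∈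
      Submodule.span ℝ (LZ F Z) := by
  have e : (fun p : Fin 4 × J => z p.1 p.2 • W.pull (π p.1) (F.f p.2)) =
      ∑ i, fun p : Fin 4 × J => if p.1 = i then z i p.2 • W.pull (π i) (F.f p.2) else 0 := by
    funext p
    rw [Finset.sum_apply, Finset.sum_ite_eq Finset.univ p.1
      (fun i => z i p.2 • W.pull (π i) (F.f p.2)), if_pos (Finset.mem_univ _)]
  rw [e]
  exact Submodule.sum_mem _ fun i _ => slot_mem Lw F (π i) i (z i) (hz i)

/-! ### The class `e(a, b)` as a sum of words -/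

/-- the words -/
def ewd {κ : Type} (u u' : Fin 4 → κ) : Fin 8 → Fin 4 → κ :=
  ![![u 0, u' 0, u 1, u' 1], ![u 0, u' 0, u 2, u' 2], ![u 0, u' 0, u 3, u' 3],
    ![u 1, u' 1, u 2, u' 2], ![u 1, u' 1, u 3, u' 3], ![u 2, u' 2, u 3, u' 3], u, u']

/-- the coefficients -/
def ecf (t : Fin 4 → ℂ) (s a b : ℂ) : Fin 8 → ℂ :=
  ![s * (t 0 * t 1), s * (t 0 * t 2), s * (t 0 * t 3), s * (t 1 * t 2),
        s * (t 1 * t 3), s * (t 2 * t 3), a, b * (t 0 * t 1 * t 2 * t 3)]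

omit Lw in
theorem wsum_ecl {R : Type*} [Ring R] [Algebra ℂ R] {κ : Type} [Fintype κ] [DecidableEq κ]
    (u u' : Fin 4 → κ) (x : κ → R) (s a b : ℂ) (t : Fin 4 → ℂ) :
    wsum (ecf t s a b) (ewd u u') x =
      ecl (fun i => x (u i)) (fun i => t i • x (u' i)) s a b := by
  unfold wsum ecl
  rw [Fin.sum_univ_eight]
  simp only [ewd, ecf, Matrix.cons_val_zero, Matrix.cons_val_one, Matrix.cons_val, smul_add,
    mul_smul_comm, smul_mul_assoc, smul_smul, mul_assoc]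
  have e : b * (t 3 * (t 2 * (t 1 * t 0))) = b * (t 0 * (t 1 * (t 2 * t 3))) := by ring
  rw [mul_comm (t 1) (t 0), mul_comm (t 2) (t 0), mul_comm (t 3) (t 0), mul_comm (t 2) (t 1),
    mul_comm (t 3) (t 1), mul_comm (t 3) (t 2)]
  congr 2
  ring

omit Lw in
theorem ecl_scale {R : Type*} [Ring R] [Algebra ℂ R] (v V : Fin 4 → R) (c d : Fin 4 → ℂ)
    (h : ∀ i, c i * d i = 1) (s a b : ℂ) :
    ecl (fun i => c i • v i) (fun i => d i • V i) s a b =
      ecl v V s (c 0 * c 1 * c 2 * c 3 * a) (d 0 * d 1 * d 2 * d 3 * b) := by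
  have h' : ∀ i, d i * c i = 1 := fun i => by rw [mul_comm, h]
  simp only [ecl, mul_smul_comm, smul_mul_assoc, smul_smul, h', one_smul]
  congr 2
  · congr 1
    ring
  · ring

end B3

end

end Pool.Agent.Lib.MP_361a6f_ag.FL.PT
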