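import Pool.Agent.Lib.MP_361a6f_ag.FL.PT.B3e

/-!
# Theorem PT, row B3: the calculus of the cones for the letters of a word
-/

open CategoryTheory AlgebraicGeometry MonoidalCategory CartesianMonoidalCategory

universe u w

set_option autoImplicit false
set_option linter.unusedSectionVars false

namespace Pool.Agent.Lib.MP_361a6f_ag.FL.PT

open Pool.Agent.Lib.MP_361a6f_ag.H3

noncomputable section

namespace B3

variable {k : Type u} [Field k] {W : CohomologyData.{u, 0, w} k ℂ} {𝒱 : VarietyClass k}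
  {X : Sch k} {g : ℕ} {ξ : W.coh X} {E : ∀ Z : Sch k, ℕ → Set (W.coh Z)} {J : Type} [Fintype J]
  [DecidableEq J]

/-! ### traces and the filling class -/

theorem rearr {R : Type*} [Ring R] (a o : Fin 4 → R) (ho : ∀ i z, o i * z = z * o i) :
    a 0 * a 1 * a 2 * a 3 * (o 0 * o 1 * o 2 * o 3) =
      a 0 * o 0 * (a 1 * o 1) * (a 2 * o 2) * (a 3 * o 3) := by
  simp only [mul_assoc]
  rw [ho 0 (o 1 * (o 2 * o 3)), ho 0 (a 1 * (o 1 * (a 2 * (o 2 * (a 3 * o 3)))))]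
  simp only [mul_assoc]
  rw [ho 1 (o 2 * (o 3 * o 0)), ho 1 (a 2 * (o 2 * (a 3 * (o 3 * o 0))))]
  simp only [mul_assoc]
  rw [ho 2 (o 3 * (o 0 * o 1)), ho 2 (a 3 * (o 3 * (o 0 * o 1)))]
  simp only [mul_assoc]

section tr

variable (hW : IsWeilCohomology W 𝒱) (hX : 𝒱.mem X g)

include hX in
theorem memY : 𝒱.mem (Y4 X) (4 * g) := by
  have h := 𝒱.prod (𝒱.prod hX hX) (𝒱.prod hX hX)
  have e : g + g + (g + g) = 4 * g := by ring
  rwa [e] at h

include hX in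
theorem memZ : 𝒱.mem (Y4 X ⊗ Y4 X) (4 * g + 4 * g) := 𝒱.prod (memY hX) (memY hX)

include hW hX

theorem tr4 (y : Fin 4 → W.coh X) :
    W.tr (Y4 X) (W.pull (pr4 X 0) (y 0) * W.pull (pr4 X 1) (y 1) * W.pull (pr4 X 2) (y 2) *
      W.pull (pr4 X 3) (y 3)) = ∏ i, W.tr X (y i) := by
  have h2 := 𝒱.prod hX hX
  have e : W.pull (pr4 X 0) (y 0) * W.pull (pr4 X 1) (y 1) * W.pull (pr4 X 2) (y 2) *
      W.pull (pr4 X 3) (y 3) = W.pull (fst (X ⊗ X) (X ⊗ X))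
        (W.pull (fst X X) (y 0) * W.pull (snd X X) (y 1)) *
      W.pull (snd (X ⊗ X) (X ⊗ X)) (W.pull (fst X X) (y 2) * W.pull (snd X X) (y 3)) := by
    rw [map_mul, map_mul, ← W.pull_comp, ← W.pull_comp, ← W.pull_comp, ← W.pull_comp, ← mul_assoc]
    rfl
  rw [e, hW.kunneth_tr h2 h2, hW.kunneth_tr hX hX, hW.kunneth_tr hX hX, Fin.prod_univ_four]
  ring

/-- the filling class -/
def Om (W : CohomologyData.{u, 0, w} k ℂ) {X : Sch k} (g : ℕ) (ξ : W.coh X) : W.coh (Y4 X) :=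
  W.pull (pr4 X 0) ξ ^ (g - 1) * W.pull (pr4 X 1) ξ ^ (g - 1) * W.pull (pr4 X 2) ξ ^ (g - 1) *
    W.pull (pr4 X 3) ξ ^ (g - 1)

theorem even_pull {j : ℕ} {y : W.coh X} (hy : y ∈ W.gr X (2 * j)) (i : Fin 4) (z : W.coh (Y4 X)) :
    W.pull (pr4 X i) y * z = z * W.pull (pr4 X i) y :=
  hW.even_comm (memY hX) (hW.pull_gr (memY hX) hX (pr4 X i) hy) z

theorem Om_gr (hξ : ξ ∈ W.alg X 1) : Om W g ξ ∈ W.gr (Y4 X) (8 * (g - 1)) := by
  have h1 : ∀ i, W.pull (pr4 X i) ξ ^ (g - 1) ∈ W.gr (Y4 X) (2 * (g - 1)) := fun i =>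
    hW.alg_gr (memY hX) (hW.pow_alg (memY hX) (hW.pull_alg (memY hX) hX (pr4 X i) hξ) _)
  have h := hW.mul_gr (memY hX) (hW.mul_gr (memY hX) (hW.mul_gr (memY hX) (h1 0) (h1 1)) (h1 2))
    (h1 3)
  have e : 2 * (g - 1) + 2 * (g - 1) + 2 * (g - 1) + 2 * (g - 1) = 8 * (g - 1) := by ring
  rwa [e] at h

theorem tr_vol (hξ : ξ ∈ W.alg X 1) (y : Fin 4 → W.coh X) (hy : ∀ i, y i ∈ W.gr X (2 * 1)) :
    W.tr (Y4 X) (W.pull (pr4 X 0) (y 0) * W.pull (pr4 X 1) (y 1) * W.pull (pr4 X 2) (y 2) *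
      W.pull (pr4 X 3) (y 3) * Om W g ξ) = ∏ i, W.tr X (y i * ξ ^ (g - 1)) := by
  rw [← tr4 hW hX]
  congr 1
  have hc : ∀ (i : Fin 4) (z : W.coh (Y4 X)), W.pull (pr4 X i) ξ ^ (g - 1) * z =
      z * W.pull (pr4 X i) ξ ^ (g - 1) := fun i z => by
    rw [← map_pow]
    exact even_pull hW hX (hW.alg_gr hX (hW.pow_alg hX hξ (g - 1))) i z
  have h := rearr (fun i => W.pull (pr4 X i) (y i)) (fun i => W.pull (pr4 X i) ξ ^ (g - 1)) hc
  simp only [map_mul, map_pow, Om]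
  exact h

end tr

/-! ### the cones -/

section cones

variable (hW : IsWeilCohomology W 𝒱) (hX : 𝒱.mem X g) (hg : 0 < g) (Lw : Law W X)
  (hξ : ξ ∈ W.alg X 1) (hE : Eff W X g ξ E)

/-- the polarisation of `X^4` -/
def th (W : CohomologyData.{u, 0, w} k ℂ) {X : Sch k} (ξ : W.coh X) : W.coh (Y4 X) :=
  ∑ i, W.pull (pr4 X i) ξ

include hW hX hξ hE

theorem th_alg : th W ξ ∈ W.alg (Y4 X) 1 :=
  AddSubgroup.sum_mem _ fun i _ => hW.pull_alg (memY hX) hX (pr4 X i) hξ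

theorem th_mem (j : ℕ) : th W ξ ^ j ∈ Bip (E (Y4 X) j) := by
  obtain ⟨N, hN⟩ := hE.big j (th W ξ ^ j) (hW.pow_alg (memY hX) (th_alg hW hX hξ hE) j)
  have h : ((N : ℝ) + 1)⁻¹ • (((N : ℂ) • (∑ i, W.pull (pr4 X i) ξ) ^ j) + th W ξ ^ j) ∈
      Bip (E (Y4 X) j) := Bip.smul (by positivity) (Bip.of_mem hN)
  have e : ((N : ℝ) + 1)⁻¹ • (((N : ℂ) • (∑ i, W.pull (pr4 X i) ξ) ^ j) + th W ξ ^ j) =
      th W ξ ^ j := by
    have h1 : ((N : ℂ) • (∑ i, W.pull (pr4 X i) ξ) ^ j) + th W ξ ^ j =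
        ((N : ℝ) + 1) • th W ξ ^ j := by
      rw [add_smul, one_smul, ← Complex.coe_smul]
      simp [th]
    rw [h1, smul_smul, inv_mul_cancel₀ (by positivity), one_smul]
  rwa [e] at h

include Lw

theorem xi_mem (i : Fin 4) (j : ℕ) : W.pull (pr4 X i) ξ ^ j ∈ Bip (E (Y4 X) j) := by
  have h := th_mem hW hX hξ hE j
  have h2 := Bip.map (E' := E (Y4 X) j)
    ((W.pull (lift4 fun i' => if i' = i then pr4 X i else toUnit (Y4 X) ≫ Lw.e)).toLinearMap.restrictScalars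
      ℝ) (fun y hy => Bip.of_mem (hE.pullY _ j y hy)) h
  have e : W.pull (lift4 fun i' => if i' = i then pr4 X i else toUnit (Y4 X) ≫ Lw.e) (th W ξ ^ j) =
      W.pull (pr4 X i) ξ ^ j := by
    rw [map_pow, th, map_sum]
    congr 1
    rw [Finset.sum_eq_single i]
    · rw [← W.pull_comp, lift4_pr, if_pos rfl]
    · intro i' _ hi
      rw [← W.pull_comp, lift4_pr, if_neg hi, W.pull_comp,
        hW.top_gr 𝒱.point (hW.pull_gr 𝒱.point hX Lw.e (hW.alg_gr hX hξ)) (by omega), map_zero]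
    · intro h
      exact absurd (Finset.mem_univ _) h
  have h3 : W.pull (lift4 fun i' => if i' = i then pr4 X i else toUnit (Y4 X) ≫ Lw.e) (th W ξ ^ j) ∈
      Bip (E (Y4 X) j) := h2
  rwa [e] at h3

omit Lw hW hX hξ in
theorem mulY {i j : ℕ} {x y : W.coh (Y4 X)} (hx : x ∈ Bip (E (Y4 X) i)) (hy : y ∈ Bip (E (Y4 X) j)) :
    x * y ∈ Bip (E (Y4 X) (i + j)) :=
  Bip.mul (fun x hx y hy => Bip.of_mem (hE.mulY i j x y hx hy)) hx hy

omit Lw hW hX hξ in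
theorem mulZ {i j : ℕ} {x y : W.coh (Y4 X ⊗ Y4 X)} (hx : x ∈ Bip (E (Y4 X ⊗ Y4 X) i))
    (hy : y ∈ Bip (E (Y4 X ⊗ Y4 X) j)) : x * y ∈ Bip (E (Y4 X ⊗ Y4 X) (i + j)) :=
  Bip.mul (fun x hx y hy => Bip.of_mem (hE.mulZ i j x y hx hy)) hx hy

theorem Om_mem : Om W g ξ ∈ Bip (E (Y4 X) (4 * (g - 1))) := by
  have h := mulY hE (mulY hE (mulY hE (xi_mem hW hX Lw hξ hE 0 (g - 1))
    (xi_mem hW hX Lw hξ hE 1 (g - 1))) (xi_mem hW hX Lw hξ hE 2 (g - 1)))
    (xi_mem hW hX Lw hξ hE 3 (g - 1))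
  have e : g - 1 + (g - 1) + (g - 1) + (g - 1) = 4 * (g - 1) := by ring
  rwa [e] at h

omit Lw hW hX hξ in
theorem trY {x : W.coh (Y4 X)} (hx : x ∈ Bip (E (Y4 X) (4 * g))) : 0 ≤ (W.tr (Y4 X) x).re := by
  refine Bip.nonneg (Complex.reLm ∘ₗ (W.tr (Y4 X)).restrictScalars ℝ) (fun e he => ?_) hx
  obtain ⟨r, hr, hr'⟩ := hE.tr e he
  show 0 ≤ (W.tr (Y4 X) e).re
  rw [hr', Complex.ofReal_re]
  exact hr

end cones

/-! ### the calculus -/

section calculus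

variable (hW : IsWeilCohomology W 𝒱) (hX : 𝒱.mem X g) (hg : 0 < g) (Lw : Law W X)
  (hξ : ξ ∈ W.alg X 1) (hE : Eff W X g ξ E) (F : Fr W X g ξ J) (w : Fin 4 → J)

theorem tau_ne (j : J) : F.τ j ≠ j := by
  intro h
  have h1 := F.s_τ j
  have h2 := F.s_sq j
  rw [h] at h1
  have h3 : F.s j = 0 := by
    have : (2 : ℂ) * F.s j = 0 := by linear_combination h1
    simpa using this
  rw [h3, mul_zero] at h2
  exact zero_ne_one h2

/-- the letters of the word -/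
def vl (i : Fin 4) : W.coh (Y4 X) := lett F (i, w i)

/-- the opposite letters -/
def Vl (i : Fin 4) : W.coh (Y4 X) := F.s (w i) • lett F (i, F.τ (w i))

/-- the coefficients of the real operators -/
def zz (ζ : Fin 4 → ℂ) (i : Fin 4) (j : J) : ℂ :=
  if j = w i then ζ i else if j = F.τ (w i) then (starRingEnd ℂ) (ζ i) else 0

theorem zz_conj (ζ : Fin 4 → ℂ) (i : Fin 4) (j : J) :
    zz F w ζ i (F.τ j) = (starRingEnd ℂ) (zz F w ζ i j) := by
  unfold zz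
  by_cases h1 : j = w i
  · subst h1
    rw [if_neg (tau_ne F _), if_pos rfl, if_pos rfl]
  · by_cases h2 : j = F.τ (w i)
    · subst h2
      rw [F.τ_τ, if_pos rfl, if_neg (tau_ne F _), if_pos rfl, Complex.conj_conj]
    · rw [if_neg h1, if_neg h2, if_neg, if_neg, map_zero]
      · intro h
        exact h1 (by rw [← F.τ_τ j, h, F.τ_τ])
      · intro h
        exact h2 (by rw [← F.τ_τ j, h])

theorem zz_one (ζ : Fin 4 → ℂ) (i : Fin 4) : zz F w ζ i (w i) = ζ i := if_pos rfl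

theorem zz_two (ζ : Fin 4 → ℂ) (i : Fin 4) :
    zz F w ζ i (F.τ (w i)) = (starRingEnd ℂ) (ζ i) := by
  rw [zz_conj, zz_one]

/-- substitution in `e(a, b)` -/
theorem ecl_sub (Lw : Law W X) {Z : Sch k} (hZ : ∀ (φ : Z ⟶ Y4 X) (y : W.coh (Y4 X)),
      y ∈ E (Y4 X) 2 → W.pull φ y ∈ E Z 2) {a b : ℂ}
    (h : ecl (vl F w) (Vl F w) 1 a b ∈ Bip (E (Y4 X) 2)) {m : Fin 4 × J → W.coh Z}
    (hm : m ∈ Submodule.span ℝ (LZ F Z)) :
    ecl (fun i => m (i, w i)) (fun i => F.s (w i) • m (i, F.τ (w i))) 1 a b ∈ Bip (E Z 2) := by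
  have e := wsum_ecl (fun i => (i, w i)) (fun i => (i, F.τ (w i))) (lett F) 1 a b
    (fun i => F.s (w i))
  have h' : wsum (ecf (fun i => F.s (w i)) 1 a b) (ewd (fun i => (i, w i))
      (fun i => (i, F.τ (w i)))) (lett F) ∈ Bip (E (Y4 X) 2) := by
    rw [e]
    exact h
  have h2 := real_sub Lw F hZ _ _ h' m hm
  rw [wsum_ecl] at h2
  exact h2

include hW hX hg hξ

theorem calc_of (Lw : Law W X) (hE : Eff W X g ξ E) :
    Calc (W.pull (fst (Y4 X) (Y4 X))) (W.pull (snd (Y4 X) (Y4 X))) (IOm W (Z := Y4 X) (Om W g ξ))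
      (LOm W (Om W g ξ)) (vl F w) (Vl F w) (Bip (E (Y4 X) 2)) (Bip (E (Y4 X ⊗ Y4 X) 2)) where
  add := fun x hx y hy => Bip.add hx hy
  smul := fun r hr x hx => by
    rw [Complex.coe_smul]
    exact Bip.smul hr hx
  rot := fun a b ζ hζ h => by
    have hm := slots_mem Lw F (fun i => pr4 X i) (zz F w (fun i => if i = 0 then ζ else 1))
      (zz_conj F w _)
    have h2 := ecl_sub F w Lw (hE.pullY · 2) h hm
    have h3 := ecl_scale (vl F w) (Vl F w) (fun i => if i = 0 then ζ else 1)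
      (fun i => if i = 0 then (starRingEnd ℂ) ζ else 1) (fun i => by
        by_cases hi : i = 0
        · simp [hi, hζ]
        · simp [hi]) 1 a b
    simp only [zz_one, zz_two] at h2
    have e : ecl (fun i => (if i = 0 then ζ else 1) • vl F w i)
        (fun i => (if i = 0 then (starRingEnd ℂ) ζ else 1) • Vl F w i) 1 a b =
        ecl (fun i => (if i = 0 then ζ else 1) • W.pull (pr4 X i) (F.f (w i)))
          (fun i => F.s (w i) • ((starRingEnd ℂ) (if i = 0 then ζ else 1) •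
            W.pull (pr4 X i) (F.f (F.τ (w i))))) 1 a b := by
      congr 1
      funext i
      rw [Vl, lett, smul_comm]
      congr 2
      by_cases hi : i = 0
      · simp [hi]
      · simp [hi]
    rw [← e, h3] at h2
    simpa using h2
  pull := fun a b ζ hζ h => by
    have hm1 := slots_mem (Z := Y4 X ⊗ Y4 X) Lw F (fun i => fst (Y4 X) (Y4 X) ≫ pr4 X i)
      (zz F w (fun _ => ζ)) (zz_conj F w _)
    have hm2 := slots_mem (Z := Y4 X ⊗ Y4 X) Lw F (fun i => snd (Y4 X) (Y4 X) ≫ pr4 X i)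
      (zz F w (fun _ => 1)) (zz_conj F w _)
    have h2 := ecl_sub F w Lw (hE.pullZ · 2) h (Submodule.add_mem _ hm1 hm2)
    simp only [Pi.add_apply, zz_one, zz_two, W.pull_comp] at h2
    have e1 : (fun i => ζ • W.pull (fst (Y4 X) (Y4 X)) (vl F w i) +
        W.pull (snd (Y4 X) (Y4 X)) (vl F w i)) = fun i =>
        ζ • W.pull (fst (Y4 X) (Y4 X)) (W.pull (pr4 X i) (F.f (w i))) +
          (1 : ℂ) • W.pull (snd (Y4 X) (Y4 X)) (W.pull (pr4 X i) (F.f (w i))) := by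
      funext i
      rw [one_smul]
      rfl
    have e2 : (fun i => (starRingEnd ℂ) ζ • W.pull (fst (Y4 X) (Y4 X)) (Vl F w i) +
        W.pull (snd (Y4 X) (Y4 X)) (Vl F w i)) = fun i => F.s (w i) •
        ((starRingEnd ℂ) ζ • W.pull (fst (Y4 X) (Y4 X)) (W.pull (pr4 X i) (F.f (F.τ (w i)))) +
          (starRingEnd ℂ) 1 •
            W.pull (snd (Y4 X) (Y4 X)) (W.pull (pr4 X i) (F.f (F.τ (w i))))) := by
      funext i
      rw [Vl, lett, map_one, one_smul, smul_add, map_smul, map_smul, smul_comm]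
    rw [e1, e2]
    exact h2
  prod := fun x hx y hy z hz => by
    have h1 : W.pull (snd (Y4 X) (Y4 X)) (Om W g ξ) ∈ Bip (E (Y4 X ⊗ Y4 X) (4 * (g - 1))) :=
      Bip.map ((W.pull (snd (Y4 X) (Y4 X))).toLinearMap.restrictScalars ℝ)
        (fun y hy => Bip.of_mem (hE.pullZ _ _ y hy)) (Om_mem hW hX Lw hξ hE)
    have h2 := mulZ hE (mulZ hE hx (mulZ hE hy hz)) h1
    have e : 2 + (2 + 2) + 4 * (g - 1) = 2 + 4 * g := by omega
    rw [e] at h2
    exact Bip.map ((W.push (fst (Y4 X) (Y4 X))).restrictScalars ℝ)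
      (fun y hy => Bip.of_mem (hE.push 2 y hy)) h2
  tr := fun x hx y hy => by
    have h := mulY hE (mulY hE hx hy) (Om_mem hW hX Lw hξ hE)
    have e : 2 + 2 + 4 * (g - 1) = 4 * g := by omega
    rw [e] at h
    exact trY hE h
  vol := by
    refine ⟨F.κ ^ 4, pow_pos F.κ_pos 4, ?_⟩
    have hy : ∀ i, F.s (w i) • (F.f (w i) * F.f (F.τ (w i))) ∈ W.gr X (2 * 1) := fun i => by
      have h := hW.mul_gr hX (F.f_gr (w i)) (F.f_gr (F.τ (w i)))
      exact Submodule.smul_mem _ _ h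
    have h := tr_vol hW hX hξ (fun i => F.s (w i) • (F.f (w i) * F.f (F.τ (w i)))) hy
    simp only [F.tr] at h
    rw [Finset.prod_const, Finset.card_univ, Fintype.card_fin] at h
    rw [LOm_apply]
    have e : vol (vl F w) (Vl F w) = W.pull (pr4 X 0) (F.s (w 0) • (F.f (w 0) * F.f (F.τ (w 0)))) *
        W.pull (pr4 X 1) (F.s (w 1) • (F.f (w 1) * F.f (F.τ (w 1)))) *
        W.pull (pr4 X 2) (F.s (w 2) • (F.f (w 2) * F.f (F.τ (w 2)))) *
        W.pull (pr4 X 3) (F.s (w 3) • (F.f (w 3) * F.f (F.τ (w 3)))) := by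
      have h3 : ∀ i, vl F w i * Vl F w i =
          W.pull (pr4 X i) (F.s (w i) • (F.f (w i) * F.f (F.τ (w i)))) := fun i => by
        rw [vl, Vl, lett, lett, mul_smul_comm, map_smul, map_mul]
      rw [vol, h3, h3, h3, h3]
    rw [e, h]
    push_cast
    rfl

end calculus

end B3

end

end Pool.Agent.Lib.MP_361a6f_ag.FL.PT
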