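import Mathlib

/-!
# Theorem PT (codimension 2, positivity of translates): the abstract rows

`A` is the cohomology algebra of `Y ^ 4`, `B` that of `Y ^ 4 × Y ^ 4`, `p` and `q` are the
pull-backs along the projections, `I` is the push-forward along the first projection of the product
with `q Ω`, and `L` is the trace of the product with `Ω`.
-/

namespace Pool.Agent.Lib.MP_361a6f_ag.FL.PT

universe w

section defs

variable {A : Type w} [Ring A] [Algebra ℂ A]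

/-- the class `s σ₂ + a T + b T'` of the letters `v`, `V`: `σ₂` is the second elementary symmetric
function of the classes `v i * V i`, `T` is the product of the `v i`, `T'` of the `V i` -/
def ecl (v V : Fin 4 → A) (s a b : ℂ) : A :=
  s • (v 0 * V 0 * (v 1 * V 1) + v 0 * V 0 * (v 2 * V 2) + v 0 * V 0 * (v 3 * V 3)
    + v 1 * V 1 * (v 2 * V 2) + v 1 * V 1 * (v 3 * V 3) + v 2 * V 2 * (v 3 * V 3))
    + a • (v 0 * v 1 * v 2 * v 3) + b • (V 0 * V 1 * V 2 * V 3)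

/-- the product of the classes `v i * V i` -/
def vol (v V : Fin 4 → A) : A := v 0 * V 0 * (v 1 * V 1) * (v 2 * V 2) * (v 3 * V 3)

end defs

/-- the integral over the second factor -/
structure Ber {A B : Type w} [Ring A] [Algebra ℂ A] [Ring B] [Algebra ℂ B]
    (gr : ℕ → Submodule ℂ A) (p q : A →ₐ[ℂ] B) (I : B →ₗ[ℂ] A) (L : A →ₗ[ℂ] ℂ) : Prop where
  one : (1 : A) ∈ gr 0
  mul : ∀ i j (x y : A), x ∈ gr i → y ∈ gr j → x * y ∈ gr (i + j)
  anti : ∀ x ∈ gr 1, ∀ y ∈ gr 1, x * y = -(y * x)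
  anti2 : ∀ x ∈ gr 1, ∀ y ∈ gr 1, p x * q y = -(q y * p x)
  int : ∀ β γ : A, I (p β * q γ) = L γ • β
  deg : ∀ j, j ≠ 8 → ∀ γ ∈ gr j, L γ = 0

/-- Row A1 (the key identity; checked by machine for general complex `a`, `b`). -/
def RowA1 : Prop :=
  ∀ {A B : Type w} [Ring A] [Algebra ℂ A] [Ring B] [Algebra ℂ B]
    (gr : ℕ → Submodule ℂ A) (p q : A →ₐ[ℂ] B) (I : B →ₗ[ℂ] A) (L : A →ₗ[ℂ] ℂ),
    Ber gr p q I L → ∀ (v V : Fin 4 → A), (∀ i, v i ∈ gr 1) → (∀ i, V i ∈ gr 1) →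
    ∀ ρ : ℂ, ρ ^ 2 + ρ + 1 = 0 → ∀ a b : ℂ,
    I (ecl (fun i => p (v i) + q (v i)) (fun i => p (V i) + q (V i)) 1 a b *
      (ecl (fun i => ρ • p (v i) + q (v i)) (fun i => ρ ^ 2 • p (V i) + q (V i)) 1
          (ρ ^ 2 * a) (ρ * b) *
        ecl (fun i => ρ ^ 2 • p (v i) + q (v i)) (fun i => ρ • p (V i) + q (V i)) 1
          (ρ * a) (ρ ^ 2 * b))) =
      (9 * L (vol v V)) • ecl v V (15 + 6 * (a * b)) ((18 + 3 * (a * b)) * a)
        ((18 + 3 * (a * b)) * b)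

/-- Row A2: the intersection number of two classes. -/
def RowA2 : Prop :=
  ∀ {A : Type w} [Ring A] [Algebra ℂ A] (v V : Fin 4 → A),
    (∀ i j, v i * v j = -(v j * v i)) → (∀ i j, V i * V j = -(V j * V i)) →
    (∀ i j, v i * V j = -(V j * v i)) → ∀ a b a' b' : ℂ,
    ecl v V 1 a b * ecl v V 1 a' b' = (6 + a * b' + a' * b) • vol v V

/-- Row C: the amplification. -/
def RowC : Prop :=
  ∀ Q : ℂ → ℂ → Prop,
    (∀ a b, Q a b → ∀ t : ℝ, 0 ≤ t → t ≤ 1 → Q (t * a) (t * b)) →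
    (∀ a b, Q a b → ∀ r : ℝ, 0 ≤ r → r ^ 2 ≤ 2 → a * b = ((-(r ^ 2) : ℝ) : ℂ) →
      Q (((6 - r ^ 2) / (5 - 2 * r ^ 2) : ℝ) * a) (((6 - r ^ 2) / (5 - 2 * r ^ 2) : ℝ) * b)) →
    (∀ a b, Q a b → ∀ x : ℝ, a * b = (x : ℂ) → 0 ≤ 6 + 2 * x) →
    ∀ a b, Q a b → ∀ x : ℝ, a * b = (x : ℂ) → 0 ≤ x

end Pool.Agent.Lib.MP_361a6f_ag.FL.PT
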