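import Pool.Agent.Lib.MP_361a6f_ag.FL.E.EndJ

/-!
# Theorem PT, the end, first part: from semidefiniteness to `Q1` modulo numerical equivalence

If `ψ` is positive semidefinite on the algebraic classes of codimension `j`, then `Q1` holds in
codimension `j` modulo numerical equivalence.
-/

open CategoryTheory AlgebraicGeometry MonoidalCategory CartesianMonoidalCategory

universe u v w

set_option autoImplicit false
set_option linter.unusedSectionVars false

namespace Pool.Agent.Lib.MP_361a6f_ag.FL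

open Pool.Agent.Lib.MP_361a6f_ag.H3 Pool.Agent.Lib.MP_361a6f_ag.SQ
  Pool.Agent.Lib.MP_361a6f_ag.PP

namespace EndNum

variable {k : Type u} [Field k] {W : CohomologyData.{u, 0, w} k ℂ} {𝒱 : VarietyClass k}

/-- all intersection numbers with algebraic classes are zero -/
def Num (W : CohomologyData.{u, 0, w} k ℂ) (X : Sch k) (x : W.coh X) : Prop :=
  ∀ y ∈ tot W X, W.tr X (x * y) = 0

section one

variable (hW : IsWeilCohomology W 𝒱) {X : Sch k} {n : ℕ} (hX : 𝒱.mem X n) {η : W.coh X}
  (hη : η ∈ W.alg X 1) {Lam : Module.End ℂ (W.coh X)} (D : LamData W X n η Lam)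

include hW hX in
theorem Num.add {x y : W.coh X} (hx : Num W X x) (hy : Num W X y) : Num W X (x + y) := by
  intro z hz
  rw [add_mul, map_add, hx z hz, hy z hz, add_zero]

include hW hX in
theorem Num.sub {x y : W.coh X} (hx : Num W X x) (hy : Num W X y) : Num W X (x - y) := by
  intro z hz
  rw [sub_mul, map_sub, hx z hz, hy z hz, sub_zero]

include hW hX in
theorem Num.mul_left {x y : W.coh X} (hx : Num W X x) (hy : y ∈ tot W X) : Num W X (y * x) := by
  intro z hz
  rw [tot_comm hW hX hy x, mul_assoc]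
  exact hx _ (tot_mul hW hX hy hz)

include hW hX in
theorem Num.mul_right {x y : W.coh X} (hx : Num W X x) (hy : y ∈ tot W X) : Num W X (x * y) := by
  intro z hz
  rw [mul_assoc]
  exact hx _ (tot_mul hW hX hy hz)

include hW hX in
theorem Num.tr {x : W.coh X} (hx : Num W X x) : W.tr X x = 0 := by
  have := hx 1 (one_tot hW hX)
  rwa [mul_one] at this

include hW hX hη in
theorem pow_tot (r : ℕ) : η ^ r ∈ tot W X := by
  induction r with
  | zero =>
    rw [pow_zero]
    exact one_tot hW hX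
  | succ r ih =>
    rw [pow_succ]
    exact tot_mul hW hX ih (alg_le_tot hW X 1 hη)

include hW hX hη D in
/-- every algebraic class `y` of degree `2 n - i`, `i ≤ n`, is `η ^ (n - i) y'` with `y'` algebraic
of degree `i` -/
theorem hard {i : ℕ} (hi : i ≤ n) {y : W.coh X} (hy : y ∈ tot W X)
    (hyg : y ∈ W.gr X (2 * n - i)) : ∃ y' ∈ tot W X, y = η ^ (n - i) * y' := by
  have hz : star D.slm.internal (Lop W X η) Lam y ∈ tot W X := PSI.star_tot hW hX hη D hy hyg
  have hzg : star D.slm.internal (Lop W X η) Lam y ∈ W.gr X i := by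
    have h := (staB D.slm).1 _ y (by omega) hyg
    rwa [show 2 * n - (2 * n - i) = i by omega] at h
  obtain ⟨f, hf, hfg, hf0, hfΛ, hsum⟩ := (sl2 D.slm).2.2.2.2.2.2 (tot W X)
    (fun x hx => tot_mul hW hX (alg_le_tot hW X 1 hη) hx)
    (fun x hx => AlgOp.apply hW hX D.alg hx)
    (fun q x hx => tot_smul hW hX q hx) i _ hi hzg hz
  have hstar : y = star D.slm.internal (Lop W X η) Lam
      (star D.slm.internal (Lop W X η) Lam y) := ((staB D.slm).2.1 y).symm
  have key : ∀ r, ∃ q : ℚ, star D.slm.internal (Lop W X η) Lam ((Lop W X η ^ r) (f r))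
      = η ^ (n - i) * (((q : ℚ) : ℂ) • (η ^ r * f r)) := by
    intro r
    by_cases hr : 2 * r ≤ i
    · obtain ⟨q, -, h⟩ := HrPsi.star_str D.slm (i := i - 2 * r) (by omega) (hfg r hr) (hfΛ r) r
        (by omega)
      have hs : PP.sgn (i - 2 * r)
          = ((((-1 : ℚ) ^ ((i - 2 * r) * ((i - 2 * r) + 1) / 2) : ℚ)) : ℂ) := by
        rw [PP.sgn]; push_cast; rfl
      refine ⟨(-1 : ℚ) ^ ((i - 2 * r) * ((i - 2 * r) + 1) / 2) * q, ?_⟩
      rw [h, PSI.Lop_pow hW hX, hs, show n - (i - 2 * r) - r = (n - i) + r by omega, pow_add,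
        mul_smul_comm, mul_assoc]
      congr 1
      push_cast
      ring
    · refine ⟨0, ?_⟩
      rw [hf0 r (by omega), map_zero, map_zero, mul_zero, smul_zero, mul_zero]
  choose q hq using key
  refine ⟨∑ r ∈ Finset.range (n + 1), ((q r : ℚ) : ℂ) • (η ^ r * f r), ?_, ?_⟩
  · refine AddSubgroup.sum_mem _ fun r _ => tot_smul hW hX _ ?_
    exact tot_mul hW hX (pow_tot hW hX hη r) (hf r)
  · rw [hstar, hsum, map_sum, Finset.mul_sum]
    exact Finset.sum_congr rfl fun r _ => hq r

include hW hX hη D in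
/-- numerical hard Lefschetz -/
theorem num_hard {i : ℕ} (hi : 2 * i ≤ n) {t : W.coh X} (htg : t ∈ W.gr X (2 * i))
    (h : Num W X (η ^ (n - 2 * i) * t)) : Num W X t := by
  intro y hy
  refine tot_induction hW (P := fun y => W.tr X (t * y) = 0) hy ?_ ?_
  · intro l y hy
    by_cases hl : 2 * i + 2 * l = 2 * n
    · obtain ⟨y', hy', e⟩ := hard hW hX hη D hi (alg_le_tot hW X l hy) (by
        have := hW.alg_gr hX hy
        rwa [show 2 * l = 2 * n - 2 * i by omega] at this)
      rw [e, ← mul_assoc, ← tot_comm hW hX (pow_tot hW hX hη (n - 2 * i)) t]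
      exact h y' hy'
    · exact hW.tr_gr hX (hW.mul_gr hX htg (hW.alg_gr hX hy)) hl
  · intro a b ha hb
    rw [mul_add, map_add, ha, hb, add_zero]

include hW hX hη D in
/-- a class whose product with `η ^ (n - 2 j + 1)` is numerically trivial is the sum of a primitive
class and a numerically trivial class -/
theorem num_prim {j : ℕ} (hj : 2 * j ≤ n) {x : W.coh X} (hx : x ∈ tot W X)
    (hxg : x ∈ W.gr X (2 * j)) (h : Num W X (η ^ (n - 2 * j + 1) * x)) :
    ∃ p ∈ tot W X, p ∈ W.gr X (2 * j) ∧ Lam p = 0 ∧ Num W X (x - p) := by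
  obtain ⟨f, hf, hfg, hf0, hfΛ, hsum⟩ := (sl2 D.slm).2.2.2.2.2.2 (tot W X)
    (fun x hx => tot_mul hW hX (alg_le_tot hW X 1 hη) hx)
    (fun x hx => AlgOp.apply hW hX D.alg hx)
    (fun q x hx => tot_smul hW hX q hx) (2 * j) _ hj hxg hx
  have hp0 : η ^ (n - 2 * j + 1) * f 0 = 0 := by
    have h1 := (sl2 D.slm).2.2.2.1 (2 * j) (f 0) hj (hfg 0 (by omega)) (hfΛ 0)
    rwa [PSI.Lop_pow hW hX] at h1
  refine ⟨f 0, hf 0, hfg 0 (by omega), hfΛ 0, ?_⟩
  -- the rest
  set t : W.coh X := ∑ r ∈ Finset.range n, η ^ r * f (r + 1) with ht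
  have hxt : x = f 0 + η * t := by
    rw [hsum, Finset.sum_range_succ', pow_zero, Module.End.one_apply, add_comm, ht, Finset.mul_sum]
    congr 1
    refine Finset.sum_congr rfl fun r _ => ?_
    rw [PSI.Lop_pow hW hX, pow_succ', mul_assoc]
  have e1 : x - f 0 = η * t := by rw [hxt]; abel
  rw [e1]
  rcases Nat.eq_zero_or_pos j with hj0 | hj0
  · -- no rest in degree zero
    have h0 : t = 0 := by
      rw [ht]
      refine Finset.sum_eq_zero fun r _ => ?_
      rw [hf0 (r + 1) (by omega), mul_zero]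
    rw [h0, mul_zero]
    intro y _
    rw [zero_mul, map_zero]
  obtain ⟨i, rfl⟩ : ∃ i, j = i + 1 := ⟨j - 1, by omega⟩
  have htg : t ∈ W.gr X (2 * i) := by
    rw [ht]
    refine Submodule.sum_mem _ fun r _ => ?_
    by_cases hr : 2 * (r + 1) ≤ 2 * (i + 1)
    · have h1 := hW.mul_gr hX (hW.alg_gr hX (hW.pow_alg hX hη r)) (hfg (r + 1) hr)
      rw [show 2 * r + (2 * (i + 1) - 2 * (r + 1)) = 2 * i by omega] at h1
      exact h1
    · rw [hf0 (r + 1) (by omega), mul_zero]
      exact zero_mem _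
  have hnt : Num W X (η ^ (n - 2 * i) * t) := by
    have e3 : η ^ (n - 2 * (i + 1) + 1) * x = η ^ (n - 2 * (i + 1) + 2) * t := by
      rw [hxt, mul_add, hp0, zero_add, ← mul_assoc, ← pow_succ]
    rw [e3, show n - 2 * (i + 1) + 2 = n - 2 * i by omega] at h
    exact h
  have h2 : Num W X t := num_hard hW hX hη D (by omega) htg hnt
  exact h2.mul_left hW hX (alg_le_tot hW X 1 hη)

include hW hX hη in
/-- `ψ` is symmetric on algebraic classes -/
theorem psi_symm {x t : W.coh X} (ht : t ∈ tot W X) :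
    psi W X η Lam D.slm.internal x t = psi W X η Lam D.slm.internal t x := by
  refine tot_induction hW (P := fun t => psi W X η Lam D.slm.internal x t
    = psi W X η Lam D.slm.internal t x) ht ?_ ?_
  · intro l t ht
    have h := GB.psi_symm_gr hW staB hX hη D x (hW.alg_gr hX ht)
    rw [(even_two_mul l).neg_one_pow, one_mul] at h
    exact h
  · intro a b ha hb
    rw [psi_add_right, psi_add_left, ha, hb]

include hW hX hη D in
/-- **`Q1` modulo numerical equivalence from semidefiniteness.** -/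
theorem q1num {j : ℕ} (hj : 2 * j ≤ n)
    (hpos : ∀ x ∈ tot W X, x ∈ W.gr X (2 * j) →
      ∃ r : ℝ, 0 ≤ r ∧ psi W X η Lam D.slm.internal x x = (r : ℂ))
    {x : W.coh X} (hx : x ∈ W.alg X j) (h : Num W X (η ^ (n - 2 * j + 1) * x))
    (hx0 : ¬ Num W X x) :
    RatPos ((-1) ^ j * W.Tr (W.cup (η ^ (n - 2 * j)) (W.cup x x))) := by
  have hxt : x ∈ tot W X := alg_le_tot hW X j hx
  obtain ⟨p, hp, hpg, hpΛ, hnp⟩ := num_prim hW hX hη D hj hxt (hW.alg_gr hX hx) h
  have hp0 : ¬ Num W X p := fun h1 => hx0 (by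
    have := hnp.add hW hX h1
    rwa [sub_add_cancel] at this)
  -- a class that meets `p`
  obtain ⟨z, hz, hzg, hpz⟩ : ∃ z ∈ tot W X, z ∈ W.gr X (2 * j) ∧
      psi W X η Lam D.slm.internal p z ≠ 0 := by
    by_contra hcon
    push Not at hcon
    apply hp0
    intro y hy
    refine tot_induction hW (P := fun y => W.tr X (p * y) = 0) hy ?_ ?_
    · intro l y hy
      by_cases hl : 2 * j + 2 * l = 2 * n
      · have hyg := hW.alg_gr hX hy
        have hyt : y ∈ tot W X := alg_le_tot hW X l hy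
        have h1 := hcon (star D.slm.internal (Lop W X η) Lam y)
          (PSI.star_tot hW hX hη D hyt hyg) (by
            have h := (staB D.slm).1 _ y (by omega) hyg
            rwa [show 2 * n - 2 * l = 2 * j by omega] at h)
        rw [psi, (staB D.slm).2.1 y] at h1
        exact h1
      · exact hW.tr_gr hX (hW.mul_gr hX hpg (hW.alg_gr hX hy)) hl
    · intro a b ha hb
      rw [mul_add, map_add, ha, hb, add_zero]
  -- rational values
  have hrat : ∀ a ∈ tot W X, ∀ b ∈ tot W X, b ∈ W.gr X (2 * j) →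
      ∃ q : ℚ, psi W X η Lam D.slm.internal a b = (q : ℂ) := fun a ha b hb hbg =>
    tot_tr hW hX (tot_mul hW hX ha (PSI.star_tot hW hX hη D hb hbg))
  obtain ⟨a, ha⟩ := hrat p hp p hp hpg
  obtain ⟨b, hb⟩ := hrat p hp z hz hzg
  obtain ⟨c, hc⟩ := hrat z hz z hz hzg
  have hb' : psi W X η Lam D.slm.internal z p = (b : ℂ) := by
    rw [← psi_symm hW hX hη D hz, hb]
  have hquad : ∀ s : ℚ, 0 ≤ a + 2 * s * b + s ^ 2 * c := by
    intro s
    obtain ⟨r, hr, h1⟩ := hpos (p + ((s : ℚ) : ℂ) • z)
      (add_mem hp (tot_smul hW hX s hz)) (add_mem hpg (Submodule.smul_mem _ _ hzg))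
    rw [psi_add_left, psi_add_right, psi_add_right, psi_smul_left, psi_smul_left, psi_smul_right,
      psi_smul_right, ha, hb, hb', hc] at h1
    have h2 : (((a + 2 * s * b + s ^ 2 * c : ℚ)) : ℂ) = (r : ℂ) := by
      rw [← h1]
      push_cast
      ring
    have h3 : (((a + 2 * s * b + s ^ 2 * c : ℚ)) : ℝ) = r := by exact_mod_cast h2
    have h4 : (0 : ℝ) ≤ (((a + 2 * s * b + s ^ 2 * c : ℚ)) : ℝ) := by rw [h3]; exact hr
    exact_mod_cast h4
  have hb0 : b ≠ 0 := by
    rintro rfl
    exact hpz (by rw [hb]; norm_num)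
  have ha0 : 0 < a := by
    rcases lt_trichotomy a 0 with h1 | h1 | h1
    · have := hquad 0
      norm_num at this
      linarith
    · exfalso
      subst h1
      by_cases hc0 : c = 0
      · have := hquad (-b)
        rw [hc0] at this
        have h2 : 0 < b ^ 2 := by positivity
        nlinarith
      · have hc1 : 0 < c ∨ c < 0 := (lt_or_gt_of_ne hc0).symm
        rcases hc1 with hc1 | hc1
        · have := hquad (-b / c)
          have h2 : (0 : ℚ) + 2 * (-b / c) * b + (-b / c) ^ 2 * c = -(b ^ 2 / c) := by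
            field_simp
            ring
          rw [h2] at this
          have h3 : 0 < b ^ 2 / c := by positivity
          linarith
        · have h5 := hquad (b / c)
          have h2 : (0 : ℚ) + 2 * (b / c) * b + (b / c) ^ 2 * c = 3 * (b ^ 2 / c) := by
            field_simp
            ring
          rw [h2] at h5
          have h3 : b ^ 2 / c < 0 := div_neg_of_pos_of_neg (by positivity) hc1
          linarith
    · exact h1
  -- the value on the primitive class
  obtain ⟨q, hq, hst⟩ := HrPsi.star_str D.slm hj hpg hpΛ 0 (Nat.zero_le _)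
  have hpw : ∀ y : W.coh X, η ^ (n - 2 * j) * y = y * η ^ (n - 2 * j) :=
    fun y => tot_comm hW hX (pow_tot hW hX hη _) y
  have e1 : psi W X η Lam D.slm.internal p p
      = (q : ℂ) * ((-1) ^ j * W.tr X (η ^ (n - 2 * j) * (p * p))) := by
    rw [pow_zero, Module.End.one_apply, Nat.sub_zero, PSI.Lop_pow hW hX, StaB.sgn_even] at hst
    rw [psi, hst, mul_smul_comm, map_smul, smul_eq_mul, ← mul_assoc p, ← hpw, mul_assoc (η ^ _)]
    ring
  -- `x` and `p` have the same value
  have e2 : W.tr X (η ^ (n - 2 * j) * (x * x)) = W.tr X (η ^ (n - 2 * j) * (p * p)) := by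
    have h1 : Num W X (x * x - p * p) := by
      have h2 : x * x - p * p = (x - p) * x + p * (x - p) := by noncomm_ring
      rw [h2]
      exact (hnp.mul_right hW hX hxt).add hW hX (hnp.mul_left hW hX hp)
    have h3 := (h1.mul_left hW hX (pow_tot hW hX hη (n - 2 * j))).tr hW hX
    rw [mul_sub, map_sub] at h3
    exact sub_eq_zero.1 h3
  refine ⟨a / q, div_pos ha0 hq, ?_⟩
  change (-1) ^ j * W.tr X (η ^ (n - 2 * j) * (x * x)) = _
  have hq0 : (q : ℂ) ≠ 0 := by exact_mod_cast hq.ne'
  rw [e2]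
  rw [ha] at e1
  push_cast
  rw [e1]
  field_simp

end one

end EndNum

end Pool.Agent.Lib.MP_361a6f_ag.FL
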