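import Pool.Agent.Lib.MP_361a6f_ag.FL.PT.EndFr
import Pool.Agent.Lib.MP_361a6f_ag.FL.PT.EndNum

/-!
# Theorem PT, the end, third part: `ψ` on algebraic classes is a sum of values of `ψ` on algebraic
tensors whose letters have degree one
-/

open CategoryTheory AlgebraicGeometry MonoidalCategory CartesianMonoidalCategory

universe u v w

set_option autoImplicit false
set_option linter.unusedSectionVars false

namespace Pool.Agent.Lib.MP_361a6f_ag.FL

open Pool.Agent.Lib.MP_361a6f_ag.H3 Pool.Agent.Lib.MP_361a6f_ag.SQ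
  Pool.Agent.Lib.MP_361a6f_ag.PP Pool.Agent.Lib.MP_361a6f_ag.AV48

namespace EndFr

open EndE

variable {k : Type u} [Field k] {m : ℕ} {W : CohomologyData.{u, 0, w} k ℂ} {𝒱 : VarietyClass k}
  (H : Host W 𝒱 m)

/-- `ψ` is positive semidefinite on the algebraic tensors of length `L` whose letters all have
degree one -/
def PosS (L : ℕ) : Prop :=
  ∀ u : Ten H.I L, u ∈ H.At L → (∀ w, ¬ D1 H w → u w = 0) →
    ∃ r : ℝ, 0 ≤ r ∧ psiT H.D u u = (r : ℂ)

/-- a frame of `H^1` of a product that consists of pull-backs of basis vectors of the factors -/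
structure Frm (P : Prd m) {η : W.coh (P.obj H.X)} {Lam : Module.End ℂ (W.coh (P.obj H.X))}
    (D : LamData W (P.obj H.X) (P.dim H.n) η Lam) {S : Type} (a : S → Fin m)
    (f : ∀ s, P.obj H.X ⟶ H.X (a s)) (κ : S → ℝ) : Prop where
  pj : ∀ s, Pj H.X P (a s) (f s)
  pos : ∀ s, 0 < κ s
  orth : ∀ (s t : S) (x y : H.I), H.D.typ x = (a s, 1) → H.D.typ y = (a t, 1) →
    (s ≠ t ∨ y ≠ H.D.τ x → psi W (P.obj H.X) η Lam D.slm.internal (W.pull (f s) (H.e (a s) x))
      (W.pull (f t) (H.e (a t) y)) = 0) ∧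
    (s = t → y = H.D.τ x → psi W (P.obj H.X) η Lam D.slm.internal (W.pull (f s) (H.e (a s) x))
      (W.pull (f t) (H.e (a t) y)) = (κ s : ℂ) * H.D.s x)
  span : W.gr (P.obj H.X) 1 ≤ Submodule.span ℂ {v | ∃ (s : S) (x : H.I), H.D.typ x = (a s, 1) ∧
    v = W.pull (f s) (H.e (a s) x)}

theorem s_sq (x : H.I) : H.D.s x * H.D.s x = 1 := by
  rcases H.D.s_val x with h | h <;> rw [h] <;> norm_num

theorem sg_sq {L : ℕ} (w : Fin L → H.I) : sg H.D w * sg H.D w = 1 := by
  rw [sg, ← Finset.prod_mul_distrib]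
  exact Finset.prod_eq_one fun i _ => s_sq H (w i)

/-- the adjoint of the pull-back along a morphism preserves the algebraic classes -/
theorem push_star {P : Prd m} {η : W.coh (P.obj H.X)} (hη : η ∈ W.alg (P.obj H.X) 1)
    {Lam : Module.End ℂ (W.coh (P.obj H.X))} (D : LamData W (P.obj H.X) (P.dim H.n) η Lam)
    (Q : Prd m) (f : P.obj H.X ⟶ Q.obj H.X) {z : W.coh (P.obj H.X)}
    (hz : z ∈ tot W (P.obj H.X)) {i : ℕ} (hg : z ∈ W.gr (P.obj H.X) i) :
    ∃ z'' ∈ tot W (Q.obj H.X), ∀ x : W.coh (Q.obj H.X),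
      H.psiP Q x z'' = psi W (P.obj H.X) η Lam D.slm.internal (W.pull f x) z := by
  obtain ⟨DQ, hQalg⟩ := H.lamP Q
  have hsz : PP.star D.slm.internal (Lop W (P.obj H.X) η) Lam z ∈ tot W (P.obj H.X) :=
    PSI.star_tot H.hW (H.memP P) hη D hz hg
  have hyt : W.push f (PP.star D.slm.internal (Lop W (P.obj H.X) η) Lam z)
      ∈ tot W (Q.obj H.X) := tot_push H.hW (H.memP P) (H.memP Q) f hsz
  refine ⟨H.starP Q (W.push f (PP.star D.slm.internal (Lop W (P.obj H.X) η) Lam z)),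
    AlgOp.apply H.hW (H.memP Q) (algOp_star H.hW (H.memP Q) hQalg DQ) hyt, fun x => ?_⟩
  change W.tr (Q.obj H.X) (x * H.starP Q (H.starP Q (W.push f _))) =
    W.tr (P.obj H.X) (W.pull f x * PP.star D.slm.internal (Lop W (P.obj H.X) η) Lam z)
  have h1 : ∀ y, H.starP Q (H.starP Q y) = y :=
    fun y => BLK.star_star H.hW staB (H.memP Q) hQalg DQ y
  rw [h1, ← tot_comm H.hW (H.memP Q) hyt, H.hW.push_adj (H.memP P) (H.memP Q),
    tot_comm H.hW (H.memP P) hsz]

section main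

variable {P : Prd m} {η : W.coh (P.obj H.X)} {Lam : Module.End ℂ (W.coh (P.obj H.X))}
  {D : LamData W (P.obj H.X) (P.dim H.n) η Lam} {S : Type} [Fintype S] [DecidableEq S]
  {a : S → Fin m} {f : ∀ s, P.obj H.X ⟶ H.X (a s)} {κ : S → ℝ} (Fr : Frm H P D a f κ)

open Classical in
/-- the letters, extended by zero -/
noncomputable def el (a : S → Fin m) (f : ∀ s, P.obj H.X ⟶ H.X (a s)) (i : S × H.I) :
    W.coh (P.obj H.X) :=
  if H.D.typ i.2 = (a i.1, 1) then W.pull (f i.1) (H.e (a i.1) i.2) else 0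

theorem el_on {i : S × H.I} (h : H.D.typ i.2 = (a i.1, 1)) :
    el H a f i = W.pull (f i.1) (H.e (a i.1) i.2) := if_pos h

theorem el_off {i : S × H.I} (h : ¬ H.D.typ i.2 = (a i.1, 1)) : el H a f i = 0 := if_neg h

/-- the dual letters -/
noncomputable def el' (D : LamData W (P.obj H.X) (P.dim H.n) η Lam) (a : S → Fin m)
    (f : ∀ s, P.obj H.X ⟶ H.X (a s)) (κ : S → ℝ) (i : S × H.I) : W.coh (P.obj H.X) :=
  (-(psi W (P.obj H.X) η Lam D.slm.internal 1 1) * ((κ i.1 : ℂ)⁻¹ * H.D.s (H.D.τ i.2)))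
    • el H a f (i.1, H.D.τ i.2)

include Fr

theorem el_gr (i : S × H.I) : el H a f i ∈ W.gr (P.obj H.X) 1 := by
  by_cases h : H.D.typ i.2 = (a i.1, 1)
  · rw [el_on H h]
    have h1 := H.e_gr (a i.1) i.2
    rw [h] at h1
    exact H.hW.pull_gr (H.memP P) (H.mem (a i.1)) (f i.1) h1
  · rw [el_off H h]
    exact zero_mem _

theorem el'_gr (i : S × H.I) : el' H D a f κ i ∈ W.gr (P.obj H.X) 1 :=
  Submodule.smul_mem _ _ (el_gr H Fr _)

/-- the two frames are dual -/
theorem dual (v : W.coh (P.obj H.X)) (hv : v ∈ W.gr (P.obj H.X) 1) :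
    ∑ i, psi W (P.obj H.X) η Lam D.slm.internal (el' H D a f κ i) v • el H a f i
      = -(psi W (P.obj H.X) η Lam D.slm.internal 1 1 • v) := by
  have hadd : ∀ z x y, psi W (P.obj H.X) η Lam D.slm.internal z (x + y)
      = psi W (P.obj H.X) η Lam D.slm.internal z x
        + psi W (P.obj H.X) η Lam D.slm.internal z y := fun z x y => psi_add_right _ z x y
  have hv' := Fr.span hv
  induction hv' using Submodule.span_induction with
  | mem v hv2 =>
    obtain ⟨t, y, hy, rfl⟩ := hv2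
    rw [Finset.sum_eq_single (t, y)]
    · have h1 : H.D.typ (H.D.τ y) = (a t, 1) := by rw [H.D.typ_τ, hy]
      have h2 := (Fr.orth t t (H.D.τ y) y h1 hy).2 rfl (H.D.τ_τ y).symm
      have h3 : (κ t : ℂ) ≠ 0 := by exact_mod_cast (Fr.pos t).ne'
      rw [el', psi_smul_left, el_on H (i := (t, H.D.τ y)) h1, el_on H (i := (t, y)) hy, h2,
        ← neg_smul]
      congr 1
      have h4 := s_sq H (H.D.τ y)
      calc -(psi W (P.obj H.X) η Lam D.slm.internal 1 1)
            * ((κ t : ℂ)⁻¹ * H.D.s (H.D.τ y)) * ((κ t : ℂ) * H.D.s (H.D.τ y))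
          = -(psi W (P.obj H.X) η Lam D.slm.internal 1 1) * ((κ t : ℂ)⁻¹ * (κ t : ℂ))
            * (H.D.s (H.D.τ y) * H.D.s (H.D.τ y)) := by ring
        _ = _ := by rw [h4, inv_mul_cancel₀ h3, mul_one, mul_one]
    · rintro ⟨s, x⟩ - hne
      by_cases hx : H.D.typ x = (a s, 1)
      · have h1 : H.D.typ (H.D.τ x) = (a s, 1) := by rw [H.D.typ_τ, hx]
        have h2 := (Fr.orth s t (H.D.τ x) y h1 hy).1 (by
          by_contra hcon
          push Not at hcon
          apply hne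
          rw [hcon.1, hcon.2, H.D.τ_τ])
        rw [el', psi_smul_left, el_on H (i := (s, H.D.τ x)) h1, h2, mul_zero, zero_smul]
      · rw [el_off H (i := (s, x)) hx, smul_zero]
    · intro h
      exact absurd (Finset.mem_univ _) h
  | zero =>
    rw [smul_zero, neg_zero]
    refine Finset.sum_eq_zero fun i _ => ?_
    have h1 := psi_smul_right (W := W) (X := P.obj H.X) (ξ := η) (Lam := Lam) D.slm.internal
      0 (el' H D a f κ i) 0
    rw [zero_smul, zero_mul] at h1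
    rw [h1, zero_smul]
  | add x y hx hy h h' =>
    have hx1 : x ∈ W.gr (P.obj H.X) 1 := by
      refine Submodule.span_le.2 ?_ hx
      rintro _ ⟨s, z, hz, rfl⟩
      have := el_gr H Fr (s, z)
      rwa [el_on H (i := (s, z)) hz] at this
    have hy1 : y ∈ W.gr (P.obj H.X) 1 := by
      refine Submodule.span_le.2 ?_ hy
      rintro _ ⟨s, z, hz, rfl⟩
      have := el_gr H Fr (s, z)
      rwa [el_on H (i := (s, z)) hz] at this
    rw [smul_add, neg_add, ← h hx1, ← h' hy1, ← Finset.sum_add_distrib]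
    exact Finset.sum_congr rfl fun i _ => by rw [hadd, add_smul]
  | smul c x hx h =>
    have hx1 : x ∈ W.gr (P.obj H.X) 1 := by
      refine Submodule.span_le.2 ?_ hx
      rintro _ ⟨s, z, hz, rfl⟩
      have := el_gr H Fr (s, z)
      rwa [el_on H (i := (s, z)) hz] at this
    rw [smul_comm, ← smul_neg, ← h hx1, Finset.smul_sum]
    refine Finset.sum_congr rfl fun i _ => ?_
    rw [psi_smul_right, smul_smul]

/-- the words in the letters are pull-backs of words -/
theorem word {n : ℕ} (σ : Fin (n + 1) → S) (hη : η ∈ W.alg (P.obj H.X) 1) {x : W.coh (P.obj H.X)}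
    (hx : x ∈ tot W (P.obj H.X)) (hxg : x ∈ W.gr (P.obj H.X) (n + 1)) :
    ∃ u ∈ H.At (n + 1), (∀ w, ¬ D1 H w → u w = 0) ∧ ∀ w : Fin (n + 1) → H.I,
      psi W (P.obj H.X) η Lam D.slm.internal (List.ofFn fun l => el H a f (σ l, w l)).prod x
        = sg H.D (H.D.τ ∘ w) * u (H.D.τ ∘ w) := by
  have ge := ge H
  obtain ⟨F, -, hF⟩ := exists_map H P n (fun l => a (σ l)) (fun l => f (σ l)) fun l => Fr.pj (σ l)
  obtain ⟨z, hz, hadj⟩ := push_star H hη D (GP.N n fun l => a (σ l)) F hx hxg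
  have hsz := GP.size_N n fun l => a (σ l)
  set u : Ten H.I (n + 1) := fun w => H.tc (GP.N n fun l => a (σ l)) z (w ∘ Fin.cast hsz) with hu
  have huA : u ∈ H.At (n + 1) := GP.at_tc' H _ hsz hz
  refine ⟨cut H u, cut_at H huA, fun w hw => cut_off H u hw, fun w => ?_⟩
  by_cases hw : ∀ l, H.D.typ (w l) = (a (σ l), 1)
  · have hD1 : D1 H w := fun l => by rw [hw l]
    have e1 : (List.ofFn fun l => el H a f (σ l, w l))
        = List.ofFn fun l => W.pull (f (σ l)) (H.e (a (σ l)) (w l)) := by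
      congr 1
      funext l
      exact el_on H (i := (σ l, w l)) (hw l)
    rw [e1, ← hF, ← hadj, cut_on H u (d1_tau H hD1)]
    have e2 : GP.E' H n (fun l => a (σ l)) w
        = H.E (GP.N n fun l => a (σ l)) (w ∘ Fin.cast hsz) := by
      rw [GP.E_eq]
      rfl
    have e3 : H.psiP (GP.N n fun l => a (σ l)) (H.E (GP.N n fun l => a (σ l)) (w ∘ Fin.cast hsz)) z
        = H.psiP (GP.N n fun l => a (σ l)) z
          (H.E (GP.N n fun l => a (σ l)) (w ∘ Fin.cast hsz)) :=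
      EndNum.psi_symm H.hW (H.memP _) (H.lamP (GP.N n fun l => a (σ l))).2
        (H.lamP (GP.N n fun l => a (σ l))).1 hz
    have e4 : u (H.D.τ ∘ w) = sg H.D (H.D.τ ∘ (w ∘ Fin.cast hsz))
        * H.psiP (GP.N n fun l => a (σ l)) z
          (H.E (GP.N n fun l => a (σ l)) (H.D.τ ∘ (H.D.τ ∘ (w ∘ Fin.cast hsz)))) := rfl
    have e5 : H.D.τ ∘ (H.D.τ ∘ (w ∘ Fin.cast hsz)) = w ∘ Fin.cast hsz := by
      funext i
      exact H.D.τ_τ _
    have e6 : sg H.D (H.D.τ ∘ (w ∘ Fin.cast hsz)) = sg H.D (H.D.τ ∘ w) := by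
      unfold sg
      exact Fintype.prod_equiv (finCongr hsz) _ _ fun i => rfl
    rw [e2, e3, e4, e5, e6, ← mul_assoc, sg_sq, one_mul]
  · have e1 : (List.ofFn fun l => el H a f (σ l, w l)).prod = 0 := by
      push Not at hw
      obtain ⟨l, hl⟩ := hw
      refine List.prod_eq_zero (List.mem_ofFn.2 ⟨l, ?_⟩)
      exact el_off H (i := (σ l, w l)) hl
    have e2 : cut H u (H.D.τ ∘ w) = 0 := by
      by_cases hD : D1 H w
      · rw [cut_on H u (d1_tau H hD)]
        refine ge.tc_off _ z _ ?_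
        push Not at hw
        obtain ⟨l, hl⟩ := hw
        refine ⟨Fin.cast hsz.symm l, ?_⟩
        intro h
        apply hl
        rw [GP.lw_N] at h
        have h1 : (H.D.typ (w l)).1 = a (σ l) := by
          rw [← H.D.typ_τ]
          exact h
        exact Prod.ext h1 (hD l)
      · exact cut_off H u fun h => hD (by
          have := d1_tau H h
          intro i
          have h2 := this i
          rw [Function.comp_apply, Function.comp_apply, H.D.τ_τ] at h2
          exact h2)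
    rw [e1, e2, mul_zero, psi, zero_mul, map_zero]

omit Fr in
theorem prod_smul {A : Type w} [Ring A] [Algebra ℂ A] : ∀ (n : ℕ) (c : Fin n → ℂ) (z : Fin n → A),
    (List.ofFn fun l => c l • z l).prod = (∏ l, c l) • (List.ofFn z).prod
  | 0, c, z => by
    rw [List.ofFn_zero, List.ofFn_zero, List.prod_nil, Fin.prod_univ_zero, one_smul]
  | n + 1, c, z => by
    rw [List.ofFn_succ, List.ofFn_succ, List.prod_cons, List.prod_cons,
      prod_smul n (fun l => c l.succ) (fun l => z l.succ), Fin.prod_univ_succ, smul_mul_smul_comm]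

/-- **`ψ(x, x) ≥ 0` for all algebraic classes `x` of degree `n + 1`.** -/
theorem psi_nonneg (hA : AbelianType W (P.obj H.X) (P.dim H.n))
    (hη : PositiveDivisor W (P.obj H.X) (P.dim H.n) η) {n : ℕ} (hpos : PosS H (n + 1))
    {x : W.coh (P.obj H.X)} (hx : x ∈ tot W (P.obj H.X)) (hxg : x ∈ W.gr (P.obj H.X) (n + 1)) :
    ∃ r : ℝ, 0 ≤ r ∧ psi W (P.obj H.X) η Lam D.slm.internal x x = (r : ℂ) := by
  obtain ⟨r, hr, h11⟩ := psi_one H.hW (H.memP P) hA hη D
  have key := psi_frame H.hW (H.memP P) hA hη D (el_gr H Fr) (el'_gr H Fr) (dual H Fr) (n + 1)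
    hxg x
  choose u huA hu0 hu using fun σ : Fin (n + 1) → S => word H Fr σ hη.1 hx hxg
  -- the products of the dual letters
  have e1 : ∀ (σ : Fin (n + 1) → S) (w : Fin (n + 1) → H.I),
      psi W (P.obj H.X) η Lam D.slm.internal
        (List.ofFn fun l => el' H D a f κ (σ l, w l)).prod x
      = (-(r : ℂ)) ^ (n + 1) * ((∏ l, ((κ (σ l) : ℂ)⁻¹)) * sg H.D (H.D.τ ∘ w))
        * (sg H.D w * u σ w) := by
    intro σ w
    have h1 : (List.ofFn fun l => el' H D a f κ (σ l, w l)).prod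
        = (∏ l, (-(r : ℂ) * ((κ (σ l) : ℂ)⁻¹ * H.D.s (H.D.τ (w l)))))
          • (List.ofFn fun l => el H a f (σ l, H.D.τ (w l))).prod := by
      rw [← prod_smul]
      congr 2
      funext l
      rw [el', h11]
    have h2 := hu σ (H.D.τ ∘ w)
    have h3 : H.D.τ ∘ (H.D.τ ∘ w) = w := by
      funext i
      exact H.D.τ_τ _
    rw [h3] at h2
    have h4 : psi W (P.obj H.X) η Lam D.slm.internal
        (List.ofFn fun l => el H a f (σ l, H.D.τ (w l))).prod x = sg H.D w * u σ w := h2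
    rw [h1, psi_smul_left, h4, Finset.prod_mul_distrib, Finset.prod_mul_distrib,
      Finset.prod_const, Finset.card_univ, Fintype.card_fin]
    rfl
  have e2 : ∑ w : Fin (n + 1) → S × H.I,
        psi W (P.obj H.X) η Lam D.slm.internal (List.ofFn fun l => el' H D a f κ (w l)).prod x
          * psi W (P.obj H.X) η Lam D.slm.internal (List.ofFn fun l => el H a f (w l)).prod x
      = ∑ σ : Fin (n + 1) → S, (-(r : ℂ)) ^ (n + 1) * (∏ l, ((κ (σ l) : ℂ)⁻¹))
          * psiT H.D (u σ) (u σ) := by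
    rw [← (Equiv.arrowProdEquivProdArrow (Fin (n + 1)) (fun _ => S) (fun _ => H.I)).symm.sum_comp,
      Fintype.sum_prod_type]
    refine Finset.sum_congr rfl fun σ _ => ?_
    rw [psiT, Finset.mul_sum]
    refine Finset.sum_congr rfl fun w _ => ?_
    have h1 := e1 σ w
    have h2 := hu σ w
    have h3 : psi W (P.obj H.X) η Lam D.slm.internal (List.ofFn fun l => el' H D a f κ
        ((Equiv.arrowProdEquivProdArrow (Fin (n + 1)) (fun _ => S) (fun _ => H.I)).symm
          (σ, w) l)).prod x = (-(r : ℂ)) ^ (n + 1)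
            * ((∏ l, ((κ (σ l) : ℂ)⁻¹)) * sg H.D (H.D.τ ∘ w)) * (sg H.D w * u σ w) := h1
    have h4 : psi W (P.obj H.X) η Lam D.slm.internal (List.ofFn fun l => el H a f
        ((Equiv.arrowProdEquivProdArrow (Fin (n + 1)) (fun _ => S) (fun _ => H.I)).symm
          (σ, w) l)).prod x = sg H.D (H.D.τ ∘ w) * u σ (H.D.τ ∘ w) := h2
    rw [h3, h4]
    have h5 := sg_sq H (H.D.τ ∘ w)
    calc _ = (-(r : ℂ)) ^ (n + 1) * (∏ l, ((κ (σ l) : ℂ)⁻¹))
          * (sg H.D (H.D.τ ∘ w) * sg H.D (H.D.τ ∘ w))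
          * (sg H.D w * (u σ w * u σ (H.D.τ ∘ w))) := by ring
      _ = _ := by rw [h5, mul_one]
  rw [e2, h11] at key
  choose ρ hρ0 hρ using fun σ : Fin (n + 1) → S => hpos (u σ) (huA σ) (hu0 σ)
  have hr0 : (r : ℂ) ≠ 0 := by exact_mod_cast hr.ne'
  have hf0 : (((n + 1).factorial : ℕ) : ℂ) ≠ 0 := by exact_mod_cast (n + 1).factorial_ne_zero
  refine ⟨(((n + 1).factorial : ℝ) * r)⁻¹ * (r ^ (n + 1)
    * ∑ σ : Fin (n + 1) → S, (∏ l, (κ (σ l))⁻¹) * ρ σ), ?_, ?_⟩
  · refine mul_nonneg (by positivity) (mul_nonneg (by positivity) ?_)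
    refine Finset.sum_nonneg fun σ _ => mul_nonneg ?_ (hρ0 σ)
    exact Finset.prod_nonneg fun l _ => inv_nonneg.2 (Fr.pos (σ l)).le
  · have h1 : (-1 : ℂ) ^ (n + 1) * ∑ σ : Fin (n + 1) → S, (-(r : ℂ)) ^ (n + 1)
        * (∏ l, ((κ (σ l) : ℂ)⁻¹)) * psiT H.D (u σ) (u σ)
        = (r : ℂ) ^ (n + 1) * ∑ σ : Fin (n + 1) → S, (∏ l, ((κ (σ l) : ℂ)⁻¹)) * (ρ σ : ℂ) := by
      rw [Finset.mul_sum, Finset.mul_sum]
      refine Finset.sum_congr rfl fun σ _ => ?_
      rw [hρ σ]
      have h2 : (-1 : ℂ) ^ (n + 1) * (-(r : ℂ)) ^ (n + 1) = (r : ℂ) ^ (n + 1) := by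
        rw [← mul_pow]
        congr 1
        ring
      rw [← h2]
      ring
    rw [h1] at key
    have h3 : psi W (P.obj H.X) η Lam D.slm.internal x x
        = ((((n + 1).factorial : ℕ) : ℂ) * r)⁻¹ * ((((n + 1).factorial : ℕ) : ℂ) * r
          * psi W (P.obj H.X) η Lam D.slm.internal x x) := by
      rw [← mul_assoc, inv_mul_cancel₀ (mul_ne_zero hf0 hr0), one_mul]
    rw [h3, key]
    push_cast
    rfl

end main

end EndFr

end Pool.Agent.Lib.MP_361a6f_ag.FL
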