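import Pool.Agent.Lib.MP_361a6f_ag.FL.E.EndJ

/-!
# Theorem PT, the end, second part: the frame formula

For a variety of abelian type and dual frames `e i`, `e' i` of `H^1` (for `ψ`), the value `ψ(x, y)`
on classes of degree `L` is, up to the factor `± L! ψ(1, 1)`, the sum of the products
`ψ(e'_w, x) ψ(e_w, y)` over all words `w` of length `L`.
-/

open CategoryTheory AlgebraicGeometry MonoidalCategory CartesianMonoidalCategory

universe u v w

set_option autoImplicit false
set_option linter.unusedSectionVars false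

namespace Pool.Agent.Lib.MP_361a6f_ag.FL

open Pool.Agent.Lib.MP_361a6f_ag.H3 Pool.Agent.Lib.MP_361a6f_ag.SQ
  Pool.Agent.Lib.MP_361a6f_ag.PP Pool.Agent.Lib.MP_361a6f_ag.AV48

namespace EndFr

variable {k : Type u} [Field k] {W : CohomologyData.{u, 0, w} k ℂ} {𝒱 : VarietyClass k}

section main

variable (hW : IsWeilCohomology W 𝒱) {X : Sch k} {g : ℕ} (hX : 𝒱.mem X g)
  (hA : AbelianType W X g) {ξ : W.coh X} (hξ : PositiveDivisor W X g ξ)
  {Lam : Module.End ℂ (W.coh X)} (D : LamData W X g ξ Lam)
  {ι : Type} [Fintype ι] {e e' : ι → W.coh X} (he : ∀ i, e i ∈ W.gr X 1)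
  (he' : ∀ i, e' i ∈ W.gr X 1)
  (hdual : ∀ v ∈ W.gr X 1, ∑ i, psi W X ξ Lam D.slm.internal (e' i) v • e i
    = -(psi W X ξ Lam D.slm.internal 1 1 • v))

include hW hX hA hξ D he he' hdual

/-- the number operator -/
theorem number : ∀ (n : ℕ) (x : W.coh X), x ∈ W.gr X n →
    ∑ i, e i * io Lam (e' i) x = (n : ℂ) • x := by
  obtain ⟨r, hr, h1⟩ := psi_one hW hX hA hξ D
  have hr0 : (r : ℂ) ≠ 0 := by exact_mod_cast hr.ne'
  have hE := extAlg hW hX hA hξ
  refine hE.deg_ind (P := fun n x => ∑ i, e i * io Lam (e' i) x = (n : ℂ) • x) ?_ ?_ ?_ ?_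
  · intro n
    rw [smul_zero]
    exact Finset.sum_eq_zero fun i _ => by rw [map_zero, mul_zero]
  · intro n x y _ _ hx hy
    rw [smul_add, ← hx, ← hy, ← Finset.sum_add_distrib]
    exact Finset.sum_congr rfl fun i _ => by rw [map_add, mul_add]
  · intro c
    rw [Nat.cast_zero, zero_smul]
    refine Finset.sum_eq_zero fun i _ => ?_
    rw [map_smul, io_one hW hX hA hξ D (he' i), smul_zero, mul_zero]
  · intro n v hv x hx h
    have h2 : ∀ i, e i * io Lam (e' i) (v * x)
        = -((r : ℂ)⁻¹) • ((psi W X ξ Lam D.slm.internal (e' i) v • e i) * x)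
          + v * (e i * io Lam (e' i) x) := by
      intro i
      have h3 : e i * v = -(v * e i) := by
        have := hW.comm_gr hX (he i) hv
        rw [this, one_mul, pow_one, neg_one_smul]
      rw [io_mul hW hX hA hξ D (he' i) hv, io_v hW hX hA hξ D (he' i) hv, h1, mul_sub,
        smul_mul_assoc, one_mul, mul_smul_comm, ← mul_assoc, h3, neg_mul, sub_neg_eq_add,
        mul_assoc, smul_mul_assoc, smul_smul]
      congr 2
      rw [neg_div, div_eq_inv_mul, neg_mul]
    rw [Finset.sum_congr rfl fun i _ => h2 i, Finset.sum_add_distrib, ← Finset.smul_sum,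
      ← Finset.sum_mul, hdual v hv, ← Finset.mul_sum, h, h1, neg_mul, smul_mul_assoc, smul_neg,
      neg_smul, neg_neg, smul_smul, inv_mul_cancel₀ hr0, one_smul, mul_smul_comm]
    push_cast
    rw [add_smul, one_smul, add_comm]

/-- **The frame formula.** -/
theorem frame : ∀ (L : ℕ) (x : W.coh X), x ∈ W.gr X L →
    ((L.factorial : ℂ) * psi W X ξ Lam D.slm.internal 1 1) • x
      = (-1 : ℂ) ^ L • ∑ w : Fin L → ι,
        psi W X ξ Lam D.slm.internal (List.ofFn fun l => e' (w l)).prod x
          • (List.ofFn fun l => e (w l)).prod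
  | 0, x, hx => by
    obtain ⟨c, rfl⟩ := zero_gr hW hX hA hξ hx
    rw [Nat.factorial_zero, Nat.cast_one, one_mul, pow_zero, one_smul, Fintype.sum_unique,
      List.ofFn_zero, List.ofFn_zero, List.prod_nil, psi_smul_right, smul_smul, mul_comm]
  | L + 1, x, hx => by
    have h1 := number hW hX hA hξ D he he' hdual (L + 1) x hx
    have hgr : ∀ w : Fin L → ι, (List.ofFn fun l => e' (w l)).prod ∈ W.gr X L := by
      intro w
      have : ∀ (L : ℕ) (w : Fin L → ι), (List.ofFn fun l => e' (w l)).prod ∈ W.gr X L := by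
        intro L
        induction L with
        | zero =>
          intro w
          rw [List.ofFn_zero, List.prod_nil]
          exact hW.one_gr hX
        | succ L ih =>
          intro w
          rw [List.ofFn_succ, List.prod_cons]
          have h := hW.mul_gr hX (he' (w 0)) (ih fun l => w l.succ)
          have h5 : ∀ {a b : ℕ} {z : W.coh X}, a = b → z ∈ W.gr X a → z ∈ W.gr X b := by
            rintro a _ z rfl h
            exact h
          exact h5 (add_comm 1 L) h
      exact this L w
    have h2 : ∀ i, ((L.factorial : ℂ) * psi W X ξ Lam D.slm.internal 1 1)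
          • (e i * io Lam (e' i) x)
        = (-1 : ℂ) ^ (L + 1) • ∑ w : Fin L → ι,
          psi W X ξ Lam D.slm.internal (List.ofFn fun l =>
            e' ((Fin.cons i w : Fin (L + 1) → ι) l)).prod x
            • (List.ofFn fun l => e ((Fin.cons i w : Fin (L + 1) → ι) l)).prod := by
      intro i
      rw [← mul_smul_comm, frame L _ (io_gr hW hX hA hξ D (he' i) hx), mul_smul_comm,
        Finset.mul_sum, pow_succ, mul_neg_one, neg_smul, ← smul_neg, ← Finset.sum_neg_distrib]
      congr 1
      refine Finset.sum_congr rfl fun w _ => ?_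
      rw [List.ofFn_succ, List.ofFn_succ, List.prod_cons, List.prod_cons]
      simp only [Fin.cons_zero, Fin.cons_succ]
      rw [psi_mu hW hX hA hξ D (he' i) (hgr w) hx, neg_smul, neg_neg, mul_smul_comm]
    have h3 : (((L + 1).factorial : ℂ) * psi W X ξ Lam D.slm.internal 1 1) • x
        = ((L.factorial : ℂ) * psi W X ξ Lam D.slm.internal 1 1)
          • ∑ i, e i * io Lam (e' i) x := by
      rw [h1, smul_smul, Nat.factorial_succ]
      congr 1
      push_cast
      ring
    rw [h3, Finset.smul_sum, Finset.sum_congr rfl fun i _ => h2 i, ← Finset.smul_sum]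
    congr 1
    rw [← (Fin.consEquiv fun _ : Fin (L + 1) => ι).sum_comp, Fintype.sum_prod_type]
    rfl

/-- The frame formula for `ψ`. -/
theorem psi_frame (L : ℕ) {x : W.coh X} (hx : x ∈ W.gr X L) (y : W.coh X) :
    (L.factorial : ℂ) * psi W X ξ Lam D.slm.internal 1 1 * psi W X ξ Lam D.slm.internal x y
      = (-1 : ℂ) ^ L * ∑ w : Fin L → ι,
        psi W X ξ Lam D.slm.internal (List.ofFn fun l => e' (w l)).prod x
          * psi W X ξ Lam D.slm.internal (List.ofFn fun l => e (w l)).prod y := by
  have h1 := frame hW hX hA hξ D he he' hdual L x hx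
  have h2 := congrArg (fun z => psi W X ξ Lam D.slm.internal z y) h1
  have h3 : ∀ (c : ℂ) (f : (Fin L → ι) → ℂ) (z : (Fin L → ι) → W.coh X),
      psi W X ξ Lam D.slm.internal (c • ∑ w, f w • z w) y
        = c * ∑ w, f w * psi W X ξ Lam D.slm.internal (z w) y := by
    intro c f z
    rw [psi, smul_mul_assoc, map_smul, smul_eq_mul, Finset.sum_mul, map_sum]
    congr 1
    refine Finset.sum_congr rfl fun w _ => ?_
    rw [smul_mul_assoc, map_smul, smul_eq_mul, psi]
  have h4 : psi W X ξ Lam D.slm.internal (((L.factorial : ℂ)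
      * psi W X ξ Lam D.slm.internal 1 1) • x) y
      = (L.factorial : ℂ) * psi W X ξ Lam D.slm.internal 1 1
        * psi W X ξ Lam D.slm.internal x y := psi_smul_left _ _ _ _
  rw [← h4, ← h3]
  exact h2

end main

end EndFr

end Pool.Agent.Lib.MP_361a6f_ag.FL
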