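import Pool.Agent.Lib.MP_361a6f_ag.FL.E.Tate
import Pool.Agent.Lib.MP_361a6f_ag.FL.PT.Frm

/-!
# Codimension two: the diagonal matrices are real combinations of pull-backs by endomorphisms
-/

open CategoryTheory AlgebraicGeometry MonoidalCategory CartesianMonoidalCategory

universe u v u' w w'

set_option autoImplicit false
set_option linter.unusedSectionVars false

namespace Pool.Agent.Lib.MP_361a6f_ag.FL.PT

open Pool.Agent.Lib.MP_361a6f_ag.FL.E
open Pool.Agent.Lib.MP_361a6f_ag.H3 Pool.Agent.Lib.MP_361a6f_ag.SQ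
  Pool.Agent.Lib.MP_361a6f_ag.PP

noncomputable section

variable {k : Type u} [Field k] {W : CohomologyData.{u, 0, w} k ℂ} {𝒱 : VarietyClass k}
  (H : Host W 𝒱 1)

/-- the star operator on `H^1` -/
theorem star_gr1 (hW : IsWeilCohomology W 𝒱) {X : Sch k} {g : ℕ} (hX : 𝒱.mem X g) {ξ : W.coh X}
    {Lam : Module.End ℂ (W.coh X)} (D : LamData W X g ξ Lam)
    (hg : 1 ≤ g) {w : W.coh X} (hw : w ∈ W.gr X 1) :
    star D.slm.internal (Lop W X ξ) Lam w
      = (-((g - 1).factorial : ℂ)⁻¹) • (ξ ^ (g - 1) * w) := by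
  have hΛ : Lam w = 0 := D.slm.Λ_low 1 w (by norm_num) hw
  have hs : PP.sgn 1 = -1 := by norm_num [PP.sgn]
  rw [PP.star, Module.End.mul_apply, gop_apply _ _ hw, map_smul,
    (wey D.slm).2.2.2.2 1 w hg hw hΛ, smul_smul, PSI.Lop_pow hW hX, hs, neg_one_mul]

/-- the dimension is positive if there is a letter of degree one -/
theorem one_le (i : Sub H.D (0, 1)) : 1 ≤ H.n 0 := by
  by_contra hg
  have hgr : H.e 0 (i : H.I) ∈ W.gr (H.X 0) 1 := by
    have h := H.e_gr 0 (i : H.I)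
    rwa [i.2] at h
  have h1 : H.e 0 (i : H.I) = 0 := H.hW.top_gr (H.mem 0) hgr (by omega)
  have h2 := H.e_psi 0 i (H.D.τ i) (by rw [i.2]) (by rw [H.D.typ_τ, i.2])
  rw [if_pos rfl, h1, psi, zero_mul, map_zero] at h2
  rcases H.D.s_val i with h | h <;> rw [h] at h2 <;> norm_num at h2

/-- **The operator on `H^1` of an algebraic tensor of length `2` is an algebraic
correspondence.** -/
theorem exists_cor {m : Ten (Sub H.D (0, 1)) 2} (hm : At1 H 2 m) :
    ∃ z ∈ W.alg (H.X 0 ⊗ H.X 0) (H.n 0), ∀ c,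
      cor W z (vec1 H c) = vec1 H ((opM (subD H.D (0, 1)) m).mulVec c) := by
  by_cases hE : Nonempty (Sub H.D (0, 1))
  swap
  · refine ⟨0, zero_mem _, fun c => ?_⟩
    have h1 : ∀ c, vec1 H c = 0 := fun c => by
      rw [vec1_apply]
      refine Finset.sum_eq_zero fun j _ => ?_
      exact absurd ⟨j⟩ hE
    rw [h1, h1, map_zero]
  obtain ⟨i0⟩ := hE
  have hg : 1 ≤ H.n 0 := one_le H i0
  have hX := H.mem 0
  have hXX := 𝒱.prod hX hX
  have hS := aSys_sub (α := ((0, 1) : Fin 1 × ℕ)) (aSys_at (at_ H))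
  -- the transposed tensor
  have hu : At1 H 2 (permT (Equiv.swap 0 1) m) := hS.perm 2 _ m hm
  let T2 : W.coh (H.X 0 ⊗ H.X 0) →ₗ[ℂ] Ten H.I 2 := H.tc (.prod (.leaf 0) (.leaf 0))
  obtain ⟨z, hz, hzu⟩ : ∃ z : W.coh (H.X 0 ⊗ H.X 0), z ∈ W.alg (H.X 0 ⊗ H.X 0) 1 ∧
      T2 z = ext0 H.D (0, 1) (permT (Equiv.swap 0 1) m) :=
    PosL.at_word H (gr ge H) (ge H) (.prod (.leaf 0) (.leaf 0))
      (fun _ => (0, 1)) (fun j => Subsingleton.elim _ _) 1
      (Fin.sum_univ_two (fun _ : Fin 2 => ((0, 1) : Fin 1 × ℕ).2)) hu (fun w hw => ext0_off _ hw)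
  have hexp : z = ∑ w : Fin 2 → H.I, T2 z w • (W.pull (fst (H.X 0) (H.X 0)) (H.e 0 (w 0)) *
      W.pull (snd (H.X 0) (H.X 0)) (H.e 0 (w 1))) :=
    (ge H).expand (.prod (.leaf 0) (.leaf 0)) z
  obtain ⟨q, hq⟩ : ∃ q : ℚ, (q : ℂ) = -((H.n 0 - 1).factorial : ℂ)⁻¹ :=
    ⟨-((H.n 0 - 1).factorial : ℚ)⁻¹, by push_cast; rfl⟩
  have hzξ : W.pull (fst (H.X 0) (H.X 0)) (H.ξ 0 ^ (H.n 0 - 1)) * z
      ∈ W.alg (H.X 0 ⊗ H.X 0) (H.n 0) := by
    have h1 := H.hW.mul_alg hXX (H.hW.pull_alg hXX hX (fst (H.X 0) (H.X 0))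
      (H.hW.pow_alg hX (H.ξ_alg 0) (H.n 0 - 1))) hz
    have h2 : H.n 0 - 1 + 1 = H.n 0 := by omega
    rwa [h2] at h1
  refine ⟨(q : ℂ) • (W.pull (fst (H.X 0) (H.X 0)) (H.ξ 0 ^ (H.n 0 - 1)) * z),
    H3.CohomologyData.alg_smul q hzξ, ?_⟩
  -- the operator on the letters of degree one
  have hgr : ∀ j : H.I, H.D.typ j = (0, 1) → H.e 0 j ∈ W.gr (H.X 0) 1 := by
    intro j hj
    have h := H.e_gr 0 j
    rwa [hj] at h
  have hon : ∀ w : Fin 2 → H.I, ¬ On H.D (0, 1) w → T2 z w = 0 := fun w hw => by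
    rw [hzu]
    exact ext0_off _ hw
  have hcor : ∀ j : Sub H.D (0, 1), cor W ((q : ℂ) •
      (W.pull (fst (H.X 0) (H.X 0)) (H.ξ 0 ^ (H.n 0 - 1)) * z)) (H.e 0 (j : H.I))
      = ∑ w : Fin 2 → H.I, (T2 z w * (if w 0 = H.D.τ j then H.D.s j else 0)) • H.e 0 (w 1) := by
    intro j
    conv_lhs => rw [hexp]
    rw [cor_smul, LinearMap.smul_apply, Finset.mul_sum, cor_apply, Finset.mul_sum, map_sum,
      Finset.smul_sum]
    refine Finset.sum_congr rfl fun w _ => ?_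
    by_cases hw : On H.D (0, 1) w
    · have e1 : W.pull (fst (H.X 0) (H.X 0)) (H.e 0 (j : H.I)) *
          (W.pull (fst (H.X 0) (H.X 0)) (H.ξ 0 ^ (H.n 0 - 1)) *
            (T2 z w • (W.pull (fst (H.X 0) (H.X 0)) (H.e 0 (w 0)) *
              W.pull (snd (H.X 0) (H.X 0)) (H.e 0 (w 1)))))
          = T2 z w • (W.pull (fst (H.X 0) (H.X 0)) (H.e 0 (j : H.I)) *
            (W.pull (fst (H.X 0) (H.X 0)) (H.ξ 0 ^ (H.n 0 - 1) * H.e 0 (w 0)) *
              W.pull (snd (H.X 0) (H.X 0)) (H.e 0 (w 1)))) := by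
        rw [mul_smul_comm, mul_smul_comm, map_mul, mul_assoc (W.pull _ (H.ξ 0 ^ (H.n 0 - 1)))]
      have e2 := cor_ext H.hW hX hX (H.ξ 0 ^ (H.n 0 - 1) * H.e 0 (w 0)) (H.e 0 (w 1))
        (H.e 0 (j : H.I))
      rw [cor_apply] at e2
      rw [e1, map_smul, e2, smul_smul, smul_smul]
      congr 1
      have e3 := H.e_psi 0 j (w 0) (by rw [j.2]) (by rw [hw 0])
      rw [psi, star_gr1 H.hW hX (H.lam 0) hg (hgr _ (hw 0)), mul_smul_comm, map_smul,
        smul_eq_mul, ← hq] at e3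
      rw [← e3]
      ring
    · rw [hon w hw, zero_mul, zero_smul, zero_smul, mul_zero, mul_zero, map_zero, smul_zero]
  refine fun c => op_vec1 H ?_ ?_ c
  · intro y hy
    rw [cor_apply]
    refine MotZ.push_gr H.hW hXX hX _ (i := 1 + 2 * H.n 0) (by ring) ?_
    exact H.hW.mul_gr hXX (H.hW.pull_gr hXX hX _ hy)
      (H.hW.alg_gr hXX (H3.CohomologyData.alg_smul q hzξ))
  · intro i j
    rw [hcor, map_sum, Finset.sum_apply, Finset.sum_eq_single ![H.D.τ j, (i : H.I)]]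
    · rw [map_smul, Pi.smul_apply, smul_eq_mul]
      have h1 : (tcl H) (H.e 0 ((![H.D.τ j, (i : H.I)] : Fin 2 → H.I) 1)) (fun _ => (i : H.I))
          = 1 := by
        exact (tc1_e H _ (fun _ => (i : H.I)) (tcl H) rfl).trans (if_pos rfl)
      rw [h1, mul_one]
      have h2 : (![H.D.τ j, (i : H.I)] : Fin 2 → H.I) 0 = H.D.τ j := rfl
      rw [h2, if_pos rfl, hzu]
      have h3 : ext0 H.D (0, 1) (permT (Equiv.swap 0 1) m)
          (up ![(subD H.D (0, 1)).τ j, i]) = permT (Equiv.swap 0 1) m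
            ![(subD H.D (0, 1)).τ j, i] := ext0_up _ _
      have h4 : (up ![(subD H.D (0, 1)).τ j, i] : Fin 2 → H.I) = ![H.D.τ j, (i : H.I)] := by
        funext l
        fin_cases l
        · rfl
        · rfl
      rw [h4] at h3
      rw [h3]
      show m (![(subD H.D (0, 1)).τ j, i] ∘ (Equiv.swap (0 : Fin 2) 1)) * H.D.s j
        = m ![i, (subD H.D (0, 1)).τ j] * (subD H.D (0, 1)).s j
      congr 2
      funext l
      fin_cases l
      · rfl
      · rfl
    · intro w _ hw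
      rw [map_smul, Pi.smul_apply, smul_eq_mul]
      by_cases h0 : w 0 = H.D.τ j
      · have h1 : (tcl H) (H.e 0 (w 1)) (fun _ => (i : H.I)) = 0 := by
          refine (tc1_e H _ (fun _ => (i : H.I)) (tcl H) rfl).trans ?_
          rw [if_neg]
          intro h2
          apply hw
          funext l
          fin_cases l
          · exact h0
          · exact h2.symm
        rw [h1, mul_zero]
      · rw [if_neg h0, mul_zero, zero_mul]
    · intro h
      exact absurd (Finset.mem_univ _) h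

/-- **The real combinations of algebraic tensors of length two act on `H^1` as real combinations
of pull-backs by endomorphisms.** -/
theorem span_endo {J : Type} (f : J → Sub H.D (0, 1) → ℂ)
    (hE : ∀ z ∈ W.alg (H.X 0 ⊗ H.X 0) (H.n 0), ∃ (n : ℕ) (h : H.X 0 ⟶ H.X 0), 0 < n ∧
      ∀ x ∈ W.gr (H.X 0) 1, W.pull h x = (n : ℂ) • cor W z x)
    {m : Ten (Sub H.D (0, 1)) 2} (hm : m ∈ Submodule.span ℝ {u | At1 H 2 u}) :
    (fun j => vec1 H ((opM (subD H.D (0, 1)) m).mulVec (f j))) ∈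
      Submodule.span ℝ {y : J → W.coh (H.X 0) | ∃ h : H.X 0 ⟶ H.X 0,
        ∀ j, y j = W.pull h (vec1 H (f j))} := by
  induction hm using Submodule.span_induction with
  | mem m hm =>
    obtain ⟨z, hz, h1⟩ := exists_cor H hm
    obtain ⟨n, h, hn, h2⟩ := hE z hz
    have hn0 : (n : ℂ) ≠ 0 := by exact_mod_cast hn.ne'
    have h3 : (fun j => vec1 H ((opM (subD H.D (0, 1)) m).mulVec (f j)))
        = (((n : ℝ)⁻¹ : ℝ)) • fun j => W.pull h (vec1 H (f j)) := by
      funext j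
      rw [Pi.smul_apply, ← h1, h2 _ (vec1_gr H _), ← Complex.coe_smul, smul_smul]
      push_cast
      rw [inv_mul_cancel₀ hn0, one_smul]
    rw [h3]
    exact Submodule.smul_mem _ _ (Submodule.subset_span ⟨h, fun j => rfl⟩)
  | zero =>
    have h3 : (fun j => vec1 H ((opM (subD H.D (0, 1)) (0 : Ten (Sub H.D (0, 1)) 2)).mulVec (f j)))
        = 0 := by
      funext j
      rw [QS.opM_zero, Matrix.zero_mulVec, map_zero, Pi.zero_apply]
    rw [h3]
    exact zero_mem _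
  | add a b _ _ ha hb =>
    have h3 : (fun j => vec1 H ((opM (subD H.D (0, 1)) (a + b)).mulVec (f j)))
        = (fun j => vec1 H ((opM (subD H.D (0, 1)) a).mulVec (f j)))
          + fun j => vec1 H ((opM (subD H.D (0, 1)) b).mulVec (f j)) := by
      funext j
      rw [QS.opM_add, Matrix.add_mulVec, map_add]
      rfl
    rw [h3]
    exact add_mem ha hb
  | smul c a _ ha =>
    have h3 : (fun j => vec1 H ((opM (subD H.D (0, 1)) (c • a)).mulVec (f j)))
        = c • fun j => vec1 H ((opM (subD H.D (0, 1)) a).mulVec (f j)) := by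
      funext j
      have h4 : (c • a : Ten (Sub H.D (0, 1)) 2) = (c : ℂ) • a := (Complex.coe_smul c a).symm
      rw [h4, QS.opM_smul, Matrix.smul_mulVec, map_smul, Pi.smul_apply, Complex.coe_smul]
    rw [h3]
    exact Submodule.smul_mem _ _ ha

/-- **The diagonal operators in the adapted basis.** -/
theorem diag_endo
    (hE : ∀ z ∈ W.alg (H.X 0 ⊗ H.X 0) (H.n 0), ∃ (n : ℕ) (h : H.X 0 ⟶ H.X 0), 0 < n ∧
      ∀ x ∈ W.gr (H.X 0) 1, W.pull h x = (n : ℂ) • cor W z x)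
    {Y : Matrix (Sub H.D (0, 1)) (Sub H.D (0, 1)) ℂ} (hG : IsG (subD H.D (0, 1)) Y)
    (P : PSys (subD H.D (0, 1)) (fun L u => At1 H L (gT Y u)))
    (z : Sub H.D (0, 1) → ℂ) (hz : ∀ j, z ((subD H.D (0, 1)).τ j) = (starRingEnd ℂ) (z j)) :
    (fun j => z j • vec1 H (fun i => Y i j)) ∈
      Submodule.span ℝ {y : Sub H.D (0, 1) → W.coh (H.X 0) | ∃ h : H.X 0 ⟶ H.X 0,
        ∀ j, y j = W.pull h (vec1 H (fun i => Y i j))} := by
  obtain ⟨hY1, hY2, hY3⟩ := alg1.G_inv (subD H.D (0, 1)) Y hG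
  have h1 := span_endo H (fun j i => Y i j) hE (frame_diag alg1 P.odd hG P hz)
  have h2 : (fun j => z j • vec1 H (fun i => Y i j)) = fun j =>
      vec1 H ((opM (subD H.D (0, 1)) (mten (subD H.D (0, 1))
        (Y * Matrix.diagonal z * Y⁻¹))).mulVec (fun i => Y i j)) := by
    funext j
    rw [QS.opM_mten, ← map_smul]
    congr 1
    have h3 : (fun i => Y i j) = Y.mulVec (Pi.single j 1) := by
      rw [Matrix.mulVec_single_one]
      rfl
    rw [h3, Matrix.mulVec_mulVec, Matrix.mul_assoc (Y * Matrix.diagonal z), hY3, Matrix.mul_one,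
      ← Matrix.mulVec_mulVec]
    have h4 : (Matrix.diagonal z).mulVec (Pi.single j 1) = z j • (Pi.single j 1) := by
      funext i
      rw [Matrix.mulVec_diagonal, Pi.smul_apply, smul_eq_mul]
      by_cases h : i = j
      · rw [h]
      · rw [Pi.single_eq_of_ne h, mul_zero, mul_zero]
    rw [h4, Matrix.mulVec_smul]
  rw [h2]
  exact h1

end

end Pool.Agent.Lib.MP_361a6f_ag.FL.PT
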