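import Pool.Agent.Lib.MP_361a6f_ag.FL.PT.Odd
import Pool.Agent.Lib.MP_361a6f_ag.FL.A.Cmp2
import Pool.Agent.Lib.MP_361a6f_ag.FL.B.HopF

/-!
# Tensor products of Hodge-Riemann structures
-/

open CategoryTheory AlgebraicGeometry MonoidalCategory CartesianMonoidalCategory
open Filter Topology

universe u v w

set_option autoImplicit false

namespace Pool.Agent.Lib.MP_361a6f_ag.FL

open Pool.Agent.Lib.MP_361a6f_ag.H3 Pool.Agent.Lib.MP_361a6f_ag.SQ
  Pool.Agent.Lib.MP_361a6f_ag.IP2 Pool.Agent.Lib.MP_361a6f_ag.PP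

namespace PTG

/-- The tensor products of Hodge-Riemann structures on the factors. -/
theorem exists_hrSys {k : Type u} [Field k] {W : CohomologyData.{u, 0, w} k ℂ}
    {𝒱 : VarietyClass k} (hW : IsWeilCohomology W 𝒱) {m : ℕ} {X : Fin m → Sch k} {n : Fin m → ℕ}
    (hX : ∀ a, 𝒱.mem (X a) (n a)) {ξ : ∀ a, W.coh (X a)}
    (hpos : ∀ a, PositiveDivisor W (X a) (n a) (ξ a))
    (hHL : ∀ a, HardLefschetz W (X a) (n a) (ξ a)) (hAL : ∀ a, AlgebraicLambda W (X a) (n a) (ξ a))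
    (j : ∀ a, W.coh (X a) →ₛₗ[starRingEnd ℂ] W.coh (X a))
    (hj : ∀ a, HRStr W (X a) (n a) (ξ a) (j a)) :
    ∃ J : ∀ P : Prd m, W.coh (P.obj X) →ₛₗ[starRingEnd ℂ] W.coh (P.obj X),
      HRSys W X n ξ J := by
  choose Lam D using fun a => lam hW (hX a) (hpos a).1 (hHL a) (hAL a)
  have hrs : ∀ a, IsRS W (X a) (n a) (ξ a) (Lam a) (j a) := fun a =>
    hri hW (hX a) (hpos a) (D a) (j a) (hj a)
  obtain ⟨I, fin, dec, Dt, e, h1, h2, h3, h4, h5, h6⟩ := gbj hW hX (fun a => (hpos a).1) D j hrs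
  let H : Host W 𝒱 m :=
    { hW := hW, X := X, n := n, mem := hX, ξ := ξ, ξ_alg := fun a => (hpos a).1, Lam := Lam,
      lam := D, I := I, fin := fin, dec := dec, D := Dt, odd_iff := h1, e := e, e_ne := h2,
      e_gr := h3, e_psi := h4, e_span := h5 }
  have hleaf : ∀ a, CMP.j0 H alg1 a = j a := by
    intro a
    ext z
    rw [CMP.tcA_expand H (ge H) z, map_sum, map_sum]
    refine Finset.sum_congr rfl fun w _ => ?_
    rw [LinearMap.map_smulₛₗ, LinearMap.map_smulₛₗ]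
    by_cases hw : (H.D.typ (w 0)).1 = a
    · congr 1
      exact (CMP.j0_e H alg1 (ge H) (w 0) hw).trans (h6 a (w 0) hw).symm
    · rw [CMP.tcA_off H (ge H) z w hw, map_zero, zero_smul, zero_smul]
  refine ⟨fun P => GJ.J H alg1 1 P, fun a => ?_, fun P Q y x =>
    GJ.J_prod H alg1 alg2 (alg1.G_one H.D) (ge H) P Q y x⟩
  have h := hleaf a
  change HRStr W (X a) (n a) (ξ a) (CMP.j0 H alg1 a)
  rw [h]
  exact hj a

end PTG

end Pool.Agent.Lib.MP_361a6f_ag.FL
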