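import Pool.Agent.Lib.MP_361a6f_ag.FL.PT.Semi

/-!
# Theorem Z with one more clause: odd classes and semidefinite forms
-/

open CategoryTheory AlgebraicGeometry MonoidalCategory CartesianMonoidalCategory
open Filter Topology

universe u v w

set_option autoImplicit false

namespace Pool.Agent.Lib.MP_361a6f_ag.FL

open Pool.Agent.Lib.MP_361a6f_ag.H3 Pool.Agent.Lib.MP_361a6f_ag.SQ
  Pool.Agent.Lib.MP_361a6f_ag.IP2 Pool.Agent.Lib.MP_361a6f_ag.PP

namespace PTG

/-- There is a parity on the real algebraic classes on the products such that all odd classes of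
codimension `l` on `P` are numerically trivial as soon as Grothendieck's form is nonnegative on the
primitive algebraic classes of codimension at most `l` on `P`. -/
theorem parity_semi {k : Type u} [Field k] (W : CohomologyData.{u, 0, w} k ℂ)
    (𝒱 : VarietyClass k) (hW : IsWeilCohomology W 𝒱) {m : ℕ} {X : Fin m → Sch k} {n : Fin m → ℕ}
    (hX : ∀ a, 𝒱.mem (X a) (n a)) {ξ : ∀ a, W.coh (X a)}
    (hpos : ∀ a, PositiveDivisor W (X a) (n a) (ξ a))
    (hHL : ∀ a, HardLefschetz W (X a) (n a) (ξ a)) (hAL : ∀ a, AlgebraicLambda W (X a) (n a) (ξ a))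
    (J : ∀ P : Prd m, W.coh (P.obj X) →ₛₗ[starRingEnd ℂ] W.coh (P.obj X))
    (hJJ : HRSys W X n ξ J) :
    ∃ C : ZMod 2 → ∀ P : Prd m, ℕ → W.coh (P.obj X) → Prop,
      Grading W X n C ∧ Parity W X n ξ J C ∧
        ∀ P l, (∀ i ≤ l, SemiCodim W (P.obj X) (P.dim n) (P.pol W ξ) i) → ∀ z, C 1 P l z →
          IsNumR W (P.obj X) l z := by
  have hJ := hJJ.leaf
  have hprod := hJJ.prod
  choose Lam D using fun a => lam hW (hX a) (hpos a).1 (hHL a) (hAL a)
  have hrs : ∀ a, IsRS W (X a) (n a) (ξ a) (Lam a) (J (.leaf a)) := fun a =>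
    hri hW (hX a) (hpos a) (D a) (J (.leaf a)) (hJ a)
  obtain ⟨I, fin, dec, Dt, e, h1, h2, h3, h4, h5, h6⟩ := gbj hW hX (fun a => (hpos a).1) D
    (fun a => J (.leaf a)) hrs
  let H : Host W 𝒱 m :=
    { hW := hW, X := X, n := n, mem := hX, ξ := ξ, ξ_alg := fun a => (hpos a).1, Lam := Lam,
      lam := D, I := I, fin := fin, dec := dec, D := Dt, odd_iff := h1, e := e, e_ne := h2,
      e_gr := h3, e_psi := h4, e_span := h5 }
  have hA : H.Adp J := ⟨hJ, hprod, h6⟩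
  have hF : H.J0Facts J := jh H J hA hrs
  have hC : ZConc H.D (fun L u => u ∈ H.At L) fun _ => True := zinf (aSys_at (at_ H))
  obtain ⟨F, hN, g, y, hg, hy, hfix, hlim⟩ := hC
  obtain ⟨hOA, hOK, hKJ, hZ⟩ := ZFit.zfit' H staB alg1 alg2 (gr ge H) (ge H) hF hg hy hfix hlim
  have par : ∀ (P : Prd m) (z : W.coh (P.obj H.X)), z ∈ tot W (P.obj H.X) →
      jT H.D (jT H.D (H.tc P z)) = H.tc P z := fun P z hz =>
    (at_ H).par P.size (H.tc P z) (AddSubgroup.subset_closure (Or.inr ⟨P, rfl, z, hz, rfl⟩))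
  obtain ⟨hG, hP⟩ := ParZ.parity H (ge H) hF (fun j => ⟨g j, hOA j⟩) ⟨y, hOK⟩ hKJ
    (fun P => hZ P trivial) hA alg1 par sl2 staB mainRsp (rsc staB) (rsq sl2 staB)
  refine ⟨_, hG, hP, fun P l hs z hz => ?_⟩
  have hzz := hz
  obtain ⟨⟨-, s, a1, -, -⟩, hz'⟩ := hz
  rw [isNumR_iff, ZNum.num_iff H (ge H) hF (fun j => ⟨g j, hOA j⟩) (hZ P trivial) hz' a1]
  by_contra h0
  obtain ⟨q, hq, h7⟩ := ZE.CZ_psi H (ge H) hF (fun j => ⟨g j, hOA j⟩) hzz a1 h0
  obtain ⟨r, hr, h8⟩ := semi_psi H sl2 staB P hs hz'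
  rw [h8, show (1 : ZMod 2).val = 1 from rfl, pow_one, neg_one_mul] at h7
  have h9 : r = -q := by exact_mod_cast h7
  linarith

end PTG

end Pool.Agent.Lib.MP_361a6f_ag.FL
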