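import Pool.Agent.Lib.MP_361a6f_ag.FL.B.PosL
import Pool.Agent.Lib.MP_361a6f_ag.FL.GPosA
import Pool.Agent.Lib.MP_361a6f_ag.FL.Z.MainZ

/-!
# Semidefinite forms on algebraic classes and the odd classes

If Grothendieck's form is nonnegative on the primitive algebraic classes of codimension at most `l`
on `P`, then all odd classes of codimension `l` on `P` are numerically trivial.
-/

open CategoryTheory AlgebraicGeometry MonoidalCategory CartesianMonoidalCategory
open Filter Topology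

universe u v w

set_option autoImplicit false
set_option linter.unusedSectionVars false

namespace Pool.Agent.Lib.MP_361a6f_ag.FL

open Pool.Agent.Lib.MP_361a6f_ag.H3 Pool.Agent.Lib.MP_361a6f_ag.SQ
  Pool.Agent.Lib.MP_361a6f_ag.IP2 Pool.Agent.Lib.MP_361a6f_ag.PP

namespace PTG

open PSI

/-- Grothendieck's form is nonnegative on the primitive algebraic classes of codimension `j`. -/
def SemiCodim {k : Type u} [Field k] (W : CohomologyData.{u, 0, w} k ℂ) (Z : Sch k) (e : ℕ)
    (η : W.coh Z) (j : ℕ) : Prop :=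
  2 * j ≤ e → ∀ x, W.IsAlg Z j x → W.cup (η ^ (e - 2 * j + 1)) x = 0 →
    (-1) ^ j * W.Tr (W.cup (η ^ (e - 2 * j)) (W.cup x x)) = 0 ∨
      RatPos ((-1) ^ j * W.Tr (W.cup (η ^ (e - 2 * j)) (W.cup x x)))

section codim

variable {k : Type u} [Field k] {W : CohomologyData.{u, 0, w} k ℂ} {𝒱 : VarietyClass k}
  (hW : IsWeilCohomology W 𝒱) {Z : Sch k} {e : ℕ} (hZ : 𝒱.mem Z e)
include hW hZ

variable {η : W.coh Z} (hη : η ∈ W.alg Z 1) {Lam : Module.End ℂ (W.coh Z)}
  (D : LamData W Z e η Lam) (hS : Sl2Statement.{w}) (hT : StaStatement.{w})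

include hη D hS hT

/-- nonnegativity in the degrees at most `e` -/
theorem semi_low {j : ℕ} (hH : ∀ i ≤ j, SemiCodim W Z e η i) (hj : 2 * j ≤ e) {z : W.coh Z}
    (hz : z ∈ W.alg Z j) :
    psi W Z η Lam D.slm.internal z z = 0 ∨ RatPos (psi W Z η Lam D.slm.internal z z) := by
  classical
  set L := Lop W Z η with hLdef
  obtain ⟨f, hfC, hfg, hf0, hfΛ, hsum⟩ := (hS D.slm).2.2.2.2.2.2 (tot W Z)
    (fun x hx => (AlgOp.mulLeft hW hZ (alg_le_tot hW Z 1 hη)).apply hW hZ hx)
    (fun x hx => D.alg.apply hW hZ hx) (fun q x hx => tot_smul hW hZ q hx) (2 * j) z hj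
    (hW.alg_gr hZ hz) (alg_le_tot hW Z j hz)
  -- the primitive components
  have hfg' : ∀ r, r ≤ j → f r ∈ W.gr Z (2 * (j - r)) := fun r hr => by
    have := hfg r (by omega)
    rwa [show 2 * j - 2 * r = 2 * (j - r) by omega] at this
  have hfa : ∀ r, r ≤ j → f r ∈ W.alg Z (j - r) := fun r hr =>
    tot_alg hW hZ (hfC r) (hfg' r hr)
  have hfz : ∀ r, j < r → f r = 0 := fun r hr => hf0 r (by omega)
  have hprim : ∀ r, r ≤ j → η ^ (e - 2 * (j - r) + 1) * f r = 0 := fun r hr => by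
    have := (hS D.slm).2.2.2.1 (2 * (j - r)) (f r) (by omega) (hfg' r hr) (hfΛ r)
    rwa [Lop_pow hW hZ] at this
  -- the star operator
  have hstar : ∀ s, ∃ q : ℚ, 0 < q ∧ (s ≤ j → star D.slm.internal L Lam ((L ^ s) (f s))
      = ((-1 : ℂ) ^ (j - s) * (q : ℂ)) • (η ^ (e - 2 * (j - s) - s) * f s)) := by
    intro s
    by_cases hs : s ≤ j
    · obtain ⟨q, hq, h1⟩ := star_string hS hT D.slm (i := j - s) (by omega) (hfg' s hs) (hfΛ s) s
        (by omega)
      refine ⟨q, hq, fun _ => ?_⟩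
      rw [h1, Lop_pow hW hZ]
    · exact ⟨1, one_pos, fun h => absurd h hs⟩
  choose q hq hstar using hstar
  have hpair : ∀ r s, psi W Z η Lam D.slm.internal ((L ^ r) (f r)) ((L ^ s) (f s)) =
      if r = s ∧ s ≤ j then (q s : ℂ) * ((-1 : ℂ) ^ (j - s) *
        W.tr Z (η ^ (e - 2 * (j - s)) * (f s * f s))) else 0 := by
    intro r s
    by_cases hr : r ≤ j
    swap
    · rw [hfz r (by omega), psi, map_zero, zero_mul, map_zero, if_neg (by omega)]
    by_cases hs : s ≤ j
    swap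
    · rw [hfz s (by omega), psi, map_zero, map_zero, mul_zero, map_zero, if_neg (by omega)]
    have h1 : psi W Z η Lam D.slm.internal ((L ^ r) (f r)) ((L ^ s) (f s)) =
        ((-1 : ℂ) ^ (j - s) * (q s : ℂ)) *
          W.tr Z (η ^ (r + (e - 2 * (j - s) - s)) * (f r * f s)) := by
      rw [psi, hstar s hs, mul_smul_comm, map_smul, smul_eq_mul, Lop_pow hW hZ]
      congr 2
      rw [pow_add, mul_assoc, mul_assoc, ← mul_assoc (f r),
        hW.alg_comm hZ (hfa r hr) (η ^ (e - 2 * (j - s) - s)), mul_assoc]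
    rw [h1]
    rcases lt_trichotomy r s with h | h | h
    · -- `f r` is killed
      rw [if_neg (by omega)]
      have h2 : η ^ (r + (e - 2 * (j - s) - s)) * (f r * f s) = 0 := by
        have h3 : r + (e - 2 * (j - s) - s) =
            (r + (e - 2 * (j - s) - s) - (e - 2 * (j - r) + 1)) + (e - 2 * (j - r) + 1) := by
          omega
        rw [h3, pow_add, mul_assoc, ← mul_assoc (η ^ (e - 2 * (j - r) + 1)), hprim r hr,
          zero_mul, mul_zero]
      rw [h2, map_zero, mul_zero]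
    · subst h
      rw [if_pos ⟨rfl, hs⟩, show r + (e - 2 * (j - r) - r) = e - 2 * (j - r) by omega]
      ring
    · rw [if_neg (by omega)]
      have h2 : η ^ (r + (e - 2 * (j - s) - s)) * (f r * f s) = 0 := by
        have h3 : r + (e - 2 * (j - s) - s) =
            (r + (e - 2 * (j - s) - s) - (e - 2 * (j - s) + 1)) + (e - 2 * (j - s) + 1) := by
          omega
        rw [hW.alg_comm hZ (hfa r hr) (f s), h3, pow_add, mul_assoc,
          ← mul_assoc (η ^ (e - 2 * (j - s) + 1)), hprim s hs, zero_mul, mul_zero]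
      rw [h2, map_zero, mul_zero]
  have hpsi : psi W Z η Lam D.slm.internal z z = ∑ r ∈ Finset.range (e + 1),
      if r ≤ j then (q r : ℂ) * ((-1 : ℂ) ^ (j - r) *
        W.tr Z (η ^ (e - 2 * (j - r)) * (f r * f r))) else 0 := by
    have h1 : psi W Z η Lam D.slm.internal z z = ∑ r ∈ Finset.range (e + 1),
        ∑ s ∈ Finset.range (e + 1),
          psi W Z η Lam D.slm.internal ((L ^ r) (f r)) ((L ^ s) (f s)) := by
      rw [hsum]
      simp only [psi, map_sum, Finset.sum_mul, Finset.mul_sum]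
      exact Finset.sum_comm
    rw [h1]
    refine Finset.sum_congr rfl fun r hr => ?_
    rw [Finset.sum_eq_single r]
    · rw [hpair]
      simp
    · intro s _ hsr
      rw [hpair, if_neg (fun h => hsr h.1.symm)]
    · intro h
      exact absurd hr h
  rw [hpsi]
  have hterm : ∀ r, r ≤ j → ((q r : ℂ) * ((-1 : ℂ) ^ (j - r) *
        W.tr Z (η ^ (e - 2 * (j - r)) * (f r * f r)))) = 0 ∨ RatPos ((q r : ℂ) *
        ((-1 : ℂ) ^ (j - r) * W.tr Z (η ^ (e - 2 * (j - r)) * (f r * f r)))) := by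
    intro r hr
    rcases hH (j - r) (by omega) (by omega) (f r) (hfa r hr) (hprim r hr) with h | h
    · left
      have h' : ((-1 : ℂ) ^ (j - r) * W.tr Z (η ^ (e - 2 * (j - r)) * (f r * f r))) = 0 := h
      rw [h', mul_zero]
    · right
      exact ratPos_mul ⟨q r, hq r, rfl⟩ h
  have hall : ∀ r ∈ Finset.range (e + 1),
      (if r ≤ j then (q r : ℂ) * ((-1 : ℂ) ^ (j - r) *
        W.tr Z (η ^ (e - 2 * (j - r)) * (f r * f r))) else 0) = 0 ∨
      RatPos (if r ≤ j then (q r : ℂ) * ((-1 : ℂ) ^ (j - r) *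
        W.tr Z (η ^ (e - 2 * (j - r)) * (f r * f r))) else 0) := by
    intro r _
    by_cases hr : r ≤ j
    · rw [if_pos hr]
      exact hterm r hr
    · left
      rw [if_neg hr]
  rcases ratPos_sum (Finset.range (e + 1)) _ hall with h | h
  · exact Or.inl h.1
  · exact Or.inr h

/-- nonnegativity in one degree -/
theorem semi_hom {j : ℕ} (hH : ∀ i ≤ j, SemiCodim W Z e η i) {z : W.coh Z}
    (hz : z ∈ W.alg Z j) :
    psi W Z η Lam D.slm.internal z z = 0 ∨ RatPos (psi W Z η Lam D.slm.internal z z) := by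
  by_cases hj : 2 * j ≤ e
  · exact semi_low hW hZ hη D hS hT hH hj hz
  by_cases hje : j ≤ e
  swap
  · left
    rw [hW.top_gr hZ (hW.alg_gr hZ hz) (by omega), psi, map_zero, mul_zero, map_zero]
  set y := star D.slm.internal (Lop W Z η) Lam z with hy
  have hzz : star D.slm.internal (Lop W Z η) Lam y = z := (hT D.slm).2.1 z
  have hyg : y ∈ W.gr Z (2 * (e - j)) := by
    have := (hT D.slm).1 (2 * j) z (by omega) (hW.alg_gr hZ hz)
    rwa [show 2 * e - 2 * j = 2 * (e - j) by omega] at this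
  have hya : y ∈ W.alg Z (e - j) :=
    tot_alg hW hZ (star_tot hW hZ hη D (alg_le_tot hW Z j hz) (hW.alg_gr hZ hz)) hyg
  have h1 := semi_low hW hZ hη D hS hT (j := e - j) (fun i hi => hH i (by omega)) (by omega) hya
  have h2 : psi W Z η Lam D.slm.internal z z = psi W Z η Lam D.slm.internal y y := by
    rw [psi, psi, hzz, ← hy, hW.alg_comm hZ hya]
  rw [h2]
  exact h1

end codim

/-- a rational form that is nonnegative on a rational space is nonnegative on its real span -/
theorem semi_span {V : Type*} [AddCommGroup V] [Module ℝ V] (B : V →ₗ[ℝ] V →ₗ[ℝ] ℂ)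
    (E : AddSubgroup V) (hq : ∀ (q : ℚ), ∀ x ∈ E, (q : ℝ) • x ∈ E)
    (hrat : ∀ x ∈ E, ∀ y ∈ E, ∃ q : ℚ, B x y = (q : ℂ))
    (hpos : ∀ x ∈ E, B x x = 0 ∨ RatPos (B x x)) {u : V}
    (hu : u ∈ Submodule.span ℝ (E : Set V)) : ∃ r : ℝ, 0 ≤ r ∧ B u u = (r : ℂ) := by
  obtain ⟨N, c, z, rfl⟩ := Submodule.mem_span_set'.1 hu
  choose q hq' using fun i j => hrat (z i : V) (z i).2 (z j : V) (z j).2
  let f : (Fin N → ℝ) → ℝ := fun c => ∑ i, ∑ j, c i * (c j * (q j i : ℝ))
  have hB : ∀ c : Fin N → ℝ, B (∑ i, c i • (z i : V)) (∑ i, c i • (z i : V)) = (f c : ℂ) := by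
    intro c
    simp only [map_sum, LinearMap.sum_apply, map_smul, LinearMap.smul_apply, f,
      Finset.smul_sum, hq', Complex.real_smul]
    push_cast
    rfl
  have hf : Continuous f := by
    refine continuous_finset_sum _ fun i _ => continuous_finset_sum _ fun j _ => ?_
    exact (continuous_apply i).mul ((continuous_apply j).mul continuous_const)
  refine ⟨f c, ?_, hB c⟩
  have hd : DenseRange (Pi.map fun (_ : Fin N) (x : ℚ) => (x : ℝ)) :=
    DenseRange.piMap fun _ => Rat.denseRange_cast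
  refine hd.induction_on (p := fun c => 0 ≤ f c) c (isClosed_Ici.preimage hf) fun r => ?_
  have hE : (∑ i, (Pi.map (fun (_ : Fin N) (x : ℚ) => (x : ℝ)) r) i • (z i : V)) ∈ E :=
    sum_mem fun i _ => hq (r i) _ (z i).2
  have h := hB (Pi.map (fun (_ : Fin N) (x : ℚ) => (x : ℝ)) r)
  rcases hpos _ hE with h0 | ⟨t, ht, h0⟩
  · rw [h] at h0
    have h1 : f (Pi.map (fun (_ : Fin N) (x : ℚ) => (x : ℝ)) r) = 0 := by exact_mod_cast h0
    exact h1.ge
  · rw [h] at h0
    have h1 : f (Pi.map (fun (_ : Fin N) (x : ℚ) => (x : ℝ)) r) = (t : ℝ) := by exact_mod_cast h0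
    rw [h1]
    exact_mod_cast ht.le

section host

variable {k : Type u} [Field k] {m : ℕ} {W : CohomologyData.{u, 0, w} k ℂ} {𝒱 : VarietyClass k}
  (H : Host W 𝒱 m)

/-- the form `ψ` on `H^*(P)` as a real bilinear map -/
noncomputable def psiPR (P : Prd m) : W.coh (P.obj H.X) →ₗ[ℝ] W.coh (P.obj H.X) →ₗ[ℝ] ℂ :=
  LinearMap.mk₂ ℝ (fun x y => H.psiP P x y)
    (fun x x' y => Ge.psiP_add_left H P x x' y)
    (fun c x y => (Ge.psiP_smul_left H P (c : ℂ) x y).trans Complex.real_smul.symm)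
    (fun x y y' => Ge.psiP_add_right H P x y y')
    (fun c x y => (Ge.psiP_smul_right H P (c : ℂ) x y).trans Complex.real_smul.symm)

/-- `ψ` is nonnegative on the real span of the algebraic classes of codimension `l`. -/
theorem semi_psi (hS : Sl2Statement.{w}) (hT : StaStatement.{w}) (P : Prd m) {l : ℕ}
    (hH : ∀ i ≤ l, SemiCodim W (P.obj H.X) (P.dim H.n) (P.pol W H.ξ) i)
    {z : W.coh (P.obj H.X)} (hz : z ∈ algR W (P.obj H.X) l) :
    ∃ r : ℝ, 0 ≤ r ∧ H.psiP P z z = (r : ℂ) := by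
  let E : AddSubgroup (W.coh (P.obj H.X)) :=
    { carrier := {x | x ∈ W.alg (P.obj H.X) l}
      add_mem' := fun {a b} ha hb => show a + b ∈ W.alg (P.obj H.X) l from add_mem ha hb
      zero_mem' := show (0 : W.coh (P.obj H.X)) ∈ W.alg (P.obj H.X) l from zero_mem _
      neg_mem' := fun {a} ha => show -a ∈ W.alg (P.obj H.X) l from neg_mem ha }
  refine semi_span (psiPR H P) E ?_ ?_ ?_ hz
  · intro q x hx
    have h := CohomologyData.alg_smul q (show x ∈ W.alg (P.obj H.X) l from hx)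
    have e : (((q : ℝ) : ℂ)) = (q : ℂ) := by push_cast; rfl
    rw [← e] at h
    exact h
  · intro x hx y hy
    exact SPN.psi_rat H.hW (H.memP P) (H.lamP P).2 (H.lamP P).1
        (alg_le_tot H.hW _ l hx) (alg_le_tot H.hW _ l hy)
  · intro x hx
    exact semi_hom H.hW (H.memP P) (H.lamP P).2 (H.lamP P).1 hS hT hH hx

end host

end PTG

end Pool.Agent.Lib.MP_361a6f_ag.FL
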