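import Pool.Agent.Lib.MP_361a6f_ag.FL.PT.Diag

/-!
# Codimension two: reduction to tensors supported on two words

In an adapted basis of eigenvectors of Frobenius the real span of the algebraic tensors is stable
under the projections to the pairs of words `w`, `τ ∘ w`, so that the form `ψ` is positive
semidefinite if this is true for the tensors supported on such pairs.
-/

set_option autoImplicit false
set_option linter.unusedSectionVars false

open Matrix

namespace Pool.Agent.Lib.MP_361a6f_ag.FL.PT

open Pool.Agent.Lib.MP_361a6f_ag.FL.E Pool.Agent.Lib.MP_361a6f_ag.FL.E.QS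

variable {I Λ : Type} [Fintype I] [DecidableEq I] [DecidableEq Λ] {D : Dat I Λ}
  {Bt : (L : ℕ) → Ten I L → Prop}

/-- real combinations of endomorphisms in one slot -/
theorem sl_real (S : ASys D Bt) (hodd : ∀ i, D.odd (D.typ i)) (htyp : ∀ i j, D.typ i = D.typ j)
    {v : Ten I 2} (hv : v ∈ Submodule.span ℝ {u | Bt 2 u}) {L : ℕ} (r : Fin L) {u : Ten I L}
    (hu : u ∈ Submodule.span ℝ {u | Bt L u}) :
    Slot.sl (opM D v) r u ∈ Submodule.span ℝ {u | Bt L u} := by
  have h0 : ∀ M : Matrix I I ℂ, Slot.sl M r (0 : Ten I L) = 0 := by
    intro M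
    have h := Slot.sl_smul M r (0 : ℂ) (0 : Ten I L)
    rwa [zero_smul, zero_smul] at h
  induction hv using Submodule.span_induction with
  | mem v hv =>
    induction hu using Submodule.span_induction with
    | mem u hu => exact Submodule.subset_span (Slot.sl_mem S htyp hodd hv r hu)
    | zero => rw [h0]; exact zero_mem _
    | add a b _ _ ha hb => rw [Slot.sl_add]; exact add_mem ha hb
    | smul c a _ ha =>
      have h : (c • a : Ten I L) = (c : ℂ) • a := (Complex.coe_smul c a).symm
      rw [h, Slot.sl_smul, Complex.coe_smul]
      exact Submodule.smul_mem _ _ ha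
  | zero =>
    have h : Slot.sl (opM D (0 : Ten I 2)) r u = 0 := by
      have h1 := Slot.smul_sl (0 : ℂ) (0 : Matrix I I ℂ) r u
      rw [zero_smul, zero_smul] at h1
      rw [opM_zero, h1]
    rw [h]
    exact zero_mem _
  | add a b _ _ ha hb => rw [opM_add, Slot.add_sl]; exact add_mem ha hb
  | smul c a _ ha =>
    have h : (c • a : Ten I 2) = (c : ℂ) • a := (Complex.coe_smul c a).symm
    rw [h, opM_smul, Slot.smul_sl, Complex.coe_smul]
    exact Submodule.smul_mem _ _ ha

/-- a diagonal matrix in one slot -/
theorem sl_diag (z : I → ℂ) {L : ℕ} (r : Fin L) (u : Ten I L) :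
    Slot.sl (Matrix.diagonal z) r u = fun w => z (w r) * u w := by
  funext w
  rw [Slot.sl, Finset.sum_eq_single (w r)]
  · rw [Matrix.diagonal_apply_eq, Function.update_eq_self]
  · intro j _ hj
    rw [Matrix.diagonal_apply_ne _ (Ne.symm hj), zero_mul]
  · intro h
    exact absurd (Finset.mem_univ _) h

/-- the functions whose product with the members of a space is in the space -/
def Mulf {L : ℕ} (U : Submodule ℝ (Ten I L)) : Set (Ten I L) := {f | ∀ u ∈ U, f * u ∈ U}

section mulf

variable {L : ℕ} {U : Submodule ℝ (Ten I L)} {f g : Ten I L}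

theorem mulf_one : (1 : Ten I L) ∈ Mulf U := fun u hu => by rwa [one_mul]

theorem mulf_mul (hf : f ∈ Mulf U) (hg : g ∈ Mulf U) : f * g ∈ Mulf U := fun u hu => by
  rw [mul_assoc]
  exact hf _ (hg u hu)

theorem mulf_add (hf : f ∈ Mulf U) (hg : g ∈ Mulf U) : f + g ∈ Mulf U := fun u hu => by
  rw [add_mul]
  exact add_mem (hf u hu) (hg u hu)

theorem mulf_smul (c : ℝ) (hf : f ∈ Mulf U) : c • f ∈ Mulf U := fun u hu => by
  rw [smul_mul_assoc]
  exact U.smul_mem c (hf u hu)

theorem mulf_prod {ι : Type} (s : Finset ι) (F : ι → Ten I L) (hF : ∀ i ∈ s, F i ∈ Mulf U) :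
    ∏ i ∈ s, F i ∈ Mulf U := by
  classical
  induction s using Finset.induction_on with
  | empty => rw [Finset.prod_empty]; exact mulf_one
  | insert a s ha ih =>
    rw [Finset.prod_insert ha]
    exact mulf_mul (hF a (Finset.mem_insert_self a s))
      (ih fun i hi => hF i (Finset.mem_insert_of_mem hi))

end mulf

/-- the data of this row -/
structure PSys (D : Dat I Λ) (Bt : (L : ℕ) → Ten I L → Prop) : Prop where
  sys : ASys D Bt
  odd : ∀ i, D.odd (D.typ i)
  typ : ∀ i j, D.typ i = D.typ j
  diag : ∀ z : I → ℂ, (∀ i, z (D.τ i) = (starRingEnd ℂ) (z i)) →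
    mten D (Matrix.diagonal z) ∈ Submodule.span ℝ {u | Bt 2 u}

theorem mulf_coord (S : PSys D Bt) {z : I → ℂ} (hz : ∀ i, z (D.τ i) = (starRingEnd ℂ) (z i))
    {L : ℕ} (r : Fin L) :
    (fun w => z (w r) : Ten I L) ∈ Mulf (Submodule.span ℝ {u : Ten I L | Bt L u}) := by
  intro u hu
  have h := sl_real S.sys S.odd S.typ (S.diag z hz) r hu
  rw [opM_mten, sl_diag] at h
  exact h

theorem tau_ne (hodd : ∀ i, D.odd (D.typ i)) (i : I) : D.τ i ≠ i := by
  intro h
  have h1 := (D.odd_τ i (hodd i)).2
  rw [h] at h1
  rcases D.s_val i with h2 | h2 <;> rw [h2] at h1 <;> norm_num at h1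

/-- the projection to the words `w` and `τ ∘ w` -/
noncomputable def pwd (D : Dat I Λ) {L : ℕ} (w : Fin L → I) (u : Ten I L) : Ten I L :=
  fun w' => if w' = w ∨ w' = D.τ ∘ w then u w' else 0

/-- **The projections to the pairs of words.** -/
theorem pwd_mem (S : PSys D Bt) {L : ℕ} (w : Fin (L + 1) → I) {u : Ten I (L + 1)}
    (hu : u ∈ Submodule.span ℝ {u | Bt (L + 1) u}) :
    pwd D w u ∈ Submodule.span ℝ {u | Bt (L + 1) u} := by
  classical
  -- the two kinds of functions on the letters
  let a : Fin (L + 1) → I → ℂ := fun r i => if i = w r ∨ i = D.τ (w r) then 1 else 0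
  let g : Fin (L + 1) → I → ℂ := fun r i =>
    if i = w r then Complex.I else if i = D.τ (w r) then -Complex.I else 0
  have ha : ∀ r i, a r (D.τ i) = (starRingEnd ℂ) (a r i) := by
    intro r i
    have h1 : (D.τ i = w r ∨ D.τ i = D.τ (w r)) ↔ (i = w r ∨ i = D.τ (w r)) := by
      constructor
      · rintro (h | h)
        · right; rw [← h, D.τ_τ]
        · left
          have := congrArg D.τ h
          rwa [D.τ_τ, D.τ_τ] at this
      · rintro (h | h)
        · right; rw [h]
        · left; rw [h, D.τ_τ]
    show (if D.τ i = w r ∨ D.τ i = D.τ (w r) then (1 : ℂ) else 0)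
      = (starRingEnd ℂ) (if i = w r ∨ i = D.τ (w r) then 1 else 0)
    rw [if_congr h1 rfl rfl]
    split_ifs <;> simp
  have hg : ∀ r i, g r (D.τ i) = (starRingEnd ℂ) (g r i) := by
    intro r i
    show (if D.τ i = w r then Complex.I else if D.τ i = D.τ (w r) then -Complex.I else 0)
      = (starRingEnd ℂ) (if i = w r then Complex.I else if i = D.τ (w r) then -Complex.I else 0)
    by_cases h1 : i = w r
    · rw [if_pos h1, h1, if_neg (tau_ne S.odd _), if_pos rfl, Complex.conj_I]
    · have h1' : ¬ D.τ i = D.τ (w r) := by
        intro h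
        apply h1
        have := congrArg D.τ h
        rwa [D.τ_τ, D.τ_τ] at this
      rw [if_neg h1, if_neg h1']
      by_cases h2 : i = D.τ (w r)
      · rw [if_pos h2, h2, D.τ_τ, if_pos rfl, map_neg, Complex.conj_I, neg_neg]
      · have h2' : ¬ D.τ i = w r := by
          intro h
          apply h2
          rw [← h, D.τ_τ]
        rw [if_neg h2, if_neg h2', map_zero]
  let U := Submodule.span ℝ {u : Ten I (L + 1) | Bt (L + 1) u}
  have hA : ∀ r, (fun w' => a r (w' r) : Ten I (L + 1)) ∈ Mulf U := fun r => mulf_coord S (ha r) r
  have hG : ∀ r, (fun w' => g r (w' r) : Ten I (L + 1)) ∈ Mulf U := fun r => mulf_coord S (hg r) r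
  -- the indicator function
  let f : Ten I (L + 1) := (∏ r, (fun w' => a r (w' r) : Ten I (L + 1))) *
    ∏ r : Fin L, ((2⁻¹ : ℝ) • ((1 : Ten I (L + 1)) + (-1 : ℝ) •
      ((fun w' => g 0 (w' 0) : Ten I (L + 1)) * (fun w' => g r.succ (w' r.succ)))))
  have hf : f ∈ Mulf U := by
    refine mulf_mul (mulf_prod _ _ fun r _ => hA r) (mulf_prod _ _ fun r _ => ?_)
    exact mulf_smul _ (mulf_add mulf_one (mulf_smul _ (mulf_mul (hG 0) (hG r.succ))))
  have hfu : f * u = pwd D w u := by
    funext w'
    rw [Pi.mul_apply]
    have hfw : f w' = (∏ r, a r (w' r)) * ∏ r : Fin L,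
        ((2⁻¹ : ℝ) • ((1 : ℂ) + (-1 : ℝ) • (g 0 (w' 0) * g r.succ (w' r.succ)))) := by
      show ((∏ r, (fun w' => a r (w' r) : Ten I (L + 1))) *
        ∏ r : Fin L, ((2⁻¹ : ℝ) • ((1 : Ten I (L + 1)) + (-1 : ℝ) •
      ((fun w' => g 0 (w' 0) : Ten I (L + 1)) * (fun w' => g r.succ (w' r.succ)))))) w' = _
      rw [Pi.mul_apply, Finset.prod_apply, Finset.prod_apply]
      rfl
    show f w' * u w' = if w' = w ∨ w' = D.τ ∘ w then u w' else 0
    by_cases h : w' = w ∨ w' = D.τ ∘ w
    · rw [if_pos h]
      have h1 : f w' = 1 := by
        rw [hfw]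
        have e1 : ∀ r, a r (w' r) = 1 := by
          intro r
          show (if w' r = w r ∨ w' r = D.τ (w r) then (1 : ℂ) else 0) = 1
          rw [if_pos]
          rcases h with h | h
          · left; rw [h]
          · right; rw [h]; rfl
        have e2 : ∀ r, g 0 (w' 0) * g r (w' r) = -1 := by
          intro r
          rcases h with h | h
          · have e3 : ∀ r, g r (w' r) = Complex.I := by
              intro r
              show (if w' r = w r then Complex.I else _) = _
              rw [h, if_pos rfl]
            rw [e3, e3, Complex.I_mul_I]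
          · have e3 : ∀ r, g r (w' r) = -Complex.I := by
              intro r
              show (if w' r = w r then Complex.I else
                if w' r = D.τ (w r) then -Complex.I else 0) = _
              rw [h]
              show (if D.τ (w r) = w r then Complex.I else
                if D.τ (w r) = D.τ (w r) then -Complex.I else 0) = _
              rw [if_neg (tau_ne S.odd _), if_pos rfl]
            rw [e3, e3, neg_mul_neg, Complex.I_mul_I]
        rw [Finset.prod_congr rfl fun r _ => e1 r, Finset.prod_const_one, one_mul]
        refine Finset.prod_eq_one fun r _ => ?_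
        rw [e2]
        norm_num
      rw [h1, one_mul]
    · rw [if_neg h]
      have h1 : f w' = 0 := by
        rw [hfw]
        by_cases h2 : ∀ r, w' r = w r ∨ w' r = D.τ (w r)
        · -- the signs are not constant
          have h3 : ∃ r, g 0 (w' 0) * g r (w' r) = 1 := by
            by_contra hc
            push Not at hc
            have e : ∀ r, g r (w' r) = Complex.I ∨ g r (w' r) = -Complex.I := by
              intro r
              rcases h2 r with h4 | h4
              · left
                show (if w' r = w r then Complex.I else _) = _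
                rw [if_pos h4]
              · right
                show (if w' r = w r then Complex.I else
                  if w' r = D.τ (w r) then -Complex.I else 0) = _
                rw [h4, if_neg (tau_ne S.odd _), if_pos rfl]
            have hI : Complex.I ≠ -Complex.I := by
              intro h5
              have := congrArg Complex.im h5
              norm_num at this
            have e1 : ∀ r, g r (w' r) = Complex.I → w' r = w r := by
              intro r h5
              rcases h2 r with h4 | h4
              · exact h4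
              · exfalso
                have h6 : g r (w' r) = -Complex.I := by
                  show (if w' r = w r then Complex.I else
                    if w' r = D.τ (w r) then -Complex.I else 0) = _
                  rw [h4, if_neg (tau_ne S.odd _), if_pos rfl]
                exact hI (h5.symm.trans h6)
            have e2 : ∀ r, g r (w' r) = -Complex.I → w' r = D.τ (w r) := by
              intro r h5
              rcases h2 r with h4 | h4
              · exfalso
                have h6 : g r (w' r) = Complex.I := by
                  show (if w' r = w r then Complex.I else _) = _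
                  rw [if_pos h4]
                exact hI (h6.symm.trans h5)
              · exact h4
            apply h
            rcases e 0 with h5 | h5
            · left
              funext r
              apply e1
              rcases e r with h6 | h6
              · exact h6
              · exfalso
                apply hc r
                rw [h5, h6, mul_neg, Complex.I_mul_I, neg_neg]
            · right
              funext r
              apply e2
              rcases e r with h6 | h6
              · exfalso
                apply hc r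
                rw [h5, h6, neg_mul, Complex.I_mul_I, neg_neg]
              · exact h6
          obtain ⟨r, hr⟩ := h3
          have hr0 : r ≠ 0 := by
            rintro rfl
            rcases h2 0 with h4 | h4
            · have h6 : g 0 (w' 0) = Complex.I := by
                show (if w' 0 = w 0 then Complex.I else _) = _
                rw [if_pos h4]
              rw [h6, Complex.I_mul_I] at hr
              norm_num at hr
            · have h6 : g 0 (w' 0) = -Complex.I := by
                show (if w' 0 = w 0 then Complex.I else
                  if w' 0 = D.τ (w 0) then -Complex.I else 0) = _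
                rw [h4, if_neg (tau_ne S.odd _), if_pos rfl]
              rw [h6, neg_mul_neg, Complex.I_mul_I] at hr
              norm_num at hr
          obtain ⟨r', rfl⟩ := Fin.exists_succ_eq.2 hr0
          have h7 : ∏ r : Fin L, ((2⁻¹ : ℝ) • ((1 : ℂ) + (-1 : ℝ) •
              (g 0 (w' 0) * g r.succ (w' r.succ)))) = 0 := by
            refine Finset.prod_eq_zero (Finset.mem_univ r') ?_
            rw [hr]
            norm_num
          rw [h7, mul_zero]
        · push Not at h2
          obtain ⟨r, hr1, hr2⟩ := h2
          have h3 : ∏ r, a r (w' r) = 0 := by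
            refine Finset.prod_eq_zero (Finset.mem_univ r) ?_
            show (if w' r = w r ∨ w' r = D.τ (w r) then (1 : ℂ) else 0) = 0
            rw [if_neg]
            rintro (h4 | h4)
            · exact hr1 h4
            · exact hr2 h4
          rw [h3, zero_mul]
      rw [h1, zero_mul]
  rw [← hfu]
  exact hf u hu

/-- **Positivity from the pairs of words.** -/
theorem psd_of_words (S : PSys D Bt) {L : ℕ}
    (hw : ∀ (w : Fin (L + 1) → I) (t : Ten I (L + 1)),
      t ∈ Submodule.span ℝ {u | Bt (L + 1) u} → (∀ w', w' ≠ w → w' ≠ D.τ ∘ w → t w' = 0) →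
      ∃ r : ℝ, 0 ≤ r ∧ sg D w * (t w * t (D.τ ∘ w)) = (r : ℂ))
    {u : Ten I (L + 1)} (hu : u ∈ Submodule.span ℝ {u | Bt (L + 1) u}) :
    ∃ r : ℝ, 0 ≤ r ∧ psiT D u u = (r : ℂ) := by
  have h : ∀ w : Fin (L + 1) → I, ∃ r : ℝ, 0 ≤ r ∧
      sg D w * (u w * u (D.τ ∘ w)) = (r : ℂ) := by
    intro w
    obtain ⟨r, hr, h1⟩ := hw w (pwd D w u) (pwd_mem S w hu) fun w' h1 h2 => by
      show (if w' = w ∨ w' = D.τ ∘ w then u w' else 0) = 0
      rw [if_neg]
      rintro (h3 | h3)
      · exact h1 h3
      · exact h2 h3
    refine ⟨r, hr, ?_⟩
    rw [← h1]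
    have e1 : pwd D w u w = u w := if_pos (Or.inl rfl)
    have e2 : pwd D w u (D.τ ∘ w) = u (D.τ ∘ w) := if_pos (Or.inr rfl)
    rw [e1, e2]
  choose r hr h1 using h
  refine ⟨∑ w, r w, Finset.sum_nonneg fun w _ => hr w, ?_⟩
  rw [psiT, Finset.sum_congr rfl fun w _ => h1 w]
  push_cast
  rfl

end Pool.Agent.Lib.MP_361a6f_ag.FL.PT
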